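import Mathlib

/-!
# Lattice Yang–Mills theory on `ℤ² × (ℤ/l)²` with a twist: definitions
-/

open MeasureTheory Matrix

namespace Pool.Agent.N984.TW

noncomputable section

/-- The group `SU(N)`. -/
def SU (N : ℕ) : Subgroup (Matrix.unitaryGroup (Fin N) ℂ) where
  carrier := {U | (U : Matrix (Fin N) (Fin N) ℂ).det = 1}
  mul_mem' := by
    intro a b (ha : (a : Matrix (Fin N) (Fin N) ℂ).det = 1)
      (hb : (b : Matrix (Fin N) (Fin N) ℂ).det = 1)
    have h : ((a * b : Matrix.unitaryGroup (Fin N) ℂ) : Matrix (Fin N) (Fin N) ℂ).det =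
        (a : Matrix (Fin N) (Fin N) ℂ).det * (b : Matrix (Fin N) (Fin N) ℂ).det :=
      Matrix.det_mul _ _
    show ((a * b : Matrix.unitaryGroup (Fin N) ℂ) : Matrix (Fin N) (Fin N) ℂ).det = 1
    rw [h, ha, hb, mul_one]
  one_mem' := Matrix.det_one
  inv_mem' := by
    intro a (ha : (a : Matrix (Fin N) (Fin N) ℂ).det = 1)
    have h : ((a⁻¹ * a : Matrix.unitaryGroup (Fin N) ℂ) : Matrix (Fin N) (Fin N) ℂ).det =
        ((a⁻¹ : Matrix.unitaryGroup (Fin N) ℂ) : Matrix (Fin N) (Fin N) ℂ).det *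
          (a : Matrix (Fin N) (Fin N) ℂ).det := Matrix.det_mul _ _
    rw [inv_mul_cancel, ha, mul_one] at h
    exact h.symm.trans Matrix.det_one

/-- The plane `ℤ²`. -/
abbrev Pl := ℤ × ℤ

/-- The torus `(ℤ/l)²`. -/
abbrev Tor (l : ℕ) := ZMod l × ZMod l

/-- The link variables at a site `X` of the plane: `u (y, i)` belongs to the link which starts at
`(X, y)` and has direction `i`; the directions `0, 1` are in the plane, `2, 3` in the torus. -/
abbrev Fib (N l : ℕ) := Tor l × Fin 4 → SU N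

/-- The plane component of the unit vector in direction `i`. -/
def eP : Fin 4 → Pl := ![(1, 0), (0, 1), 0, 0]

/-- The torus component of the unit vector in direction `i`. -/
def eT (l : ℕ) : Fin 4 → Tor l := ![0, 0, (1, 0), (0, 1)]

variable {N l : ℕ}

/-- The plaquette variable at `(X, y)` in the directions `i, j`. -/
def plaq (U : Pl → Fib N l) (X : Pl) (y : Tor l) (i j : Fin 4) : SU N :=
  U X (y, i) * U (X + eP i) (y + eT l i, j) * (U (X + eP j) (y + eT l j, i))⁻¹ * (U X (y, j))⁻¹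

/-- The twist: `z` on the plaquettes of the torus directions at the torus site `(-1,-1)`. -/
def tw (z : ℂ) (y : Tor l) (i j : Fin 4) : ℂ := if i = 2 ∧ j = 3 ∧ y = (-1, -1) then z else 1

/-- The (twisted) Wilson energy of a plaquette, `N - Re (conj(twist) * tr U_p)`. -/
def pe (z : ℂ) (U : Pl → Fib N l) (X : Pl) (y : Tor l) (i j : Fin 4) : ℝ :=
  N - (star (tw z y i j) * trace
    ((plaq U X y i j : Matrix.unitaryGroup (Fin N) ℂ) : Matrix (Fin N) (Fin N) ℂ)).re

/-- The action of the plaquettes over `Λ`. -/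
def action [NeZero l] (z : ℂ) (Λ : Finset Pl) (U : Pl → Fib N l) : ℝ :=
  ∑ X ∈ Λ, ∑ y : Tor l, ∑ i : Fin 4, ∑ j : Fin 4,
    if i < j ∧ X + eP i ∈ Λ ∧ X + eP j ∈ Λ ∧ X + eP i + eP j ∈ Λ then pe z U X y i j else 0

/-- The gauge transformation. -/
def gt (h : Pl → Tor l → SU N) (U : Pl → Fib N l) : Pl → Fib N l := fun X p =>
  h X p.1 * U X p * (h (X + eP p.2) (p.1 + eT l p.2))⁻¹

/-- Gauge invariant observables. -/
def GaugeInv {α : Type*} (F : (Pl → Fib N l) → α) : Prop := ∀ h U, F (gt h U) = F U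

/-- `F` depends on the links over `D`. -/
def DepOn {α : Type*} (F : (Pl → Fib N l) → α) (D : Finset Pl) : Prop :=
  ∀ U U' : Pl → Fib N l, (∀ X p, X ∈ D → X + eP p.2 ∈ D → U X p = U' X p) → F U = F U'

/-- Configurations over `Λ`, extended by `1`. -/
def ext (Λ : Finset Pl) (u : Λ → Fib N l) : Pl → Fib N l := fun X =>
  if h : X ∈ Λ then u ⟨X, h⟩ else 1

/-- The product of the Haar measures of the links at the sites over `Λ`. -/
def muL [NeZero l] [MeasurableSpace (SU N)] (μ : Measure (SU N)) (Λ : Finset Pl) :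
    Measure (Λ → Fib N l) :=
  Measure.pi fun _ => Measure.pi fun _ => μ

/-- The expectation in the region over `Λ`, with free boundary conditions. -/
def expect [NeZero l] [MeasurableSpace (SU N)] (μ : Measure (SU N)) (z : ℂ) (β : ℝ)
    (Λ : Finset Pl) (F : (Pl → Fib N l) → ℝ) : ℝ :=
  (∫ u, F (ext Λ u) * Real.exp (-(β * action z Λ (ext Λ u))) ∂(muL μ Λ)) /
    ∫ u : Λ → Fib N l, Real.exp (-(β * action z Λ (ext Λ u))) ∂(muL μ Λ)

/-- The distance in the plane. -/
def dP (X Y : Pl) : ℕ := max (X.1 - Y.1).natAbs (X.2 - Y.2).natAbs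

/-- A gauge invariant observable of the links over the rectangle `[a,b]`, bounded by one. -/
structure Obs (F : (Pl → Fib N l) → ℝ) [MeasurableSpace (SU N)] (a b : Pl) : Prop where
  meas : Measurable F
  bdd : ∀ U, |F U| ≤ 1
  inv : GaugeInv F
  dep : DepOn F (Finset.Icc a b)

/-- Translation. -/
def shift (v : Pl) (U : Pl → Fib N l) : Pl → Fib N l := fun X => U (X + v)

/-- Reflection in the hyperplane `x₀ = 0`. -/
def refl (U : Pl → Fib N l) : Pl → Fib N l := fun X p =>
  if p.2 = 0 then (U (-X.1 - 1, X.2) p)⁻¹ else U (-X.1, X.2) p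

end

end Pool.Agent.N984.TW
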