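import Mathlib
import Pool.Agent.TH618.YM.Cartan

/-!
# The exponential chart of a closed subgroup of the unitary group
-/

open MeasureTheory Matrix Filter
open scoped Matrix.Norms.Frobenius ContDiff Topology
open Pool.Agent.H906R3.YM Pool.Agent.W793.YM Pool.Agent.TH618.YM

namespace Pool.Agent.N984.TW

set_option linter.unusedSectionVars false

noncomputable section

variable {N n : ℕ} {G : Subgroup (UN N)} (B : Frame G n) (hG : IsClosed (G : Set (UN N)))

/-- coordinates to Lie algebra elements -/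
def LX (x : Fin n → ℝ) : Mat N := ∑ a, x a • B.X a

/-- the matrix of the exponential -/
def EM (x : Fin n → ℝ) : Mat N := NormedSpace.exp (LX B x)

/-- the coordinates of the projection to the Lie algebra -/
def pc (A : Mat N) : Fin n → ℝ := fun a => ip (B.X a) A

lemma LX_contDiff : ContDiff ℝ ∞ (LX B) := by
  unfold LX
  refine ContDiff.sum fun a _ => ?_
  exact (contDiff_apply ℝ ℝ a).smul contDiff_const

lemma exp_contDiff : ContDiff ℝ ∞ (NormedSpace.exp : Mat N → Mat N) := by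
  rw [contDiff_iff_contDiffAt]
  intro x
  exact (NormedSpace.exp_analytic (𝕂 := ℝ) x).contDiffAt

lemma EM_contDiff : ContDiff ℝ ∞ (EM B) := exp_contDiff.comp (LX_contDiff B)

lemma LX_zero : LX B 0 = 0 := by simp [LX]

lemma LX_neg (x : Fin n → ℝ) : LX B (-x) = -LX B x := by
  simp [LX, Finset.sum_neg_distrib]

lemma LX_smul (c : ℝ) (x : Fin n → ℝ) : LX B (c • x) = c • LX B x := by
  simp [LX, Finset.smul_sum, smul_smul]

lemma LX_add (x y : Fin n → ℝ) : LX B (x + y) = LX B x + LX B y := by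
  simp [LX, add_smul, Finset.sum_add_distrib]

lemma EM_zero : EM B 0 = 1 := by rw [EM, LX_zero, NormedSpace.exp_zero]

lemma EM_neg_mul (x : Fin n → ℝ) : EM B (-x) * EM B x = 1 := by
  unfold EM
  rw [LX_neg, ← Matrix.exp_add_of_commute _ _ ((Commute.refl (LX B x)).neg_left), neg_add_cancel,
    NormedSpace.exp_zero]

lemma pc_contDiff : ContDiff ℝ ∞ (pc B) := by
  unfold pc
  rw [contDiff_pi]
  exact fun a => (ip (B.X a)).contDiff

lemma pc_add (A A' : Mat N) : pc B (A + A') = pc B A + pc B A' := by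
  funext a; simp [pc]

lemma pc_sub (A A' : Mat N) : pc B (A - A') = pc B A - pc B A' := by
  funext a; simp [pc]

lemma pc_LX (x : Fin n → ℝ) : pc B (LX B x) = x := by
  funext a
  unfold pc LX
  rw [map_sum]
  simp only [map_smul, smul_eq_mul]
  have h : ∀ b, ip (B.X a) (B.X b) = if a = b then 1 else 0 := fun b => B.orth a b
  simp [h]

include hG in
/-- the matrix of the exponential belongs to the group -/
lemma EM_mem (x : Fin n → ℝ) : ∃ g : G, mt g = EM B x := by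
  have h : LX B x ∈ lieS hG := by
    unfold LX
    refine Submodule.sum_mem _ fun a _ => Submodule.smul_mem _ _ ?_
    intro t
    exact ⟨B.ex a t, B.ex_eq a t⟩
  obtain ⟨g, hg⟩ := h 1
  exact ⟨g, by rw [hg, one_smul]; rfl⟩

/-- the exponential map in coordinates -/
def Eg (x : Fin n → ℝ) : G := (EM_mem B hG x).choose

lemma mt_Eg (x : Fin n → ℝ) : mt (Eg B hG x) = EM B x := (EM_mem B hG x).choose_spec

lemma mt_inj {g h : G} (e : mt g = mt h) : g = h := Subtype.ext (Subtype.ext e)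

lemma Eg_zero : Eg B hG 0 = 1 := mt_inj (by rw [mt_Eg, EM_zero, mt_one])

lemma Eg_neg_mul (x : Fin n → ℝ) : Eg B hG (-x) * Eg B hG x = 1 :=
  mt_inj (by rw [mt_mul, mt_Eg, mt_Eg, EM_neg_mul, mt_one])

lemma Eg_neg (x : Fin n → ℝ) : Eg B hG (-x) = (Eg B hG x)⁻¹ :=
  eq_inv_of_mul_eq_one_left (Eg_neg_mul B hG x)

lemma Eg_cont : Continuous (Eg B hG) := by
  refine continuous_induced_rng.2 (continuous_induced_rng.2 ?_)
  have : (Subtype.val ∘ Subtype.val ∘ Eg B hG : (Fin n → ℝ) → Mat N) = EM B := by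
    funext x; exact mt_Eg B hG x
  rw [this]
  exact (EM_contDiff B).continuous

/-- the exponential in the linear coordinates of the matrix -/
def Qf (x : Fin n → ℝ) : Fin n → ℝ := pc B (EM B x - 1)

lemma Qf_contDiff : ContDiff ℝ ∞ (Qf B) :=
  (pc_contDiff B).comp ((EM_contDiff B).sub contDiff_const)

lemma Qf_zero : Qf B 0 = 0 := by
  unfold Qf; rw [EM_zero, sub_self]; funext a; simp [pc]

/-- `LX` as a continuous linear map -/
def LXl : (Fin n → ℝ) →L[ℝ] Mat N :=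
  LinearMap.toContinuousLinearMap
    { toFun := LX B
      map_add' := LX_add B
      map_smul' := fun c x => LX_smul B c x }

/-- `pc` as a continuous linear map -/
def pcl : Mat N →L[ℝ] (Fin n → ℝ) := ContinuousLinearMap.pi fun a => ip (B.X a)

lemma hasFDerivAt_EM : HasFDerivAt (EM B) (LXl B) 0 := by
  have h1 : HasFDerivAt (NormedSpace.exp : Mat N → Mat N) (1 : Mat N →L[ℝ] Mat N) (LXl B 0) := by
    rw [map_zero]
    exact hasFDerivAt_exp_zero
  have h2 := h1.comp (0 : Fin n → ℝ) (LXl B).hasFDerivAt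
  exact h2

lemma hasFDerivAt_Qf : HasFDerivAt (Qf B) (ContinuousLinearMap.id ℝ (Fin n → ℝ)) 0 := by
  have h1 := (pcl B).hasFDerivAt.comp (0 : Fin n → ℝ) ((hasFDerivAt_EM B).sub_const 1)
  have h2 : (pcl B).comp (LXl B) = ContinuousLinearMap.id ℝ (Fin n → ℝ) := by
    ext x a
    show pc B (LX B _) a = _
    rw [pc_LX]; rfl
  have h3 : HasFDerivAt (Qf B) ((pcl B).comp (LXl B)) 0 := h1
  rwa [h2] at h3

/-- the local inverse of `Qf` -/
def kap : (Fin n → ℝ) → (Fin n → ℝ) :=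
  (Qf_contDiff B).contDiffAt.localInverse (a := 0) (f' := ContinuousLinearEquiv.refl ℝ (Fin n → ℝ))
    (hasFDerivAt_Qf B) (by simp)

lemma kap_contDiffAt : ContDiffAt ℝ ∞ (kap B) 0 := by
  have h := (Qf_contDiff B).contDiffAt.to_localInverse (a := 0)
    (f' := ContinuousLinearEquiv.refl ℝ (Fin n → ℝ)) (hasFDerivAt_Qf B) (by simp)
  rw [Qf_zero] at h
  exact h

lemma kap_left : ∀ᶠ x in 𝓝 (0 : Fin n → ℝ), kap B (Qf B x) = x := by
  have h := ((Qf_contDiff B).contDiffAt.hasStrictFDerivAt' (x := 0)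
    (f' := (ContinuousLinearEquiv.refl ℝ (Fin n → ℝ) : (Fin n → ℝ) →L[ℝ] (Fin n → ℝ)))
    (hasFDerivAt_Qf B) (by simp)).eventually_left_inverse
  exact h

lemma kap_right : ∀ᶠ x in 𝓝 (0 : Fin n → ℝ), Qf B (kap B x) = x := by
  have h := ((Qf_contDiff B).contDiffAt.hasStrictFDerivAt' (x := 0)
    (f' := (ContinuousLinearEquiv.refl ℝ (Fin n → ℝ) : (Fin n → ℝ) →L[ℝ] (Fin n → ℝ)))
    (hasFDerivAt_Qf B) (by simp)).eventually_right_inverse
  rw [Qf_zero] at h
  exact h

lemma kap_zero : kap B 0 = 0 := by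
  have h := (kap_left B).self_of_nhds
  rwa [Qf_zero] at h

/-- the logarithm in coordinates, on matrices -/
def lgM (A : Mat N) : Fin n → ℝ := kap B (pc B (A - 1))

lemma lgM_one : lgM B 1 = 0 := by
  unfold lgM; rw [sub_self]
  have : pc B (0 : Mat N) = 0 := by funext a; simp [pc]
  rw [this, kap_zero]

lemma lgM_contDiffAt : ContDiffAt ℝ ∞ (lgM B) 1 := by
  unfold lgM
  have h1 : ContDiffAt ℝ ∞ (fun A : Mat N => pc B (A - 1)) 1 :=
    ((pc_contDiff B).comp (contDiff_id.sub contDiff_const)).contDiffAt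
  refine ContDiffAt.comp (1 : Mat N) ?_ h1
  have : pc B ((1 : Mat N) - 1) = 0 := by rw [sub_self]; funext a; simp [pc]
  rw [this]
  exact kap_contDiffAt B

lemma lgM_EM : ∀ᶠ x in 𝓝 (0 : Fin n → ℝ), lgM B (EM B x) = x := kap_left B

/-- the logarithm in coordinates -/
def lg (g : G) : Fin n → ℝ := lgM B (mt g)

lemma mt_tendsto : Tendsto (mt : G → Mat N) (𝓝 1) (𝓝 1) := by
  have := (mt_cont (G := G)).tendsto 1
  rwa [mt_one] at this

lemma norm_mul_unit (A : Mat N) (g : G) : ‖A * mt g‖ = ‖A‖ := by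
  have h : ‖A * mt g‖ ^ 2 = ‖A‖ ^ 2 := by
    rw [norm_sq_ip, norm_sq_ip, ip_apply, ip_apply, conjTranspose_mul]
    have h1 : mt g * (mt g)ᴴ = 1 := rhoG_unit g
    rw [trace_mul_comm, mul_assoc, ← mul_assoc (mt g), h1, one_mul, trace_mul_comm]
  have h0 := norm_nonneg (A * mt g)
  have h1 := norm_nonneg A
  nlinarith

/-- near the identity the group is the image of the exponential -/
lemma Eg_lg : ∀ᶠ g in 𝓝 (1 : G), Eg B hG (lg B g) = g := by
  have : CompactSpace G := isCompact_iff_compactSpace.1 hG.isCompact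
  have h00 : SecondCountableTopology (UN N) := TopologicalSpace.Subtype.secondCountableTopology _
  have : SecondCountableTopology G := TopologicalSpace.Subtype.secondCountableTopology _
  let _ : MeasurableSpace G := borel G
  have : BorelSpace G := ⟨rfl⟩
  obtain ⟨C, hC, hcar⟩ := cartan B hG
  have hQ : ∀ᶠ g in 𝓝 (1 : G), Qf B (lg B g) = pc B (mt g - 1) := by
    have h1 : Tendsto (fun g : G => pc B (mt g - 1)) (𝓝 1) (𝓝 0) := by
      have h2 : Tendsto (fun g : G => pc B (mt g - 1)) (𝓝 1) (𝓝 (pc B ((1 : Mat N) - 1))) :=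
        ((pc_contDiff B).continuous.tendsto _).comp (mt_tendsto.sub_const 1)
      have h3 : pc B ((1 : Mat N) - 1) = 0 := by rw [sub_self]; funext a; simp [pc]
      rwa [h3] at h2
    exact h1.eventually (kap_right B)
  have hlg : Tendsto (fun g : G => EM B (-(lg B g))) (𝓝 1) (𝓝 1) := by
    have h1 : Tendsto (fun g : G => lgM B (mt g)) (𝓝 1) (𝓝 0) := by
      have := (lgM_contDiffAt B).continuousAt.tendsto.comp (mt_tendsto (G := G))
      rwa [lgM_one] at this
    have h2 := ((EM_contDiff B).continuous.tendsto (-0)).comp h1.neg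
    rw [neg_zero, EM_zero] at h2
    exact h2
  obtain ⟨K, hK, hKb⟩ : ∃ K : ℝ, 0 < K ∧ ∀ A : Mat N, ∑ a, ip (B.X a) A ^ 2 ≤ K * ‖A‖ ^ 2 := by
    refine ⟨∑ a, ‖B.X a‖ ^ 2 + 1, by positivity, fun A => ?_⟩
    rw [add_mul, Finset.sum_mul]
    have : ∑ a, ip (B.X a) A ^ 2 ≤ ∑ a, ‖B.X a‖ ^ 2 * ‖A‖ ^ 2 := by
      refine Finset.sum_le_sum fun a _ => ?_
      have h1 := abs_ip_le (B.X a) A
      rw [← mul_pow, ← sq_abs (ip (B.X a) A)]
      exact pow_le_pow_left₀ (abs_nonneg _) h1 2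
    nlinarith [sq_nonneg ‖A‖]
  have hs1 : ∀ᶠ g in 𝓝 (1 : G), K * ‖EM B (-(lg B g)) - 1‖ ^ 2 < 1 / 4 := by
    have h1 : Tendsto (fun g : G => K * ‖EM B (-(lg B g)) - 1‖ ^ 2) (𝓝 1) (𝓝 (K * ‖(1 : Mat N) - 1‖ ^ 2)) :=
      ((hlg.sub_const 1).norm.pow 2).const_mul K
    rw [sub_self, norm_zero] at h1
    norm_num at h1
    exact h1.eventually (gt_mem_nhds (by norm_num))
  have hs2 : ∀ᶠ g in 𝓝 (1 : G), C * ‖EM B (-(lg B g)) * mt g - 1‖ ^ 2 < 1 / 4 := by
    have h1 : Tendsto (fun g : G => C * ‖EM B (-(lg B g)) * mt g - 1‖ ^ 2) (𝓝 1)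
        (𝓝 (C * ‖(1 : Mat N) * 1 - 1‖ ^ 2)) :=
      (((hlg.mul (mt_tendsto (G := G))).sub_const 1).norm.pow 2).const_mul C
    rw [mul_one, sub_self, norm_zero] at h1
    norm_num at h1
    exact h1.eventually (gt_mem_nhds (by norm_num))
  filter_upwards [hQ, hs1, hs2] with g h1 h2 h3
  set x := lg B g with hx
  -- the defect
  set h : G := Eg B hG (-x) * g with hh
  have hmt : mt h = EM B (-x) * mt g := by rw [hh, mt_mul, mt_Eg]
  have hD : mt h - 1 = EM B (-x) * (mt g - EM B x) := by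
    rw [hmt, mul_sub, EM_neg_mul]
  have hP : pc B (mt g - EM B x) = 0 := by
    have e1 : mt g - EM B x = (mt g - 1) - (EM B x - 1) := by abel
    rw [e1, pc_sub, ← h1]
    show Qf B x - Qf B x = 0
    exact sub_self _
  have hnorm : ‖mt g - EM B x‖ = ‖mt h - 1‖ := by
    rw [hD, ← mt_Eg B hG (-x), norm_mt_mul]
  have hpc : ∀ a, ip (B.X a) (mt h - 1) = ip (B.X a) ((EM B (-x) - 1) * (mt g - EM B x)) := by
    intro a
    rw [hD, sub_mul, one_mul, map_sub]
    have : ip (B.X a) (mt g - EM B x) = 0 := congrFun hP a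
    rw [this, sub_zero]
  have hc := hcar h
  have hb : ∑ a, ip (B.X a) (mt h - 1) ^ 2 ≤ 1 / 4 * ‖mt h - 1‖ ^ 2 := by
    calc ∑ a, ip (B.X a) (mt h - 1) ^ 2
        = ∑ a, ip (B.X a) ((EM B (-x) - 1) * (mt g - EM B x)) ^ 2 :=
          Finset.sum_congr rfl fun a _ => by rw [hpc]
      _ ≤ K * ‖(EM B (-x) - 1) * (mt g - EM B x)‖ ^ 2 := hKb _
      _ ≤ K * (‖EM B (-x) - 1‖ * ‖mt g - EM B x‖) ^ 2 := by
          gcongr
          exact norm_mul_le _ _
      _ = K * ‖EM B (-x) - 1‖ ^ 2 * ‖mt h - 1‖ ^ 2 := by rw [hnorm]; ring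
      _ ≤ _ := mul_le_mul_of_nonneg_right h2.le (sq_nonneg _)
  have hq : C * ‖mt h - 1‖ ^ 4 ≤ 1 / 4 * ‖mt h - 1‖ ^ 2 := by
    have e : C * ‖mt h - 1‖ ^ 4 = C * ‖mt h - 1‖ ^ 2 * ‖mt h - 1‖ ^ 2 := by ring
    rw [e]
    rw [hmt]
    exact mul_le_mul_of_nonneg_right h3.le (sq_nonneg _)
  have hz : ‖mt h - 1‖ ^ 2 ≤ 0 := by nlinarith
  have hz' : mt h = 1 := by
    have h5 : ‖mt h - 1‖ = 0 := by
      have := sq_nonneg ‖mt h - 1‖
      exact pow_eq_zero_iff (two_ne_zero) |>.1 (le_antisymm hz this)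
    exact sub_eq_zero.1 (norm_eq_zero.1 h5)
  have hh1 : h = 1 := mt_inj (by rw [hz', mt_one])
  rw [hh, Eg_neg] at hh1
  exact (inv_mul_eq_one.1 hh1)

end

end Pool.Agent.N984.TW
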