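import Mathlib
import Pool.Agent.N984.TW.Chart1

/-!
# Gauge orbits of connections on a finite graph: the local slice
-/

open MeasureTheory Matrix Filter
open scoped Matrix.Norms.Frobenius ContDiff Topology
open Pool.Agent.H906R3.YM Pool.Agent.W793.YM Pool.Agent.TH618.YM

namespace Pool.Agent.N984.TW

set_option linter.unusedSectionVars false

noncomputable section

variable {N n : ℕ} {G : Subgroup (UN N)} (B : Frame G n) (hG : IsClosed (G : Set (UN N)))

/-! ### more on the logarithm -/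

lemma hasFDerivAt_kap : HasFDerivAt (kap B) (ContinuousLinearMap.id ℝ (Fin n → ℝ)) 0 := by
  have h := ((Qf_contDiff B).contDiffAt.hasStrictFDerivAt' (x := 0)
    (f' := (ContinuousLinearEquiv.refl ℝ (Fin n → ℝ) : (Fin n → ℝ) →L[ℝ] (Fin n → ℝ)))
    (hasFDerivAt_Qf B) (by simp)).to_localInverse.hasFDerivAt
  rw [Qf_zero] at h
  exact h

lemma hasFDerivAt_lgM : HasFDerivAt (lgM B) (pcl B) 1 := by
  have h1 : HasFDerivAt (fun A : Mat N => pc B (A - 1)) (pcl B) 1 := by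
    have := (pcl B).hasFDerivAt.comp (1 : Mat N) ((hasFDerivAt_id (1 : Mat N)).sub_const 1)
    exact this
  have h0 : pc B ((1 : Mat N) - 1) = 0 := by rw [sub_self]; funext a; simp [pc]
  have h2 : HasFDerivAt (kap B) (ContinuousLinearMap.id ℝ (Fin n → ℝ))
      ((fun A : Mat N => pc B (A - 1)) 1) := by
    show HasFDerivAt (kap B) _ (pc B ((1 : Mat N) - 1))
    rw [h0]; exact hasFDerivAt_kap B
  exact h2.comp (1 : Mat N) h1

lemma lg_tendsto : Tendsto (lg B : G → Fin n → ℝ) (𝓝 1) (𝓝 0) := by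
  have := (lgM_contDiffAt B).continuousAt.tendsto.comp (mt_tendsto (G := G))
  rwa [lgM_one] at this

lemma lg_Eg : ∀ᶠ x in 𝓝 (0 : Fin n → ℝ), lg B (Eg B hG x) = x := by
  filter_upwards [lgM_EM B] with x hx
  unfold lg
  rw [mt_Eg, hx]

/-- conjugation in coordinates -/
def AdM (g : G) (x : Fin n → ℝ) : Fin n → ℝ := pc B (mt g * (LX B x * (mt g)ᴴ))

lemma AdM_add (g : G) (x y : Fin n → ℝ) : AdM B g (x + y) = AdM B g x + AdM B g y := by
  unfold AdM; rw [LX_add, add_mul, mul_add, pc_add]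

lemma pc_smul (c : ℝ) (A : Mat N) : pc B (c • A) = c • pc B A := by
  funext a; simp [pc]

lemma AdM_smul (g : G) (c : ℝ) (x : Fin n → ℝ) : AdM B g (c • x) = c • AdM B g x := by
  unfold AdM; rw [LX_smul, smul_mul_assoc, mul_smul_comm, pc_smul]

/-! ### the graph -/

variable {T E : Type*} [Fintype T] [Fintype E] [DecidableEq T] [DecidableEq E] (s t : E → T)

/-- gauge transformations -/
def act (h : T → G) (φ : E → G) : E → G := fun e => h (s e) * φ e * (h (t e))⁻¹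

lemma act_mul (h k : T → G) (φ : E → G) : act s t (h * k) φ = act s t h (act s t k φ) := by
  funext e; simp [act, mul_assoc]

lemma act_one (φ : E → G) : act s t (1 : T → G) φ = φ := by
  funext e; simp [act]

/-- exponential in the gauge group -/
def exG (x : T → Fin n → ℝ) : T → G := fun y => Eg B hG (x y)

/-- exponential coordinates near the connection `φ₀` -/
def exM (φ₀ : E → G) (v : E → Fin n → ℝ) : E → G := fun e => Eg B hG (v e) * φ₀ e

/-- logarithmic coordinates near `φ₀` -/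
def lgφ (φ₀ : E → G) (φ : E → G) : E → Fin n → ℝ := fun e => lg B (φ e * (φ₀ e)⁻¹)

lemma exG_zero : exG B hG (0 : T → Fin n → ℝ) = 1 := by
  funext y; exact Eg_zero B hG

lemma exM_zero (φ₀ : E → G) : exM B hG φ₀ 0 = φ₀ := by
  funext e
  show Eg B hG 0 * φ₀ e = φ₀ e
  rw [Eg_zero, one_mul]

lemma exG_neg (x : T → Fin n → ℝ) : exG B hG (-x) = (exG B hG x)⁻¹ := by
  funext y; exact Eg_neg B hG _

lemma exG_cont : Continuous (exG B hG : (T → Fin n → ℝ) → T → G) :=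
  continuous_pi fun y => (Eg_cont B hG).comp (continuous_apply y)

lemma exM_cont (φ₀ : E → G) : Continuous (exM B hG φ₀) :=
  continuous_pi fun e => ((Eg_cont B hG).comp (continuous_apply e)).mul continuous_const

/-- the infinitesimal gauge action at `φ₀` -/
def Jl (φ₀ : E → G) : (T → Fin n → ℝ) →ₗ[ℝ] (E → Fin n → ℝ) where
  toFun x := fun e => x (s e) - AdM B (φ₀ e) (x (t e))
  map_add' x y := by
    funext e
    simp only [Pi.add_apply, AdM_add]
    abel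
  map_smul' c x := by
    funext e
    simp only [Pi.smul_apply, AdM_smul, RingHom.id_apply, smul_sub]

/-- the matrices of `exp(-x) · (exp y φ₀) φ₀⁻¹` -/
def FM (φ₀ : E → G) (p : (T → Fin n → ℝ) × (E → Fin n → ℝ)) (e : E) : Mat N :=
  EM B (-p.1 (s e)) * (EM B (p.2 e) * (mt (φ₀ e) * (EM B (p.1 (t e)) * (mt (φ₀ e))ᴴ)))

/-- logarithmic coordinates of `exp(-x) · (exp y φ₀)` -/
def lgc (φ₀ : E → G) (p : (T → Fin n → ℝ) × (E → Fin n → ℝ)) : E → Fin n → ℝ :=
  fun e => lgM B (FM B s t φ₀ p e)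

lemma mt_inv (g : G) : mt g⁻¹ = (mt g)ᴴ := by
  have h1 : mt g⁻¹ * mt g = 1 := by rw [← mt_mul, inv_mul_cancel, mt_one]
  have h2 : mt g * (mt g)ᴴ = 1 := rhoG_unit g
  calc mt g⁻¹ = mt g⁻¹ * (mt g * (mt g)ᴴ) := by rw [h2, mul_one]
    _ = _ := by rw [← mul_assoc, h1, one_mul]

lemma FM_eq (φ₀ : E → G) (p : (T → Fin n → ℝ) × (E → Fin n → ℝ)) (e : E) :
    FM B s t φ₀ p e = mt (act s t (exG B hG (-p.1)) (exM B hG φ₀ p.2) e * (φ₀ e)⁻¹) := by
  unfold FM act exG exM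
  simp only [Pi.neg_apply, mt_mul, mt_inv, mt_Eg]
  have h : (EM B (-p.1 (t e)))ᴴ = EM B (p.1 (t e)) := by
    rw [← mt_Eg B hG, ← mt_inv, ← Eg_neg, neg_neg, mt_Eg]
  rw [h]
  simp only [mul_assoc]

lemma lgc_eq (φ₀ : E → G) (p : (T → Fin n → ℝ) × (E → Fin n → ℝ)) :
    lgc B s t φ₀ p = lgφ B φ₀ (act s t (exG B hG (-p.1)) (exM B hG φ₀ p.2)) := by
  funext e
  unfold lgc lgφ lg
  rw [FM_eq B hG]

lemma FM_contDiff (φ₀ : E → G) (e : E) : ContDiff ℝ ∞ fun p => FM B s t φ₀ p e := by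
  unfold FM
  have h1 : ∀ y : T, ContDiff ℝ ∞ fun p : (T → Fin n → ℝ) × (E → Fin n → ℝ) => p.1 y :=
    fun y => (contDiff_apply ℝ (Fin n → ℝ) y).comp contDiff_fst
  have h2 : ContDiff ℝ ∞ fun p : (T → Fin n → ℝ) × (E → Fin n → ℝ) => p.2 e :=
    (contDiff_apply ℝ (Fin n → ℝ) e).comp contDiff_snd
  exact ((EM_contDiff B).comp (h1 _).neg).mul (((EM_contDiff B).comp h2).mul
    (contDiff_const.mul (((EM_contDiff B).comp (h1 _)).mul contDiff_const)))

lemma FM_zero (φ₀ : E → G) (e : E) : FM B s t φ₀ 0 e = 1 := by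
  unfold FM
  simp only [Prod.fst_zero, Prod.snd_zero, Pi.zero_apply, neg_zero, EM_zero, one_mul]
  exact rhoG_unit _

lemma lgc_zero (φ₀ : E → G) : lgc B s t φ₀ 0 = 0 := by
  funext e
  unfold lgc
  rw [FM_zero, lgM_one]
  rfl

lemma lgc_contDiffAt (φ₀ : E → G) : ContDiffAt ℝ ∞ (lgc B s t φ₀) 0 := by
  rw [contDiffAt_pi]
  intro e
  have h1 : ContDiffAt ℝ ∞ (lgM B) (FM B s t φ₀ 0 e) := by
    rw [FM_zero]; exact lgM_contDiffAt B
  exact h1.comp (0 : (T → Fin n → ℝ) × (E → Fin n → ℝ)) (FM_contDiff B s t φ₀ e).contDiffAt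

/-- the derivative of `lgc` at zero -/
def Dlg (φ₀ : E → G) : ((T → Fin n → ℝ) × (E → Fin n → ℝ)) →L[ℝ] (E → Fin n → ℝ) :=
  LinearMap.toContinuousLinearMap
    ((LinearMap.snd ℝ _ _) - (Jl B s t φ₀).comp (LinearMap.fst ℝ _ _))

lemma Dlg_apply (φ₀ : E → G) (p : (T → Fin n → ℝ) × (E → Fin n → ℝ)) :
    Dlg B s t φ₀ p = p.2 - Jl B s t φ₀ p.1 := rfl

lemma hasDerivAt_EM (z : Fin n → ℝ) : HasDerivAt (fun τ : ℝ => EM B (τ • z)) (LX B z) 0 := by
  have h1 : HasFDerivAt (EM B) (LXl B) ((0 : ℝ) • z) := by rw [zero_smul]; exact hasFDerivAt_EM B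
  have h2 : HasDerivAt (fun τ : ℝ => τ • z) z 0 := by
    simpa using (hasDerivAt_id (0 : ℝ)).smul_const z
  exact h1.comp_hasDerivAt (0 : ℝ) h2

lemma hasDerivAt_FM (φ₀ : E → G) (p : (T → Fin n → ℝ) × (E → Fin n → ℝ)) (e : E) :
    HasDerivAt (fun τ : ℝ => FM B s t φ₀ (τ • p) e)
      (-LX B (p.1 (s e)) + (LX B (p.2 e) + mt (φ₀ e) * (LX B (p.1 (t e)) * (mt (φ₀ e))ᴴ))) 0 := by
  have h1 : HasDerivAt (fun τ : ℝ => EM B (-(τ • p.1 (s e)))) (-LX B (p.1 (s e))) 0 := by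
    have := hasDerivAt_EM B (-p.1 (s e))
    simpa only [smul_neg, LX_neg] using this
  have h2 := hasDerivAt_EM B (p.2 e)
  have h3 := hasDerivAt_EM B (p.1 (t e))
  have h4 := h1.mul (h2.mul ((h3.mul_const ((mt (φ₀ e))ᴴ)).const_mul (mt (φ₀ e))))
  have e0 : mt (φ₀ e) * (mt (φ₀ e))ᴴ = 1 := rhoG_unit _
  have h5 : (fun τ : ℝ => FM B s t φ₀ (τ • p) e) = fun τ : ℝ => EM B (-(τ • p.1 (s e))) *
      (EM B (τ • p.2 e) * (mt (φ₀ e) * (EM B (τ • p.1 (t e)) * (mt (φ₀ e))ᴴ))) := rfl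
  rw [h5]
  refine h4.congr_deriv ?_
  simp only [Pi.mul_apply, zero_smul, neg_zero, EM_zero, one_mul, mul_one, e0]

lemma hasFDerivAt_lgc (φ₀ : E → G) : HasFDerivAt (lgc B s t φ₀) (Dlg B s t φ₀) 0 := by
  have hd := ((lgc_contDiffAt B s t φ₀).differentiableAt (by simp)).hasFDerivAt
  refine hd.congr_fderiv ?_
  refine ContinuousLinearMap.ext fun p => ?_
  have h1 : HasDerivAt (fun τ : ℝ => τ • p) p 0 := by
    simpa using (hasDerivAt_id (0 : ℝ)).smul_const p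
  have hd' : HasFDerivAt (lgc B s t φ₀) (fderiv ℝ (lgc B s t φ₀) 0) ((0 : ℝ) • p) := by
    rw [zero_smul]; exact hd
  have h2 := hd'.comp_hasDerivAt (0 : ℝ) h1
  have h3 : HasDerivAt (fun τ : ℝ => lgc B s t φ₀ (τ • p)) (Dlg B s t φ₀ p) 0 := by
    rw [hasDerivAt_pi]
    intro e
    have h4 : HasFDerivAt (lgM B) (pcl B) (FM B s t φ₀ ((0 : ℝ) • p) e) := by
      rw [zero_smul, FM_zero]; exact hasFDerivAt_lgM B
    have h5 := h4.comp_hasDerivAt (0 : ℝ) (hasDerivAt_FM B s t φ₀ p e)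
    refine h5.congr_deriv ?_
    show pc B _ = _
    rw [pc_add, pc_add, ← LX_neg, pc_LX, pc_LX, Dlg_apply]
    funext a
    simp only [Pi.add_apply, Pi.neg_apply, Pi.sub_apply]
    show _ = p.2 e a - (p.1 (s e) a - AdM B (φ₀ e) (p.1 (t e)) a)
    unfold AdM
    ring
  exact h2.unique h3

/-! ### the slice -/

variable {s t} in
/-- The map whose local inverse yields the gauge transformation to the slice `ker P`. -/
def Up (φ₀ : E → G) (P : (E → Fin n → ℝ) →ₗ[ℝ] (T → Fin n → ℝ)) (s t : E → T)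
    (p : (T → Fin n → ℝ) × (E → Fin n → ℝ)) : (T → Fin n → ℝ) × (E → Fin n → ℝ) :=
  (P (lgc B s t φ₀ p), p.2)

section slice

variable (φ₀ : E → G) (P : (E → Fin n → ℝ) →ₗ[ℝ] (T → Fin n → ℝ))

/-- the derivative of `Up`, an involution up to sign -/
def DUp (hP : P.comp (Jl B s t φ₀) = LinearMap.id) :
    ((T → Fin n → ℝ) × (E → Fin n → ℝ)) ≃L[ℝ] ((T → Fin n → ℝ) × (E → Fin n → ℝ)) :=
  LinearEquiv.toContinuousLinearEquiv
    { toFun := fun p => (P p.2 - p.1, p.2)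
      map_add' := fun p q => by
        simp only [Prod.fst_add, Prod.snd_add, map_add, Prod.mk_add_mk]
        congr 1; abel
      map_smul' := fun c p => by
        simp only [Prod.smul_fst, Prod.smul_snd, map_smul, RingHom.id_apply, Prod.smul_mk, smul_sub]
      invFun := fun p => (P p.2 - p.1, p.2)
      left_inv := fun p => by simp
      right_inv := fun p => by simp }

lemma Up_contDiffAt : ContDiffAt ℝ ∞ (Up B φ₀ P s t) 0 := by
  unfold Up
  refine ContDiffAt.prodMk ?_ contDiffAt_snd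
  exact (LinearMap.toContinuousLinearMap P).contDiff.contDiffAt.comp _ (lgc_contDiffAt B s t φ₀)

lemma hasFDerivAt_Up (hP : P.comp (Jl B s t φ₀) = LinearMap.id) :
    HasFDerivAt (Up B φ₀ P s t) (DUp B s t φ₀ P hP :
      ((T → Fin n → ℝ) × (E → Fin n → ℝ)) →L[ℝ] _) 0 := by
  have h1 := ((LinearMap.toContinuousLinearMap P).hasFDerivAt.comp
    (0 : (T → Fin n → ℝ) × (E → Fin n → ℝ)) (hasFDerivAt_lgc B s t φ₀)).prodMk
      (hasFDerivAt_snd (𝕜 := ℝ) (p := (0 : (T → Fin n → ℝ) × (E → Fin n → ℝ))))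
  refine h1.congr_fderiv ?_
  refine ContinuousLinearMap.ext fun p => ?_
  have h2 : P (Jl B s t φ₀ p.1) = p.1 := LinearMap.congr_fun hP p.1
  show (P (Dlg B s t φ₀ p), p.2) = (P p.2 - p.1, p.2)
  rw [Dlg_apply, map_sub, h2]

lemma Up_zero : Up B φ₀ P s t 0 = 0 := by
  unfold Up
  rw [lgc_zero, map_zero]
  rfl

/-- **The local slice theorem.** -/
theorem slice_local (hP : P.comp (Jl B s t φ₀) = LinearMap.id) :
    ∃ xf : (E → Fin n → ℝ) → (T → Fin n → ℝ), ContDiffAt ℝ ∞ xf 0 ∧ xf 0 = 0 ∧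
      (∀ᶠ y in 𝓝 (0 : E → Fin n → ℝ), P (lgc B s t φ₀ (xf y, y)) = 0) ∧
      ∃ r : ℝ, 0 < r ∧ ∀ (x x' : T → Fin n → ℝ) (y : E → Fin n → ℝ), ‖x‖ < r → ‖x'‖ < r → ‖y‖ < r →
        P (lgc B s t φ₀ (x, y)) = P (lgc B s t φ₀ (x', y)) → x = x' := by
  have hcd := Up_contDiffAt B s t φ₀ P
  have hfd := hasFDerivAt_Up B s t φ₀ P hP
  have hst := hcd.hasStrictFDerivAt' hfd (by simp)
  obtain ⟨g, hg⟩ : ∃ g, g = hcd.localInverse hfd (by simp) := ⟨_, rfl⟩
  have hgcd : ContDiffAt ℝ ∞ g 0 := by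
    have := hcd.to_localInverse hfd (by simp)
    rw [Up_zero] at this
    rw [hg]; exact this
  have hg0 : g 0 = 0 := by
    have := hcd.localInverse_apply_image hfd (by simp)
    rw [Up_zero] at this
    rw [hg]; exact this
  have hright : ∀ᶠ q in 𝓝 (0 : (T → Fin n → ℝ) × (E → Fin n → ℝ)), Up B φ₀ P s t (g q) = q := by
    have := hst.eventually_right_inverse
    rw [Up_zero] at this
    rw [hg]; exact this
  have hleft : ∀ᶠ q in 𝓝 (0 : (T → Fin n → ℝ) × (E → Fin n → ℝ)), g (Up B φ₀ P s t q) = q := by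
    have := hst.eventually_left_inverse
    rw [hg]; exact this
  have hmk : ContDiffAt ℝ ∞ (fun y : E → Fin n → ℝ => ((0 : T → Fin n → ℝ), y)) 0 :=
    contDiffAt_const.prodMk contDiffAt_id
  have h00 : ((0 : T → Fin n → ℝ), (0 : E → Fin n → ℝ)) = 0 := rfl
  refine ⟨fun y => (g (0, y)).1, ?_, ?_, ?_, ?_⟩
  · have h1 : ContDiffAt ℝ ∞ g ((0 : T → Fin n → ℝ), (0 : E → Fin n → ℝ)) := hgcd
    exact contDiffAt_fst.comp (0 : E → Fin n → ℝ)
      (h1.comp (0 : E → Fin n → ℝ) hmk)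
  · show (g (0, 0)).1 = 0
    rw [h00, hg0]; rfl
  · have h1 : Tendsto (fun y : E → Fin n → ℝ => ((0 : T → Fin n → ℝ), y)) (𝓝 0) (𝓝 0) :=
      hmk.continuousAt.tendsto
    filter_upwards [h1.eventually hright] with y hy
    have h2 : (g (0, y)).2 = y := congrArg Prod.snd hy
    have h3 : P (lgc B s t φ₀ (g (0, y))) = 0 := congrArg Prod.fst hy
    have h4 : ((g (0, y)).1, y) = g (0, y) := Prod.ext rfl h2.symm
    rw [h4]; exact h3
  · obtain ⟨r, hr, hball⟩ := Metric.eventually_nhds_iff.1 hleft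
    refine ⟨r, hr, fun x x' y hx hx' hy he => ?_⟩
    have h1 : g (Up B φ₀ P s t (x, y)) = (x, y) := hball (by
      rw [dist_zero_right]; exact max_lt hx hy)
    have h2 : g (Up B φ₀ P s t (x', y)) = (x', y) := hball (by
      rw [dist_zero_right]; exact max_lt hx' hy)
    have h3 : Up B φ₀ P s t (x, y) = Up B φ₀ P s t (x', y) := Prod.ext he rfl
    rw [h3, h2] at h1
    exact (congrArg Prod.fst h1).symm

end slice

end

end Pool.Agent.N984.TW
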