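import Mathlib
import Pool.Agent.N984.TW.Slice1

/-!
# Gauge orbits of connections on a finite graph: the tube around the vacuum orbit
-/

open MeasureTheory Matrix Filter
open scoped Matrix.Norms.Frobenius ContDiff Topology
open Pool.Agent.H906R3.YM Pool.Agent.W793.YM Pool.Agent.TH618.YM

namespace Pool.Agent.N984.TW

set_option linter.unusedSectionVars false
set_option linter.unusedVariables false

noncomputable section

variable {N n : ℕ} {G : Subgroup (UN N)} (B : Frame G n) (hG : IsClosed (G : Set (UN N)))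
variable {T E : Type*} [Fintype T] [Fintype E] [DecidableEq T] [DecidableEq E] (s t : E → T)

instance secU : SecondCountableTopology (UN N) := TopologicalSpace.Subtype.secondCountableTopology _
instance secG : SecondCountableTopology G := TopologicalSpace.Subtype.secondCountableTopology _

include hG in
lemma compG : CompactSpace G := isCompact_iff_compactSpace.1 hG.isCompact

/-- squared distance to the identity -/
def nr {I : Type*} [Fintype I] (k : I → G) : ℝ := ∑ y, ‖mt (k y) - 1‖ ^ 2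

lemma nr_nonneg {I : Type*} [Fintype I] (k : I → G) : 0 ≤ nr k :=
  Finset.sum_nonneg fun _ _ => sq_nonneg _

lemma nr_one {I : Type*} [Fintype I] : nr (1 : I → G) = 0 := by
  unfold nr
  refine Finset.sum_eq_zero fun y _ => ?_
  rw [Pi.one_apply, mt_one, sub_self, norm_zero]; norm_num

lemma nr_cont {I : Type*} [Fintype I] : Continuous (nr : (I → G) → ℝ) := by
  unfold nr
  refine continuous_finsetSum _ fun y _ => ?_
  exact ((mt_cont.comp (continuous_apply y)).sub continuous_const).norm.pow 2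

lemma act_tendsto {α : Type*} {l : Filter α} {k : α → T → G} {φ : α → E → G} {k₀ : T → G}
    {φ₀ : E → G} (hk : Tendsto k l (𝓝 k₀)) (hφ : Tendsto φ l (𝓝 φ₀)) :
    Tendsto (fun m => act s t (k m) (φ m)) l (𝓝 (act s t k₀ φ₀)) := by
  rw [tendsto_pi_nhds] at hk hφ ⊢
  intro e
  exact ((hk (s e)).mul (hφ e)).mul (hk (t e)).inv

lemma act_cont {α : Type*} [TopologicalSpace α] {k : α → T → G} {φ : α → E → G}
    (hk : Continuous k) (hφ : Continuous φ) : Continuous fun m => act s t (k m) (φ m) := by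
  rw [continuous_iff_continuousAt] at hk hφ ⊢
  exact fun a => act_tendsto s t (hk a) (hφ a)

lemma lgφ_exM (φ₀ : E → G) : ∀ᶠ v in 𝓝 (0 : E → Fin n → ℝ), lgφ B φ₀ (exM B hG φ₀ v) = v := by
  have h : ∀ e : E, ∀ᶠ v in 𝓝 (0 : E → Fin n → ℝ), lg B (Eg B hG (v e)) = v e := by
    intro e
    have h1 : Tendsto (fun v : E → Fin n → ℝ => v e) (𝓝 0) (𝓝 0) :=
      (continuous_apply e).tendsto 0
    exact h1.eventually (lg_Eg B hG)
  filter_upwards [eventually_all.2 h] with v hv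
  funext e
  unfold lgφ exM
  rw [mul_inv_cancel_right, hv e]

lemma exM_lgφ (φ₀ : E → G) : ∀ᶠ φ in 𝓝 φ₀, exM B hG φ₀ (lgφ B φ₀ φ) = φ := by
  have h : ∀ e : E, ∀ᶠ φ in 𝓝 φ₀, Eg B hG (lg B (φ e * (φ₀ e)⁻¹)) = φ e * (φ₀ e)⁻¹ := by
    intro e
    have h1 : Tendsto (fun φ : E → G => φ e * (φ₀ e)⁻¹) (𝓝 φ₀) (𝓝 1) := by
      have := ((continuous_apply e).mul continuous_const).tendsto (f := fun φ : E → G =>
        φ e * (φ₀ e)⁻¹) φ₀
      rwa [mul_inv_cancel] at this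
    exact h1.eventually (Eg_lg B hG)
  filter_upwards [eventually_all.2 h] with φ hφ
  funext e
  unfold lgφ exM
  rw [hφ e, inv_mul_cancel_right]

lemma lgφ_tendsto (φ₀ : E → G) : Tendsto (lgφ B φ₀) (𝓝 φ₀) (𝓝 0) := by
  rw [tendsto_pi_nhds]
  intro e
  have h1 : Tendsto (fun φ : E → G => φ e * (φ₀ e)⁻¹) (𝓝 φ₀) (𝓝 1) := by
    have := ((continuous_apply e).mul continuous_const).tendsto (f := fun φ : E → G =>
      φ e * (φ₀ e)⁻¹) φ₀
    rwa [mul_inv_cancel] at this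
  exact (lg_tendsto B).comp h1

lemma exG_lg : ∀ᶠ k in 𝓝 (1 : T → G), exG B hG (fun y => lg B (k y)) = k := by
  have h : ∀ y : T, ∀ᶠ k in 𝓝 (1 : T → G), Eg B hG (lg B (k y)) = k y := by
    intro y
    have h1 : Tendsto (fun k : T → G => k y) (𝓝 1) (𝓝 1) := (continuous_apply y).tendsto 1
    exact h1.eventually (Eg_lg B hG)
  filter_upwards [eventually_all.2 h] with k hk
  funext y
  exact hk y

lemma lgT_tendsto : Tendsto (fun (k : T → G) (y : T) => lg B (k y)) (𝓝 1) (𝓝 0) := by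
  rw [tendsto_pi_nhds]
  intro y
  exact (lg_tendsto B).comp ((continuous_apply y).tendsto (1 : T → G))

section tube

variable (φ₀ : E → G) (P : (E → Fin n → ℝ) →ₗ[ℝ] (T → Fin n → ℝ)) (Zc : Subgroup (T → G))

/-- **Uniqueness in the tube.** -/
theorem slice_unique (hP : P.comp (Jl B s t φ₀) = LinearMap.id)
    (hst : ∀ h : T → G, act s t h φ₀ = φ₀ → h ∈ Zc)
    (hZ : ∀ h ∈ Zc, ∀ φ : E → G, act s t h φ = φ) :
    ∃ δ₀ : ℝ, 0 < δ₀ ∧ ∀ (k : T → G) (v v' : E → Fin n → ℝ), ‖v‖ ≤ δ₀ → ‖v'‖ ≤ δ₀ → P v = 0 →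
      P v' = 0 → act s t k (exM B hG φ₀ v) = exM B hG φ₀ v' → k ∈ Zc ∧ v = v' := by
  have hcomp := compG hG
  obtain ⟨xf, -, -, -, r, hr, hinj⟩ := slice_local B s t φ₀ P hP
  by_contra hcon
  push Not at hcon
  have hk : ∀ m : ℕ, ∃ (k : T → G) (v v' : E → Fin n → ℝ), ‖v‖ ≤ 1 / ((m : ℝ) + 1) ∧
      ‖v'‖ ≤ 1 / ((m : ℝ) + 1) ∧ P v = 0 ∧ P v' = 0 ∧
      act s t k (exM B hG φ₀ v) = exM B hG φ₀ v' ∧ (k ∈ Zc → v ≠ v') := by
    intro m
    obtain ⟨k, v, v', h1, h2, h3, h4, h5, h6⟩ := hcon (1 / ((m : ℝ) + 1)) (by positivity)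
    exact ⟨k, v, v', h1, h2, h3, h4, h5, h6⟩
  choose k v v' hv hv' hPv hPv' hact hne using hk
  have hv0 : Tendsto v atTop (𝓝 0) := squeeze_zero_norm hv tendsto_one_div_add_atTop_nhds_zero_nat
  have hv0' : Tendsto v' atTop (𝓝 0) :=
    squeeze_zero_norm hv' tendsto_one_div_add_atTop_nhds_zero_nat
  obtain ⟨k₀, -, τ, hτ, hlim⟩ := isCompact_univ.tendsto_subseq (fun m => Set.mem_univ (k m))
  have hτt := hτ.tendsto_atTop
  have hlimact : act s t k₀ φ₀ = φ₀ := by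
    have h1 : Tendsto (fun m => act s t (k (τ m)) (exM B hG φ₀ (v (τ m)))) atTop
        (𝓝 (act s t k₀ φ₀)) := by
      have h2 : Tendsto (fun m => exM B hG φ₀ (v (τ m))) atTop (𝓝 φ₀) := by
        have := ((exM_cont B hG φ₀).tendsto 0).comp (hv0.comp hτt)
        rwa [exM_zero] at this
      exact act_tendsto s t hlim h2
    have h3 : Tendsto (fun m => exM B hG φ₀ (v' (τ m))) atTop (𝓝 φ₀) := by
      have := ((exM_cont B hG φ₀).tendsto 0).comp (hv0'.comp hτt)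
      rwa [exM_zero] at this
    refine tendsto_nhds_unique h1 ?_
    refine h3.congr fun m => ?_
    rw [hact]
  have hk₀ := hst k₀ hlimact
  have hk1 : Tendsto (fun m => k₀⁻¹ * k (τ m)) atTop (𝓝 1) := by
    have := (continuous_const.mul continuous_id).tendsto (f := fun g : T → G => k₀⁻¹ * g) k₀
    have h2 := this.comp hlim
    rw [inv_mul_cancel] at h2
    exact h2
  have hact2 : ∀ m, act s t (k₀⁻¹ * k (τ m)) (exM B hG φ₀ (v (τ m))) =
      exM B hG φ₀ (v' (τ m)) := by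
    intro m
    rw [act_mul, hact, hZ _ (Zc.inv_mem hk₀)]
  -- logarithmic coordinates
  have hev1 := hk1.eventually (exG_lg B hG (T := T))
  have hev2 : ∀ᶠ m in atTop, ‖(fun y => lg B ((k₀⁻¹ * k (τ m)) y) : T → Fin n → ℝ)‖ < r := by
    have := ((lgT_tendsto B (T := T)).comp hk1).norm
    rw [norm_zero] at this
    exact this.eventually (gt_mem_nhds hr)
  have hev3 : ∀ᶠ m in atTop, ‖v' (τ m)‖ < r := by
    have := (hv0'.comp hτt).norm
    rw [norm_zero] at this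
    exact this.eventually (gt_mem_nhds hr)
  have hev4 := (hv0.comp hτt).eventually (lgφ_exM B hG φ₀)
  have hev5 := (hv0'.comp hτt).eventually (lgφ_exM B hG φ₀)
  obtain ⟨m, h1, h2, h3, h4, h5⟩ := (hev1.and (hev2.and (hev3.and (hev4.and hev5)))).exists
  set x : T → Fin n → ℝ := fun y => lg B ((k₀⁻¹ * k (τ m)) y) with hx
  have e1 : act s t (exG B hG (-x)) (exM B hG φ₀ (v' (τ m))) = exM B hG φ₀ (v (τ m)) := by
    rw [← hact2 m, ← act_mul, exG_neg, h1, inv_mul_cancel, act_one]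
  have e2 : lgc B s t φ₀ (x, v' (τ m)) = v (τ m) := by
    rw [lgc_eq B hG]
    show lgφ B φ₀ (act s t (exG B hG (-x)) (exM B hG φ₀ (v' (τ m)))) = _
    rw [e1]; exact h4
  have e3 : lgc B s t φ₀ (0, v' (τ m)) = v' (τ m) := by
    rw [lgc_eq B hG]
    show lgφ B φ₀ (act s t (exG B hG (-0)) (exM B hG φ₀ (v' (τ m)))) = _
    rw [neg_zero, exG_zero, act_one]; exact h5
  have e4 : x = 0 := hinj x 0 (v' (τ m)) h2 (by rw [norm_zero]; exact hr) h3
    (by rw [e2, e3, hPv, hPv'])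
  have e5 : v (τ m) = v' (τ m) := by rw [← e2, e4, e3]
  have e6 : k (τ m) = k₀ := by
    rw [e4, exG_zero] at h1
    exact (inv_mul_eq_one.1 h1.symm).symm
  exact hne (τ m) (by rw [e6]; exact hk₀) e5

/-- pairs `(k, v)` with `v` in the slice -/
def Kset (δ : ℝ) : Set ((T → G) × (E → Fin n → ℝ)) := {q | ‖q.2‖ ≤ δ ∧ P q.2 = 0}

/-- the point of the tube with coordinates `(k, v)` -/
def tb (q : (T → G) × (E → Fin n → ℝ)) : E → G := act s t q.1 (exM B hG φ₀ q.2)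

lemma tb_cont : Continuous (tb B hG s t φ₀) :=
  act_cont s t continuous_fst ((exM_cont B hG φ₀).comp continuous_snd)

include hG in
lemma Kset_compact (δ : ℝ) : IsCompact (Kset (G := G) P δ) := by
  have hcomp := compG hG
  have h1 : Kset (G := G) P δ = Set.univ ×ˢ (Metric.closedBall (0 : E → Fin n → ℝ) δ ∩ {v | P v = 0}) := by
    ext q
    simp [Kset, Metric.mem_closedBall, dist_zero_right]
  rw [h1]
  refine isCompact_univ.prod ((isCompact_closedBall _ _).inter_right ?_)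
  exact isClosed_eq (LinearMap.continuous_of_finiteDimensional P) continuous_const

/-- the tube -/
def Tube (δ : ℝ) : Set (E → G) := tb B hG s t φ₀ '' Kset P δ

lemma Tube_compact (δ : ℝ) : IsCompact (Tube B hG s t φ₀ P δ) :=
  (Kset_compact hG P δ).image (tb_cont B hG s t φ₀)

lemma act_Tube {δ : ℝ} (h : T → G) {φ : E → G} (hφ : φ ∈ Tube B hG s t φ₀ P δ) :
    act s t h φ ∈ Tube B hG s t φ₀ P δ := by
  obtain ⟨q, hq, rfl⟩ := hφ
  exact ⟨(h * q.1, q.2), hq, act_mul s t _ _ _⟩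

lemma act_Tube_iff {δ : ℝ} (h : T → G) (φ : E → G) :
    act s t h φ ∈ Tube B hG s t φ₀ P δ ↔ φ ∈ Tube B hG s t φ₀ P δ := by
  refine ⟨fun h1 => ?_, act_Tube B hG s t φ₀ P h⟩
  have h2 := act_Tube B hG s t φ₀ P h⁻¹ h1
  rwa [← act_mul, inv_mul_cancel, act_one] at h2

/-- the fibre of the coordinate map -/
def Kf (δ : ℝ) (φ : E → G) : Set (T → G) :=
  Prod.fst '' (Kset P δ ∩ (tb B hG s t φ₀) ⁻¹' {φ})

lemma Kf_compact (δ : ℝ) (φ : E → G) : IsCompact (Kf B hG s t φ₀ P δ φ) :=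
  ((Kset_compact hG P δ).inter_right (isClosed_singleton.preimage (tb_cont B hG s t φ₀))).image
    continuous_fst

lemma mem_Kf {δ : ℝ} {φ : E → G} {k : T → G} : k ∈ Kf B hG s t φ₀ P δ φ ↔
    ∃ v, ‖v‖ ≤ δ ∧ P v = 0 ∧ act s t k (exM B hG φ₀ v) = φ := by
  constructor
  · rintro ⟨q, ⟨⟨h1, h2⟩, h3⟩, rfl⟩
    exact ⟨q.2, h1, h2, h3⟩
  · rintro ⟨v, h1, h2, h3⟩
    exact ⟨(k, v), ⟨⟨h1, h2⟩, h3⟩, rfl⟩

lemma Kf_nonempty {δ : ℝ} {φ : E → G} (h : φ ∈ Tube B hG s t φ₀ P δ) :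
    (Kf B hG s t φ₀ P δ φ).Nonempty := by
  obtain ⟨q, hq, rfl⟩ := h
  exact ⟨q.1, (mem_Kf B hG s t φ₀ P).2 ⟨q.2, hq.1, hq.2, rfl⟩⟩

/-- the squared distance of the gauge transformation to the slice from the identity -/
def gd (δ : ℝ) (φ : E → G) : ℝ := sInf (nr '' Kf B hG s t φ₀ P δ φ)

lemma gd_nonneg (δ : ℝ) (φ : E → G) : 0 ≤ gd B hG s t φ₀ P δ φ := by
  refine Real.sInf_nonneg ?_
  rintro _ ⟨k, -, rfl⟩
  exact nr_nonneg k

lemma gd_le {δ : ℝ} {φ : E → G} {k : T → G} (hk : k ∈ Kf B hG s t φ₀ P δ φ) :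
    gd B hG s t φ₀ P δ φ ≤ nr k := by
  refine csInf_le ⟨0, ?_⟩ ⟨k, hk, rfl⟩
  rintro _ ⟨k', -, rfl⟩
  exact nr_nonneg k'

lemma gd_attained {δ : ℝ} {φ : E → G} (h : φ ∈ Tube B hG s t φ₀ P δ) :
    ∃ k ∈ Kf B hG s t φ₀ P δ φ, nr k = gd B hG s t φ₀ P δ φ := by
  have h1 := (Kf_compact B hG s t φ₀ P δ φ).image (nr_cont (G := G) (I := T))
  obtain ⟨k, hk, he⟩ := h1.sInf_mem ((Kf_nonempty B hG s t φ₀ P h).image nr)
  exact ⟨k, hk, he⟩

/-- the fibre is a coset of the stabiliser -/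
lemma Kf_coset {δ δ₀ : ℝ} (hδ : δ ≤ δ₀) (hun : ∀ (k : T → G) (v v' : E → Fin n → ℝ), ‖v‖ ≤ δ₀ →
      ‖v'‖ ≤ δ₀ → P v = 0 → P v' = 0 → act s t k (exM B hG φ₀ v) = exM B hG φ₀ v' →
      k ∈ Zc ∧ v = v')
    (hZ : ∀ h ∈ Zc, ∀ φ : E → G, act s t h φ = φ) {k : T → G} {v : E → Fin n → ℝ}
    (hv : ‖v‖ ≤ δ) (hPv : P v = 0) (k' : T → G) :
    k' ∈ Kf B hG s t φ₀ P δ (act s t k (exM B hG φ₀ v)) ↔ ∃ ζ ∈ Zc, k' = k * ζ := by
  rw [mem_Kf]
  constructor
  · rintro ⟨v', h1, h2, h3⟩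
    have h4 : act s t (k⁻¹ * k') (exM B hG φ₀ v') = exM B hG φ₀ v := by
      rw [act_mul, h3, ← act_mul, inv_mul_cancel, act_one]
    obtain ⟨h5, -⟩ := hun _ v' v (h1.trans hδ) (hv.trans hδ) h2 hPv h4
    exact ⟨k⁻¹ * k', h5, by rw [mul_inv_cancel_left]⟩
  · rintro ⟨ζ, hζ, rfl⟩
    exact ⟨v, hv, hPv, by rw [act_mul, hZ ζ hζ]⟩

/-- squared distance of `k` to the stabiliser -/
def rr (k : T → G) : ℝ := sInf ((fun ζ => nr (k * ζ)) '' (Zc : Set (T → G)))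

lemma gd_act {δ δ₀ : ℝ} (hδ : δ ≤ δ₀) (hun : ∀ (k : T → G) (v v' : E → Fin n → ℝ), ‖v‖ ≤ δ₀ →
      ‖v'‖ ≤ δ₀ → P v = 0 → P v' = 0 → act s t k (exM B hG φ₀ v) = exM B hG φ₀ v' →
      k ∈ Zc ∧ v = v')
    (hZ : ∀ h ∈ Zc, ∀ φ : E → G, act s t h φ = φ) {k : T → G} {v : E → Fin n → ℝ}
    (hv : ‖v‖ ≤ δ) (hPv : P v = 0) :
    gd B hG s t φ₀ P δ (act s t k (exM B hG φ₀ v)) = rr Zc k := by
  unfold gd rr
  congr 1
  ext a
  constructor
  · rintro ⟨k', hk', rfl⟩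
    obtain ⟨ζ, hζ, rfl⟩ := (Kf_coset B hG s t φ₀ P Zc hδ hun hZ hv hPv k').1 hk'
    exact ⟨ζ, hζ, rfl⟩
  · rintro ⟨ζ, hζ, rfl⟩
    exact ⟨k * ζ, (Kf_coset B hG s t φ₀ P Zc hδ hun hZ hv hPv _).2 ⟨ζ, hζ, rfl⟩, rfl⟩

end tube

end

end Pool.Agent.N984.TW
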