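import Mathlib
import Pool.Agent.N984.TW.Slice2

/-!
# The tube around the vacuum orbit: local form, coercivity, gauge fixing function
-/

open MeasureTheory Matrix Filter
open scoped Matrix.Norms.Frobenius ContDiff Topology
open Pool.Agent.H906R3.YM Pool.Agent.W793.YM Pool.Agent.TH618.YM

namespace Pool.Agent.N984.TW

set_option linter.unusedSectionVars false
set_option linter.unusedVariables false

noncomputable section

variable {N n : ℕ} {G : Subgroup (UN N)} (B : Frame G n) (hG : IsClosed (G : Set (UN N)))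
variable {T E : Type*} [Fintype T] [Fintype E] [DecidableEq T] [DecidableEq E] (s t : E → T)
variable (φ₀ : E → G) (P : (E → Fin n → ℝ) →ₗ[ℝ] (T → Fin n → ℝ)) (Zc : Subgroup (T → G))

/-- A slice datum: `P` is a left inverse of the infinitesimal gauge action at `φ₀`, `Zc` is the
stabiliser, which acts trivially and whose nontrivial elements are far from the identity, and the
coordinates in the tube of radius `δ₀` are unique. -/
structure SliceD (δ₀ c₀ : ℝ) : Prop where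
  left : P.comp (Jl B s t φ₀) = LinearMap.id
  stab : ∀ h : T → G, act s t h φ₀ = φ₀ → h ∈ Zc
  triv : ∀ h ∈ Zc, ∀ φ : E → G, act s t h φ = φ
  pos : 0 < δ₀
  uniq : ∀ (k : T → G) (v v' : E → Fin n → ℝ), ‖v‖ ≤ δ₀ → ‖v'‖ ≤ δ₀ → P v = 0 → P v' = 0 →
      act s t k (exM B hG φ₀ v) = exM B hG φ₀ v' → k ∈ Zc ∧ v = v'
  cpos : 0 < c₀
  disc : ∀ ζ ∈ Zc, ζ ≠ 1 → c₀ ≤ nr ζ

variable {s t φ₀ P Zc} {hG} {B}

lemma act_one' (φ : E → G) : act s t (1 : T → G) φ = φ := act_one s t φ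

section

variable {δ₀ c₀ : ℝ} (D : SliceD B hG s t φ₀ P Zc δ₀ c₀)

/-- the distance in the gauge group -/
lemma nr_mul_ge (k ζ : T → G) : nr ζ ≤ 2 * nr (k * ζ) + 2 * nr k := by
  unfold nr
  rw [Finset.mul_sum, Finset.mul_sum, ← Finset.sum_add_distrib]
  refine Finset.sum_le_sum fun y _ => ?_
  have h1 : ‖mt (ζ y) - 1‖ = ‖mt (k y) * (mt (ζ y) - 1)‖ := (norm_mt_mul _ _).symm
  have h2 : mt (k y) * (mt (ζ y) - 1) = (mt ((k * ζ) y) - 1) - (mt (k y) - 1) := by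
    rw [Pi.mul_apply, mt_mul, mul_sub, mul_one]; abel
  have h3 : ‖mt (ζ y) - 1‖ ≤ ‖mt ((k * ζ) y) - 1‖ + ‖mt (k y) - 1‖ := by
    rw [h1, h2]; exact norm_sub_le _ _
  have h4 := norm_nonneg (mt (ζ y) - 1)
  calc ‖mt (ζ y) - 1‖ ^ 2 ≤ (‖mt ((k * ζ) y) - 1‖ + ‖mt (k y) - 1‖) ^ 2 :=
        pow_le_pow_left₀ h4 h3 2
    _ ≤ _ := by nlinarith [sq_nonneg (‖mt ((k * ζ) y) - 1‖ - ‖mt (k y) - 1‖)]

lemma rr_le (k : T → G) : rr Zc k ≤ nr k := by
  refine csInf_le ⟨0, ?_⟩ ⟨1, Zc.one_mem, by simp⟩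
  rintro _ ⟨ζ, -, rfl⟩
  exact nr_nonneg _

include D in
lemma rr_eq {k : T → G} (hk : nr k ≤ c₀ / 4) : rr Zc k = nr k := by
  refine le_antisymm (rr_le k) ?_
  refine le_csInf ⟨_, 1, Zc.one_mem, rfl⟩ ?_
  rintro _ ⟨ζ, hζ, rfl⟩
  by_cases h1 : ζ = 1
  · simp only [h1, mul_one]; exact le_rfl
  · have h2 := D.disc ζ hζ h1
    have h3 := nr_mul_ge k ζ
    show nr k ≤ nr (k * ζ)
    linarith

include D in
/-- **Local form.** Near `φ₀` all connections belong to the tube and the gauge fixing function is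
given by a smooth function of the coordinates. -/
theorem local_form {δ : ℝ} (hδ : 0 < δ) (hδ₀ : δ ≤ δ₀) :
    ∃ xf : (E → Fin n → ℝ) → (T → Fin n → ℝ), ContDiffAt ℝ ∞ xf 0 ∧ xf 0 = 0 ∧
      ∀ᶠ y in 𝓝 (0 : E → Fin n → ℝ), ∃ v : E → Fin n → ℝ, ‖v‖ ≤ δ ∧ P v = 0 ∧
        act s t (exG B hG (xf y)) (exM B hG φ₀ v) = exM B hG φ₀ y ∧
        exM B hG φ₀ y ∈ Tube B hG s t φ₀ P δ ∧
        gd B hG s t φ₀ P δ (exM B hG φ₀ y) = nr (exG B hG (xf y)) ∧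
        v = lgφ B φ₀ (act s t (exG B hG (-(xf y))) (exM B hG φ₀ y)) := by
  obtain ⟨xf, hx1, hx2, hx3, -⟩ := slice_local B s t φ₀ P D.left
  refine ⟨xf, hx1, hx2, ?_⟩
  have hxt : Tendsto xf (𝓝 0) (𝓝 0) := by
    have := hx1.continuousAt.tendsto
    rwa [hx2] at this
  have ht : Tendsto (fun y => act s t (exG B hG (-(xf y))) (exM B hG φ₀ y)) (𝓝 0) (𝓝 φ₀) := by
    have h1 : Tendsto (fun y => exG B hG (-(xf y))) (𝓝 0) (𝓝 (1 : T → G)) := by
      have := ((exG_cont B hG (T := T)).tendsto (-0)).comp hxt.neg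
      rwa [neg_zero, exG_zero] at this
    have h2 : Tendsto (exM B hG φ₀) (𝓝 0) (𝓝 φ₀) := by
      have := (exM_cont B hG φ₀).tendsto 0
      rwa [exM_zero] at this
    have := act_tendsto s t h1 h2
    rwa [act_one] at this
  have hv : Tendsto (fun y => lgφ B φ₀ (act s t (exG B hG (-(xf y))) (exM B hG φ₀ y))) (𝓝 0)
      (𝓝 0) := (lgφ_tendsto B φ₀).comp ht
  have hvn : ∀ᶠ y in 𝓝 (0 : E → Fin n → ℝ),
      ‖lgφ B φ₀ (act s t (exG B hG (-(xf y))) (exM B hG φ₀ y))‖ < δ := by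
    have := hv.norm
    rw [norm_zero] at this
    exact this.eventually (gt_mem_nhds hδ)
  have hnr : ∀ᶠ y in 𝓝 (0 : E → Fin n → ℝ), nr (exG B hG (xf y)) < c₀ / 4 := by
    have h1 : Tendsto (fun y => nr (exG B hG (xf y))) (𝓝 0) (𝓝 0) := by
      have h2 := ((nr_cont (G := G) (I := T)).tendsto (exG B hG 0)).comp
        (((exG_cont B hG (T := T)).tendsto 0).comp hxt)
      rwa [exG_zero, nr_one] at h2
    exact h1.eventually (gt_mem_nhds (by have := D.cpos; positivity))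
  filter_upwards [hx3, ht.eventually (exM_lgφ B hG φ₀), hvn, hnr] with y h1 h2 h3 h4
  obtain ⟨v, hvd⟩ : ∃ v, v = lgφ B φ₀ (act s t (exG B hG (-(xf y))) (exM B hG φ₀ y)) := ⟨_, rfl⟩
  rw [← hvd] at h2 h3
  have hPv : P v = 0 := by
    rw [hvd, ← h1, lgc_eq B hG]
  have hact : act s t (exG B hG (xf y)) (exM B hG φ₀ v) = exM B hG φ₀ y := by
    rw [h2, ← act_mul, exG_neg, mul_inv_cancel, act_one]
  refine ⟨v, h3.le, hPv, hact, ⟨(exG B hG (xf y), v), ⟨h3.le, hPv⟩, hact⟩, ?_, hvd⟩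
  rw [← hact, gd_act B hG s t φ₀ P Zc hδ₀ D.uniq D.triv h3.le hPv, rr_eq D h4.le]

include D in
/-- the tube is a neighbourhood of `φ₀` -/
lemma tube_nhds {δ : ℝ} (hδ : 0 < δ) (hδ₀ : δ ≤ δ₀) : Tube B hG s t φ₀ P δ ∈ 𝓝 φ₀ := by
  obtain ⟨xf, -, -, h⟩ := local_form D hδ hδ₀
  have h1 := (lgφ_tendsto B φ₀).eventually h
  filter_upwards [h1, exM_lgφ B hG φ₀] with φ h2 h3
  obtain ⟨v, -, -, -, h4, -⟩ := h2
  rwa [h3] at h4

/-! ### measurability -/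

variable [MeasurableSpace G] [BorelSpace G]

variable (P) (hG) (B) (s t φ₀) in
lemma gd_meas {δ : ℝ} : MeasurableSet (Tube B hG s t φ₀ P δ) ∧
    ∀ b : ℝ, MeasurableSet {φ | φ ∈ Tube B hG s t φ₀ P δ ∧ gd B hG s t φ₀ P δ φ ≤ b} := by
  refine ⟨(Tube_compact B hG s t φ₀ P δ).isClosed.measurableSet, fun b => ?_⟩
  have h1 : {φ | φ ∈ Tube B hG s t φ₀ P δ ∧ gd B hG s t φ₀ P δ φ ≤ b} =
      tb B hG s t φ₀ '' (Kset P δ ∩ {q | nr q.1 ≤ b}) := by
    ext φ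
    constructor
    · rintro ⟨h2, h3⟩
      obtain ⟨k, hk, he⟩ := gd_attained B hG s t φ₀ P h2
      obtain ⟨v, h4, h5, h6⟩ := (mem_Kf B hG s t φ₀ P).1 hk
      exact ⟨(k, v), ⟨⟨h4, h5⟩, by show nr k ≤ b; rw [he]; exact h3⟩, h6⟩
    · rintro ⟨q, ⟨h4, h5⟩, rfl⟩
      refine ⟨⟨q, h4, rfl⟩, ?_⟩
      have h6 : q.1 ∈ Kf B hG s t φ₀ P δ (tb B hG s t φ₀ q) :=
        (mem_Kf B hG s t φ₀ P).2 ⟨q.2, h4.1, h4.2, rfl⟩
      exact (gd_le B hG s t φ₀ P h6).trans h5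
  rw [h1]
  have hcomp := compG hG
  have hc : IsClosed {q : (T → G) × (E → Fin n → ℝ) | nr q.1 ≤ b} :=
    isClosed_le ((nr_cont (G := G) (I := T)).comp continuous_fst) continuous_const
  exact (((Kset_compact hG P δ).inter_right hc).image (tb_cont B hG s t φ₀)).isClosed.measurableSet

end

end

end Pool.Agent.N984.TW
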