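import Mathlib
import Pool.Agent.N984.TW.Slice3

/-!
# The tube around the vacuum orbit: coercivity and the gauge fixing function
-/

open MeasureTheory Matrix Filter
open scoped Matrix.Norms.Frobenius ContDiff Topology
open Pool.Agent.H906R3.YM Pool.Agent.W793.YM Pool.Agent.TH618.YM

namespace Pool.Agent.N984.TW

set_option linter.unusedSectionVars false
set_option linter.unusedVariables false

noncomputable section

variable {N n : ℕ} {G : Subgroup (UN N)} {B : Frame G n} {hG : IsClosed (G : Set (UN N))}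
variable {T E : Type*} [Fintype T] [Fintype E] [DecidableEq T] [DecidableEq E] {s t : E → T}
variable {φ₀ : E → G} {P : (E → Fin n → ℝ) →ₗ[ℝ] (T → Fin n → ℝ)} {Zc : Subgroup (T → G)}
variable {δ₀ c₀ : ℝ} (D : SliceD B hG s t φ₀ P Zc δ₀ c₀)

lemma mt_norm_le (g : G) : ‖mt g - 1‖ ≤ 2 * ‖(1 : Mat N)‖ := by
  calc ‖mt g - 1‖ ≤ ‖mt g‖ + ‖(1 : Mat N)‖ := norm_sub_le _ _
    _ = ‖mt g * 1‖ + ‖(1 : Mat N)‖ := by rw [mul_one]
    _ = _ := by rw [norm_mt_mul]; ring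

lemma nr_le_const {I : Type*} [Fintype I] (k : I → G) :
    nr k ≤ Fintype.card I * (2 * ‖(1 : Mat N)‖) ^ 2 := by
  unfold nr
  calc ∑ y, ‖mt (k y) - 1‖ ^ 2 ≤ ∑ _y : I, (2 * ‖(1 : Mat N)‖) ^ 2 :=
        Finset.sum_le_sum fun y _ => pow_le_pow_left₀ (norm_nonneg _) (mt_norm_le _) 2
    _ = _ := by rw [Finset.sum_const, Finset.card_univ, nsmul_eq_mul]

lemma EM_bigO : ∃ C : ℝ, 0 < C ∧ ∀ᶠ v in 𝓝 (0 : Fin n → ℝ), ‖EM B v - 1‖ ≤ C * ‖v‖ := by
  have h := (hasFDerivAt_EM B).isBigO_sub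
  obtain ⟨C, hC, hb⟩ := h.exists_pos
  refine ⟨C, hC, ?_⟩
  have := hb.bound
  simpa [EM_zero] using this

/-- distance to `φ₀` -/
def nM (φ₀ φ : E → G) : ℝ := nr (fun e => φ e * (φ₀ e)⁻¹)

lemma nM_nonneg (φ₀ φ : E → G) : 0 ≤ nM φ₀ φ := nr_nonneg _

lemma norm_mul_sub_one (a b : G) : ‖mt (a * b) - 1‖ ≤ ‖mt a - 1‖ + ‖mt b - 1‖ := by
  have h : mt (a * b) - 1 = mt a * (mt b - 1) + (mt a - 1) := by
    rw [mt_mul, mul_sub, mul_one]; abel
  rw [h]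
  refine (norm_add_le _ _).trans ?_
  rw [norm_mt_mul]
  linarith

lemma norm_inv_sub_one (a : G) : ‖mt a⁻¹ - 1‖ = ‖mt a - 1‖ := by
  have h : mt a⁻¹ - 1 = -(mt a⁻¹ * (mt a - 1)) := by
    rw [mul_sub, mul_one, ← mt_mul, inv_mul_cancel, mt_one]; abel
  rw [h, norm_neg, norm_mt_mul]

lemma norm_conj_sub_one (a b : G) : ‖mt (a * b * a⁻¹) - 1‖ = ‖mt b - 1‖ := by
  have h : mt (a * b * a⁻¹) - 1 = mt a * (mt b - 1) * mt a⁻¹ := by
    rw [mt_mul, mt_mul, mul_sub, sub_mul, mul_one, ← mt_mul a a⁻¹, mul_inv_cancel, mt_one]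
  rw [h, norm_mul_unit, norm_mt_mul]

lemma nM_tb (k : T → G) (v : E → Fin n → ℝ) :
    nM φ₀ (act s t k (exM B hG φ₀ v)) ≤ 3 * ∑ e, ‖EM B (v e) - 1‖ ^ 2 +
      3 * (∑ e, ‖mt (k (s e)) - 1‖ ^ 2 + ∑ e, ‖mt (k (t e)) - 1‖ ^ 2) := by
  unfold nM nr
  rw [Finset.mul_sum, ← Finset.sum_add_distrib, Finset.mul_sum, ← Finset.sum_add_distrib]
  refine Finset.sum_le_sum fun e _ => ?_
  have h1 : (act s t k (exM B hG φ₀ v) e) * (φ₀ e)⁻¹ =
      k (s e) * (Eg B hG (v e) * (φ₀ e * (k (t e))⁻¹ * (φ₀ e)⁻¹)) := by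
    unfold act exM; group
  have h2 : ‖mt ((act s t k (exM B hG φ₀ v) e) * (φ₀ e)⁻¹) - 1‖ ≤ ‖mt (k (s e)) - 1‖ +
      (‖EM B (v e) - 1‖ + ‖mt (k (t e)) - 1‖) := by
    rw [h1]
    refine (norm_mul_sub_one _ _).trans ?_
    gcongr
    refine (norm_mul_sub_one _ _).trans ?_
    rw [mt_Eg, norm_conj_sub_one, norm_inv_sub_one]
  obtain ⟨a, ha⟩ : ∃ a, a = ‖mt (k (s e)) - 1‖ := ⟨_, rfl⟩
  obtain ⟨b, hb⟩ : ∃ b, b = ‖EM B (v e) - 1‖ := ⟨_, rfl⟩
  obtain ⟨c, hc⟩ : ∃ c, c = ‖mt (k (t e)) - 1‖ := ⟨_, rfl⟩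
  rw [← ha, ← hb, ← hc] at h2
  rw [← ha, ← hb, ← hc]
  have h3 := pow_le_pow_left₀ (norm_nonneg _) h2 2
  refine h3.trans ?_
  nlinarith [sq_nonneg (a - b), sq_nonneg (b - c), sq_nonneg (a - c)]

lemma sum_s_le (k : T → G) (u : E → T) :
    ∑ e, ‖mt (k (u e)) - 1‖ ^ 2 ≤ Fintype.card E * nr k := by
  calc ∑ e, ‖mt (k (u e)) - 1‖ ^ 2 ≤ ∑ _e : E, nr k := by
        refine Finset.sum_le_sum fun e _ => ?_
        exact Finset.single_le_sum (f := fun y => ‖mt (k y) - 1‖ ^ 2) (fun _ _ => sq_nonneg _)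
          (Finset.mem_univ (u e))
    _ = _ := by rw [Finset.sum_const, Finset.card_univ, nsmul_eq_mul]

section coer

variable {V : (E → G) → ℝ} (hV : Continuous V) (hV0 : ∀ φ, 0 ≤ V φ)
  (hVg : ∀ h φ, V (act s t h φ) = V φ) (hVz : ∀ φ, V φ = 0 → ∃ h, φ = act s t h φ₀)

include D hV hV0 hVg hVz in
/-- off the tube the potential is bounded below -/
lemma off_tube {δ : ℝ} (hδ : 0 < δ) (hδ₀ : δ ≤ δ₀) :
    ∃ c : ℝ, 0 < c ∧ ∀ φ, φ ∉ Tube B hG s t φ₀ P δ → c ≤ V φ := by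
  have hcomp := compG hG
  by_contra hcon
  push Not at hcon
  have h1 : ∀ m : ℕ, ∃ φ, φ ∉ Tube B hG s t φ₀ P δ ∧ V φ < 1 / ((m : ℝ) + 1) :=
    fun m => hcon _ (by positivity)
  choose φ hφ hVφ using h1
  obtain ⟨ψ, -, τ, hτ, hlim⟩ := isCompact_univ.tendsto_subseq (fun m => Set.mem_univ (φ m))
  have hV1 : Tendsto (fun m => V (φ m)) atTop (𝓝 0) :=
    squeeze_zero (fun m => hV0 _) (fun m => (hVφ m).le) tendsto_one_div_add_atTop_nhds_zero_nat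
  have hV2 : V ψ = 0 :=
    tendsto_nhds_unique ((hV.tendsto ψ).comp hlim) (hV1.comp hτ.tendsto_atTop)
  obtain ⟨h, hh⟩ := hVz ψ hV2
  have h3 : Tendsto (fun m => act s t h⁻¹ (φ (τ m))) atTop (𝓝 φ₀) := by
    have := act_tendsto s t (tendsto_const_nhds (x := h⁻¹) (f := atTop)) hlim
    rw [hh, ← act_mul, inv_mul_cancel, act_one] at this
    exact this
  obtain ⟨m, hm⟩ := (h3.eventually (tube_nhds D hδ hδ₀)).exists
  exact hφ (τ m) ((act_Tube_iff B hG s t φ₀ P _ _).1 hm)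

include D hV hV0 hVg hVz in
/-- **Coercivity in the tube.** -/
lemma coer_tube {δ : ℝ} (hδ : 0 < δ) (hδ₀ : δ ≤ δ₀)
    (hloc : ∃ c : ℝ, 0 < c ∧ ∀ᶠ v in 𝓝 (0 : E → Fin n → ℝ), P v = 0 →
      c * ‖v‖ ^ 2 ≤ V (exM B hG φ₀ v)) :
    ∃ c : ℝ, 0 < c ∧ ∀ φ ∈ Tube B hG s t φ₀ P δ, c * nM φ₀ φ ≤ V φ + gd B hG s t φ₀ P δ φ := by
  have hcomp := compG hG
  obtain ⟨c₁, hc₁, hloc⟩ := hloc
  obtain ⟨C₁, hC₁, hEM⟩ := EM_bigO (B := B)
  by_contra hcon
  push Not at hcon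
  have h1 : ∀ m : ℕ, ∃ φ ∈ Tube B hG s t φ₀ P δ,
      V φ + gd B hG s t φ₀ P δ φ < 1 / ((m : ℝ) + 1) * nM φ₀ φ :=
    fun m => hcon _ (by positivity)
  choose φ hφ hlt using h1
  have h2 : ∀ m, ∃ k v, ‖v‖ ≤ δ ∧ P v = 0 ∧ act s t k (exM B hG φ₀ v) = φ m ∧
      nr k = gd B hG s t φ₀ P δ (φ m) := by
    intro m
    obtain ⟨k, hk, he⟩ := gd_attained B hG s t φ₀ P (hφ m)
    obtain ⟨v, h4, h5, h6⟩ := (mem_Kf B hG s t φ₀ P).1 hk
    exact ⟨k, v, h4, h5, h6, he⟩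
  choose k v hv hPv hact hnr using h2
  obtain ⟨M, hM0, hM⟩ : ∃ M : ℝ, 0 ≤ M ∧ ∀ φ : E → G, nM φ₀ φ ≤ M :=
    ⟨_, by positivity, fun φ => nr_le_const _⟩
  have hbd : ∀ m, V (φ m) + gd B hG s t φ₀ P δ (φ m) ≤ 1 / ((m : ℝ) + 1) * M := fun m =>
    (hlt m).le.trans (mul_le_mul_of_nonneg_left (hM _) (by positivity))
  have hlim0 : Tendsto (fun m : ℕ => 1 / ((m : ℝ) + 1) * M) atTop (𝓝 0) := by
    have := tendsto_one_div_add_atTop_nhds_zero_nat (𝕜 := ℝ) |>.mul_const M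
    rwa [zero_mul] at this
  have hV1 : Tendsto (fun m => V (φ m)) atTop (𝓝 0) :=
    squeeze_zero (fun m => hV0 _) (fun m => by
      have := gd_nonneg B hG s t φ₀ P δ (φ m); linarith [hbd m]) hlim0
  have hnr1 : Tendsto (fun m => nr (k m)) atTop (𝓝 0) :=
    squeeze_zero (fun m => nr_nonneg _) (fun m => by
      rw [hnr]; linarith [hbd m, hV0 (φ m)]) hlim0
  -- convergence of `v`
  obtain ⟨w, -, τ, hτ, hlim⟩ := (isCompact_closedBall (0 : E → Fin n → ℝ) δ).tendsto_subseq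
    (x := v) (fun m => by rw [Metric.mem_closedBall, dist_zero_right]; exact hv m)
  have hτt := hτ.tendsto_atTop
  have hVw : V (exM B hG φ₀ w) = 0 := by
    have e1 : ∀ m, V (exM B hG φ₀ (v m)) = V (φ m) := fun m => by rw [← hact m, hVg]
    have e2 : Tendsto (fun m => V (exM B hG φ₀ (v (τ m)))) atTop (𝓝 (V (exM B hG φ₀ w))) :=
      ((hV.comp (exM_cont B hG φ₀)).tendsto w).comp hlim
    refine tendsto_nhds_unique e2 ?_
    simp only [e1]
    exact hV1.comp hτt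
  have hPw : P w = 0 := by
    have e1 : Tendsto (fun m => P (v (τ m))) atTop (𝓝 (P w)) :=
      ((LinearMap.continuous_of_finiteDimensional P).tendsto w).comp hlim
    simp only [hPv] at e1
    exact tendsto_nhds_unique e1 tendsto_const_nhds |>.symm ▸ rfl
  have hwn : ‖w‖ ≤ δ := by
    refine le_of_tendsto hlim.norm (Eventually.of_forall fun m => hv _)
  obtain ⟨h, hh⟩ := hVz _ hVw
  have hw0 : w = 0 := by
    have e1 : act s t h (exM B hG φ₀ 0) = exM B hG φ₀ w := by rw [exM_zero, ← hh]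
    exact (D.uniq h 0 w (by rw [norm_zero]; exact D.pos.le) (hwn.trans hδ₀) (map_zero _) hPw
      e1).2.symm
  rw [hw0] at hlim
  -- local estimates
  have hE : ∀ᶠ v' in 𝓝 (0 : E → Fin n → ℝ), ∀ e, ‖EM B (v' e) - 1‖ ≤ C₁ * ‖v' e‖ := by
    rw [eventually_all]
    intro e
    exact ((continuous_apply e).tendsto (0 : E → Fin n → ℝ)).eventually hEM
  obtain ⟨K, hK⟩ : ∃ K : ℝ, K = 3 * (Fintype.card E * C₁ ^ 2) / c₁ + 6 * Fintype.card E := ⟨_, rfl⟩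
  have hlK : ∀ᶠ m : ℕ in atTop, 1 / ((τ m : ℝ) + 1) * K < 1 := by
    have e1 : Tendsto (fun m : ℕ => 1 / ((τ m : ℝ) + 1) * K) atTop (𝓝 0) := by
      have := ((tendsto_one_div_add_atTop_nhds_zero_nat (𝕜 := ℝ)).comp hτt).mul_const K
      rw [zero_mul] at this
      exact this
    exact e1.eventually (gt_mem_nhds one_pos)
  obtain ⟨m, h1, h2, h3⟩ := ((hlim.eventually hloc).and ((hlim.eventually hE).and hlK)).exists
  simp only [Function.comp_apply] at h1 h2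
  have h4 : c₁ * ‖v (τ m)‖ ^ 2 ≤ V (φ (τ m)) := by
    have := h1 (hPv _)
    rwa [← hVg (k (τ m)), hact] at this
  have h5 := nM_tb (φ₀ := φ₀) (B := B) (hG := hG) (s := s) (t := t) (k (τ m)) (v (τ m))
  rw [hact] at h5
  have h6 := sum_s_le (k (τ m)) s
  have h7 := sum_s_le (k (τ m)) t
  have h8 : ∑ e, ‖EM B (v (τ m) e) - 1‖ ^ 2 ≤ Fintype.card E * C₁ ^ 2 * ‖v (τ m)‖ ^ 2 := by
    calc ∑ e, ‖EM B (v (τ m) e) - 1‖ ^ 2 ≤ ∑ _e : E, (C₁ * ‖v (τ m)‖) ^ 2 := by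
          refine Finset.sum_le_sum fun e _ => pow_le_pow_left₀ (norm_nonneg _) ?_ 2
          refine (h2 e).trans ?_
          gcongr
          exact norm_le_pi_norm (v (τ m)) e
      _ = _ := by rw [Finset.sum_const, Finset.card_univ, nsmul_eq_mul]; ring
  have h9 := hlt (τ m)
  rw [← hnr] at h9
  -- combine
  have hnr0 := nr_nonneg (k (τ m))
  obtain ⟨X, hX⟩ : ∃ X, X = V (φ (τ m)) := ⟨_, rfl⟩
  obtain ⟨Y, hY⟩ : ∃ Y, Y = nr (k (τ m)) := ⟨_, rfl⟩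
  obtain ⟨Z, hZ⟩ : ∃ Z, Z = ‖v (τ m)‖ ^ 2 := ⟨_, rfl⟩
  obtain ⟨Q, hQ⟩ : ∃ Q, Q = nM φ₀ (φ (τ m)) := ⟨_, rfl⟩
  obtain ⟨a, ha⟩ : ∃ a : ℝ, a = 1 / ((τ m : ℝ) + 1) := ⟨_, rfl⟩
  obtain ⟨cE, hcE⟩ : ∃ cE : ℝ, cE = (Fintype.card E : ℝ) := ⟨_, rfl⟩
  have hcE0 : 0 ≤ cE := by rw [hcE]; positivity
  have ha0 : 0 < a := by rw [ha]; positivity
  rw [← hX, ← hZ] at h4
  rw [← hX, ← hY, ← hQ, ← ha] at h9
  rw [← hQ] at h5
  rw [← hY, ← hcE] at h6 h7
  rw [← hZ, ← hcE] at h8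
  rw [← ha, hK, ← hcE] at h3
  rw [← hY] at hnr0
  have hZX : Z ≤ X / c₁ := by rw [le_div_iff₀ hc₁]; linarith
  have hX0 : 0 ≤ X := by rw [hX]; exact hV0 _
  have hQ1 : Q ≤ (3 * (cE * C₁ ^ 2) / c₁ + 6 * cE) * (X + Y) := by
    have e1 : Q ≤ 3 * (cE * C₁ ^ 2 * Z) + 3 * (cE * Y + cE * Y) := by
      refine h5.trans ?_
      gcongr
    have e2 : cE * C₁ ^ 2 * Z ≤ cE * C₁ ^ 2 * (X / c₁) :=
      mul_le_mul_of_nonneg_left hZX (by positivity)
    have e3 : 0 ≤ 3 * (cE * C₁ ^ 2) / c₁ * Y := by positivity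
    have e4 : 0 ≤ 6 * cE * X := by positivity
    have e5 : 3 * (cE * C₁ ^ 2 * (X / c₁)) = 3 * (cE * C₁ ^ 2) / c₁ * X := by ring
    nlinarith
  have h10 : a * Q ≤ a * (3 * (cE * C₁ ^ 2) / c₁ + 6 * cE) * (X + Y) := by
    rw [mul_assoc]; exact mul_le_mul_of_nonneg_left hQ1 ha0.le
  have h11 : a * (3 * (cE * C₁ ^ 2) / c₁ + 6 * cE) * (X + Y) ≤ 1 * (X + Y) :=
    mul_le_mul_of_nonneg_right h3.le (by linarith)
  linarith

end coer

/-! ### the gauge fixing function -/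

section chi

variable [MeasurableSpace G] [BorelSpace G] (μ : Measure G) [IsProbabilityMeasure μ]
  [μ.IsMulLeftInvariant] [μ.IsMulRightInvariant]

variable (hG P) in
lemma gd_measurable_tube (δ : ℝ) :
    Measurable fun q : Tube B hG s t φ₀ P δ => gd B hG s t φ₀ P δ q.1 := by
  refine measurable_of_Iic fun b => ?_
  have h := (gd_meas B hG s t φ₀ P (δ := δ)).2 b
  have h2 : (fun q : Tube B hG s t φ₀ P δ => gd B hG s t φ₀ P δ q.1) ⁻¹' Set.Iic b =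
      Subtype.val ⁻¹' {φ | φ ∈ Tube B hG s t φ₀ P δ ∧ gd B hG s t φ₀ P δ φ ≤ b} := by
    ext q
    simp
  rw [h2]
  exact measurable_subtype_coe h

open Classical in
variable (B hG s t φ₀ P) in
/-- the gauge fixing energy: `gd` on the tube, `b` off the tube -/
def ge (δ b : ℝ) (φ : E → G) : ℝ :=
  if φ ∈ Tube B hG s t φ₀ P δ then gd B hG s t φ₀ P δ φ else b

open Classical in
variable (hG P) in
lemma ge_measurable (δ b : ℝ) : Measurable (ge B hG s t φ₀ P δ b) := by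
  unfold ge
  refine Measurable.dite (f := fun φ => gd B hG s t φ₀ P δ φ.1) (g := fun _ => b)
    (gd_measurable_tube hG P δ) measurable_const (gd_meas B hG s t φ₀ P (δ := δ)).1

include D in
lemma rr_measurable : Measurable (rr Zc : (T → G) → ℝ) := by
  have h1 : (rr Zc : (T → G) → ℝ) = fun k => ge B hG s t φ₀ P δ₀ 0 (act s t k φ₀) := by
    funext k
    have h2 : act s t k φ₀ = act s t k (exM B hG φ₀ 0) := by rw [exM_zero]
    have h3 : act s t k φ₀ ∈ Tube B hG s t φ₀ P δ₀ := by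
      rw [h2]
      exact ⟨(k, 0), ⟨by rw [norm_zero]; exact D.pos.le, map_zero _⟩, rfl⟩
    unfold ge
    rw [if_pos h3, h2, gd_act B hG s t φ₀ P Zc le_rfl D.uniq D.triv
      (by rw [norm_zero]; exact D.pos.le) (map_zero _)]
  rw [h1]
  refine (ge_measurable hG P δ₀ 0).comp ?_
  have : Continuous fun k : T → G => act s t k φ₀ := act_cont s t continuous_id continuous_const
  exact this.measurable

lemma rr_nonneg (k : T → G) : 0 ≤ rr Zc k := by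
  refine Real.sInf_nonneg ?_
  rintro _ ⟨ζ, -, rfl⟩
  exact nr_nonneg _

/-- the normalisation of the gauge fixing weight -/
def cN (Zc : Subgroup (T → G)) (a : ℝ) : ℝ :=
  ∫ k : T → G, Real.exp (-(a * rr Zc k)) ∂(Measure.pi fun _ => μ)

include D in
lemma cN_int {a : ℝ} (ha : 0 ≤ a) : Integrable (fun k : T → G => Real.exp (-(a * rr Zc k)))
    (Measure.pi fun _ => μ) := by
  refine Integrable.of_bound (C := 1) ?_ ?_
  · exact (((rr_measurable D).const_mul a).neg.exp).aestronglyMeasurable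
  · refine Eventually.of_forall fun k => ?_
    rw [Real.norm_eq_abs, abs_of_pos (Real.exp_pos _)]
    refine Real.exp_le_one_iff.2 ?_
    have := mul_nonneg ha (rr_nonneg (Zc := Zc) k)
    linarith

include D in
lemma cN_pos {a : ℝ} (ha : 0 ≤ a) : 0 < cN μ Zc a := by
  unfold cN
  exact integral_exp_pos (cN_int D μ ha)

include D in
lemma cN_le {a : ℝ} (ha : 0 ≤ a) : cN μ Zc a ≤ 1 := by
  unfold cN
  have h : ∫ k : T → G, Real.exp (-(a * rr Zc k)) ∂(Measure.pi fun _ => μ) ≤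
      ∫ _k : T → G, (1 : ℝ) ∂(Measure.pi fun _ => μ) := by
    refine integral_mono (cN_int D μ ha) (integrable_const _) fun k => ?_
    refine Real.exp_le_one_iff.2 ?_
    have := mul_nonneg ha (rr_nonneg (Zc := Zc) k)
    linarith
  simpa using h

include D in
/-- **Normalisation of the gauge fixing.** With `b` such that `exp (-(a b))` is the normalisation,
the average over the gauge group of `exp (-(a ge))` is the same for all connections. -/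
theorem chi_norm {δ : ℝ} (hδ : 0 < δ) (hδ₀ : δ ≤ δ₀) {a b : ℝ} (ha : 0 ≤ a)
    (hb : Real.exp (-(a * b)) = cN μ Zc a) (φ : E → G) :
    ∫ h : T → G, Real.exp (-(a * ge B hG s t φ₀ P δ b (act s t h φ))) ∂(Measure.pi fun _ => μ) =
      cN μ Zc a := by
  by_cases hφ : φ ∈ Tube B hG s t φ₀ P δ
  · obtain ⟨q, hq, rfl⟩ := hφ
    have h1 : ∀ h : T → G, ge B hG s t φ₀ P δ b (act s t h (tb B hG s t φ₀ q)) =
        rr Zc (h * q.1) := by
      intro h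
      have h2 : act s t h (tb B hG s t φ₀ q) = act s t (h * q.1) (exM B hG φ₀ q.2) := by
        unfold tb; rw [act_mul]
      have h3 : act s t h (tb B hG s t φ₀ q) ∈ Tube B hG s t φ₀ P δ :=
        act_Tube B hG s t φ₀ P h ⟨q, hq, rfl⟩
      unfold ge
      rw [if_pos h3, h2, gd_act B hG s t φ₀ P Zc hδ₀ D.uniq D.triv hq.1 hq.2]
    simp only [h1]
    unfold cN
    exact integral_mul_right_eq_self (μ := (Measure.pi fun _ : T => μ))
      (fun h : T → G => Real.exp (-(a * rr Zc h))) q.1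
  · have h1 : ∀ h : T → G, ge B hG s t φ₀ P δ b (act s t h φ) = b := by
      intro h
      unfold ge
      rw [if_neg fun h2 => hφ ((act_Tube_iff B hG s t φ₀ P h φ).1 h2)]
    simp only [h1, hb]
    simp

end chi

end

end Pool.Agent.N984.TW
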