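import Mathlib
import Pool.Agent.N984.TW.Defs
import Pool.Agent.N984.TW.Slice4

/-!
# The action in terms of the fibres over the sites of the plane
-/

open MeasureTheory Matrix
open scoped Matrix.Norms.Frobenius
open Pool.Agent.H906R3.YM Pool.Agent.W793.YM Pool.Agent.TH618.YM

namespace Pool.Agent.N984.TW

set_option linter.unusedSectionVars false

noncomputable section

variable {N l : ℕ}

/-- The torus links in a fibre; `j : Fin 2` is the direction `j + 2`. -/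
def phi (u : Fib N l) : Tor l × Fin 2 → SU N := fun e => u (e.1, Fin.natAdd 2 e.2)

/-- The plane links in a fibre, direction `k`. -/
def psi (u : Fib N l) (k : Fin 2) : Tor l → SU N := fun y => u (y, Fin.castAdd 2 k)

/-- unit vectors of the torus -/
def uT (l : ℕ) (j : Fin 2) : Tor l := if j = 0 then (1, 0) else (0, 1)

/-- unit vectors of the plane -/
def uP (k : Fin 2) : Pl := if k = 0 then (1, 0) else (0, 1)

/-- start and end of the torus links -/
def sE (e : Tor l × Fin 2) : Tor l := e.1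

def tE (e : Tor l × Fin 2) : Tor l := e.1 + uT l e.2

/-- the twist -/
def twT (z : ℂ) (y : Tor l) : ℂ := if y = (-1, -1) then z else 1

/-- The energy of the torus plaquettes. -/
def VV [NeZero l] (z : ℂ) (φ : Tor l × Fin 2 → SU N) : ℝ :=
  ∑ y : Tor l, ((N : ℝ) - (star (twT z y) * trace (mt (φ (y, 0) * φ (y + uT l 0, 1) *
    (φ (y + uT l 1, 0))⁻¹ * (φ (y, 1))⁻¹))).re)

/-- The energy of the mixed plaquettes. -/
def hop [NeZero l] (φ : Tor l × Fin 2 → SU N) (k : Tor l → SU N) (φ' : Tor l × Fin 2 → SU N) : ℝ :=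
  ∑ e : Tor l × Fin 2, ((N : ℝ) - (trace (mt (act sE tE k φ' e * (φ e)⁻¹))).re)

/-- The energy of the plane plaquettes. -/
def SP [NeZero l] (a b c d : Tor l → SU N) : ℝ :=
  ∑ y : Tor l, ((N : ℝ) - (trace (mt (a y * b y * (c y)⁻¹ * (d y)⁻¹))).re)

lemma uP_zero : uP 0 = eP 0 := rfl
lemma uP_one : uP 1 = eP 1 := rfl

lemma trace_one_re : (trace (1 : Mat N)).re = N := by
  rw [trace_one, Fintype.card_fin]; simp

lemma pe_tt [NeZero l] (z : ℂ) (U : Pl → Fib N l) (X : Pl) (y : Tor l) :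
    pe z U X y 2 3 = (N : ℝ) - (star (twT z y) * trace (mt (phi (U X) (y, 0) *
      phi (U X) (y + uT l 0, 1) * (phi (U X) (y + uT l 1, 0))⁻¹ * (phi (U X) (y, 1))⁻¹))).re := by
  have e0 : X + eP 2 = X := add_zero X
  have e1 : X + eP 3 = X := add_zero X
  have h : plaq U X y 2 3 = phi (U X) (y, 0) * phi (U X) (y + uT l 0, 1) *
      (phi (U X) (y + uT l 1, 0))⁻¹ * (phi (U X) (y, 1))⁻¹ := by
    unfold plaq
    rw [e0, e1]
    rfl
  have h2 : tw z y 2 3 = twT z y := by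
    unfold tw twT
    simp
  unfold pe
  rw [h2, h]
  rfl

lemma tw_one (z : ℂ) (y : Tor l) (i j : Fin 4) (h : ¬(i = 2 ∧ j = 3)) : tw z y i j = 1 := by
  unfold tw
  rw [if_neg]
  rintro ⟨h1, h2, -⟩
  exact h ⟨h1, h2⟩

lemma pe_pt [NeZero l] (z : ℂ) (U : Pl → Fib N l) (X : Pl) (y : Tor l) (k j : Fin 2) :
    pe z U X y (Fin.castAdd 2 k) (Fin.natAdd 2 j) = (N : ℝ) - (trace (mt (act sE tE (psi (U X) k)
      (phi (U (X + uP k))) (y, j) * (phi (U X) (y, j))⁻¹))).re := by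
  have e0 : X + eP (Fin.natAdd 2 j) = X := by fin_cases j <;> exact add_zero X
  have e1 : X + eP (Fin.castAdd 2 k) = X + uP k := by fin_cases k <;> rfl
  have e2 : y + eT l (Fin.castAdd 2 k) = y := by fin_cases k <;> exact add_zero y
  have e3 : y + eT l (Fin.natAdd 2 j) = tE (y, j) := by fin_cases j <;> rfl
  have h : plaq U X y (Fin.castAdd 2 k) (Fin.natAdd 2 j) = act sE tE (psi (U X) k)
      (phi (U (X + uP k))) (y, j) * (phi (U X) (y, j))⁻¹ := by
    unfold plaq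
    rw [e0, e1, e2, e3]
    rfl
  unfold pe
  rw [tw_one, h, star_one, one_mul]
  · rfl
  · rintro ⟨h1, -⟩
    fin_cases k <;> simp at h1

lemma pe_pp [NeZero l] (z : ℂ) (U : Pl → Fib N l) (X : Pl) (y : Tor l) :
    pe z U X y 0 1 = (N : ℝ) - (trace (mt (psi (U X) 0 y * psi (U (X + uP 0)) 1 y *
      (psi (U (X + uP 1)) 0 y)⁻¹ * (psi (U X) 1 y)⁻¹))).re := by
  have e2 : y + eT l 0 = y := add_zero y
  have e3 : y + eT l 1 = y := add_zero y
  have h : plaq U X y 0 1 = psi (U X) 0 y * psi (U (X + uP 0)) 1 y *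
      (psi (U (X + uP 1)) 0 y)⁻¹ * (psi (U X) 1 y)⁻¹ := by
    unfold plaq
    rw [e2, e3]
    rfl
  unfold pe
  rw [tw_one _ _ _ _ (by decide), h, star_one, one_mul]
  rfl

/-- The action in the fibre form. -/
theorem action_eq [NeZero l] (z : ℂ) (Λ : Finset Pl) (U : Pl → Fib N l) :
    action z Λ U = ∑ X ∈ Λ, (VV z (phi (U X)) +
      (∑ k : Fin 2, if X + uP k ∈ Λ then hop (phi (U X)) (psi (U X) k) (phi (U (X + uP k)))
        else 0) +
      if X + uP 0 ∈ Λ ∧ X + uP 1 ∈ Λ ∧ X + uP 0 + uP 1 ∈ Λ then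
        SP (psi (U X) 0) (psi (U (X + uP 0)) 1) (psi (U (X + uP 1)) 0) (psi (U X) 1) else 0) := by
  unfold action
  refine Finset.sum_congr rfl fun X hX => ?_
  have e0 : X + eP 2 = X := add_zero X
  have e1 : X + eP 3 = X := add_zero X
  have c : ∀ (i j : Fin 4) (Q : Prop) [Decidable Q] (f : Tor l → ℝ), i < j →
      ((i < j ∧ X + eP i ∈ Λ ∧ X + eP j ∈ Λ ∧ X + eP i + eP j ∈ Λ) ↔ Q) →
      (∑ y : Tor l, if i < j ∧ X + eP i ∈ Λ ∧ X + eP j ∈ Λ ∧ X + eP i + eP j ∈ Λ then f y else 0) =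
        if Q then ∑ y, f y else 0 := by
    intro i j Q _ f _ h
    by_cases hQ : Q
    · rw [if_pos hQ]
      exact Finset.sum_congr rfl fun y _ => if_pos (h.2 hQ)
    · rw [if_neg hQ]
      exact Finset.sum_eq_zero fun y _ => if_neg fun h1 => hQ (h.1 h1)
  have n : ∀ (i j : Fin 4) (f : Tor l → ℝ), ¬ i < j →
      (∑ y : Tor l, if i < j ∧ X + eP i ∈ Λ ∧ X + eP j ∈ Λ ∧ X + eP i + eP j ∈ Λ then f y else 0) =
        0 := by
    intro i j f h
    exact Finset.sum_eq_zero fun y _ => if_neg fun h1 => h h1.1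
  rw [Finset.sum_comm]
  simp only [Fin.sum_univ_four, Finset.sum_add_distrib]
  rw [n 0 0 _ (by decide), n 1 0 _ (by decide), n 2 0 _ (by decide), n 3 0 _ (by decide),
    n 1 1 _ (by decide), n 2 1 _ (by decide), n 3 1 _ (by decide), n 2 2 _ (by decide),
    n 3 2 _ (by decide), n 3 3 _ (by decide),
    c 2 3 True _ (by decide) (by rw [e0, e1]; simp [hX]),
    c 0 2 (X + uP 0 ∈ Λ) _ (by decide)
      (by rw [e0, show X + eP 0 + eP 2 = X + eP 0 from add_zero _]; simp [hX, uP_zero]),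
    c 0 3 (X + uP 0 ∈ Λ) _ (by decide)
      (by rw [e1, show X + eP 0 + eP 3 = X + eP 0 from add_zero _]; simp [hX, uP_zero]),
    c 1 2 (X + uP 1 ∈ Λ) _ (by decide)
      (by rw [e0, show X + eP 1 + eP 2 = X + eP 1 from add_zero _]; simp [hX, uP_one]),
    c 1 3 (X + uP 1 ∈ Λ) _ (by decide)
      (by rw [e1, show X + eP 1 + eP 3 = X + eP 1 from add_zero _]; simp [hX, uP_one]),
    c 0 1 (X + uP 0 ∈ Λ ∧ X + uP 1 ∈ Λ ∧ X + uP 0 + uP 1 ∈ Λ) _ (by decide)
      (by simp [uP_zero, uP_one])]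
  have h1 : (∑ y : Tor l, pe z U X y 2 3) = VV z (phi (U X)) :=
    Finset.sum_congr rfl fun y _ => pe_tt z U X y
  have h2 : (∑ y : Tor l, pe z U X y 0 1) =
      SP (psi (U X) 0) (psi (U (X + uP 0)) 1) (psi (U (X + uP 1)) 0) (psi (U X) 1) :=
    Finset.sum_congr rfl fun y _ => pe_pp z U X y
  have h3 : ∀ k : Fin 2, (∑ y : Tor l, pe z U X y (Fin.castAdd 2 k) 2) +
      (∑ y : Tor l, pe z U X y (Fin.castAdd 2 k) 3) =
      hop (phi (U X)) (psi (U X) k) (phi (U (X + uP k))) := by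
    intro k
    unfold hop
    rw [← Finset.sum_add_distrib]
    refine Eq.trans ?_ (Fintype.sum_prod_type _).symm
    refine Finset.sum_congr rfl fun y _ => ?_
    rw [Fin.sum_univ_two]
    exact congrArg₂ (· + ·) (pe_pt z U X y k 0) (pe_pt z U X y k 1)
  have h4 := h3 0
  have h5 := h3 1
  rw [Fin.sum_univ_two, ← h1, ← h2, ← h4, ← h5, if_pos trivial]
  have c0 : (Fin.castAdd 2 (0 : Fin 2) : Fin 4) = 0 := rfl
  have c1 : (Fin.castAdd 2 (1 : Fin 2) : Fin 4) = 1 := rfl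
  rw [c0, c1]
  by_cases a : X + uP 0 ∈ Λ <;> by_cases b : X + uP 1 ∈ Λ <;>
    by_cases c : X + uP 0 + uP 1 ∈ Λ <;> simp [a, b, c] <;> ring

/-- Fibre form of gauge transformations. -/
theorem phi_gt (h : Pl → Tor l → SU N) (U : Pl → Fib N l) (X : Pl) :
    phi (gt h U X) = act sE tE (h X) (phi (U X)) := by
  funext e
  obtain ⟨y, j⟩ := e
  have h1 : X + eP (Fin.natAdd 2 j) = X := by
    fin_cases j <;> exact add_zero X
  have h2 : y + eT l (Fin.natAdd 2 j) = tE (y, j) := by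
    fin_cases j <;> rfl
  show h X y * U X (y, Fin.natAdd 2 j) * (h (X + eP (Fin.natAdd 2 j)) (y + eT l (Fin.natAdd 2 j)))⁻¹ = _
  rw [h1, h2]
  rfl

theorem psi_gt (h : Pl → Tor l → SU N) (U : Pl → Fib N l) (X : Pl) (k : Fin 2) :
    psi (gt h U X) k = h X * psi (U X) k * (h (X + uP k))⁻¹ := by
  funext y
  have h1 : X + eP (Fin.castAdd 2 k) = X + uP k := by
    fin_cases k <;> rfl
  have h2 : y + eT l (Fin.castAdd 2 k) = y := by
    fin_cases k <;> exact add_zero y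
  show h X y * U X (y, Fin.castAdd 2 k) * (h (X + eP (Fin.castAdd 2 k)) (y + eT l (Fin.castAdd 2 k)))⁻¹ = _
  rw [h1, h2]
  rfl

end

end Pool.Agent.N984.TW
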