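import Mathlib
import Pool.Agent.N984.TW.Fibre

/-!
# The gauge fixed ensemble with plaquette variables in the centre
-/

open MeasureTheory Matrix Filter
open scoped Matrix.Norms.Frobenius Topology
open Pool.Agent.H906R3.YM Pool.Agent.W793.YM Pool.Agent.TH618.YM

namespace Pool.Agent.N984.TW

set_option linter.unusedSectionVars false

noncomputable section

/-- The data: a vacuum of the torus potential, the slice, the stabiliser. -/
structure Dat (N l n : ℕ) [NeZero N] [NeZero l] where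
  z : ℂ
  B : Frame (SU N) n
  hG : IsClosed (SU N : Set (UN N))
  φ₀ : Tor l × Fin 2 → SU N
  P : (Tor l × Fin 2 → Fin n → ℝ) →ₗ[ℝ] (Tor l → Fin n → ℝ)
  Zc : Subgroup (Tor l → SU N)
  δ₀ : ℝ
  c₀ : ℝ
  /-- the strength of the gauge fixing -/
  κ : ℝ
  hκ : 0 < κ
  D : SliceD B hG sE tE φ₀ P Zc δ₀ c₀
  fin : Finite Zc
  cen : ∀ ζ ∈ Zc, ∀ k : Tor l → SU N, ζ * k = k * ζ
  Vc : Continuous (VV z : (Tor l × Fin 2 → SU N) → ℝ)
  V0 : ∀ φ : Tor l × Fin 2 → SU N, 0 ≤ VV z φ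
  Vi : ∀ (h : Tor l → SU N) (φ : Tor l × Fin 2 → SU N), VV z (act sE tE h φ) = VV z φ
  Vz : ∀ φ : Tor l × Fin 2 → SU N, VV z φ = 0 → ∃ h, φ = act sE tE h φ₀
  Vl : ∃ c > (0 : ℝ), ∀ᶠ v in 𝓝 (0 : Tor l × Fin 2 → Fin n → ℝ), P v = 0 →
    c * ‖v‖ ^ 2 ≤ VV z (exM B hG φ₀ v)
  Vu : ∃ C : ℝ, ∀ φ : Tor l × Fin 2 → SU N, VV z φ ≤ C * nM φ₀ φ

namespace Dat

variable {N l n : ℕ} [NeZero N] [NeZero l] (𝔇 : Dat N l n)

instance : Finite 𝔇.Zc := 𝔇.fin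

/-- the spins: links over a site of the plane, and a plaquette variable in the centre -/
abbrev KK := Fib N l × 𝔇.Zc

/-- the vacuum: `1` on the plane links, `φ₀` on the torus links -/
def u0 : Fib N l := fun p => Fin.addCases (fun _ => (1 : SU N)) (fun j => 𝔇.φ₀ (p.1, j)) p.2

lemma phi_mul_u0 (u : Fib N l) : phi (u * 𝔇.u0) = phi u * 𝔇.φ₀ := by
  funext e
  show u (e.1, Fin.natAdd 2 e.2) * 𝔇.u0 (e.1, Fin.natAdd 2 e.2) = _
  have h : 𝔇.u0 (e.1, Fin.natAdd 2 e.2) = 𝔇.φ₀ e := by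
    unfold u0
    exact Fin.addCases_right (m := 2) (n := 2) e.2
  rw [h]
  rfl

lemma psi_mul_u0 (u : Fib N l) (k : Fin 2) : psi (u * 𝔇.u0) k = psi u k := by
  funext y
  show u (y, Fin.castAdd 2 k) * 𝔇.u0 (y, Fin.castAdd 2 k) = _
  have h : 𝔇.u0 (y, Fin.castAdd 2 k) = 1 := by
    unfold u0
    exact Fin.addCases_left (m := 2) (n := 2) k
  rw [h, mul_one]
  rfl

variable [MeasurableSpace (SU N)] (μ : Measure (SU N))

/-- the value of the gauge fixing function off the tube -/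
def bb (β : ℝ) : ℝ := -Real.log (cN μ 𝔇.Zc β) / β

/-- the value of the sheet function away from the stabiliser -/
def b2 (β : ℝ) : ℝ :=
  -Real.log ((1 + ((Nat.card 𝔇.Zc : ℝ) - 1) * Real.exp (-β)) / Nat.card 𝔇.Zc) / β

open scoped Classical in
/-- the sheet function: `0` near `1`, `1` near the other elements of the stabiliser -/
def e2 (r β : ℝ) (ψ : Tor l → SU N) : ℝ :=
  if nr ψ ≤ r then 0 else if ∃ ζ ∈ 𝔇.Zc, nr (ζ⁻¹ * ψ) ≤ r then 1 else 𝔇.b2 β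

/-- the energy of the torus links over a site -/
def fib (δ β : ℝ) (φ : Tor l × Fin 2 → SU N) : ℝ :=
  VV 𝔇.z φ + 𝔇.κ * ge 𝔇.B 𝔇.hG sE tE 𝔇.φ₀ 𝔇.P δ (𝔇.bb μ (𝔇.κ * β)) φ

/-- the energy of a link of the plane -/
def lnk (r β : ℝ) (φ : Tor l × Fin 2 → SU N) (ψ : Tor l → SU N) (φ' : Tor l × Fin 2 → SU N) : ℝ :=
  hop φ ψ φ' + 𝔇.e2 r β ψ

/-- the physical links of a spin -/
def ph (g : 𝔇.KK) : Fib N l := g.1 * 𝔇.u0

open scoped Classical in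
/-- The energy of the gauge fixed ensemble over `Λ`. -/
def Hh (δ r β : ℝ) (Λ : Finset Pl) (g : Pl → 𝔇.KK) : ℝ :=
  ∑ X ∈ Λ, (𝔇.fib μ δ β (phi (𝔇.ph (g X))) +
    (∑ k : Fin 2, if X + uP k ∈ Λ then
        𝔇.lnk r β (phi (𝔇.ph (g X))) (psi (𝔇.ph (g X)) k) (phi (𝔇.ph (g (X + uP k))))
      else nr (psi (𝔇.ph (g X)) k)) +
    if X + uP 0 ∈ Λ ∧ X + uP 1 ∈ Λ ∧ X + uP 0 + uP 1 ∈ Λ then
      SP (((g X).2 : Tor l → SU N) * psi (𝔇.ph (g X)) 0) (psi (𝔇.ph (g (X + uP 0))) 1)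
        (psi (𝔇.ph (g (X + uP 1))) 0) (psi (𝔇.ph (g X)) 1)
    else if (g X).2 = 1 then 0 else 1)

/-- the sheets: `zz c a x m = ∏_{a ≤ t < a + m} (c (x, t))⁻¹` -/
def zz (c : Pl → 𝔇.Zc) (a x : ℤ) : ℕ → 𝔇.Zc
  | 0 => 1
  | m + 1 => zz c a x m * (c (x, a + m))⁻¹

/-- the links in direction `0` are multiplied by the sheet -/
def lift (a : ℤ) (g : Pl → 𝔇.KK) : Pl → Fib N l := fun X p =>
  (if p.2 = 0 then
    (𝔇.zz (fun Y => (g Y).2) a X.1 (X.2 - a).toNat : Tor l → SU N) p.1 else 1) * 𝔇.ph (g X) p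

/-- extension by `1` -/
def extK (Λ : Finset Pl) (g : Λ → 𝔇.KK) : Pl → 𝔇.KK := fun X =>
  if h : X ∈ Λ then g ⟨X, h⟩ else 1

/-- the uniform distribution on the stabiliser -/
def uni : Measure 𝔇.Zc := ((Nat.card 𝔇.Zc : ENNReal)⁻¹) • Measure.count

/-- the a priori measure of the spins -/
def nu : Measure 𝔇.KK := (Measure.pi fun _ => μ).prod 𝔇.uni

end Dat

end

end Pool.Agent.N984.TW
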