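import Mathlib
import Pool.Agent.N984.TW.Slice4

/-!
# The spin space: norm, coordinates, exponential map
-/

open MeasureTheory Matrix Filter
open scoped Matrix.Norms.Frobenius ContDiff Topology
open Pool.Agent.H906R3.YM Pool.Agent.W793.YM Pool.Agent.TH618.YM

namespace Pool.Agent.N984.TW

set_option linter.unusedSectionVars false

noncomputable section

variable {N n : ℕ} {G : Subgroup (UN N)} (B : Frame G n) (hG : IsClosed (G : Set (UN N)))

/-! ### The orthogonal projection to the Lie algebra -/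

lemma ip_LX' (x : Fin n → ℝ) (A : Mat N) : ip A (LX B x) = ∑ a, x a * pc B A a := by
  unfold LX pc
  rw [map_sum]
  refine Finset.sum_congr rfl fun a _ => ?_
  rw [map_smul, smul_eq_mul, ip_comm]

lemma norm_LX_sq (x : Fin n → ℝ) : ‖LX B x‖ ^ 2 = ∑ a, x a ^ 2 := by
  rw [norm_sq_ip, ip_LX', pc_LX]
  exact Finset.sum_congr rfl fun a _ => (sq _).symm

/-- Bessel's inequality -/
lemma pc_sq_le (A : Mat N) : ∑ a, pc B A a ^ 2 ≤ ‖A‖ ^ 2 := by
  have h1 : 0 ≤ ‖A - LX B (pc B A)‖ ^ 2 := sq_nonneg _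
  have h2 : ‖A - LX B (pc B A)‖ ^ 2 = ‖A‖ ^ 2 - ∑ a, pc B A a ^ 2 := by
    have e1 : ip (A - LX B (pc B A)) (A - LX B (pc B A)) =
        ip A A - ip A (LX B (pc B A)) - (ip A (LX B (pc B A)) -
          ip (LX B (pc B A)) (LX B (pc B A))) := by
      rw [map_sub, ip_comm (A - LX B (pc B A)) A, ip_comm (A - LX B (pc B A)) (LX B (pc B A)),
        map_sub, map_sub, ip_comm (LX B (pc B A)) A]
    rw [norm_sq_ip, e1, ip_LX', ip_LX', pc_LX, norm_sq_ip]
    have h3 : ∑ a, pc B A a * pc B A a = ∑ a, pc B A a ^ 2 :=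
      Finset.sum_congr rfl fun a _ => (sq _).symm
    rw [h3]
    ring
  linarith

lemma pc_norm_le (A : Mat N) : ‖pc B A‖ ≤ ‖A‖ := by
  rw [pi_norm_le_iff_of_nonneg (norm_nonneg _)]
  intro a
  rw [Real.norm_eq_abs]
  refine abs_le_of_sq_le_sq ?_ (norm_nonneg _)
  exact (Finset.single_le_sum (f := fun a => pc B A a ^ 2) (fun a _ => sq_nonneg _)
    (Finset.mem_univ a)).trans (pc_sq_le B A)

/-- the exponential in the coordinates of the projection -/
def Ek (x : Fin n → ℝ) : G := Eg B hG (kap B x)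

lemma mt_Ek (x : Fin n → ℝ) : mt (Ek B hG x) = EM B (kap B x) := mt_Eg B hG _

lemma Ek_zero : Ek B hG 0 = 1 := by
  unfold Ek
  rw [kap_zero, Eg_zero]

lemma pc_Ek : ∀ᶠ x in 𝓝 (0 : Fin n → ℝ), pc B (mt (Ek B hG x) - 1) = x := by
  filter_upwards [kap_right B] with x hx
  rw [mt_Ek]
  exact hx

lemma Ek_pc : ∀ᶠ g in 𝓝 (1 : G), Ek B hG (pc B (mt g - 1)) = g := Eg_lg B hG

lemma hasFDerivAt_EMk : HasFDerivAt (fun x => EM B (kap B x)) (LXl B) 0 := by
  have h1 : HasFDerivAt (EM B) (LXl B) (kap B 0) := by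
    rw [kap_zero]; exact hasFDerivAt_EM B
  have h2 := h1.comp (0 : Fin n → ℝ) (hasFDerivAt_kap B)
  exact h2

lemma norm_Ek : ∀ᶠ x in 𝓝 (0 : Fin n → ℝ), ‖mt (Ek B hG x) - 1‖ ^ 2 ≤ 4 * ∑ a, x a ^ 2 := by
  have h1 := (hasFDerivAt_EMk B).isLittleO.bound (show (0 : ℝ) < 1 / 2 by norm_num)
  filter_upwards [h1] with x hx
  have h0 : EM B (kap B 0) = 1 := by rw [kap_zero, EM_zero]
  simp only [h0, sub_zero] at hx
  rw [mt_Ek]
  have h2 : ‖x‖ ≤ ‖LX B x‖ := by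
    have := pc_norm_le B (LX B x)
    rwa [pc_LX] at this
  have h3 : ‖EM B (kap B x) - 1‖ ≤ 2 * ‖LX B x‖ := by
    have h4 : EM B (kap B x) - 1 = (EM B (kap B x) - 1 - LXl B x) + LX B x := by
      have : LXl B x = LX B x := rfl
      rw [this]; abel
    rw [h4]
    refine (norm_add_le _ _).trans ?_
    refine (add_le_add (hx.trans (mul_le_mul_of_nonneg_left h2 (by norm_num))) le_rfl).trans ?_
    linarith [norm_nonneg (LX B x)]
  calc ‖EM B (kap B x) - 1‖ ^ 2 ≤ (2 * ‖LX B x‖) ^ 2 :=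
        pow_le_pow_left₀ (norm_nonneg _) h3 2
    _ = 4 * ∑ a, x a ^ 2 := by rw [mul_pow, norm_LX_sq]; norm_num

/-! ### Spins -/

variable {J : Type*} [Fintype J] {Z : Type*} [Group Z]

/-- the discrete part of the norm -/
def dz (c : Z) : ℝ := by
  classical exact if c = 1 then 0 else 1

lemma dz_one : dz (1 : Z) = 0 := by unfold dz; simp

lemma dz_ne {c : Z} (h : c ≠ 1) : dz c = 1 := by unfold dz; simp [h]

lemma dz_nonneg (c : Z) : 0 ≤ dz c := by
  unfold dz; split_ifs <;> norm_num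

lemma dz_le (c : Z) : dz c ≤ 1 := by
  unfold dz; split_ifs <;> norm_num

lemma dz_sq (c : Z) : dz c ^ 2 = dz c := by
  unfold dz; split_ifs <;> norm_num

lemma dz_mul (c c' : Z) : dz (c * c') ≤ dz c + dz c' := by
  by_cases h : c = 1
  · rw [h, one_mul, dz_one, zero_add]
  · rw [dz_ne h]
    linarith [dz_le (c * c'), dz_nonneg c']

lemma dz_inv (c : Z) : dz c⁻¹ = dz c := by
  by_cases h : c = 1
  · rw [h, inv_one]
  · rw [dz_ne h, dz_ne (by simpa using h)]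

/-- the square of the norm of a spin -/
def nsq (g : (J → G) × Z) : ℝ := nr g.1 + dz g.2

/-- the norm of a spin -/
def nrm (g : (J → G) × Z) : ℝ := Real.sqrt (nsq g)

lemma nsq_nonneg (g : (J → G) × Z) : 0 ≤ nsq g := add_nonneg (nr_nonneg _) (dz_nonneg _)

lemma nrm_nonneg (g : (J → G) × Z) : 0 ≤ nrm g := Real.sqrt_nonneg _

lemma nrm_sq (g : (J → G) × Z) : nrm g ^ 2 = nsq g := Real.sq_sqrt (nsq_nonneg g)

lemma nrm_one : nrm (1 : (J → G) × Z) = 0 := by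
  have h1 : nsq (1 : (J → G) × Z) = nr (1 : J → G) + dz (1 : Z) := rfl
  unfold nrm
  rw [h1, nr_one, dz_one, add_zero, Real.sqrt_zero]

/-- the components of the norm -/
def nj (g : (J → G) × Z) : EuclideanSpace ℝ (Option J) :=
  WithLp.toLp 2 fun o => match o with
    | none => dz g.2
    | some j => ‖mt (g.1 j) - 1‖

lemma nrm_eq (g : (J → G) × Z) : nrm g = ‖nj g‖ := by
  rw [EuclideanSpace.norm_eq]
  unfold nrm nsq nr
  congr 1
  rw [Fintype.sum_option, add_comm]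
  simp only [nj, Real.norm_eq_abs, sq_abs]
  rw [dz_sq]

lemma nrm_mul (g g' : (J → G) × Z) : nrm (g * g') ≤ nrm g + nrm g' := by
  rw [nrm_eq, nrm_eq, nrm_eq]
  refine le_trans ?_ (norm_add_le _ _)
  rw [EuclideanSpace.norm_eq, EuclideanSpace.norm_eq]
  refine Real.sqrt_le_sqrt (Finset.sum_le_sum fun o _ => ?_)
  refine pow_le_pow_left₀ (norm_nonneg _) ?_ 2
  match o with
  | none =>
    show ‖dz (g.2 * g'.2)‖ ≤ ‖dz g.2 + dz g'.2‖
    rw [Real.norm_eq_abs, Real.norm_eq_abs, abs_of_nonneg (dz_nonneg _),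
      abs_of_nonneg (add_nonneg (dz_nonneg _) (dz_nonneg _))]
    exact dz_mul _ _
  | some j =>
    show ‖‖mt (g.1 j * g'.1 j) - 1‖‖ ≤ ‖‖mt (g.1 j) - 1‖ + ‖mt (g'.1 j) - 1‖‖
    rw [norm_norm, Real.norm_eq_abs, abs_of_nonneg (by positivity)]
    exact norm_mul_sub_one _ _

lemma nrm_inv (g : (J → G) × Z) : nrm g⁻¹ = nrm g := by
  have : nsq g⁻¹ = nsq g := by
    show (∑ j, ‖mt (g.1 j)⁻¹ - 1‖ ^ 2) + dz (g.2)⁻¹ = _
    rw [dz_inv]
    unfold nsq nr
    congr 1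
    exact Finset.sum_congr rfl fun j _ => by rw [norm_inv_sub_one]
  unfold nrm
  rw [this]

lemma norm_j_le (g : (J → G) × Z) (j : J) : ‖mt (g.1 j) - 1‖ ≤ nrm g := by
  have h1 : ‖mt (g.1 j) - 1‖ ^ 2 ≤ nsq g := by
    refine le_trans ?_ (le_add_of_nonneg_right (dz_nonneg g.2))
    exact Finset.single_le_sum (f := fun j => ‖mt (g.1 j) - 1‖ ^ 2) (fun _ _ => sq_nonneg _)
      (Finset.mem_univ j)
  exact Real.le_sqrt_of_sq_le h1

lemma nrm_lt_one {g : (J → G) × Z} (h : nrm g < 1) : g.2 = 1 := by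
  by_contra hne
  have h1 : 1 ≤ nsq g := by
    unfold nsq
    rw [dz_ne hne]
    linarith [nr_nonneg g.1]
  have h2 : 1 ≤ nrm g := Real.one_le_sqrt.2 h1
  linarith

lemma nrm_le_const : ∃ C : ℝ, 1 ≤ C ∧ ∀ g : (J → G) × Z, nrm g ≤ C := by
  refine ⟨Real.sqrt ((Fintype.card J : ℝ) * (2 * ‖(1 : Mat N)‖) ^ 2 + 1), ?_, fun g => ?_⟩
  · refine Real.one_le_sqrt.2 ?_
    have : 0 ≤ (Fintype.card J : ℝ) * (2 * ‖(1 : Mat N)‖) ^ 2 := by positivity
    linarith
  · refine Real.sqrt_le_sqrt ?_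
    exact add_le_add (nr_le_const _) (dz_le _)

/-- the coordinates of a spin -/
def pp (g : (J → G) × Z) : EuclideanSpace ℝ (J × Fin n) :=
  WithLp.toLp 2 fun q => pc B (mt (g.1 q.1) - 1) q.2

/-- the exponential map -/
def exx (w : EuclideanSpace ℝ (J × Fin n)) : (J → G) × Z :=
  (fun j => Ek B hG fun a => w (j, a), 1)

lemma norm_sq_E (w : EuclideanSpace ℝ (J × Fin n)) : ‖w‖ ^ 2 = ∑ j, ∑ a, w (j, a) ^ 2 := by
  rw [EuclideanSpace.norm_eq, Real.sq_sqrt (Finset.sum_nonneg fun _ _ => sq_nonneg _),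
    Fintype.sum_prod_type]
  simp only [Real.norm_eq_abs, sq_abs]

lemma pp_apply (g : (J → G) × Z) (j : J) (a : Fin n) :
    pp B g (j, a) = pc B (mt (g.1 j) - 1) a := rfl

lemma pp_le (g : (J → G) × Z) : ‖pp B g‖ ≤ nrm g := by
  refine Real.le_sqrt_of_sq_le ?_
  rw [norm_sq_E]
  simp only [pp_apply]
  have h : ∑ j : J, ∑ a : Fin n, pc B (mt (g.1 j) - 1) a ^ 2 ≤ nr g.1 := by
    unfold nr
    refine Finset.sum_le_sum fun j _ => ?_
    exact pc_sq_le B _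
  have h2 := dz_nonneg g.2
  unfold nsq
  linarith

lemma pp_one : pp B (1 : (J → G) × Z) = 0 := by
  have h := pp_le B (1 : (J → G) × Z)
  rw [nrm_one] at h
  exact norm_le_zero_iff.1 h

lemma comp_tendsto (j : J) : Tendsto (fun (w : EuclideanSpace ℝ (J × Fin n)) (a : Fin n) => w (j, a))
    (𝓝 0) (𝓝 0) := by
  have h : Continuous fun (w : EuclideanSpace ℝ (J × Fin n)) (a : Fin n) => w (j, a) := by
    fun_prop
  exact h.tendsto 0

/-- `exx` is a right inverse of the coordinates and it is close to an isometry -/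
lemma exx_spec (Z : Type*) [Group Z] : ∃ ρ : ℝ, 0 < ρ ∧ ∀ w : EuclideanSpace ℝ (J × Fin n), ‖w‖ ≤ ρ →
    pp B (exx B hG w : (J → G) × Z) = w ∧ nrm (exx B hG w : (J → G) × Z) ≤ 2 * ‖w‖ := by
  have h1 : ∀ᶠ w in 𝓝 (0 : EuclideanSpace ℝ (J × Fin n)), ∀ j,
      pc B (mt (Ek B hG fun a => w (j, a)) - 1) = (fun a => w (j, a)) ∧
      ‖mt (Ek B hG fun a => w (j, a)) - 1‖ ^ 2 ≤ 4 * ∑ a, w (j, a) ^ 2 := by
    rw [eventually_all]
    intro j
    exact (comp_tendsto j).eventually ((pc_Ek B hG).and (norm_Ek B hG))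
  obtain ⟨ρ, hρ, hb⟩ := Metric.eventually_nhds_iff_ball.1 h1
  refine ⟨ρ / 2, by positivity, fun w hw => ?_⟩
  have hw' := hb w (by rw [Metric.mem_ball, dist_zero_right]; linarith)
  constructor
  · ext q
    exact congrFun (hw' q.1).1 q.2
  · have h2 : nsq (exx B hG w : (J → G) × Z) ≤ (2 * ‖w‖) ^ 2 := by
      have h3 : nsq (exx B hG w : (J → G) × Z) =
          ∑ j, ‖mt (Ek B hG fun a => w (j, a)) - 1‖ ^ 2 := by
        show (∑ j, ‖mt (Ek B hG fun a => w (j, a)) - 1‖ ^ 2) + dz (1 : Z) = _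
        rw [dz_one, add_zero]
      rw [h3, mul_pow, norm_sq_E, Finset.mul_sum]
      refine Finset.sum_le_sum fun j _ => ?_
      have := (hw' j).2
      linarith
    unfold nrm
    rw [← Real.sqrt_sq (show 0 ≤ 2 * ‖w‖ by positivity)]
    exact Real.sqrt_le_sqrt h2

end

end Pool.Agent.N984.TW
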