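import Mathlib
import Pool.Agent.N984.TW.Spin

/-!
# Upper bound of the gauge fixing function
-/

open MeasureTheory Matrix Filter
open scoped Matrix.Norms.Frobenius ContDiff Topology
open Pool.Agent.H906R3.YM Pool.Agent.W793.YM Pool.Agent.TH618.YM

namespace Pool.Agent.N984.TW

set_option linter.unusedSectionVars false
set_option linter.unusedVariables false

noncomputable section

variable {N n : ℕ} {G : Subgroup (UN N)} {B : Frame G n} {hG : IsClosed (G : Set (UN N))}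
variable {T E : Type*} [Fintype T] [Fintype E] [DecidableEq T] [DecidableEq E] {s t : E → T}
variable {φ₀ : E → G} {P : (E → Fin n → ℝ) →ₗ[ℝ] (T → Fin n → ℝ)} {Zc : Subgroup (T → G)}

/-! ### neighbourhoods of `1` in terms of `nr` -/

lemma norm_eq_zero_one {g : G} (h : ‖mt g - 1‖ = 0) : g = 1 := by
  rw [norm_eq_zero, sub_eq_zero] at h
  exact mt_inj (by rw [h, mt_one])

lemma nr_eq_zero {I : Type*} [Fintype I] {k : I → G} (h : nr k = 0) : k = 1 := by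
  unfold nr at h
  rw [Finset.sum_eq_zero_iff_of_nonneg fun _ _ => sq_nonneg _] at h
  funext j
  exact norm_eq_zero_one (by simpa using h j (Finset.mem_univ j))

include hG in
lemma nr_nhds {I : Type*} [Fintype I] {U : Set (I → G)} (hU : U ∈ 𝓝 (1 : I → G)) :
    ∃ ε : ℝ, 0 < ε ∧ ∀ k : I → G, nr k < ε → k ∈ U := by
  have hc := compG hG
  by_cases hne : ((interior U)ᶜ : Set (I → G)).Nonempty
  · have hcomp : IsCompact ((interior U)ᶜ : Set (I → G)) := isOpen_interior.isClosed_compl.isCompact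
    obtain ⟨k₀, hk₀, hmin⟩ := hcomp.exists_isMinOn hne (nr_cont (G := G) (I := I)).continuousOn
    refine ⟨nr k₀, ?_, fun k hk => ?_⟩
    · rcases (nr_nonneg k₀).lt_or_eq with h | h
      · exact h
      · exfalso
        have h1 := nr_eq_zero h.symm
        rw [h1] at hk₀
        exact hk₀ (mem_interior_iff_mem_nhds.2 hU)
    · by_contra hkU
      have h1 : k ∈ ((interior U)ᶜ : Set (I → G)) := fun h => hkU (interior_subset h)
      have h2 : nr k₀ ≤ nr k := hmin h1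
      linarith
  · rw [Set.not_nonempty_iff_eq_empty, Set.compl_empty_iff] at hne
    exact ⟨1, one_pos, fun k _ => interior_subset (by rw [hne]; trivial)⟩

include hG in
lemma nM_nhds {U : Set (E → G)} (hU : U ∈ 𝓝 φ₀) :
    ∃ ε : ℝ, 0 < ε ∧ ∀ φ : E → G, nM φ₀ φ < ε → φ ∈ U := by
  have h1 : Tendsto (fun u : E → G => u * φ₀) (𝓝 1) (𝓝 φ₀) := by
    have := (continuous_mul_right φ₀).tendsto (1 : E → G)
    rwa [one_mul] at this
  obtain ⟨ε, hε, h⟩ := nr_nhds (hG := hG) (h1 hU)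
  refine ⟨ε, hε, fun φ hφ => ?_⟩
  have := h (fun e => φ e * (φ₀ e)⁻¹) hφ
  have h2 : (fun e => φ e * (φ₀ e)⁻¹) * φ₀ = φ := by
    funext e; simp
  rw [← h2]
  exact this

/-! ### distances -/

lemma norm_mul_inv (a b : G) : ‖mt (a * b⁻¹) - 1‖ = ‖mt a - mt b‖ := by
  have h : mt (a * b⁻¹) - 1 = (mt a - mt b) * mt b⁻¹ := by
    rw [sub_mul, ← mt_mul, ← mt_mul, mul_inv_cancel, mt_one]
  rw [h, norm_mul_unit]

lemma nM_eq (φ : E → G) : nM φ₀ φ = ∑ e, ‖mt (φ e) - mt (φ₀ e)‖ ^ 2 := by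
  unfold nM nr
  exact Finset.sum_congr rfl fun e _ => by rw [norm_mul_inv]

lemma norm_lg_le : ∃ C : ℝ, 0 < C ∧ ∀ᶠ g in 𝓝 (1 : G), ‖lg B g‖ ≤ C * ‖mt g - 1‖ := by
  have h := (hasFDerivAt_kap B).isBigO_sub
  obtain ⟨C, hC, hb⟩ := h.exists_pos
  refine ⟨C, hC, ?_⟩
  have h1 : Tendsto (fun g : G => pc B (mt g - 1)) (𝓝 1) (𝓝 0) := by
    have h2 : Tendsto (fun g : G => pc B (mt g - 1)) (𝓝 1) (𝓝 (pc B (1 - 1))) :=
      ((pc_contDiff B).continuous.tendsto _).comp (mt_tendsto.sub_const 1)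
    have h3 : pc B (1 - 1 : Mat N) = 0 := by
      rw [pc_sub, sub_self]
    rwa [h3] at h2
  filter_upwards [h1.eventually hb.bound] with g hg
  rw [kap_zero, sub_zero, sub_zero] at hg
  refine hg.trans ?_
  exact mul_le_mul_of_nonneg_left (pc_norm_le B _) hC.le

section

variable {δ₀ c₀ : ℝ} (D : SliceD B hG s t φ₀ P Zc δ₀ c₀)

include D in
/-- **Upper bound of the gauge fixing function.** -/
lemma gd_upper {δ : ℝ} (hδ : 0 < δ) (hδ₀ : δ ≤ δ₀) :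
    ∃ C : ℝ, 0 < C ∧ ∀ φ ∈ Tube B hG s t φ₀ P δ, gd B hG s t φ₀ P δ φ ≤ C * nM φ₀ φ := by
  obtain ⟨xf, hx1, hx2, hx3⟩ := local_form D hδ hδ₀
  obtain ⟨C₁, hC₁, hEM⟩ := EM_bigO (B := B)
  obtain ⟨C₂, hC₂, hlg⟩ := norm_lg_le (B := B) (G := G)
  have hxb := (hx1.differentiableAt (by norm_num)).hasFDerivAt.isBigO_sub
  obtain ⟨C₃, hC₃, hxb⟩ := hxb.exists_pos
  have hxb := hxb.bound
  have hxt : Tendsto xf (𝓝 0) (𝓝 0) := by
    have := hx1.continuousAt.tendsto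
    rwa [hx2] at this
  have hEx : ∀ᶠ y in 𝓝 (0 : E → Fin n → ℝ), ∀ i, ‖EM B (xf y i) - 1‖ ≤ C₁ * ‖xf y i‖ := by
    rw [eventually_all]
    intro i
    have h1 : Tendsto (fun y => xf y i) (𝓝 0) (𝓝 0) := (tendsto_pi_nhds.1 hxt) i
    exact h1.eventually hEM
  have h1 := (lgφ_tendsto B φ₀).eventually ((hx3.and hxb).and hEx)
  have hlgE : ∀ᶠ φ in 𝓝 φ₀, ∀ e, ‖lg B (φ e * (φ₀ e)⁻¹)‖ ≤ C₂ * ‖mt (φ e * (φ₀ e)⁻¹) - 1‖ := by
    rw [eventually_all]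
    intro e
    have h2 : Tendsto (fun φ : E → G => φ e * (φ₀ e)⁻¹) (𝓝 φ₀) (𝓝 1) := by
      have h3 : Continuous fun φ : E → G => φ e * (φ₀ e)⁻¹ := by fun_prop
      have := h3.tendsto φ₀
      rwa [mul_inv_cancel] at this
    exact h2.eventually hlg
  obtain ⟨ε, hε, hnear⟩ := nM_nhds (hG := hG) ((h1.and (exM_lgφ B hG φ₀)).and hlgE)
  obtain ⟨M, hM⟩ : ∃ M : ℝ, M = (Fintype.card T : ℝ) * (2 * ‖(1 : Mat N)‖) ^ 2 := ⟨_, rfl⟩
  have hM0 : 0 ≤ M := by rw [hM]; positivity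
  obtain ⟨K, hK⟩ : ∃ K : ℝ, K = (Fintype.card T : ℝ) * (C₁ * (C₃ * C₂)) ^ 2 := ⟨_, rfl⟩
  have hK0 : 0 ≤ K := by rw [hK]; positivity
  refine ⟨K + M / ε + 1, by positivity, fun φ hφ => ?_⟩
  have hnM := nM_nonneg φ₀ φ
  by_cases hs : nM φ₀ φ < ε
  · obtain ⟨⟨⟨⟨h2, h3⟩, h4⟩, h5⟩, h6⟩ := hnear φ hs
    obtain ⟨v, -, -, -, -, h7, -⟩ := h2
    rw [h5] at h7
    rw [hx2, sub_zero, sub_zero] at h3
    rw [h7]
    have h8 : ‖lgφ B φ₀ φ‖ ^ 2 ≤ C₂ ^ 2 * nM φ₀ φ := by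
      have h9 : ‖lgφ B φ₀ φ‖ ≤ C₂ * Real.sqrt (nM φ₀ φ) := by
        rw [pi_norm_le_iff_of_nonneg (by positivity)]
        intro e
        refine (h6 e).trans (mul_le_mul_of_nonneg_left ?_ hC₂.le)
        refine Real.le_sqrt_of_sq_le ?_
        exact Finset.single_le_sum (f := fun e => ‖mt (φ e * (φ₀ e)⁻¹) - 1‖ ^ 2)
          (fun _ _ => sq_nonneg _) (Finset.mem_univ e)
      calc ‖lgφ B φ₀ φ‖ ^ 2 ≤ (C₂ * Real.sqrt (nM φ₀ φ)) ^ 2 :=
            pow_le_pow_left₀ (norm_nonneg _) h9 2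
        _ = _ := by rw [mul_pow, Real.sq_sqrt hnM]
    have h10 : nr (exG B hG (xf (lgφ B φ₀ φ))) ≤ K * nM φ₀ φ := by
      unfold nr
      calc ∑ y, ‖mt (exG B hG (xf (lgφ B φ₀ φ)) y) - 1‖ ^ 2
          ≤ ∑ _y : T, (C₁ * (C₃ * C₂)) ^ 2 * nM φ₀ φ := by
            refine Finset.sum_le_sum fun y _ => ?_
            have h11 : mt (exG B hG (xf (lgφ B φ₀ φ)) y) = EM B (xf (lgφ B φ₀ φ) y) := mt_Eg B hG _
            rw [h11]
            have h12 : ‖EM B (xf (lgφ B φ₀ φ) y) - 1‖ ≤ C₁ * (C₃ * ‖lgφ B φ₀ φ‖) := by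
              refine (h4 y).trans (mul_le_mul_of_nonneg_left ?_ hC₁.le)
              exact (norm_le_pi_norm _ y).trans h3
            calc ‖EM B (xf (lgφ B φ₀ φ) y) - 1‖ ^ 2 ≤ (C₁ * (C₃ * ‖lgφ B φ₀ φ‖)) ^ 2 :=
                  pow_le_pow_left₀ (norm_nonneg _) h12 2
              _ = (C₁ * C₃) ^ 2 * ‖lgφ B φ₀ φ‖ ^ 2 := by ring
              _ ≤ (C₁ * C₃) ^ 2 * (C₂ ^ 2 * nM φ₀ φ) :=
                  mul_le_mul_of_nonneg_left h8 (sq_nonneg _)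
              _ = _ := by ring
        _ = _ := by rw [Finset.sum_const, Finset.card_univ, nsmul_eq_mul, hK]; ring
    have h13 : 0 ≤ (M / ε + 1) * nM φ₀ φ := by positivity
    linarith [add_mul K (M / ε + 1) (nM φ₀ φ), add_assoc K (M / ε) 1,
      congrArg (· * nM φ₀ φ) (add_assoc K (M / ε) 1)]
  · push Not at hs
    obtain ⟨k, hk, he⟩ := gd_attained B hG s t φ₀ P hφ
    rw [← he]
    have h2 : nr k ≤ M := by rw [hM]; exact nr_le_const k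
    have h3 : M ≤ M / ε * nM φ₀ φ := by
      rw [div_mul_eq_mul_div, le_div_iff₀ hε]
      exact mul_le_mul_of_nonneg_left hs hM0
    have h4 : 0 ≤ K * nM φ₀ φ := by positivity
    have h5 : (K + M / ε + 1) * nM φ₀ φ = K * nM φ₀ φ + M / ε * nM φ₀ φ + nM φ₀ φ := by ring
    linarith

include D in
/-- the distance to the stabiliser is controlled by the displacement of the vacuum -/
lemma rr_upper {δ : ℝ} (hδ : 0 < δ) (hδ₀ : δ ≤ δ₀) :
    ∃ C : ℝ, 0 < C ∧ ∀ ψ : T → G, rr Zc ψ ≤ C * nM φ₀ (act s t ψ φ₀) := by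
  obtain ⟨C, hC, h⟩ := gd_upper D hδ hδ₀
  refine ⟨C, hC, fun ψ => ?_⟩
  have h1 : act s t ψ φ₀ = act s t ψ (exM B hG φ₀ 0) := by rw [exM_zero]
  have h2 : act s t ψ φ₀ ∈ Tube B hG s t φ₀ P δ := by
    rw [h1]
    exact ⟨(ψ, 0), ⟨by rw [norm_zero]; exact hδ.le, map_zero _⟩, rfl⟩
  have h3 := h _ h2
  rw [h1, gd_act B hG s t φ₀ P Zc hδ₀ D.uniq D.triv (by rw [norm_zero]; exact hδ.le)
    (map_zero _), ← h1] at h3
  exact h3

end

end

end Pool.Agent.N984.TW
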