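import Mathlib
import Pool.Agent.N984.TW.Ens
import Pool.Agent.N984.TW.Pieces

/-!
# Bounds of the pieces of the energy
-/

open MeasureTheory Matrix Filter
open scoped Matrix.Norms.Frobenius ContDiff Topology
open Pool.Agent.H906R3.YM Pool.Agent.W793.YM Pool.Agent.TH618.YM

namespace Pool.Agent.N984.TW

set_option linter.unusedSectionVars false
set_option linter.unusedVariables false

noncomputable section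

section gen

variable {N : ℕ} {G : Subgroup (UN N)}

lemma ip_apply' (A M : Mat N) : ip A M = (trace (Aᴴ * M)).re := rfl

lemma norm_one_sq' : ‖(1 : Mat N)‖ ^ 2 = N := by
  rw [norm_sq_ip, ip_apply', conjTranspose_one, one_mul, trace_one, Fintype.card_fin]
  simp

lemma norm_mt_sq' (g : G) : ‖mt g‖ ^ 2 = N := by
  have h := norm_mt_mul g (1 : Mat N)
  rw [mul_one] at h
  rw [h, norm_one_sq']

/-- the energy of a plaquette as a square -/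
lemma tr_eq (g : G) : (N : ℝ) - (trace (mt g)).re = 1 / 2 * ‖mt g - 1‖ ^ 2 := by
  have e1 : ip (mt g - 1) (mt g - 1) = ip (mt g) (mt g) - ip 1 (mt g) -
      (ip 1 (mt g) - ip (1 : Mat N) (1 : Mat N)) := by
    rw [map_sub, ip_comm (mt g - 1) (mt g), ip_comm (mt g - 1) 1, map_sub, map_sub,
      ip_comm (mt g) 1]
  have e2 : ip 1 (mt g) = (trace (mt g)).re := by
    rw [ip_apply', conjTranspose_one, one_mul]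
  have e3 : ip (mt g) (mt g) = N := by rw [← norm_sq_ip, norm_mt_sq']
  have e4 : ip (1 : Mat N) 1 = N := by rw [← norm_sq_ip, norm_one_sq']
  rw [norm_sq_ip, e1, e2, e3, e4]
  ring

lemma norm_mul4 (a b c d : G) : ‖mt (a * b * c⁻¹ * d⁻¹) - 1‖ ≤
    ‖mt a - 1‖ + ‖mt b - 1‖ + ‖mt c - 1‖ + ‖mt d - 1‖ := by
  have h1 := norm_mul_sub_one (a * b * c⁻¹) d⁻¹
  have h2 := norm_mul_sub_one (a * b) c⁻¹
  have h3 := norm_mul_sub_one a b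
  rw [norm_inv_sub_one] at h1 h2
  linarith

end gen

variable {N l : ℕ} [NeZero l]

lemma hop_eq (φ : Tor l × Fin 2 → SU N) (k : Tor l → SU N) (φ' : Tor l × Fin 2 → SU N) :
    hop φ k φ' = 1 / 2 * nM φ (act sE tE k φ') := by
  unfold hop nM nr
  rw [Finset.mul_sum]
  exact Finset.sum_congr rfl fun e _ => tr_eq _

lemma SP_eq (a b c d : Tor l → SU N) :
    SP a b c d = 1 / 2 * nr (fun y => a y * b y * (c y)⁻¹ * (d y)⁻¹) := by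
  unfold SP nr
  rw [Finset.mul_sum]
  exact Finset.sum_congr rfl fun e _ => tr_eq _

lemma hop_nonneg (φ : Tor l × Fin 2 → SU N) (k : Tor l → SU N) (φ' : Tor l × Fin 2 → SU N) :
    0 ≤ hop φ k φ' := by
  rw [hop_eq]
  exact mul_nonneg (by norm_num) (nM_nonneg φ (act sE tE k φ'))

lemma SP_nonneg (a b c d : Tor l → SU N) : 0 ≤ SP a b c d := by
  rw [SP_eq]
  exact mul_nonneg (by norm_num) (nr_nonneg (fun y => a y * b y * (c y)⁻¹ * (d y)⁻¹))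

lemma sq_add4 (a b c d : ℝ) : (a + b + c + d) ^ 2 ≤ 4 * (a ^ 2 + b ^ 2 + c ^ 2 + d ^ 2) := by
  nlinarith [sq_nonneg (a - b), sq_nonneg (a - c), sq_nonneg (a - d), sq_nonneg (b - c),
    sq_nonneg (b - d), sq_nonneg (c - d)]

/-- upper bound of the plane plaquettes -/
lemma SP_le (a b c d : Tor l → SU N) : SP a b c d ≤ 2 * (nr a + nr b + nr c + nr d) := by
  rw [SP_eq]
  have h : nr (fun y => a y * b y * (c y)⁻¹ * (d y)⁻¹) ≤ 4 * (nr a + nr b + nr c + nr d) := by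
    unfold nr
    rw [← Finset.sum_add_distrib, ← Finset.sum_add_distrib, ← Finset.sum_add_distrib,
      Finset.mul_sum]
    refine Finset.sum_le_sum fun y _ => ?_
    exact (pow_le_pow_left₀ (norm_nonneg _) (norm_mul4 _ _ _ _) 2).trans (sq_add4 _ _ _ _)
  linarith

lemma nr_mul_le {I : Type*} [Fintype I] {G : Subgroup (UN N)} (k k' : I → G) :
    nr (k * k') ≤ 2 * nr k + 2 * nr k' := by
  unfold nr
  rw [Finset.mul_sum, Finset.mul_sum, ← Finset.sum_add_distrib]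
  refine Finset.sum_le_sum fun y _ => ?_
  have h := norm_mul_sub_one (k y) (k' y)
  have h4 := norm_nonneg (mt (k y * k' y) - 1)
  calc ‖mt ((k * k') y) - 1‖ ^ 2 ≤ (‖mt (k y) - 1‖ + ‖mt (k' y) - 1‖) ^ 2 :=
        pow_le_pow_left₀ h4 h 2
    _ ≤ _ := by nlinarith [sq_nonneg (‖mt (k y) - 1‖ - ‖mt (k' y) - 1‖)]

lemma nr_inv {I : Type*} [Fintype I] {G : Subgroup (UN N)} (k : I → G) : nr k⁻¹ = nr k := by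
  unfold nr
  exact Finset.sum_congr rfl fun y _ => by
    show ‖mt (k y)⁻¹ - 1‖ ^ 2 = _
    rw [norm_inv_sub_one]

/-- triangle inequality for the displacement -/
lemma nM_act_le {φ φ' φ₀ : Tor l × Fin 2 → SU N} (ψ : Tor l → SU N) :
    nM φ₀ (act sE tE ψ φ₀) ≤ 3 * (nM φ₀ φ' + nM φ (act sE tE ψ φ') + nM φ₀ φ) := by
  rw [nM_eq, nM_eq, nM_eq, nM_eq, ← Finset.sum_add_distrib, ← Finset.sum_add_distrib,
    Finset.mul_sum]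
  refine Finset.sum_le_sum fun e _ => ?_
  have h1 : ‖mt (act sE tE ψ φ₀ e) - mt (act sE tE ψ φ' e)‖ = ‖mt (φ' e) - mt (φ₀ e)‖ := by
    unfold act
    rw [mt_mul, mt_mul, mt_mul, mt_mul, ← sub_mul, ← mul_sub, norm_mul_unit, norm_mt_mul,
      norm_sub_rev]
  have h2 : ‖mt (act sE tE ψ φ₀ e) - mt (φ₀ e)‖ ≤ ‖mt (φ' e) - mt (φ₀ e)‖ +
      ‖mt (act sE tE ψ φ' e) - mt (φ e)‖ + ‖mt (φ e) - mt (φ₀ e)‖ := by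
    rw [← h1]
    have h3 : mt (act sE tE ψ φ₀ e) - mt (φ₀ e) = (mt (act sE tE ψ φ₀ e) - mt (act sE tE ψ φ' e)) +
        (mt (act sE tE ψ φ' e) - mt (φ e)) + (mt (φ e) - mt (φ₀ e)) := by abel
    rw [h3]
    exact (norm_add_le _ _).trans (add_le_add (norm_add_le _ _) le_rfl)
  obtain ⟨x, hx⟩ : ∃ x, x = ‖mt (φ' e) - mt (φ₀ e)‖ := ⟨_, rfl⟩
  obtain ⟨y, hy⟩ : ∃ y, y = ‖mt (act sE tE ψ φ' e) - mt (φ e)‖ := ⟨_, rfl⟩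
  obtain ⟨w, hw⟩ : ∃ w, w = ‖mt (φ e) - mt (φ₀ e)‖ := ⟨_, rfl⟩
  rw [← hx, ← hy, ← hw] at h2
  rw [← hx, ← hy, ← hw]
  refine (pow_le_pow_left₀ (norm_nonneg _) h2 2).trans ?_
  nlinarith [sq_nonneg (x - y), sq_nonneg (y - w), sq_nonneg (x - w)]

/-- upper bound of the displacement -/
lemma nM_hop_le {φ φ' φ₀ : Tor l × Fin 2 → SU N} (ψ : Tor l → SU N) :
    nM φ (act sE tE ψ φ') ≤ 4 * (nM φ₀ φ' + nM φ₀ φ) +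
      8 * (Fintype.card (Tor l × Fin 2) * nr ψ) := by
  have h0 : nM φ (act sE tE ψ φ') ≤ ∑ e, 4 * (‖mt (φ' e) - mt (φ₀ e)‖ ^ 2 +
      ‖mt (φ e) - mt (φ₀ e)‖ ^ 2 + ‖mt (ψ (sE e)) - 1‖ ^ 2 + ‖mt (ψ (tE e)) - 1‖ ^ 2) := by
    rw [nM_eq]
    refine Finset.sum_le_sum fun e _ => ?_
    have h1 : mt (act sE tE ψ φ' e) - mt (φ e) = (mt (ψ (sE e)) - 1) * mt (φ' e * (ψ (tE e))⁻¹) +
        mt (φ' e) * (mt (ψ (tE e))⁻¹ - 1) + ((mt (φ' e) - mt (φ₀ e)) - (mt (φ e) - mt (φ₀ e))) := by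
      unfold act
      rw [mt_mul, mt_mul, mt_mul]
      noncomm_ring
    have h2 : ‖mt (act sE tE ψ φ' e) - mt (φ e)‖ ≤ ‖mt (φ' e) - mt (φ₀ e)‖ +
        ‖mt (φ e) - mt (φ₀ e)‖ + ‖mt (ψ (sE e)) - 1‖ + ‖mt (ψ (tE e)) - 1‖ := by
      rw [h1]
      refine (norm_add_le _ _).trans ?_
      have h3 := norm_add_le ((mt (ψ (sE e)) - 1) * mt (φ' e * (ψ (tE e))⁻¹))
        (mt (φ' e) * (mt (ψ (tE e))⁻¹ - 1))
      rw [norm_mul_unit, norm_mt_mul, norm_inv_sub_one] at h3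
      have h4 := norm_sub_le (mt (φ' e) - mt (φ₀ e)) (mt (φ e) - mt (φ₀ e))
      linarith
    exact (pow_le_pow_left₀ (norm_nonneg _) h2 2).trans (sq_add4 _ _ _ _)
  refine h0.trans ?_
  rw [← Finset.mul_sum, Finset.sum_add_distrib, Finset.sum_add_distrib, Finset.sum_add_distrib,
    ← nM_eq, ← nM_eq]
  have h5 := sum_s_le ψ (sE : Tor l × Fin 2 → Tor l)
  have h6 := sum_s_le ψ (tE : Tor l × Fin 2 → Tor l)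
  linarith

namespace Dat

variable {n : ℕ} [NeZero N] (𝔇 : Dat N l n)
variable [MeasurableSpace (SU N)] [BorelSpace (SU N)] (μ : Measure (SU N))
  [IsProbabilityMeasure μ] [μ.IsMulLeftInvariant] [μ.IsMulRightInvariant]

lemma bb_nonneg {β : ℝ} (hβ : 0 < β) : 0 ≤ 𝔇.bb μ β := by
  unfold bb
  refine div_nonneg (neg_nonneg.2 ?_) hβ.le
  exact Real.log_nonpos (cN_pos 𝔇.D μ hβ.le).le (cN_le 𝔇.D μ hβ.le)

lemma rr_bound (ψ : Tor l → SU N) :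
    rr 𝔇.Zc ψ ≤ Fintype.card (Tor l) * (2 * ‖(1 : Mat N)‖) ^ 2 :=
  (rr_le ψ).trans (nr_le_const ψ)

lemma bb_le {β : ℝ} (hβ : 0 < β) :
    𝔇.bb μ β ≤ Fintype.card (Tor l) * (2 * ‖(1 : Mat N)‖) ^ 2 := by
  unfold bb
  rw [div_le_iff₀ hβ, neg_le]
  have h1 : Real.exp (-(β * (Fintype.card (Tor l) * (2 * ‖(1 : Mat N)‖) ^ 2))) ≤
      cN μ 𝔇.Zc β := by
    unfold cN
    have h2 : ∫ _k : Tor l → SU N, Real.exp (-(β * (Fintype.card (Tor l) *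
        (2 * ‖(1 : Mat N)‖) ^ 2))) ∂(Measure.pi fun _ => μ) ≤
        ∫ k : Tor l → SU N, Real.exp (-(β * rr 𝔇.Zc k)) ∂(Measure.pi fun _ => μ) := by
      refine integral_mono (integrable_const _) (cN_int 𝔇.D μ hβ.le) fun k => ?_
      refine Real.exp_le_exp.2 (neg_le_neg ?_)
      exact mul_le_mul_of_nonneg_left (𝔇.rr_bound k) hβ.le
    rw [integral_const] at h2
    simpa using h2
  have h3 := Real.log_le_log (Real.exp_pos _) h1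
  rw [Real.log_exp] at h3
  linarith

lemma card_pos' : (0 : ℝ) < Nat.card 𝔇.Zc := by
  have : 0 < Nat.card 𝔇.Zc := Nat.card_pos
  exact_mod_cast this

lemma card_ge : (1 : ℝ) ≤ Nat.card 𝔇.Zc := by
  have : 0 < Nat.card 𝔇.Zc := Nat.card_pos
  exact_mod_cast this

lemma b2_arg {β : ℝ} (hβ : 0 < β) :
    1 / (Nat.card 𝔇.Zc : ℝ) ≤ (1 + ((Nat.card 𝔇.Zc : ℝ) - 1) * Real.exp (-β)) / Nat.card 𝔇.Zc ∧
    (1 + ((Nat.card 𝔇.Zc : ℝ) - 1) * Real.exp (-β)) / Nat.card 𝔇.Zc ≤ 1 := by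
  have h1 := 𝔇.card_pos'
  have h2 := 𝔇.card_ge
  have h3 := Real.exp_pos (-β)
  have h4 : Real.exp (-β) ≤ 1 := Real.exp_le_one_iff.2 (by linarith)
  have h5 : 0 ≤ ((Nat.card 𝔇.Zc : ℝ) - 1) * Real.exp (-β) := mul_nonneg (by linarith) h3.le
  constructor
  · exact div_le_div_of_nonneg_right (by linarith) h1.le
  · rw [div_le_one h1]
    have := mul_le_mul_of_nonneg_left h4 (show 0 ≤ (Nat.card 𝔇.Zc : ℝ) - 1 by linarith)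
    linarith

lemma b2_nonneg {β : ℝ} (hβ : 0 < β) : 0 ≤ 𝔇.b2 β := by
  unfold b2
  obtain ⟨h1, h2⟩ := 𝔇.b2_arg hβ
  have h3 := 𝔇.card_pos'
  refine div_nonneg (neg_nonneg.2 ?_) hβ.le
  exact Real.log_nonpos ((by positivity : (0 : ℝ) ≤ 1 / (Nat.card 𝔇.Zc : ℝ)).trans h1) h2

lemma b2_le {β : ℝ} (hβ : 1 ≤ β) : 𝔇.b2 β ≤ Real.log (Nat.card 𝔇.Zc) := by
  unfold b2
  obtain ⟨h1, h2⟩ := 𝔇.b2_arg (show 0 < β by linarith)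
  have h3 := 𝔇.card_pos'
  have h4 : 0 ≤ Real.log (Nat.card 𝔇.Zc) := Real.log_nonneg 𝔇.card_ge
  rw [div_le_iff₀ (by linarith)]
  have h5 := Real.log_le_log (by positivity) h1
  rw [one_div, Real.log_inv] at h5
  nlinarith

lemma e2_nonneg {r β : ℝ} (hβ : 0 < β) (ψ : Tor l → SU N) : 0 ≤ 𝔇.e2 r β ψ := by
  unfold e2
  split_ifs
  · exact le_rfl
  · exact zero_le_one
  · exact 𝔇.b2_nonneg hβ

/-- (L1) coercivity at a site -/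
lemma fib_lower {δ : ℝ} (hδ : 0 < δ) (hδ₀ : δ ≤ 𝔇.δ₀) :
    ∃ C : ℝ, 0 < C ∧ ∀ β : ℝ, 1 ≤ β → ∀ φ, nM 𝔇.φ₀ φ ≤ C * 𝔇.fib μ δ β φ := by
  obtain ⟨c₁, hc₁, h1⟩ := off_tube 𝔇.D 𝔇.Vc 𝔇.V0 𝔇.Vi 𝔇.Vz hδ hδ₀
  obtain ⟨c₂, hc₂, h2⟩ := coer_tube 𝔇.D 𝔇.Vc 𝔇.V0 𝔇.Vi 𝔇.Vz hδ hδ₀
    (by obtain ⟨c, hc, h⟩ := 𝔇.Vl; exact ⟨c, hc, h⟩)
  obtain ⟨M, hM⟩ : ∃ M : ℝ, M = (Fintype.card (Tor l × Fin 2) : ℝ) * (2 * ‖(1 : Mat N)‖) ^ 2 :=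
    ⟨_, rfl⟩
  have hM0 : 0 ≤ M := by rw [hM]; positivity
  have hκ := 𝔇.hκ
  obtain ⟨K, hK⟩ : ∃ K : ℝ, K = 1 + 1 / 𝔇.κ := ⟨_, rfl⟩
  have hK1 : 1 ≤ K := by rw [hK]; have : 0 < 1 / 𝔇.κ := by positivity
                         linarith
  have hKκ : 1 ≤ K * 𝔇.κ := by
    rw [hK, add_mul, one_div, inv_mul_cancel₀ hκ.ne']; linarith
  refine ⟨(1 / c₂ + M / c₁) * K, by positivity, fun β hβ φ => ?_⟩
  have hb := 𝔇.bb_nonneg μ (mul_pos hκ (show 0 < β by linarith))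
  have hV := 𝔇.V0 φ
  by_cases hφ : φ ∈ Tube 𝔇.B 𝔇.hG sE tE 𝔇.φ₀ 𝔇.P δ
  · have h3 := h2 φ hφ
    obtain ⟨g, hg⟩ : ∃ g, g = gd 𝔇.B 𝔇.hG sE tE 𝔇.φ₀ 𝔇.P δ φ := ⟨_, rfl⟩
    have h4 : 𝔇.fib μ δ β φ = VV 𝔇.z φ + 𝔇.κ * g := by
      unfold fib ge; rw [if_pos hφ, hg]
    have h5 : 0 ≤ g := hg ▸ gd_nonneg 𝔇.B 𝔇.hG sE tE 𝔇.φ₀ 𝔇.P δ φ
    rw [← hg] at h3
    have h8 : VV 𝔇.z φ + g ≤ K * 𝔇.fib μ δ β φ := by
      rw [h4, mul_add, ← mul_assoc]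
      have e1 := mul_le_mul_of_nonneg_right hK1 hV
      have e2 := mul_le_mul_of_nonneg_right hKκ h5
      linarith
    have h6 : nM 𝔇.φ₀ φ ≤ 1 / c₂ * (VV 𝔇.z φ + g) := by
      rw [one_div, ← div_eq_inv_mul, le_div_iff₀ hc₂]; linarith
    have h9 : 1 / c₂ * (VV 𝔇.z φ + g) ≤ 1 / c₂ * (K * 𝔇.fib μ δ β φ) :=
      mul_le_mul_of_nonneg_left h8 (one_div_nonneg.2 hc₂.le)
    have h10 : 0 ≤ K * 𝔇.fib μ δ β φ := by linarith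
    have h7 : 0 ≤ M / c₁ * (K * 𝔇.fib μ δ β φ) := mul_nonneg (div_nonneg hM0 hc₁.le) h10
    linarith [add_mul (1 / c₂) (M / c₁) (K * 𝔇.fib μ δ β φ),
      mul_assoc (1 / c₂ + M / c₁) K (𝔇.fib μ δ β φ)]
  · have h3 := h1 φ hφ
    have h4 : 𝔇.fib μ δ β φ = VV 𝔇.z φ + 𝔇.κ * 𝔇.bb μ (𝔇.κ * β) := by
      unfold fib ge; rw [if_neg hφ]
    have h6 : nM 𝔇.φ₀ φ ≤ M := by rw [hM]; exact nr_le_const _
    have h11 : c₁ ≤ 𝔇.fib μ δ β φ := by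
      rw [h4]
      have : 0 ≤ 𝔇.κ * 𝔇.bb μ (𝔇.κ * β) := mul_nonneg hκ.le hb
      linarith
    have h12 : c₁ ≤ K * 𝔇.fib μ δ β φ := by
      have : 0 ≤ 𝔇.fib μ δ β φ := hc₁.le.trans h11
      nlinarith
    have h7 : M ≤ M / c₁ * (K * 𝔇.fib μ δ β φ) := by
      rw [div_mul_eq_mul_div, le_div_iff₀ hc₁]
      exact mul_le_mul_of_nonneg_left h12 hM0
    have h10 : 0 ≤ K * 𝔇.fib μ δ β φ := hc₁.le.trans h12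
    have h8 : 0 ≤ 1 / c₂ * (K * 𝔇.fib μ δ β φ) := mul_nonneg (one_div_nonneg.2 hc₂.le) h10
    linarith [add_mul (1 / c₂) (M / c₁) (K * 𝔇.fib μ δ β φ),
      mul_assoc (1 / c₂ + M / c₁) K (𝔇.fib μ δ β φ)]

lemma fib_nonneg {δ β : ℝ} (hβ : 0 < β) (φ : Tor l × Fin 2 → SU N) : 0 ≤ 𝔇.fib μ δ β φ := by
  have hV := 𝔇.V0 φ
  have hκ := 𝔇.hκ
  unfold fib ge
  split_ifs
  · exact add_nonneg hV (mul_nonneg hκ.le (gd_nonneg _ _ _ _ _ _ _ _))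
  · exact add_nonneg hV (mul_nonneg hκ.le (𝔇.bb_nonneg μ (mul_pos hκ hβ)))

/-- (L2) upper bound at a site -/
lemma fib_upper {δ : ℝ} (hδ : 0 < δ) (hδ₀ : δ ≤ 𝔇.δ₀) :
    ∃ C : ℝ, 0 < C ∧ ∀ β : ℝ, 1 ≤ β → ∀ φ, 𝔇.fib μ δ β φ ≤ C * nM 𝔇.φ₀ φ := by
  obtain ⟨CV, hCV⟩ := 𝔇.Vu
  obtain ⟨C₁, hC₁, h1⟩ := gd_upper 𝔇.D hδ hδ₀
  obtain ⟨ε, hε, hnear⟩ := nM_nhds (hG := 𝔇.hG) (tube_nhds 𝔇.D hδ hδ₀)
  obtain ⟨M, hM⟩ : ∃ M : ℝ, M = (Fintype.card (Tor l) : ℝ) * (2 * ‖(1 : Mat N)‖) ^ 2 := ⟨_, rfl⟩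
  have hM0 : 0 ≤ M := by rw [hM]; positivity
  have hκ := 𝔇.hκ
  refine ⟨|CV| + 𝔇.κ * C₁ + 𝔇.κ * (M / ε), by positivity, fun β hβ φ => ?_⟩
  have hb := 𝔇.bb_le μ (mul_pos hκ (show 0 < β by linarith))
  rw [← hM] at hb
  have hn := nM_nonneg 𝔇.φ₀ φ
  have hV : VV 𝔇.z φ ≤ |CV| * nM 𝔇.φ₀ φ :=
    (hCV φ).trans (mul_le_mul_of_nonneg_right (le_abs_self _) hn)
  have hr : (|CV| + 𝔇.κ * C₁ + 𝔇.κ * (M / ε)) * nM 𝔇.φ₀ φ = |CV| * nM 𝔇.φ₀ φ +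
      𝔇.κ * (C₁ * nM 𝔇.φ₀ φ) + 𝔇.κ * (M / ε * nM 𝔇.φ₀ φ) := by ring
  have h4 : 0 ≤ 𝔇.κ * (C₁ * nM 𝔇.φ₀ φ) := mul_nonneg hκ.le (mul_nonneg hC₁.le hn)
  have h5 : 0 ≤ 𝔇.κ * (M / ε * nM 𝔇.φ₀ φ) := mul_nonneg hκ.le (mul_nonneg (div_nonneg hM0 hε.le) hn)
  unfold fib ge
  split_ifs with hφ
  · have := mul_le_mul_of_nonneg_left (h1 φ hφ) hκ.le
    linarith
  · have h6 : ε ≤ nM 𝔇.φ₀ φ := by
      by_contra hc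
      push Not at hc
      exact hφ (hnear φ hc)
    have h7 : M ≤ M / ε * nM 𝔇.φ₀ φ := by
      rw [div_mul_eq_mul_div, le_div_iff₀ hε]
      exact mul_le_mul_of_nonneg_left h6 hM0
    have := mul_le_mul_of_nonneg_left (hb.trans h7) hκ.le
    linarith

lemma mul_ζ (ζ : Tor l → SU N) (hζ : ζ ∈ 𝔇.Zc) (ψ : Tor l → SU N) : ζ⁻¹ * ψ = ψ * ζ⁻¹ :=
  𝔇.cen ζ⁻¹ (𝔇.Zc.inv_mem hζ) ψ

/-- (L3) coercivity at a link -/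
lemma lnk_lower {δ r : ℝ} (hδ : 0 < δ) (hδ₀ : δ ≤ 𝔇.δ₀) (hr : 0 < r) (hr₀ : 16 * r ≤ 𝔇.c₀) :
    ∃ C : ℝ, 0 < C ∧ ∀ β : ℝ, 1 ≤ β → ∀ φ ψ φ', nr ψ ≤
      C * (𝔇.lnk r β φ ψ φ' + 𝔇.fib μ δ β φ + 𝔇.fib μ δ β φ') := by
  obtain ⟨C₁, hC₁, h1⟩ := 𝔇.fib_lower μ hδ hδ₀
  obtain ⟨C₂, hC₂, h2⟩ := rr_upper 𝔇.D hδ hδ₀
  obtain ⟨M, hM⟩ : ∃ M : ℝ, M = (Fintype.card (Tor l) : ℝ) * (2 * ‖(1 : Mat N)‖) ^ 2 := ⟨_, rfl⟩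
  have hM0 : 0 ≤ M := by rw [hM]; positivity
  obtain ⟨K, hK⟩ : ∃ K : ℝ, K = 3 * C₂ * (2 + 2 * C₁) := ⟨_, rfl⟩
  have hK0 : 0 < K := by rw [hK]; positivity
  refine ⟨K + M / r * K + M, by positivity, fun β hβ φ ψ φ' => ?_⟩
  have hβ0 : 0 < β := by linarith
  have hf := 𝔇.fib_nonneg μ (δ := δ) hβ0 φ
  have hf' := 𝔇.fib_nonneg μ (δ := δ) hβ0 φ'
  have hh := hop_nonneg φ ψ φ'
  have he := 𝔇.e2_nonneg (r := r) hβ0 ψ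
  obtain ⟨S, hS⟩ : ∃ S, S = 𝔇.lnk r β φ ψ φ' + 𝔇.fib μ δ β φ + 𝔇.fib μ δ β φ' := ⟨_, rfl⟩
  have hS0 : 0 ≤ S := by rw [hS]; unfold lnk; exact add_nonneg (add_nonneg (add_nonneg hh he) hf) hf'
  rw [← hS]
  have hrr : rr 𝔇.Zc ψ ≤ K * S := by
    have h3 := nM_act_le (φ := φ) (φ' := φ') (φ₀ := 𝔇.φ₀) ψ
    have h4 := h1 β hβ φ
    have h5 := h1 β hβ φ'
    have h6 : nM φ (act sE tE ψ φ') = 2 * hop φ ψ φ' := by rw [hop_eq]; ring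
    rw [h6] at h3
    have h7 : nM 𝔇.φ₀ (act sE tE ψ 𝔇.φ₀) ≤ 3 * ((2 + 2 * C₁) * S) := by
      have h8 : hop φ ψ φ' ≤ S := by rw [hS]; unfold lnk; linarith
      have h9 : 𝔇.fib μ δ β φ ≤ S := by rw [hS]; unfold lnk; linarith
      have h10 : 𝔇.fib μ δ β φ' ≤ S := by rw [hS]; unfold lnk; linarith
      have h11 := mul_le_mul_of_nonneg_left h9 hC₁.le
      have h12 := mul_le_mul_of_nonneg_left h10 hC₁.le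
      linarith
    calc rr 𝔇.Zc ψ ≤ C₂ * nM 𝔇.φ₀ (act sE tE ψ 𝔇.φ₀) := h2 ψ
      _ ≤ C₂ * (3 * ((2 + 2 * C₁) * S)) := mul_le_mul_of_nonneg_left h7 hC₂.le
      _ = K * S := by rw [hK]; ring
  have hKS : 0 ≤ K * S := mul_nonneg hK0.le hS0
  have hMrKS : 0 ≤ M / r * (K * S) := mul_nonneg (div_nonneg hM0 hr.le) hKS
  have hMS : 0 ≤ M * S := mul_nonneg hM0 hS0
  have hsum : (K + M / r * K + M) * S = K * S + M / r * (K * S) + M * S := by ring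
  rw [hsum]
  have hnM : nr ψ ≤ M := by rw [hM]; exact nr_le_const ψ
  by_cases c1 : nr ψ ≤ r
  · have h3 := rr_eq 𝔇.D (k := ψ) (by linarith)
    rw [h3] at hrr
    linarith
  · by_cases c2 : ∃ ζ ∈ 𝔇.Zc, nr (ζ⁻¹ * ψ) ≤ r
    · have h3 : 𝔇.e2 r β ψ = 1 := by unfold e2; rw [if_neg c1, if_pos c2]
      have h4 : 1 ≤ S := by rw [hS]; unfold lnk; rw [h3]; linarith
      have h5 := mul_le_mul_of_nonneg_left h4 hM0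
      linarith
    · push Not at c2
      have h3 : r ≤ rr 𝔇.Zc ψ := by
        refine le_csInf ⟨_, 1, 𝔇.Zc.one_mem, rfl⟩ ?_
        rintro _ ⟨ζ, hζ, rfl⟩
        have h4 := c2 ζ⁻¹ (𝔇.Zc.inv_mem hζ)
        rw [𝔇.mul_ζ _ (𝔇.Zc.inv_mem hζ), inv_inv] at h4
        exact h4.le
      have h4 : M ≤ M / r * rr 𝔇.Zc ψ := by
        rw [div_mul_eq_mul_div, le_div_iff₀ hr]
        exact mul_le_mul_of_nonneg_left h3 hM0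
      have h5 : M / r * rr 𝔇.Zc ψ ≤ M / r * (K * S) :=
        mul_le_mul_of_nonneg_left hrr (div_nonneg hM0 hr.le)
      linarith

/-- (L5) upper bound at a link -/
lemma lnk_upper {r : ℝ} (hr : 0 < r) :
    ∃ C : ℝ, 0 < C ∧ ∀ β : ℝ, 1 ≤ β → ∀ φ ψ φ', 𝔇.lnk r β φ ψ φ' ≤
      C * (nM 𝔇.φ₀ φ + nr ψ + nM 𝔇.φ₀ φ') := by
  obtain ⟨M, hM⟩ : ∃ M : ℝ, M = 1 + Real.log (Nat.card 𝔇.Zc) := ⟨_, rfl⟩
  have hlog : 0 ≤ Real.log (Nat.card 𝔇.Zc) := Real.log_nonneg 𝔇.card_ge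
  have hM0 : 0 ≤ M := by rw [hM]; positivity
  obtain ⟨c, hc⟩ : ∃ c : ℝ, c = (Fintype.card (Tor l × Fin 2) : ℝ) := ⟨_, rfl⟩
  have hc0 : 0 ≤ c := by rw [hc]; positivity
  refine ⟨2 + 4 * c + M / r, by positivity, fun β hβ φ ψ φ' => ?_⟩
  have h1 := nM_hop_le (φ := φ) (φ' := φ') (φ₀ := 𝔇.φ₀) ψ
  rw [← hc] at h1
  have h2 : hop φ ψ φ' ≤ 2 * (nM 𝔇.φ₀ φ' + nM 𝔇.φ₀ φ) + 4 * (c * nr ψ) := by
    rw [hop_eq]; linarith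
  have hn := nr_nonneg ψ
  have h3 : 𝔇.e2 r β ψ ≤ M / r * nr ψ := by
    unfold e2
    have hb := 𝔇.b2_le hβ
    by_cases c1 : nr ψ ≤ r
    · rw [if_pos c1]; exact mul_nonneg (div_nonneg hM0 hr.le) hn
    · rw [if_neg c1]
      push Not at c1
      have h4 : M ≤ M / r * nr ψ := by
        rw [div_mul_eq_mul_div, le_div_iff₀ hr]
        exact mul_le_mul_of_nonneg_left c1.le hM0
      split_ifs
      · linarith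
      · linarith
  have hn1 := nM_nonneg 𝔇.φ₀ φ
  have hn2 := nM_nonneg 𝔇.φ₀ φ'
  have h5 : 0 ≤ c * nM 𝔇.φ₀ φ := mul_nonneg hc0 hn1
  have h6 : 0 ≤ c * nM 𝔇.φ₀ φ' := mul_nonneg hc0 hn2
  have h7 : 0 ≤ M / r * nM 𝔇.φ₀ φ := mul_nonneg (div_nonneg hM0 hr.le) hn1
  have h8 : 0 ≤ M / r * nM 𝔇.φ₀ φ' := mul_nonneg (div_nonneg hM0 hr.le) hn2
  unfold lnk
  have h9 : (2 + 4 * c + M / r) * (nM 𝔇.φ₀ φ + nr ψ + nM 𝔇.φ₀ φ') =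
      2 * nM 𝔇.φ₀ φ + 2 * nr ψ + 2 * nM 𝔇.φ₀ φ' + 4 * (c * nM 𝔇.φ₀ φ) + 4 * (c * nr ψ) +
        4 * (c * nM 𝔇.φ₀ φ') + M / r * nM 𝔇.φ₀ φ + M / r * nr ψ + M / r * nM 𝔇.φ₀ φ' := by ring
  linarith

/-- (L4) coercivity at a plaquette -/
lemma plq_lower (c : 𝔇.Zc) (ψ₁ ψ₂ ψ₃ ψ₄ : Tor l → SU N) :
    𝔇.c₀ * dz c ≤ 10 * (SP ((c : Tor l → SU N) * ψ₁) ψ₂ ψ₃ ψ₄ + nr ψ₁ + nr ψ₂ + nr ψ₃ + nr ψ₄) := by
  have h0 := SP_nonneg ((c : Tor l → SU N) * ψ₁) ψ₂ ψ₃ ψ₄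
  have n1 := nr_nonneg ψ₁
  have n2 := nr_nonneg ψ₂
  have n3 := nr_nonneg ψ₃
  have n4 := nr_nonneg ψ₄
  by_cases hc : c = 1
  · rw [hc, dz_one, mul_zero]
    rw [hc] at h0
    exact mul_nonneg (by norm_num) (add_nonneg (add_nonneg (add_nonneg (add_nonneg h0 n1) n2) n3) n4)
  · rw [dz_ne hc, mul_one]
    have h1 : 𝔇.c₀ ≤ nr (c : Tor l → SU N) :=
      𝔇.D.disc c c.2 fun h => hc (Subtype.ext h)
    have h2 : (c : Tor l → SU N) = (fun y => ((c : Tor l → SU N) * ψ₁) y * ψ₂ y * (ψ₃ y)⁻¹ *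
        (ψ₄ y)⁻¹) * (fun y => ψ₁ y * ψ₂ y * (ψ₃ y)⁻¹ * (ψ₄ y)⁻¹)⁻¹ := by
      funext y
      simp only [Pi.mul_apply, Pi.inv_apply]
      group
    have h3 := nr_mul_le (fun y => ((c : Tor l → SU N) * ψ₁) y * ψ₂ y * (ψ₃ y)⁻¹ *
        (ψ₄ y)⁻¹) (fun y => ψ₁ y * ψ₂ y * (ψ₃ y)⁻¹ * (ψ₄ y)⁻¹)⁻¹
    rw [← h2, nr_inv] at h3
    have h4 := SP_eq ((c : Tor l → SU N) * ψ₁) ψ₂ ψ₃ ψ₄
    have h5 := SP_eq ψ₁ ψ₂ ψ₃ ψ₄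
    have h6 := SP_le ψ₁ ψ₂ ψ₃ ψ₄
    linarith

/-- (L5) upper bound at a plaquette -/
lemma plq_upper : ∃ C : ℝ, 0 < C ∧ ∀ (c : 𝔇.Zc) (ψ₁ ψ₂ ψ₃ ψ₄ : Tor l → SU N),
    SP ((c : Tor l → SU N) * ψ₁) ψ₂ ψ₃ ψ₄ ≤ C * (dz c + nr ψ₁ + nr ψ₂ + nr ψ₃ + nr ψ₄) := by
  obtain ⟨M, hM⟩ : ∃ M : ℝ, M = (Fintype.card (Tor l) : ℝ) * (2 * ‖(1 : Mat N)‖) ^ 2 := ⟨_, rfl⟩
  have hM0 : 0 ≤ M := by rw [hM]; positivity
  refine ⟨4 + 4 * M, by positivity, fun c ψ₁ ψ₂ ψ₃ ψ₄ => ?_⟩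
  have h1 := SP_le ((c : Tor l → SU N) * ψ₁) ψ₂ ψ₃ ψ₄
  have h2 := nr_mul_le (c : Tor l → SU N) ψ₁
  have h3 : nr (c : Tor l → SU N) ≤ M * dz c := by
    by_cases hc : c = 1
    · rw [hc, dz_one, mul_zero]
      exact nr_one.le
    · rw [dz_ne hc, mul_one, hM]
      exact nr_le_const _
  have n0 := dz_nonneg c
  have n1 := nr_nonneg ψ₁
  have n2 := nr_nonneg ψ₂
  have n3 := nr_nonneg ψ₃
  have n4 := nr_nonneg ψ₄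
  have h4 : (4 + 4 * M) * (dz c + nr ψ₁ + nr ψ₂ + nr ψ₃ + nr ψ₄) =
      4 * dz c + 4 * nr ψ₁ + 4 * nr ψ₂ + 4 * nr ψ₃ + 4 * nr ψ₄ + 4 * (M * dz c) +
        4 * (M * nr ψ₁) + 4 * (M * nr ψ₂) + 4 * (M * nr ψ₃) + 4 * (M * nr ψ₄) := by ring
  have m1 : 0 ≤ M * nr ψ₁ := mul_nonneg hM0 n1
  have m2 : 0 ≤ M * nr ψ₂ := mul_nonneg hM0 n2
  have m3 : 0 ≤ M * nr ψ₃ := mul_nonneg hM0 n3
  have m4 : 0 ≤ M * nr ψ₄ := mul_nonneg hM0 n4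
  linarith

end Dat

end

end Pool.Agent.N984.TW
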