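import Mathlib
import Pool.Agent.N984.TW.Ener

/-!
# The energy of a block
-/

open MeasureTheory Matrix Filter
open scoped Matrix.Norms.Frobenius ContDiff Topology
open Pool.Agent.H906R3.YM Pool.Agent.W793.YM Pool.Agent.TH618.YM

namespace Pool.Agent.N984.TW

set_option linter.unusedSectionVars false
set_option linter.unusedVariables false

noncomputable section

/-- the corners of a block -/
abbrev Cn := Fin 2 × Fin 2

/-- the position of a corner -/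
def off (j : Cn) : Pl := (((j.1 : ℕ) : ℤ), ((j.2 : ℕ) : ℤ))

variable {N l n : ℕ} [NeZero N] [NeZero l]

namespace Dat

variable (𝔇 : Dat N l n) [MeasurableSpace (SU N)] (μ : Measure (SU N))

/-- The energy of a block; `fl` is the set of the corners in the region `Λ`. -/
def blk (δ r β : ℝ) (fl : Finset Cn) (g : Cn → 𝔇.KK) : ℝ :=
  1 / 4 * (∑ j : Cn, if j ∈ fl then 𝔇.fib μ δ β (phi (𝔇.ph (g j))) else 0) +
  1 / 2 * (∑ b : Fin 2, if (0, b) ∈ fl ∧ (1, b) ∈ fl then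
    𝔇.lnk r β (phi (𝔇.ph (g (0, b)))) (psi (𝔇.ph (g (0, b))) 0) (phi (𝔇.ph (g (1, b)))) else 0) +
  1 / 2 * (∑ a : Fin 2, if (a, 0) ∈ fl ∧ (a, 1) ∈ fl then
    𝔇.lnk r β (phi (𝔇.ph (g (a, 0)))) (psi (𝔇.ph (g (a, 0))) 1) (phi (𝔇.ph (g (a, 1)))) else 0) +
  (if (0, 0) ∈ fl ∧ (1, 0) ∉ fl then nr (psi (𝔇.ph (g (0, 0))) 0) else 0) +
  (if (0, 0) ∈ fl ∧ (0, 1) ∉ fl then nr (psi (𝔇.ph (g (0, 0))) 1) else 0) +
  (if (0, 0) ∈ fl then
    (if (1, 0) ∈ fl ∧ (0, 1) ∈ fl ∧ (1, 1) ∈ fl then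
      SP (((g (0, 0)).2 : Tor l → SU N) * psi (𝔇.ph (g (0, 0))) 0) (psi (𝔇.ph (g (1, 0))) 1)
        (psi (𝔇.ph (g (0, 1))) 0) (psi (𝔇.ph (g (0, 0))) 1)
      else dz (g (0, 0)).2) else 0)

open scoped Classical in
/-- the corners of the block at `t` in `Λ` -/
def flg (Λ : Finset Pl) (t : Pl) : Finset Cn := Finset.univ.filter fun j => t + off j ∈ Λ

/-- the energy of the block at `t` -/
def hT (δ r β : ℝ) (Λ : Finset Pl) (t : Pl) (g : Pl → 𝔇.KK) : ℝ :=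
  𝔇.blk μ δ r β (flg Λ t) fun j => g (t + off j)

/-- the blocks which meet `Λ` -/
def TT (a b : Pl) : Finset Pl := Finset.Icc (a - (1, 1)) b

/-- the sites of the block in `Λ` -/
def spt (Λ : Finset Pl) (t : Pl) : Finset Pl := (flg Λ t).image fun j => t + off j

end Dat

end

end Pool.Agent.N984.TW
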