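import Mathlib
import Pool.Agent.N726.TW.BlkA
import Pool.Agent.N839.TW.BlkM

/-!
# The energy of a block: bounds
-/

open MeasureTheory Matrix Filter
open scoped Matrix.Norms.Frobenius ContDiff Topology
open Pool.Agent.H906R3.YM Pool.Agent.W793.YM Pool.Agent.TH618.YM
open Pool.Agent.N990.Mach (tch cl)

namespace Pool.Agent.N984.TW

set_option linter.unusedSectionVars false
set_option linter.unusedVariables false

noncomputable section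

variable {N l n : ℕ} [NeZero N] [NeZero l]

lemma off_inj : Function.Injective off := by
  intro j j' h
  unfold off at h
  have h1 := (Prod.mk.inj h).1
  have h2 := (Prod.mk.inj h).2
  ext
  · exact_mod_cast h1
  · exact_mod_cast h2

open scoped Classical in
lemma mem_tchG {ι τ : Type*} {T : Finset τ} {sp : τ → Finset ι} {A : Finset ι} {t : τ} :
    t ∈ tch T sp A ↔ t ∈ T ∧ ¬Disjoint (sp t) A := by
  unfold tch
  exact Finset.mem_filter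

open scoped Classical in
lemma mem_clG {ι τ : Type*} {T : Finset τ} {sp : τ → Finset ι} {A : Finset ι} {y : ι} :
    y ∈ cl T sp A ↔ ∃ t ∈ tch T sp A, y ∈ sp t := by
  unfold cl
  exact Finset.mem_biUnion

open scoped Classical in
/-- exchange of the sums over the terms and over the sites -/
lemma sum_tch_le {ι τ : Type*} {T : Finset τ} {sp : τ → Finset ι} {A : Finset ι} {k : ℝ}
    (hk : ∀ y : ι, ((tch T sp {y}).card : ℝ) ≤ k) {f : ι → ℝ} (hf : ∀ y, 0 ≤ f y) :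
    ∑ t ∈ tch T sp A, ∑ y ∈ sp t, f y ≤ k * ∑ y ∈ cl T sp A ∪ A, f y := by
  have h1 : ∑ t ∈ tch T sp A, ∑ y ∈ sp t, f y =
      ∑ t ∈ tch T sp A, ∑ y ∈ cl T sp A, if y ∈ sp t then f y else 0 := by
    refine Finset.sum_congr rfl fun t ht => ?_
    rw [← Finset.sum_filter]
    refine Finset.sum_congr ?_ fun _ _ => rfl
    ext y
    rw [Finset.mem_filter, mem_clG]
    exact ⟨fun h => ⟨⟨t, ht, h⟩, h⟩, fun h => h.2⟩
  have h2 : ∑ y ∈ cl T sp A, f y ≤ ∑ y ∈ cl T sp A ∪ A, f y :=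
    Finset.sum_le_sum_of_subset_of_nonneg Finset.subset_union_left fun y _ _ => hf y
  by_cases hne : (cl T sp A).Nonempty
  · have hk0 : 0 ≤ k := by
      obtain ⟨y, _⟩ := hne
      exact (Nat.cast_nonneg _).trans (hk y)
    rw [h1, Finset.sum_comm]
    refine le_trans ?_ (mul_le_mul_of_nonneg_left h2 hk0)
    rw [Finset.mul_sum]
    refine Finset.sum_le_sum fun y _ => ?_
    rw [← Finset.sum_filter, Finset.sum_const, nsmul_eq_mul]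
    refine mul_le_mul_of_nonneg_right (le_trans ?_ (hk y)) (hf y)
    refine Nat.cast_le.2 (Finset.card_le_card fun t ht => ?_)
    rw [Finset.mem_filter, mem_tchG] at ht
    rw [mem_tchG]
    refine ⟨ht.1.1, ?_⟩
    rw [Finset.not_disjoint_iff]
    exact ⟨y, ht.2, Finset.mem_singleton_self y⟩
  · rw [Finset.not_nonempty_iff_eq_empty] at hne
    rw [h1, hne]
    simp only [Finset.sum_empty, Finset.sum_const_zero, Finset.empty_union]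
    by_cases hA : A.Nonempty
    · obtain ⟨y, _⟩ := hA
      exact mul_nonneg ((Nat.cast_nonneg _).trans (hk y)) (Finset.sum_nonneg fun y _ => hf y)
    · rw [Finset.not_nonempty_iff_eq_empty] at hA
      rw [hA, Finset.sum_empty, mul_zero]

namespace Dat

lemma self_flg {Λ : Finset Pl} {X : Pl} (h : X ∈ Λ) : (0, 0) ∈ flg Λ X := by
  unfold flg
  rw [Finset.mem_filter]
  refine ⟨Finset.mem_univ _, ?_⟩
  have : X + off (0, 0) = X := by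
    unfold off; ext <;> simp
  rwa [this]

lemma mem_spt_of {Λ : Finset Pl} {t : Pl} {j : Cn} (h : j ∈ flg Λ t) : t + off j ∈ spt Λ t :=
  Finset.mem_image_of_mem _ h

lemma self_spt {Λ : Finset Pl} {X : Pl} (h : X ∈ Λ) : X ∈ spt Λ X := by
  have h1 := mem_spt_of (self_flg h)
  have : X + off (0, 0) = X := by
    unfold off; ext <;> simp
  rwa [this] at h1

lemma mem_TT {a b X : Pl} (h : X ∈ Finset.Icc a b) : X ∈ TT a b := by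
  unfold TT
  rw [Finset.mem_Icc] at h ⊢
  refine ⟨?_, h.2⟩
  refine le_trans ?_ h.1
  constructor <;> simp

lemma mem_tch {a b X : Pl} (h : X ∈ Finset.Icc a b) {A : Finset Pl} (hA : X ∈ A) :
    X ∈ tch (TT a b) (spt (Finset.Icc a b)) A := by
  refine mem_tchG.2 ⟨mem_TT h, ?_⟩
  rw [Finset.not_disjoint_iff]
  exact ⟨X, self_spt h, hA⟩

/-- the sum over the sites of a block -/
lemma sum_spt (Λ : Finset Pl) (t : Pl) (f : Pl → ℝ) :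
    ∑ X ∈ spt Λ t, f X = ∑ j ∈ flg Λ t, f (t + off j) := by
  unfold spt
  rw [Finset.sum_image]
  intro x _ y _ h
  exact off_inj (add_left_cancel h)

variable (𝔇 : Dat N l n) [MeasurableSpace (SU N)] [BorelSpace (SU N)] (μ : Measure (SU N))
  [IsProbabilityMeasure μ] [μ.IsMulLeftInvariant] [μ.IsMulRightInvariant]

lemma lnk_nonneg {r β : ℝ} (hβ : 0 < β) (φ : Tor l × Fin 2 → SU N) (ψ : Tor l → SU N)
    (φ' : Tor l × Fin 2 → SU N) : 0 ≤ 𝔇.lnk r β φ ψ φ' :=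
  add_nonneg (hop_nonneg φ ψ φ') (𝔇.e2_nonneg hβ ψ)

lemma nsq_split (g : 𝔇.KK) : nsq g = nM 𝔇.φ₀ (phi (𝔇.ph g)) + nr (psi (𝔇.ph g) 0) +
    nr (psi (𝔇.ph g) 1) + dz g.2 := by
  unfold nsq
  rw [nr_split]

section parts

variable {δ r β : ℝ} (hβ : 1 ≤ β) (fl : Finset Cn) (g : Cn → 𝔇.KK)

/-- the parts of the energy of a block -/
structure Parts (𝔇 : Dat N l n) (μ : Measure (SU N)) (δ r β : ℝ) (fl : Finset Cn)
    (g : Cn → 𝔇.KK) (E : ℝ) : Prop where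
  f : ∀ j ∈ fl, 𝔇.fib μ δ β (phi (𝔇.ph (g j))) ≤ 4 * E
  l0 : ∀ b : Fin 2, (0, b) ∈ fl → (1, b) ∈ fl → 𝔇.lnk r β (phi (𝔇.ph (g (0, b))))
    (psi (𝔇.ph (g (0, b))) 0) (phi (𝔇.ph (g (1, b)))) ≤ 2 * E
  l1 : ∀ a : Fin 2, (a, 0) ∈ fl → (a, 1) ∈ fl → 𝔇.lnk r β (phi (𝔇.ph (g (a, 0))))
    (psi (𝔇.ph (g (a, 0))) 1) (phi (𝔇.ph (g (a, 1)))) ≤ 2 * E
  d0 : (0, 0) ∈ fl → (1, 0) ∉ fl → nr (psi (𝔇.ph (g (0, 0))) 0) ≤ E
  d1 : (0, 0) ∈ fl → (0, 1) ∉ fl → nr (psi (𝔇.ph (g (0, 0))) 1) ≤ E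
  p : (0, 0) ∈ fl → (1, 0) ∈ fl → (0, 1) ∈ fl → (1, 1) ∈ fl →
    SP (((g (0, 0)).2 : Tor l → SU N) * psi (𝔇.ph (g (0, 0))) 0) (psi (𝔇.ph (g (1, 0))) 1)
        (psi (𝔇.ph (g (0, 1))) 0) (psi (𝔇.ph (g (0, 0))) 1) ≤ E
  c : (0, 0) ∈ fl → ¬((1, 0) ∈ fl ∧ (0, 1) ∈ fl ∧ (1, 1) ∈ fl) → dz (g (0, 0)).2 ≤ E
  nn : 0 ≤ E

include hβ in
lemma blk_parts : Parts 𝔇 μ δ r β fl g (𝔇.blk μ δ r β fl g) := by
  have hβ0 : 0 < β := by linarith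
  -- the parts
  obtain ⟨F, hF⟩ : ∃ F : Cn → ℝ, F = fun j => if j ∈ fl then 𝔇.fib μ δ β (phi (𝔇.ph (g j)))
    else 0 := ⟨_, rfl⟩
  obtain ⟨L0, hL0⟩ : ∃ L0 : Fin 2 → ℝ, L0 = fun b => if (0, b) ∈ fl ∧ (1, b) ∈ fl then
    𝔇.lnk r β (phi (𝔇.ph (g (0, b)))) (psi (𝔇.ph (g (0, b))) 0) (phi (𝔇.ph (g (1, b)))) else 0 :=
    ⟨_, rfl⟩
  obtain ⟨L1, hL1⟩ : ∃ L1 : Fin 2 → ℝ, L1 = fun a => if (a, 0) ∈ fl ∧ (a, 1) ∈ fl then
    𝔇.lnk r β (phi (𝔇.ph (g (a, 0)))) (psi (𝔇.ph (g (a, 0))) 1) (phi (𝔇.ph (g (a, 1)))) else 0 :=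
    ⟨_, rfl⟩
  obtain ⟨D0, hD0⟩ : ∃ D0 : ℝ, D0 = if (0, 0) ∈ fl ∧ (1, 0) ∉ fl then
    nr (psi (𝔇.ph (g (0, 0))) 0) else 0 := ⟨_, rfl⟩
  obtain ⟨D1, hD1⟩ : ∃ D1 : ℝ, D1 = if (0, 0) ∈ fl ∧ (0, 1) ∉ fl then
    nr (psi (𝔇.ph (g (0, 0))) 1) else 0 := ⟨_, rfl⟩
  obtain ⟨Q, hQ⟩ : ∃ Q : ℝ, Q = if (0, 0) ∈ fl then
    (if (1, 0) ∈ fl ∧ (0, 1) ∈ fl ∧ (1, 1) ∈ fl then
      SP (((g (0, 0)).2 : Tor l → SU N) * psi (𝔇.ph (g (0, 0))) 0) (psi (𝔇.ph (g (1, 0))) 1)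
        (psi (𝔇.ph (g (0, 1))) 0) (psi (𝔇.ph (g (0, 0))) 1)
      else dz (g (0, 0)).2) else 0 := ⟨_, rfl⟩
  have hE : 𝔇.blk μ δ r β fl g = 1 / 4 * (∑ j, F j) + 1 / 2 * (∑ b, L0 b) +
      1 / 2 * (∑ a, L1 a) + D0 + D1 + Q := by
    rw [hF, hL0, hL1, hD0, hD1, hQ]; rfl
  have hFn : ∀ j, 0 ≤ F j := by
    intro j
    rw [hF]
    simp only
    split_ifs
    · exact 𝔇.fib_nonneg μ hβ0 _
    · exact le_rfl
  have hL0n : ∀ b, 0 ≤ L0 b := by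
    intro b
    rw [hL0]
    simp only
    split_ifs
    · exact 𝔇.lnk_nonneg hβ0 _ _ _
    · exact le_rfl
  have hL1n : ∀ b, 0 ≤ L1 b := by
    intro b
    rw [hL1]
    simp only
    split_ifs
    · exact 𝔇.lnk_nonneg hβ0 _ _ _
    · exact le_rfl
  have hD0n : 0 ≤ D0 := by
    rw [hD0]
    split_ifs
    · exact nr_nonneg _
    · exact le_rfl
  have hD1n : 0 ≤ D1 := by
    rw [hD1]
    split_ifs
    · exact nr_nonneg _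
    · exact le_rfl
  have hQn : 0 ≤ Q := by
    rw [hQ]
    split_ifs
    · exact SP_nonneg _ _ _ _
    · exact dz_nonneg _
    · exact le_rfl
  have sF : 0 ≤ ∑ j, F j := Finset.sum_nonneg fun j _ => hFn j
  have s0 : 0 ≤ ∑ j, L0 j := Finset.sum_nonneg fun j _ => hL0n j
  have s1 : 0 ≤ ∑ j, L1 j := Finset.sum_nonneg fun j _ => hL1n j
  obtain ⟨E, hEE⟩ : ∃ E, E = 𝔇.blk μ δ r β fl g := ⟨_, rfl⟩
  rw [← hEE] at hE ⊢
  refine ⟨fun j hj => ?_, fun b h1 h2 => ?_, fun b h1 h2 => ?_, fun h1 h2 => ?_, fun h1 h2 => ?_,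
    fun h1 h2 h3 h4 => ?_, fun h1 h2 => ?_, by linarith⟩
  · have := Finset.single_le_sum (f := F) (fun j _ => hFn j) (Finset.mem_univ j)
    have e : F j = 𝔇.fib μ δ β (phi (𝔇.ph (g j))) := by rw [hF]; exact if_pos hj
    linarith
  · have := Finset.single_le_sum (f := L0) (fun j _ => hL0n j) (Finset.mem_univ b)
    have e : L0 b = 𝔇.lnk r β (phi (𝔇.ph (g (0, b)))) (psi (𝔇.ph (g (0, b))) 0)
        (phi (𝔇.ph (g (1, b)))) := by rw [hL0]; exact if_pos ⟨h1, h2⟩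
    linarith
  · have := Finset.single_le_sum (f := L1) (fun j _ => hL1n j) (Finset.mem_univ b)
    have e : L1 b = 𝔇.lnk r β (phi (𝔇.ph (g (b, 0)))) (psi (𝔇.ph (g (b, 0))) 1)
        (phi (𝔇.ph (g (b, 1)))) := by rw [hL1]; exact if_pos ⟨h1, h2⟩
    linarith
  · rw [if_pos ⟨h1, h2⟩] at hD0
    linarith
  · rw [if_pos ⟨h1, h2⟩] at hD1
    linarith
  · rw [if_pos h1, if_pos ⟨h2, h3, h4⟩] at hQ
    linarith
  · rw [if_pos h1, if_neg h2] at hQ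
    linarith

end parts

lemma hT_nonneg {δ r β : ℝ} (hβ : 1 ≤ β) (Λ : Finset Pl) (t : Pl) (g : Pl → 𝔇.KK) :
    0 ≤ 𝔇.hT μ δ r β Λ t g :=
  (𝔇.blk_parts μ hβ (flg Λ t) fun j => g (t + off j)).nn

lemma blk_upper {δ r : ℝ} (hδ : 0 < δ) (hδ₀ : δ ≤ 𝔇.δ₀) (hr : 0 < r) :
    ∃ C : ℝ, 0 < C ∧ ∀ β : ℝ, 1 ≤ β → ∀ (fl : Finset Cn) (g : Cn → 𝔇.KK),
      𝔇.blk μ δ r β fl g ≤ C * ∑ j ∈ fl, nsq (g j) := by
  obtain ⟨C₁, hC₁, h1⟩ := 𝔇.fib_upper μ hδ hδ₀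
  obtain ⟨C₂, hC₂, h2⟩ := 𝔇.lnk_upper hr
  obtain ⟨C₃, hC₃, h3⟩ := 𝔇.plq_upper
  refine ⟨C₁ + 4 * C₂ + 4 * C₃ + 3, by linarith, fun β hβ fl g => ?_⟩
  obtain ⟨S, hS⟩ : ∃ S, S = ∑ j ∈ fl, nsq (g j) := ⟨_, rfl⟩
  rw [← hS]
  have hS0 : 0 ≤ S := hS ▸ Finset.sum_nonneg fun j _ => nsq_nonneg _
  have hj : ∀ j ∈ fl, nM 𝔇.φ₀ (phi (𝔇.ph (g j))) + nr (psi (𝔇.ph (g j)) 0) +
      nr (psi (𝔇.ph (g j)) 1) + dz (g j).2 ≤ S := by
    intro j hj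
    rw [← nsq_split, hS]
    exact Finset.single_le_sum (f := fun j => nsq (g j)) (fun j _ => nsq_nonneg _) hj
  have e1 : ∀ j : Cn, (if j ∈ fl then 𝔇.fib μ δ β (phi (𝔇.ph (g j))) else 0) ≤ C₁ * S := by
    intro j
    split_ifs with h
    · refine (h1 β hβ _).trans (mul_le_mul_of_nonneg_left ?_ hC₁.le)
      have := hj j h
      have n1 := nr_nonneg (psi (𝔇.ph (g j)) 0)
      have n2 := nr_nonneg (psi (𝔇.ph (g j)) 1)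
      have n3 := dz_nonneg (g j).2
      linarith
    · exact mul_nonneg hC₁.le hS0
  have e2 : ∀ (i j : Cn) (k : Fin 2), (if i ∈ fl ∧ j ∈ fl then
      𝔇.lnk r β (phi (𝔇.ph (g i))) (psi (𝔇.ph (g i)) k) (phi (𝔇.ph (g j))) else 0) ≤
      C₂ * (2 * S) := by
    intro i j k
    split_ifs with h
    · refine (h2 β hβ _ _ _).trans (mul_le_mul_of_nonneg_left ?_ hC₂.le)
      have a1 := hj i h.1
      have a2 := hj j h.2
      have n1 := nr_nonneg (psi (𝔇.ph (g i)) 0)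
      have n2 := nr_nonneg (psi (𝔇.ph (g i)) 1)
      have n3 := dz_nonneg (g i).2
      have m1 := nr_nonneg (psi (𝔇.ph (g j)) 0)
      have m2 := nr_nonneg (psi (𝔇.ph (g j)) 1)
      have m3 := dz_nonneg (g j).2
      have k1 : nr (psi (𝔇.ph (g i)) k) ≤ nr (psi (𝔇.ph (g i)) 0) + nr (psi (𝔇.ph (g i)) 1) := by
        fin_cases k
        · simp only [Fin.zero_eta]; linarith
        · simp only [Fin.mk_one]; linarith
      linarith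
    · exact mul_nonneg hC₂.le (by linarith)
  have e3 : ∀ (j : Cn) (k : Fin 2), (if (0, 0) ∈ fl ∧ j ∉ fl then
      nr (psi (𝔇.ph (g (0, 0))) k) else 0) ≤ S := by
    intro j k
    split_ifs with h
    · have a1 := hj _ h.1
      have n0 := nM_nonneg 𝔇.φ₀ (phi (𝔇.ph (g (0, 0))))
      have n1 := nr_nonneg (psi (𝔇.ph (g (0, 0))) 0)
      have n2 := nr_nonneg (psi (𝔇.ph (g (0, 0))) 1)
      have n3 := dz_nonneg (g (0, 0)).2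
      fin_cases k
      · simp only [Fin.zero_eta]; linarith
      · simp only [Fin.mk_one]; linarith
    · exact hS0
  have e4 : (if (0, 0) ∈ fl then
    (if (1, 0) ∈ fl ∧ (0, 1) ∈ fl ∧ (1, 1) ∈ fl then
      SP (((g (0, 0)).2 : Tor l → SU N) * psi (𝔇.ph (g (0, 0))) 0) (psi (𝔇.ph (g (1, 0))) 1)
        (psi (𝔇.ph (g (0, 1))) 0) (psi (𝔇.ph (g (0, 0))) 1)
      else dz (g (0, 0)).2) else 0) ≤ C₃ * (4 * S) + S := by
    have z0 : 0 ≤ C₃ * (4 * S) := mul_nonneg hC₃.le (by linarith)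
    split_ifs with h h'
    · refine (h3 _ _ _ _ _).trans ?_
      have : dz (g (0, 0)).2 + nr (psi (𝔇.ph (g (0, 0))) 0) + nr (psi (𝔇.ph (g (1, 0))) 1) +
          nr (psi (𝔇.ph (g (0, 1))) 0) + nr (psi (𝔇.ph (g (0, 0))) 1) ≤ 4 * S := by
        have a1 := hj _ h
        have a2 := hj _ h'.1
        have a3 := hj _ h'.2.1
        have n0 := nM_nonneg 𝔇.φ₀ (phi (𝔇.ph (g (0, 0))))
        have m0 := nM_nonneg 𝔇.φ₀ (phi (𝔇.ph (g (1, 0))))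
        have m1 := nr_nonneg (psi (𝔇.ph (g (1, 0))) 0)
        have m3 := dz_nonneg (g (1, 0)).2
        have p0 := nM_nonneg 𝔇.φ₀ (phi (𝔇.ph (g (0, 1))))
        have p1 := nr_nonneg (psi (𝔇.ph (g (0, 1))) 1)
        have p3 := dz_nonneg (g (0, 1)).2
        linarith
      have := mul_le_mul_of_nonneg_left this hC₃.le
      linarith
    · have a1 := hj _ h
      have n0 := nM_nonneg 𝔇.φ₀ (phi (𝔇.ph (g (0, 0))))
      have n1 := nr_nonneg (psi (𝔇.ph (g (0, 0))) 0)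
      have n2 := nr_nonneg (psi (𝔇.ph (g (0, 0))) 1)
      linarith
    · linarith
  have s1 : (∑ j : Cn, if j ∈ fl then 𝔇.fib μ δ β (phi (𝔇.ph (g j))) else 0) ≤ 4 * (C₁ * S) := by
    refine (Finset.sum_le_card_nsmul _ _ _ fun j _ => e1 j).trans (le_of_eq ?_)
    rw [nsmul_eq_mul]
    norm_num [Fintype.card_prod]
  have s2 : (∑ b : Fin 2, if (0, b) ∈ fl ∧ (1, b) ∈ fl then
    𝔇.lnk r β (phi (𝔇.ph (g (0, b)))) (psi (𝔇.ph (g (0, b))) 0) (phi (𝔇.ph (g (1, b)))) else 0) ≤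
      2 * (C₂ * (2 * S)) := by
    refine (Finset.sum_le_card_nsmul _ _ _ fun b _ => e2 (0, b) (1, b) 0).trans (le_of_eq ?_)
    rw [nsmul_eq_mul]
    norm_num
  have s3 : (∑ a : Fin 2, if (a, 0) ∈ fl ∧ (a, 1) ∈ fl then
    𝔇.lnk r β (phi (𝔇.ph (g (a, 0)))) (psi (𝔇.ph (g (a, 0))) 1) (phi (𝔇.ph (g (a, 1)))) else 0) ≤
      2 * (C₂ * (2 * S)) := by
    refine (Finset.sum_le_card_nsmul _ _ _ fun b _ => e2 (b, 0) (b, 1) 1).trans (le_of_eq ?_)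
    rw [nsmul_eq_mul]
    norm_num
  have t0 := e3 (1, 0) 0
  have t1 := e3 (0, 1) 1
  unfold blk
  nlinarith [s1, s2, s3, t0, t1, e4]

lemma hT_upper {δ r : ℝ} (hδ : 0 < δ) (hδ₀ : δ ≤ 𝔇.δ₀) (hr : 0 < r) :
    ∃ C : ℝ, 0 < C ∧ ∀ β : ℝ, 1 ≤ β → ∀ (Λ : Finset Pl) (t : Pl) (g : Pl → 𝔇.KK),
      𝔇.hT μ δ r β Λ t g ≤ C * ∑ X ∈ spt Λ t, nsq (g X) := by
  obtain ⟨C, hC, h⟩ := 𝔇.blk_upper μ hδ hδ₀ hr
  refine ⟨C, hC, fun β hβ Λ t g => ?_⟩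
  rw [sum_spt]
  exact h β hβ (flg Λ t) fun j => g (t + off j)

lemma hT_lower {δ r : ℝ} (hδ : 0 < δ) (hδ₀ : δ ≤ 𝔇.δ₀) (hr : 0 < r) (hr₀ : 16 * r ≤ 𝔇.c₀) :
    ∃ C : ℝ, 0 < C ∧ ∀ β : ℝ, 1 ≤ β → ∀ (Λ : Finset Pl) (X : Pl) (g : Pl → 𝔇.KK), X ∈ Λ →
      nsq (g X) ≤ C * 𝔇.hT μ δ r β Λ X g := by
  obtain ⟨C₁, hC₁, h1⟩ := 𝔇.fib_lower μ hδ hδ₀
  obtain ⟨C₂, hC₂, h2⟩ := 𝔇.lnk_lower μ hδ hδ₀ hr hr₀
  have hc₀ := 𝔇.D.cpos
  refine ⟨4 * C₁ + 20 * C₂ + 2 + 1 / 𝔇.c₀ * (10 * (5 + 40 * C₂)) + 1, by positivity,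
    fun β hβ Λ X g hX => ?_⟩
  have hP := 𝔇.blk_parts μ (δ := δ) (r := r) hβ (flg Λ X) fun j => g (X + off j)
  obtain ⟨E, hE⟩ : ∃ E, E = 𝔇.hT μ δ r β Λ X g := ⟨_, rfl⟩
  have hE' : 𝔇.blk μ δ r β (flg Λ X) (fun j => g (X + off j)) = E := hE.symm
  rw [hE'] at hP
  rw [← hE]
  obtain ⟨G, hG⟩ : ∃ G : Cn → 𝔇.KK, G = fun j => g (X + off j) := ⟨_, rfl⟩
  rw [← hG] at hP
  have hX0 : X + off (0, 0) = X := by unfold off; ext <;> simp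
  have hgX : g X = G (0, 0) := by rw [hG]; simp only [hX0]
  rw [hgX, nsq_split]
  have h0 := self_flg hX
  generalize flg Λ X = fl at h0 hP
  have hEn := hP.nn
  -- the torus links
  have a1 : nM 𝔇.φ₀ (phi (𝔇.ph (G (0, 0)))) ≤ 4 * C₁ * E := by
    have := mul_le_mul_of_nonneg_left (hP.f _ h0) hC₁.le
    have := h1 β hβ (phi (𝔇.ph (G (0, 0))))
    linarith
  -- the plane links
  have b0 : ∀ b : Fin 2, (0, b) ∈ fl → (1, b) ∈ fl →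
      nr (psi (𝔇.ph (G (0, b))) 0) ≤ 10 * C₂ * E := by
    intro b q1 q2
    have z1 := hP.l0 b q1 q2
    have z2 := hP.f _ q1
    have z3 := hP.f _ q2
    have z4 := h2 β hβ (phi (𝔇.ph (G (0, b)))) (psi (𝔇.ph (G (0, b))) 0)
      (phi (𝔇.ph (G (1, b))))
    have z5 : 𝔇.lnk r β (phi (𝔇.ph (G (0, b)))) (psi (𝔇.ph (G (0, b))) 0)
      (phi (𝔇.ph (G (1, b)))) + 𝔇.fib μ δ β (phi (𝔇.ph (G (0, b)))) +
      𝔇.fib μ δ β (phi (𝔇.ph (G (1, b)))) ≤ 10 * E := by linarith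
    have z6 := mul_le_mul_of_nonneg_left z5 hC₂.le
    linarith
  have b1 : ∀ a : Fin 2, (a, 0) ∈ fl → (a, 1) ∈ fl →
      nr (psi (𝔇.ph (G (a, 0))) 1) ≤ 10 * C₂ * E := by
    intro b q1 q2
    have z1 := hP.l1 b q1 q2
    have z2 := hP.f _ q1
    have z3 := hP.f _ q2
    have z4 := h2 β hβ (phi (𝔇.ph (G (b, 0)))) (psi (𝔇.ph (G (b, 0))) 1)
      (phi (𝔇.ph (G (b, 1))))
    have z5 : 𝔇.lnk r β (phi (𝔇.ph (G (b, 0)))) (psi (𝔇.ph (G (b, 0))) 1)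
      (phi (𝔇.ph (G (b, 1)))) + 𝔇.fib μ δ β (phi (𝔇.ph (G (b, 0)))) +
      𝔇.fib μ δ β (phi (𝔇.ph (G (b, 1)))) ≤ 10 * E := by linarith
    have z6 := mul_le_mul_of_nonneg_left z5 hC₂.le
    linarith
  have hCE : 0 ≤ C₂ * E := mul_nonneg hC₂.le hEn
  have a2 : nr (psi (𝔇.ph (G (0, 0))) 0) ≤ (10 * C₂ + 1) * E := by
    by_cases q : (1, 0) ∈ fl
    · have := b0 0 h0 q
      linarith
    · have := hP.d0 h0 q
      linarith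
  have a3 : nr (psi (𝔇.ph (G (0, 0))) 1) ≤ (10 * C₂ + 1) * E := by
    by_cases q : (0, 1) ∈ fl
    · have := b1 0 h0 q
      linarith
    · have := hP.d1 h0 q
      linarith
  -- the centre
  have a4 : dz (G (0, 0)).2 ≤ (1 / 𝔇.c₀ * (10 * (5 + 40 * C₂)) + 1) * E := by
    have hx : 0 ≤ 1 / 𝔇.c₀ * (10 * (5 + 40 * C₂)) * E :=
      mul_nonneg (mul_nonneg (one_div_nonneg.2 hc₀.le) (by linarith)) hEn
    by_cases q : (1, 0) ∈ fl ∧ (0, 1) ∈ fl ∧ (1, 1) ∈ fl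
    · have z1 := hP.p h0 q.1 q.2.1 q.2.2
      have z2 := b1 1 q.1 q.2.2
      have z3 := b0 1 q.2.1 q.2.2
      have z4 := 𝔇.plq_lower (G (0, 0)).2 (psi (𝔇.ph (G (0, 0))) 0) (psi (𝔇.ph (G (1, 0))) 1)
        (psi (𝔇.ph (G (0, 1))) 0) (psi (𝔇.ph (G (0, 0))) 1)
      have z5 : 𝔇.c₀ * dz (G (0, 0)).2 ≤ 10 * ((5 + 40 * C₂) * E) := by linarith
      have z6 : dz (G (0, 0)).2 ≤ 1 / 𝔇.c₀ * (10 * (5 + 40 * C₂)) * E := by
        have e : 1 / 𝔇.c₀ * (10 * (5 + 40 * C₂)) * E = (10 * ((5 + 40 * C₂) * E)) / 𝔇.c₀ := by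
          ring
        rw [e, le_div_iff₀ hc₀]
        linarith
      linarith
    · have := hP.c h0 q
      linarith
  linarith

lemma hT_bd {δ r : ℝ} (hδ : 0 < δ) (hδ₀ : δ ≤ 𝔇.δ₀) (hr : 0 < r) (Λ : Finset Pl) (t : Pl)
    {β : ℝ} (hβ : 1 ≤ β) : ∃ M : ℝ, ∀ g : Pl → 𝔇.KK, |𝔇.hT μ δ r β Λ t g| ≤ M := by
  obtain ⟨C, hC, h⟩ := 𝔇.hT_upper μ hδ hδ₀ hr
  obtain ⟨nm, hnm1, hnm⟩ := nrm_le_const (N := N) (G := SU N) (J := Tor l × Fin 4) (Z := 𝔇.Zc)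
  refine ⟨C * ∑ X ∈ spt Λ t, nm ^ 2, fun g => ?_⟩
  rw [abs_of_nonneg (𝔇.hT_nonneg μ hβ Λ t g)]
  refine (h β hβ Λ t g).trans (mul_le_mul_of_nonneg_left (Finset.sum_le_sum fun X _ => ?_) hC.le)
  rw [← nrm_sq]
  exact pow_le_pow_left₀ (nrm_nonneg _) (hnm _) 2

/-- `Sys.upper` -/
lemma hT_sys_upper {δ r : ℝ} (hδ : 0 < δ) (hδ₀ : δ ≤ 𝔇.δ₀) (hr : 0 < r) :
    ∃ C : ℝ, 1 ≤ C ∧ ∀ β : ℝ, 1 ≤ β → ∀ (a b : Pl) (A : Finset Pl) (g : Pl → 𝔇.KK),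
      ∑ t ∈ tch (TT a b) (spt (Finset.Icc a b)) A, 𝔇.hT μ δ r β (Finset.Icc a b) t g ≤
        C * ∑ y ∈ cl (TT a b) (spt (Finset.Icc a b)) A ∪ A, nrm (g y) ^ 2 := by
  obtain ⟨C, hC, h⟩ := 𝔇.hT_upper μ hδ hδ₀ hr
  refine ⟨4 * C + 1, by linarith, fun β hβ a b A g => ?_⟩
  have h1 : ∑ t ∈ tch (TT a b) (spt (Finset.Icc a b)) A, 𝔇.hT μ δ r β (Finset.Icc a b) t g ≤
      C * ∑ t ∈ tch (TT a b) (spt (Finset.Icc a b)) A, ∑ y ∈ spt (Finset.Icc a b) t,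
        nrm (g y) ^ 2 := by
    rw [Finset.mul_sum]
    refine Finset.sum_le_sum fun t _ => ?_
    simp only [nrm_sq]
    exact h β hβ _ t g
  have h2 := sum_tch_le (T := TT a b) (sp := spt (Finset.Icc a b)) (A := A) (k := 4)
    (fun y => by
      have := TT_card a b {y}
      rwa [Finset.card_singleton, Nat.cast_one, mul_one] at this)
    (f := fun y => nrm (g y) ^ 2) fun y => sq_nonneg _
  have h3 : 0 ≤ ∑ y ∈ cl (TT a b) (spt (Finset.Icc a b)) A ∪ A, nrm (g y) ^ 2 :=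
    Finset.sum_nonneg fun y _ => sq_nonneg _
  have h4 : ∑ t ∈ tch (TT a b) (spt (Finset.Icc a b)) A, ∑ y ∈ spt (Finset.Icc a b) t,
      nrm (g y) ^ 2 ≤ 4 * ∑ y ∈ cl (TT a b) (spt (Finset.Icc a b)) A ∪ A, nrm (g y) ^ 2 := by
    refine h2.trans (le_of_eq ?_)
    refine congrArg (4 * ·) (Finset.sum_congr ?_ fun _ _ => rfl)
    ext x
    simp only [Finset.mem_union]
  have h5 := mul_le_mul_of_nonneg_left h4 hC.le
  linarith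

/-- `Sys.coer` -/
lemma hT_sys_coer {δ r : ℝ} (hδ : 0 < δ) (hδ₀ : δ ≤ 𝔇.δ₀) (hr : 0 < r) (hr₀ : 16 * r ≤ 𝔇.c₀) :
    ∃ c : ℝ, 0 < c ∧ ∀ β : ℝ, 1 ≤ β → ∀ (a b : Pl) (A : Finset Pl), A ⊆ Finset.Icc a b →
      ∀ g : Pl → 𝔇.KK, c * ∑ y ∈ A, nrm (g y) ^ 2 ≤
        ∑ t ∈ tch (TT a b) (spt (Finset.Icc a b)) A, 𝔇.hT μ δ r β (Finset.Icc a b) t g := by
  obtain ⟨C, hC, h⟩ := 𝔇.hT_lower μ hδ hδ₀ hr hr₀
  refine ⟨1 / C, one_div_pos.2 hC, fun β hβ a b A hA g => ?_⟩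
  refine le_trans ?_ (Finset.sum_le_sum_of_subset_of_nonneg
    (s := A) (fun X hX => mem_tch (hA hX) hX) fun t _ _ => 𝔇.hT_nonneg μ hβ _ _ _)
  rw [Finset.mul_sum]
  refine Finset.sum_le_sum fun X hX => ?_
  rw [nrm_sq, one_div, ← div_eq_inv_mul, div_le_iff₀ hC, mul_comm]
  exact h β hβ (Finset.Icc a b) X g (hA hX)

end Dat

end

end Pool.Agent.N984.TW
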