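import Mathlib

/-!
# A Taylor estimate with three derivatives
-/

open Filter
open scoped Topology ContDiff

namespace Pool.Agent.N984.TW

variable {X : Type*} [NormedAddCommGroup X] [NormedSpace ℝ X]

/-- the Hessian -/
noncomputable def hess (H : X → ℝ) : X →L[ℝ] X →L[ℝ] ℝ := fderiv ℝ (fderiv ℝ H) 0

/-- Taylor estimate for the gradient. -/
lemma grad_est {H : X → ℝ} (hH : ContDiffAt ℝ 3 H 0) (h0 : fderiv ℝ H 0 = 0) :
    ∃ C r : ℝ, 0 ≤ C ∧ 0 < r ∧ (∀ x, ‖x‖ ≤ r → DifferentiableAt ℝ H x) ∧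
      ∀ x, ‖x‖ ≤ r → ‖fderiv ℝ H x - hess H x‖ ≤ C * ‖x‖ ^ 2 := by
  have hf2 : ContDiffAt ℝ 2 (fderiv ℝ H) 0 := hH.fderiv_right (by norm_num)
  have hf3 : ContDiffAt ℝ 1 (fderiv ℝ (fderiv ℝ H)) 0 := hf2.fderiv_right (by norm_num)
  obtain ⟨K, t, ht, hK⟩ := hf3.exists_lipschitzOnWith
  have hd1 : ∀ᶠ x in 𝓝 (0 : X), DifferentiableAt ℝ H x := by
    have := hH.eventually (by norm_num)
    filter_upwards [this] with x hx using hx.differentiableAt (by norm_num)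
  have hd2 : ∀ᶠ x in 𝓝 (0 : X), DifferentiableAt ℝ (fderiv ℝ H) x := by
    have := hf2.eventually (by norm_num)
    filter_upwards [this] with x hx using hx.differentiableAt (by norm_num)
  obtain ⟨r, hr, hball⟩ := Metric.eventually_nhds_iff_ball.1 ((hd1.and hd2).and ht)
  refine ⟨K, r / 2, K.2, by positivity, fun x hx => (hball x ?_).1.1, fun x hx => ?_⟩
  · rw [Metric.mem_ball, dist_zero_right]; linarith
  have hmem : ∀ y, ‖y‖ ≤ ‖x‖ → y ∈ Metric.ball (0 : X) r := fun y hy => by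
    rw [Metric.mem_ball, dist_zero_right]; linarith
  have key : ‖(fderiv ℝ H x - hess H x) - (fderiv ℝ H 0 - hess H 0)‖ ≤ K * ‖x‖ * ‖x - 0‖ := by
    refine (convex_closedBall (0 : X) ‖x‖).norm_image_sub_le_of_norm_hasFDerivWithin_le
      (f := fun y => fderiv ℝ H y - hess H y)
      (f' := fun y => fderiv ℝ (fderiv ℝ H) y - hess H) (fun y hy => ?_) (fun y hy => ?_)
      (by rw [Metric.mem_closedBall, dist_self]; exact norm_nonneg x)
      (by rw [Metric.mem_closedBall, dist_zero_right])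
    · rw [Metric.mem_closedBall, dist_zero_right] at hy
      exact ((hball y (hmem y hy)).1.2.hasFDerivAt.sub (hess H).hasFDerivAt).hasFDerivWithinAt
    · rw [Metric.mem_closedBall, dist_zero_right] at hy
      have h1 := hK.dist_le_mul y (hball y (hmem y hy)).2 0 (hball 0 (by simpa using hr)).2
      rw [dist_eq_norm, dist_zero_right] at h1
      refine h1.trans ?_
      exact mul_le_mul_of_nonneg_left hy K.2
  rw [h0, map_zero, sub_zero, sub_zero, sub_zero] at key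
  calc ‖fderiv ℝ H x - hess H x‖ ≤ K * ‖x‖ * ‖x‖ := key
    _ = K * ‖x‖ ^ 2 := by ring

/-- **Taylor estimate.** -/
lemma taylor3 {H : X → ℝ} (hH : ContDiffAt ℝ 3 H 0) (h0 : fderiv ℝ H 0 = 0) :
    ∃ C r : ℝ, 0 ≤ C ∧ 0 < r ∧ ∀ ξ η : X, ‖ξ‖ ≤ r → ‖η‖ ≤ r →
      |H (ξ + η) - H ξ - hess H ξ η - 1 / 2 * hess H η η| ≤ C * (‖η‖ * (‖ξ‖ + ‖η‖) ^ 2) := by
  obtain ⟨C, r, hC, hr, hd, hg⟩ := grad_est hH h0
  refine ⟨C, r / 2, hC, by positivity, fun ξ η hξ hη => ?_⟩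
  have hn : ∀ τ ∈ Set.Icc (0 : ℝ) 1, ‖ξ + τ • η‖ ≤ ‖ξ‖ + ‖η‖ := by
    intro τ hτ
    refine (norm_add_le _ _).trans ?_
    rw [norm_smul, Real.norm_eq_abs, abs_of_nonneg hτ.1]
    have := mul_le_mul_of_nonneg_right hτ.2 (norm_nonneg η)
    linarith
  have hder : ∀ τ ∈ Set.Icc (0 : ℝ) 1, HasDerivWithinAt
      (fun τ : ℝ => H (ξ + τ • η) - τ * hess H ξ η - 1 / 2 * τ ^ 2 * hess H η η)
      ((fderiv ℝ H (ξ + τ • η) - hess H (ξ + τ • η)) η) (Set.Icc 0 1) τ := by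
    intro τ hτ
    have h1 : HasFDerivAt H (fderiv ℝ H (ξ + τ • η)) (ξ + τ • η) :=
      (hd _ ((hn τ hτ).trans (by linarith))).hasFDerivAt
    have h2 : HasDerivAt (fun τ : ℝ => ξ + τ • η) η τ := by
      have := ((hasDerivAt_id τ).smul_const η).const_add ξ
      rwa [one_smul] at this
    have h3 := h1.comp_hasDerivAt τ h2
    have h4 : HasDerivAt (fun τ : ℝ => τ * hess H ξ η) (hess H ξ η) τ := by
      have := (hasDerivAt_id τ).mul_const (hess H ξ η)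
      rwa [one_mul] at this
    have h5 : HasDerivAt (fun τ : ℝ => 1 / 2 * τ ^ 2 * hess H η η) (τ * hess H η η) τ := by
      have := (((hasDerivAt_pow 2 τ).const_mul (1 / 2 : ℝ)).mul_const (hess H η η))
      refine this.congr_deriv ?_
      push_cast
      ring
    have h6 := (h3.sub h4).sub h5
    refine (h6.congr_deriv ?_).hasDerivWithinAt
    rw [_root_.sub_apply, map_add, map_smul, _root_.add_apply,
      _root_.smul_apply, smul_eq_mul]
    ring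
  have hb : ∀ τ ∈ Set.Ico (0 : ℝ) 1, ‖(fderiv ℝ H (ξ + τ • η) - hess H (ξ + τ • η)) η‖ ≤
      C * (‖η‖ * (‖ξ‖ + ‖η‖) ^ 2) := by
    intro τ hτ
    have h1 := hn τ ⟨hτ.1, hτ.2.le⟩
    calc ‖(fderiv ℝ H (ξ + τ • η) - hess H (ξ + τ • η)) η‖
        ≤ ‖fderiv ℝ H (ξ + τ • η) - hess H (ξ + τ • η)‖ * ‖η‖ := ContinuousLinearMap.le_opNorm _ _
      _ ≤ C * ‖ξ + τ • η‖ ^ 2 * ‖η‖ :=
          mul_le_mul_of_nonneg_right (hg _ (h1.trans (by linarith))) (norm_nonneg _)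
      _ ≤ C * (‖ξ‖ + ‖η‖) ^ 2 * ‖η‖ := by gcongr
      _ = _ := by ring
  have key := norm_image_sub_le_of_norm_deriv_le_segment_01' hder hb
  rw [Real.norm_eq_abs] at key
  convert key using 2
  simp only [one_smul, zero_smul, add_zero, one_mul, zero_mul, one_pow, mul_one]
  ring

/-- the Hessian is symmetric -/
lemma hess_symm {H : X → ℝ} (hH : ContDiffAt ℝ 3 H 0) (ξ η : X) : hess H ξ η = hess H η ξ := by
  have h := (hH.of_le (m := 2) (by norm_num)).isSymmSndFDerivAt (by simp)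
  exact h ξ η

/-- Second order estimate at the origin. -/
lemma taylor2 {H : X → ℝ} (hH : ContDiffAt ℝ 3 H 0) (h0 : fderiv ℝ H 0 = 0) (hH0 : H 0 = 0) :
    ∃ C r : ℝ, 0 ≤ C ∧ 0 < r ∧ ∀ η : X, ‖η‖ ≤ r →
      |H η - 1 / 2 * hess H η η| ≤ C * ‖η‖ ^ 3 := by
  obtain ⟨C, r, hC, hr, h⟩ := taylor3 hH h0
  refine ⟨C, r, hC, hr, fun η hη => ?_⟩
  have := h 0 η (by rw [norm_zero]; exact hr.le) hη
  rw [zero_add, hH0, map_zero, _root_.zero_apply, norm_zero, zero_add, sub_zero,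
    sub_zero] at this
  calc |H η - 1 / 2 * hess H η η| ≤ C * (‖η‖ * ‖η‖ ^ 2) := this
    _ = C * ‖η‖ ^ 3 := by ring

/-- A lower bound of `H` near the origin by a function homogeneous of degree two gives a lower
bound of the Hessian. -/
lemma hess_lower {H : X → ℝ} (hH : ContDiffAt ℝ 3 H 0) (h0 : fderiv ℝ H 0 = 0) (hH0 : H 0 = 0)
    {q : X → ℝ} (hq : ∀ (a : ℝ) (x : X), q (a • x) = a ^ 2 * q x)
    (hle : ∀ᶠ x in 𝓝 (0 : X), q x ≤ H x) (x : X) : 2 * q x ≤ hess H x x := by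
  obtain ⟨C, r, hC, hr, h⟩ := taylor2 hH h0 hH0
  have hsm : Tendsto (fun a : ℝ => a • x) (𝓝 0) (𝓝 0) := by
    have : Continuous fun a : ℝ => a • x := by fun_prop
    have h1 := this.tendsto 0
    rwa [zero_smul] at h1
  have h1 : ∀ᶠ a : ℝ in 𝓝[>] 0, q (a • x) ≤ H (a • x) :=
    (hsm.eventually hle).filter_mono nhdsWithin_le_nhds
  have h2 : ∀ᶠ a : ℝ in 𝓝[>] 0, ‖a • x‖ ≤ r := by
    have h3 : Tendsto (fun a : ℝ => ‖a • x‖) (𝓝 0) (𝓝 0) := by
      have := hsm.norm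
      rwa [norm_zero] at this
    exact (h3.eventually (ge_mem_nhds hr)).filter_mono nhdsWithin_le_nhds
  have h4 : ∀ᶠ a : ℝ in 𝓝[>] 0, 2 * q x ≤ hess H x x + 2 * C * ‖x‖ ^ 3 * a := by
    filter_upwards [h1, h2, self_mem_nhdsWithin] with a ha1 ha2 (ha3 : 0 < a)
    have h5 := h (a • x) ha2
    rw [hq] at ha1
    rw [map_smul, map_smul, _root_.smul_apply, smul_eq_mul, smul_eq_mul, norm_smul,
      Real.norm_eq_abs, abs_of_pos ha3] at h5
    have h6 := (abs_le.1 h5).2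
    have h7 : a ^ 2 * (2 * q x) ≤ a ^ 2 * (hess H x x + 2 * C * ‖x‖ ^ 3 * a) := by
      nlinarith
    exact le_of_mul_le_mul_left h7 (by positivity)
  have h5 : Tendsto (fun a : ℝ => hess H x x + 2 * C * ‖x‖ ^ 3 * a) (𝓝[>] 0)
      (𝓝 (hess H x x + 2 * C * ‖x‖ ^ 3 * 0)) :=
    ((tendsto_id.const_mul _).const_add _).mono_left nhdsWithin_le_nhds
  rw [mul_zero, add_zero] at h5
  exact ge_of_tendsto h5 h4

end Pool.Agent.N984.TW
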