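import Mathlib
import Pool.Agent.N984.TW.Ener
import Pool.Agent.N984.TW.Taylor

/-!
# Functions which are smooth in the coordinates near the identity
-/

open MeasureTheory Matrix Filter
open scoped Matrix.Norms.Frobenius ContDiff Topology
open Pool.Agent.H906R3.YM Pool.Agent.W793.YM Pool.Agent.TH618.YM

namespace Pool.Agent.N984.TW

set_option linter.unusedSectionVars false
set_option linter.unusedVariables false

noncomputable section

variable {N n : ℕ} {G : Subgroup (UN N)} (B : Frame G n) {hG : IsClosed (G : Set (UN N))}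
variable {I I' : Type*} [Fintype I] [Fintype I']

/-- coordinates of a family -/
def xc (u : I → G) : I → Fin n → ℝ := fun j => pc B (mt (u j) - 1)

lemma xc_one : xc B (1 : I → G) = 0 := by
  funext j
  unfold xc
  rw [Pi.one_apply, mt_one, sub_self]
  have := pc_sub B (0 : Mat N) 0
  rw [sub_self, sub_self] at this
  exact this

lemma xc_tendsto : Tendsto (xc B : (I → G) → I → Fin n → ℝ) (𝓝 1) (𝓝 0) := by
  rw [tendsto_pi_nhds]
  intro j
  have h1 : Tendsto (fun u : I → G => u j) (𝓝 1) (𝓝 1) := (continuous_apply j).tendsto 1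
  have h2 : Tendsto (fun g : G => pc B (mt g - 1)) (𝓝 1) (𝓝 (pc B (1 - 1))) :=
    ((pc_contDiff B).continuous.tendsto _).comp (mt_tendsto.sub_const 1)
  have h3 : pc B (1 - 1 : Mat N) = 0 := by rw [pc_sub, sub_self]
  rw [h3] at h2
  exact h2.comp h1

/-- near `1`, `h` is a smooth function of the coordinates -/
def NearF (h : (I → G) → ℝ) : Prop :=
  ∃ H : (I → Fin n → ℝ) → ℝ, ContDiffAt ℝ ∞ H 0 ∧ ∀ᶠ u in 𝓝 (1 : I → G), h u = H (xc B u)

lemma EMk_contDiffAt : ContDiffAt ℝ ∞ (fun x => EM B (kap B x)) 0 :=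
  (EM_contDiff B).contDiffAt.comp (0 : Fin n → ℝ) (kap_contDiffAt B)

lemma pr_contDiff (j : I) : ContDiff ℝ ∞ fun ξ : I → Fin n → ℝ => ξ j :=
  contDiff_apply ℝ (Fin n → ℝ) j

include hG in
lemma NearF.smooth {f : (I → Mat N) → ℝ} (hf : ContDiff ℝ ∞ f) :
    NearF B (fun u : I → G => f fun j => mt (u j)) := by
  refine ⟨fun ξ => f fun j => EM B (kap B (ξ j)), ?_, ?_⟩
  · refine hf.contDiffAt.comp (0 : I → Fin n → ℝ) ?_
    rw [contDiffAt_pi]
    intro j
    exact ContDiffAt.comp (g := fun x : Fin n → ℝ => EM B (kap B x))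
      (f := fun ξ : I → Fin n → ℝ => ξ j) (0 : I → Fin n → ℝ) (EMk_contDiffAt B)
      (pr_contDiff j).contDiffAt
  · have h : ∀ᶠ u : I → G in 𝓝 1, ∀ j : I, Ek B hG (pc B (mt (u j) - 1)) = u j := by
      rw [eventually_all]
      intro j
      have h1 : Tendsto (fun u : I → G => u j) (𝓝 1) (𝓝 1) := (continuous_apply j).tendsto 1
      exact h1.eventually (Ek_pc B hG)
    filter_upwards [h] with u hu
    have h2 : (fun j => mt (u j)) = fun j => EM B (kap B (xc B u j)) := by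
      funext j
      have h3 := mt_Ek B hG (pc B (mt (u j) - 1))
      rw [hu j] at h3
      exact h3
    rw [h2]

variable {B}

lemma NearF.add {h h' : (I → G) → ℝ} (H : NearF B h) (H' : NearF B h') :
    NearF B (fun u => h u + h' u) := by
  obtain ⟨F, hF, e⟩ := H
  obtain ⟨F', hF', e'⟩ := H'
  refine ⟨fun ξ => F ξ + F' ξ, hF.add hF', ?_⟩
  filter_upwards [e, e'] with u h1 h2
  rw [h1, h2]

lemma NearF.const_mul {h : (I → G) → ℝ} (H : NearF B h) (c : ℝ) : NearF B (fun u => c * h u) := by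
  obtain ⟨F, hF, e⟩ := H
  refine ⟨fun ξ => c * F ξ, contDiffAt_const.mul hF, ?_⟩
  filter_upwards [e] with u h1
  rw [h1]

lemma NearF.zero : NearF B (fun _ : I → G => 0) :=
  ⟨fun _ => 0, contDiffAt_const, Eventually.of_forall fun _ => rfl⟩

lemma NearF.sum {κ : Type*} (s : Finset κ) {h : κ → (I → G) → ℝ} (H : ∀ k ∈ s, NearF B (h k)) :
    NearF B (fun u => ∑ k ∈ s, h k u) := by
  classical
  induction s using Finset.induction_on with
  | empty => simpa using NearF.zero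
  | insert a s ha ih =>
    simp only [Finset.sum_insert ha]
    exact (H a (Finset.mem_insert_self a s)).add (ih fun k hk => H k (Finset.mem_insert_of_mem hk))

lemma NearF.ite {h h' : (I → G) → ℝ} (Q : Prop) [Decidable Q] (H : NearF B h) (H' : NearF B h') :
    NearF B (fun u => if Q then h u else h' u) := by
  by_cases hQ : Q
  · simpa [hQ] using H
  · simpa [hQ] using H'

lemma NearF.congr {h h' : (I → G) → ℝ} (H : NearF B h) (e : ∀ᶠ u in 𝓝 (1 : I → G), h' u = h u) :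
    NearF B h' := by
  obtain ⟨F, hF, e1⟩ := H
  refine ⟨F, hF, ?_⟩
  filter_upwards [e, e1] with u h1 h2
  rw [h1, h2]

/-- a function of a subfamily -/
lemma NearF.comp {h : (I' → G) → ℝ} (H : NearF B h) (ρ : I' → I) :
    NearF B (fun u : I → G => h fun j => u (ρ j)) := by
  obtain ⟨F, hF, e⟩ := H
  refine ⟨fun ξ => F fun j => ξ (ρ j), ?_, ?_⟩
  · have h1 : ContDiffAt ℝ ∞ F ((fun (ξ : I → Fin n → ℝ) (j : I') => ξ (ρ j)) 0) := hF
    refine h1.comp (0 : I → Fin n → ℝ) ?_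
    rw [contDiffAt_pi]
    exact fun j => (pr_contDiff (ρ j)).contDiffAt
  · have h1 : Tendsto (fun (u : I → G) (j : I') => u (ρ j)) (𝓝 1) (𝓝 1) := by
      have h2 : Continuous fun (u : I → G) (j : I') => u (ρ j) := by fun_prop
      exact h2.tendsto 1
    exact h1.eventually e

/-! ### words -/

/-- functions with values in the group whose matrices are smooth functions of the matrices -/
def MSm (F : (I → G) → G) : Prop :=
  ∃ Φ : (I → Mat N) → Mat N, ContDiff ℝ ∞ Φ ∧ ∀ u, mt (F u) = Φ fun j => mt (u j)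

lemma MSm.coord (j : I) : MSm (fun u : I → G => u j) :=
  ⟨fun A => A j, contDiff_apply ℝ (Mat N) j, fun _ => rfl⟩

lemma MSm.const (g : G) : MSm (fun _ : I → G => g) :=
  ⟨fun _ => mt g, contDiff_const, fun _ => rfl⟩

lemma MSm.mul {F F' : (I → G) → G} (H : MSm F) (H' : MSm F') : MSm (fun u => F u * F' u) := by
  obtain ⟨Φ, h1, h2⟩ := H
  obtain ⟨Φ', h1', h2'⟩ := H'
  exact ⟨fun A => Φ A * Φ' A, h1.mul h1', fun u => by rw [mt_mul, h2, h2']⟩

lemma MSm.inv {F : (I → G) → G} (H : MSm F) : MSm (fun u => (F u)⁻¹) := by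
  obtain ⟨Φ, h1, h2⟩ := H
  exact ⟨fun A => (Φ A)ᴴ, (ctL N).contDiff.comp h1, fun u => by rw [mt_inv, h2]⟩

include hG in
lemma MSm.nearF_tr {F : (I → G) → G} (H : MSm F) (a : ℝ) (c : ℂ) :
    NearF B (fun u : I → G => a - (c * trace (mt (F u))).re) := by
  obtain ⟨Φ, h1, h2⟩ := H
  have h3 : ContDiff ℝ ∞ fun A : I → Mat N => a - ip ((star c) • (1 : Mat N)) (Φ A) :=
    contDiff_const.sub ((ip ((star c) • (1 : Mat N))).contDiff.comp h1)
  refine (NearF.smooth (hG := hG) B h3).congr (Eventually.of_forall fun u => ?_)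
  rw [← h2, ip_apply, conjTranspose_smul, star_star, conjTranspose_one, Matrix.smul_mul, one_mul,
    trace_smul, smul_eq_mul]

include hG in
lemma MSm.nearF_nsq {F : (I → G) → G} (H : MSm F) :
    NearF B (fun u : I → G => ‖mt (F u) - 1‖ ^ 2) := by
  refine ((H.nearF_tr (hG := hG) (N : ℝ) 1).const_mul 2).congr (Eventually.of_forall fun u => ?_)
  rw [one_mul, tr_eq]
  ring

/-! ### the Taylor expansion -/

section taylor

variable (hG)

/-- The data of a nonnegative function which vanishes at `1`. -/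
lemma near_zero {h : (I → G) → ℝ} {H : (I → Fin n → ℝ) → ℝ}
    (hH : ContDiffAt ℝ ∞ H 0) (he : ∀ᶠ u in 𝓝 (1 : I → G), h u = H (xc B u)) (h0 : ∀ u, 0 ≤ h u)
    (h1 : h 1 = 0) : H 0 = 0 ∧ fderiv ℝ H 0 = 0 ∧ ∀ᶠ ξ in 𝓝 (0 : I → Fin n → ℝ),
      H ξ = h (fun j => Ek B hG (ξ j)) ∧ xc B (fun j => Ek B hG (ξ j)) = ξ := by
  have e0 : H 0 = 0 := by
    have := he.self_of_nhds
    rw [xc_one, h1] at this
    exact this.symm
  have hcont : Tendsto (fun (ξ : I → Fin n → ℝ) (j : I) => Ek B hG (ξ j)) (𝓝 0) (𝓝 1) := by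
    rw [tendsto_pi_nhds]
    intro j
    have h2 : Tendsto (fun ξ : I → Fin n → ℝ => ξ j) (𝓝 0) (𝓝 0) :=
      (continuous_apply j).tendsto (0 : I → Fin n → ℝ)
    have h3 : Tendsto (Ek B hG) (𝓝 0) (𝓝 1) := by
      have h4 : Tendsto (kap B) (𝓝 0) (𝓝 0) := by
        have := (kap_contDiffAt B).continuousAt.tendsto
        rwa [kap_zero] at this
      have h5 := ((Eg_cont B hG).tendsto 0).comp h4
      rwa [Eg_zero] at h5
    exact h3.comp h2
  have hpc : ∀ᶠ ξ in 𝓝 (0 : I → Fin n → ℝ), ∀ j, pc B (mt (Ek B hG (ξ j)) - 1) = ξ j := by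
    rw [eventually_all]
    intro j
    have h2 : Tendsto (fun ξ : I → Fin n → ℝ => ξ j) (𝓝 0) (𝓝 0) :=
      (continuous_apply j).tendsto (0 : I → Fin n → ℝ)
    exact h2.eventually (pc_Ek B hG)
  have key : ∀ᶠ ξ in 𝓝 (0 : I → Fin n → ℝ),
      H ξ = h (fun j => Ek B hG (ξ j)) ∧ xc B (fun j => Ek B hG (ξ j)) = ξ := by
    filter_upwards [hcont.eventually he, hpc] with ξ h2 h3
    have h4 : xc B (fun j => Ek B hG (ξ j)) = ξ := funext h3
    rw [h4] at h2
    exact ⟨h2.symm, h4⟩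
  refine ⟨e0, ?_, key⟩
  have hmin : IsLocalMin H 0 := by
    filter_upwards [key] with ξ hξ
    rw [e0, hξ.1]
    exact h0 _
  exact hmin.fderiv_eq_zero

lemma xc_mul (u v : I → G) (j : I) : xc B (v * u) j = xc B u j + (xc B v j +
    pc B ((mt (v j) - 1) * (mt (u j) - 1))) := by
  unfold xc
  rw [← pc_add, ← pc_add, Pi.mul_apply, mt_mul]
  congr 1
  noncomm_ring

include hG in
/-- **Taylor expansion with respect to left multiplication.** -/
theorem near_taylor {h : (I → G) → ℝ} {H : (I → Fin n → ℝ) → ℝ}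
    (hH : ContDiffAt ℝ ∞ H 0) (he : ∀ᶠ u in 𝓝 (1 : I → G), h u = H (xc B u))
    (h1 : fderiv ℝ H 0 = 0) :
    ∃ C ρ : ℝ, 0 ≤ C ∧ 0 < ρ ∧ ∀ (u v : I → G) (δ om : ℝ), 0 ≤ om → om ≤ δ → δ ≤ ρ →
      (∀ j, ‖mt (u j) - 1‖ ≤ δ) → (∀ j, ‖mt (v j) - 1‖ ≤ 2 * om) →
      |h (v * u) - h u - (hess H (xc B u) (xc B v) + 1 / 2 * hess H (xc B v) (xc B v))| ≤
        C * (om * δ ^ 2) := by
  have hH3 : ContDiffAt ℝ 3 H 0 := hH.of_le (WithTop.coe_le_coe.2 (le_top : (3 : ℕ∞) ≤ ⊤))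
  obtain ⟨C, r, hC, hr, hT⟩ := taylor3 hH3 h1
  obtain ⟨ε, hε, hnb⟩ := nr_nhds (hG := hG) he
  obtain ⟨Q, hQ⟩ : ∃ Q, Q = ‖hess H‖ := ⟨_, rfl⟩
  have hQ0 : 0 ≤ Q := by rw [hQ]; exact norm_nonneg (hess H)
  obtain ⟨M, hM⟩ : ∃ M : ℝ, M = (Fintype.card I : ℝ) := ⟨_, rfl⟩
  have hM0 : 0 ≤ M := by rw [hM]; positivity
  obtain ⟨ρ, hρ⟩ : ∃ ρ : ℝ, ρ = min (1 / 2) (min (r / 4) (min (ε / (16 * (M + 1))) (1 / 4))) :=
    ⟨_, rfl⟩
  have hρ0 : 0 < ρ := by
    rw [hρ]
    refine lt_min (by norm_num) (lt_min (by positivity) (lt_min (by positivity) (by norm_num)))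
  have hρ1 : ρ ≤ 1 / 2 := hρ ▸ min_le_left _ _
  have hρ2 : ρ ≤ r / 4 := hρ ▸ (min_le_right _ _).trans (min_le_left _ _)
  have hρ3 : ρ ≤ ε / (16 * (M + 1)) :=
    hρ ▸ (min_le_right _ _).trans ((min_le_right _ _).trans (min_le_left _ _))
  have hρ4 : ρ ≤ 1 / 4 :=
    hρ ▸ (min_le_right _ _).trans ((min_le_right _ _).trans (min_le_right _ _))
  refine ⟨C * 72 + Q * 12, ρ, by positivity, hρ0, fun u v δ om hom homδ hδ hu hv => ?_⟩
  have hδ0 : 0 ≤ δ := hom.trans homδ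
  -- smallness
  have hsm : ∀ k : I → G, (∀ j, ‖mt (k j) - 1‖ ≤ 3 * δ) → nr k < ε := by
    intro k hk
    have h2 : nr k ≤ M * (3 * δ) ^ 2 := by
      unfold nr
      calc ∑ j, ‖mt (k j) - 1‖ ^ 2 ≤ ∑ _j : I, (3 * δ) ^ 2 :=
            Finset.sum_le_sum fun j _ => pow_le_pow_left₀ (norm_nonneg _) (hk j) 2
        _ = _ := by rw [Finset.sum_const, Finset.card_univ, nsmul_eq_mul, hM]
    have h3 : (3 * δ) ^ 2 ≤ 9 * δ := by nlinarith
    have h4 : 9 * δ * (M + 1) ≤ 9 / 16 * ε := by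
      have h5 : δ ≤ ε / (16 * (M + 1)) := hδ.trans hρ3
      rw [le_div_iff₀ (by positivity)] at h5
      linarith
    have h5 : M * (3 * δ) ^ 2 ≤ M * (9 * δ) := mul_le_mul_of_nonneg_left h3 hM0
    nlinarith
  have hvu : ∀ j, ‖mt ((v * u) j) - 1‖ ≤ 3 * δ := by
    intro j
    have := norm_mul_sub_one (v j) (u j)
    have h2 := hu j
    have h3 := hv j
    calc ‖mt ((v * u) j) - 1‖ ≤ ‖mt (v j) - 1‖ + ‖mt (u j) - 1‖ := this
      _ ≤ 3 * δ := by linarith
  have e1 : h u = H (xc B u) := hnb u (hsm u fun j => (hu j).trans (by linarith))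
  have e2 : h (v * u) = H (xc B (v * u)) := hnb _ (hsm _ hvu)
  -- the increment
  obtain ⟨η, hη⟩ : ∃ η, η = xc B (v * u) - xc B u := ⟨_, rfl⟩
  have e3 : xc B (v * u) = xc B u + η := by rw [hη]; abel
  have hxu : ‖xc B u‖ ≤ δ := by
    rw [pi_norm_le_iff_of_nonneg hδ0]
    exact fun j => (pc_norm_le B _).trans (hu j)
  have hxv : ‖xc B v‖ ≤ 2 * om := by
    rw [pi_norm_le_iff_of_nonneg (by linarith)]
    exact fun j => (pc_norm_le B _).trans (hv j)
  have hηv : ‖η - xc B v‖ ≤ 2 * om * δ := by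
    rw [pi_norm_le_iff_of_nonneg (by positivity)]
    intro j
    have h2 : (η - xc B v) j = pc B ((mt (v j) - 1) * (mt (u j) - 1)) := by
      rw [hη]
      simp only [Pi.sub_apply]
      rw [xc_mul]
      abel
    rw [h2]
    refine (pc_norm_le B _).trans ((norm_mul_le _ _).trans ?_)
    exact mul_le_mul (hv j) (hu j) (norm_nonneg _) (by positivity)
  have hηn : ‖η‖ ≤ 3 * om := by
    have h2 : η = xc B v + (η - xc B v) := by abel
    rw [h2]
    refine (norm_add_le _ _).trans ?_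
    have : 2 * om * δ ≤ om := by nlinarith
    linarith
  have key := hT (xc B u) η (hxu.trans (by linarith)) (hηn.trans (by linarith))
  rw [← e3, ← e2, ← e1] at key
  -- compare `η` with `xc v`
  have k1 : |hess H (xc B u) η - hess H (xc B u) (xc B v)| ≤ Q * δ * (2 * om * δ) := by
    rw [← map_sub, ← Real.norm_eq_abs]
    refine ((hess H (xc B u)).le_opNorm _).trans ?_
    refine mul_le_mul ?_ hηv (norm_nonneg _) (by positivity)
    exact ((hess H).le_opNorm _).trans (by rw [← hQ]; gcongr)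
  have k2 : |hess H η η - hess H (xc B v) (xc B v)| ≤ Q * (2 * om * δ) * (5 * om) := by
    have h2 : hess H η η - hess H (xc B v) (xc B v) =
        hess H (η - xc B v) η + hess H (xc B v) (η - xc B v) := by
      rw [map_sub, map_sub, _root_.sub_apply]
      ring
    rw [h2]
    have h3 : |hess H (η - xc B v) η| ≤ Q * (2 * om * δ) * (3 * om) := by
      rw [← Real.norm_eq_abs]
      refine ((hess H (η - xc B v)).le_opNorm _).trans ?_
      refine mul_le_mul ?_ hηn (norm_nonneg _) (by positivity)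
      exact ((hess H).le_opNorm _).trans (by rw [← hQ]; gcongr)
    have h4 : |hess H (xc B v) (η - xc B v)| ≤ Q * (2 * om) * (2 * om * δ) := by
      rw [← Real.norm_eq_abs]
      refine ((hess H (xc B v)).le_opNorm _).trans ?_
      refine mul_le_mul ?_ hηv (norm_nonneg _) (by positivity)
      exact ((hess H).le_opNorm _).trans (by rw [← hQ]; gcongr)
    refine (abs_add_le _ _).trans ?_
    calc |hess H (η - xc B v) η| + |hess H (xc B v) (η - xc B v)|
        ≤ Q * (2 * om * δ) * (3 * om) + Q * (2 * om) * (2 * om * δ) := add_le_add h3 h4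
      _ = _ := by ring
  have k3 : ‖η‖ * (‖xc B u‖ + ‖η‖) ^ 2 ≤ 3 * om * (4 * δ) ^ 2 := by
    have h2 : ‖xc B u‖ + ‖η‖ ≤ 4 * δ := by linarith
    have h3 : 0 ≤ ‖xc B u‖ + ‖η‖ := by positivity
    gcongr
  have k4 : Q * (2 * om * δ) * (5 * om) ≤ 10 * Q * (om * δ ^ 2) := by
    have h2 : om * (om * δ) ≤ om * (δ * δ) :=
      mul_le_mul_of_nonneg_left (mul_le_mul_of_nonneg_right homδ hδ0) hom
    have h3 := mul_le_mul_of_nonneg_left h2 (show 0 ≤ 10 * Q by positivity)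
    calc Q * (2 * om * δ) * (5 * om) = 10 * Q * (om * (om * δ)) := by ring
      _ ≤ 10 * Q * (om * (δ * δ)) := h3
      _ = _ := by ring
  obtain ⟨a, ha⟩ : ∃ a, a = h (v * u) - h u := ⟨_, rfl⟩
  rw [← ha] at key
  rw [← ha]
  have t1 : a - (hess H (xc B u) (xc B v) + 1 / 2 * hess H (xc B v) (xc B v)) =
      (a - hess H (xc B u) η - 1 / 2 * hess H η η) +
      (hess H (xc B u) η - hess H (xc B u) (xc B v)) +
      1 / 2 * (hess H η η - hess H (xc B v) (xc B v)) := by ring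
  rw [t1]
  refine (abs_add_le _ _).trans ?_
  have t2 := abs_add_le (a - hess H (xc B u) η - 1 / 2 * hess H η η)
    (hess H (xc B u) η - hess H (xc B u) (xc B v))
  have t3 : |1 / 2 * (hess H η η - hess H (xc B v) (xc B v))| ≤
      1 / 2 * (10 * Q * (om * δ ^ 2)) := by
    rw [abs_mul, abs_of_pos (by norm_num : (0 : ℝ) < 1 / 2)]
    exact mul_le_mul_of_nonneg_left (k2.trans k4) (by norm_num)
  have t4 := mul_le_mul_of_nonneg_left k3 hC
  have t5 : 0 ≤ om * δ ^ 2 := by positivity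
  have t6 : C * (3 * om * (4 * δ) ^ 2) = 48 * C * (om * δ ^ 2) := by ring
  have t7 : Q * δ * (2 * om * δ) = 2 * Q * (om * δ ^ 2) := by ring
  rw [t6] at t4
  rw [t7] at k1
  have t8 : 0 ≤ C * (om * δ ^ 2) := by positivity
  have t9 : 0 ≤ Q * (om * δ ^ 2) := by positivity
  calc _ ≤ (48 * C * (om * δ ^ 2) + 2 * Q * (om * δ ^ 2)) + 1 / 2 * (10 * Q * (om * δ ^ 2)) := by
        linarith
    _ ≤ (C * 72 + Q * 12) * (om * δ ^ 2) := by nlinarith

end taylor

end

end Pool.Agent.N984.TW
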