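import Mathlib
import Pool.Agent.N984.TW.Near
import Pool.Agent.N984.TW.Blk

/-!
# The energy of a block near the vacuum
-/

open MeasureTheory Matrix Filter
open scoped Matrix.Norms.Frobenius ContDiff Topology
open Pool.Agent.H906R3.YM Pool.Agent.W793.YM Pool.Agent.TH618.YM

namespace Pool.Agent.N984.TW

set_option linter.unusedSectionVars false
set_option linter.unusedVariables false

noncomputable section

section gen

variable {N n : ℕ} {G : Subgroup (UN N)} {B : Frame G n} {hG : IsClosed (G : Set (UN N))}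

lemma normsq_contDiff : ContDiff ℝ ∞ (fun A : Mat N => ‖A‖ ^ 2) := by
  have h : (fun A : Mat N => ‖A‖ ^ 2) = fun A => ip 1 ((ctL N A) * A) := by
    funext A
    rw [norm_sq_ip, ip_apply, ip_apply, conjTranspose_one, one_mul, ctL_apply]
  rw [h]
  exact (ip 1).contDiff.comp ((ctL N).contDiff.mul contDiff_id)

variable {T E : Type*} [Fintype T] [Fintype E] [DecidableEq T] [DecidableEq E] {s t : E → T}
variable {φ₀ : E → G} {P : (E → Fin n → ℝ) →ₗ[ℝ] (T → Fin n → ℝ)} {Zc : Subgroup (T → G)}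
variable {δ₀ c₀ : ℝ} (D : SliceD B hG s t φ₀ P Zc δ₀ c₀)

include D in
/-- the gauge fixing function near the vacuum -/
lemma nearF_gd {δ : ℝ} (hδ : 0 < δ) (hδ₀ : δ ≤ δ₀) :
    NearF B (fun u : E → G => gd B hG s t φ₀ P δ (u * φ₀)) := by
  obtain ⟨xf, hx1, hx2, hx3⟩ := local_form D hδ hδ₀
  have hk : ContDiffAt ℝ ∞ (fun (ξ : E → Fin n → ℝ) (e : E) => kap B (ξ e)) 0 := by
    rw [contDiffAt_pi]
    intro e
    exact ContDiffAt.comp (g := kap B) (f := fun ξ : E → Fin n → ℝ => ξ e)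
      (0 : E → Fin n → ℝ) (kap_contDiffAt B) (pr_contDiff e).contDiffAt
  have hk0 : (fun e : E => kap B ((0 : E → Fin n → ℝ) e)) = 0 := by
    funext e
    exact kap_zero B
  have hxk : ContDiffAt ℝ ∞ (fun ξ : E → Fin n → ℝ => xf fun e => kap B (ξ e)) 0 := by
    refine ContDiffAt.comp (g := xf) (f := fun (ξ : E → Fin n → ℝ) (e : E) => kap B (ξ e))
      (0 : E → Fin n → ℝ) ?_ hk
    show ContDiffAt ℝ ∞ xf (fun e : E => kap B ((0 : E → Fin n → ℝ) e))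
    rw [hk0]
    exact hx1
  refine ⟨fun ξ => ∑ y, ‖EM B (xf (fun e => kap B (ξ e)) y) - 1‖ ^ 2, ?_, ?_⟩
  · refine ContDiffAt.sum fun y _ => ?_
    have h1 : ContDiffAt ℝ ∞ (fun ξ : E → Fin n → ℝ => EM B (xf (fun e => kap B (ξ e)) y) - 1) 0 :=
      ((EM_contDiff B).contDiffAt.comp (0 : E → Fin n → ℝ)
        (((contDiff_apply ℝ (Fin n → ℝ) y).contDiffAt).comp (0 : E → Fin n → ℝ) hxk)).sub
        contDiffAt_const
    exact normsq_contDiff.contDiffAt.comp (0 : E → Fin n → ℝ) h1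
  · have hcont : Tendsto (fun (u : E → G) (e : E) => kap B (xc B u e)) (𝓝 1) (𝓝 0) := by
      have h1 : Tendsto (fun (ξ : E → Fin n → ℝ) (e : E) => kap B (ξ e)) (𝓝 0)
          (𝓝 (fun e : E => kap B ((0 : E → Fin n → ℝ) e))) := hk.continuousAt.tendsto
      rw [hk0] at h1
      exact h1.comp (xc_tendsto B)
    have hEk : ∀ᶠ u : E → G in 𝓝 1, ∀ e : E, Ek B hG (pc B (mt (u e) - 1)) = u e := by
      rw [eventually_all]
      intro e
      have h1 : Tendsto (fun u : E → G => u e) (𝓝 1) (𝓝 1) := (continuous_apply e).tendsto 1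
      exact h1.eventually (Ek_pc B hG)
    filter_upwards [hcont.eventually hx3, hEk] with u h1 h2
    obtain ⟨v, -, -, -, -, h3, -⟩ := h1
    have h4 : exM B hG φ₀ (fun e => kap B (xc B u e)) = u * φ₀ := by
      funext e
      have h5 : Eg B hG (kap B (xc B u e)) = u e := h2 e
      show Eg B hG (kap B (xc B u e)) * φ₀ e = _
      rw [h5]
      rfl
    rw [h4] at h3
    rw [h3]
    unfold nr
    exact Finset.sum_congr rfl fun y _ => by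
      show ‖mt (Eg B hG _) - 1‖ ^ 2 = _
      rw [mt_Eg]

end gen

variable {N l n : ℕ} [NeZero N] [NeZero l]

section words

variable {I : Type*} [Fintype I] {B : Frame (SU N) n} (hG : IsClosed (SU N : Set (UN N)))

include hG in
lemma nearF_VV (z : ℂ) {F : Tor l × Fin 2 → (I → SU N) → SU N} (hF : ∀ e, MSm (F e)) :
    NearF B (fun u : I → SU N => VV z fun e => F e u) := by
  unfold VV
  refine NearF.sum _ fun y _ => ?_
  exact ((((hF _).mul (hF _)).mul (hF _).inv).mul (hF _).inv).nearF_tr (hG := hG) _ _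

include hG in
lemma nearF_hop {F F' : Tor l × Fin 2 → (I → SU N) → SU N} {K : Tor l → (I → SU N) → SU N}
    (hF : ∀ e, MSm (F e)) (hF' : ∀ e, MSm (F' e)) (hK : ∀ y, MSm (K y)) :
    NearF B (fun u : I → SU N => hop (fun e => F e u) (fun y => K y u) fun e => F' e u) := by
  unfold hop
  refine NearF.sum _ fun e _ => ?_
  have h := ((((hK (sE e)).mul (hF' e)).mul (hK (tE e)).inv).mul (hF e).inv).nearF_tr
    (hG := hG) (B := B) (N : ℝ) 1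
  simp only [one_mul] at h
  exact h

include hG in
lemma nearF_SP {F₁ F₂ F₃ F₄ : Tor l → (I → SU N) → SU N}
    (h₁ : ∀ e, MSm (F₁ e)) (h₂ : ∀ e, MSm (F₂ e)) (h₃ : ∀ e, MSm (F₃ e)) (h₄ : ∀ e, MSm (F₄ e)) :
    NearF B (fun u : I → SU N => SP (fun y => F₁ y u) (fun y => F₂ y u) (fun y => F₃ y u)
      (fun y => F₄ y u)) := by
  unfold SP
  refine NearF.sum _ fun y _ => ?_
  have h := ((((h₁ y).mul (h₂ y)).mul (h₃ y).inv).mul (h₄ y).inv).nearF_tr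
    (hG := hG) (B := B) (N : ℝ) 1
  simp only [one_mul] at h
  exact h

include hG in
lemma nearF_nr {J : Type*} [Fintype J] {F : J → (I → SU N) → SU N} (hF : ∀ e, MSm (F e)) :
    NearF B (fun u : I → SU N => nr fun y => F y u) := by
  unfold nr
  exact NearF.sum _ fun y _ => (hF y).nearF_nsq (hG := hG)

end words

namespace Dat

variable (𝔇 : Dat N l n)

/-- the links of a block -/
abbrev II (l : ℕ) := Cn × (Tor l × Fin 4)

/-- torus links at a corner -/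
def fF (j : Cn) (u : II l → SU N) : Tor l × Fin 2 → SU N := fun e =>
  u (j, (e.1, Fin.natAdd 2 e.2)) * 𝔇.φ₀ e

/-- plane links at a corner -/
def kF (j : Cn) (k : Fin 2) (u : II l → SU N) : Tor l → SU N := fun y =>
  u (j, (y, Fin.castAdd 2 k))

/-- The energy of a block near the vacuum. -/
def bnear (δ : ℝ) (fl : Finset Cn) (u : II l → SU N) : ℝ :=
  1 / 4 * (∑ j : Cn, if j ∈ fl then
    (VV 𝔇.z (𝔇.fF j u) + 𝔇.κ * gd 𝔇.B 𝔇.hG sE tE 𝔇.φ₀ 𝔇.P δ (𝔇.fF j u)) else 0) +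
  1 / 2 * (∑ b : Fin 2, if (0, b) ∈ fl ∧ (1, b) ∈ fl then
    hop (𝔇.fF (0, b) u) (kF (0, b) 0 u) (𝔇.fF (1, b) u) else 0) +
  1 / 2 * (∑ a : Fin 2, if (a, 0) ∈ fl ∧ (a, 1) ∈ fl then
    hop (𝔇.fF (a, 0) u) (kF (a, 0) 1 u) (𝔇.fF (a, 1) u) else 0) +
  (if (0, 0) ∈ fl ∧ (1, 0) ∉ fl then nr (kF (0, 0) 0 u) else 0) +
  (if (0, 0) ∈ fl ∧ (0, 1) ∉ fl then nr (kF (0, 0) 1 u) else 0) +
  (if (0, 0) ∈ fl then
    (if (1, 0) ∈ fl ∧ (0, 1) ∈ fl ∧ (1, 1) ∈ fl then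
      SP (kF (0, 0) 0 u) (kF (1, 0) 1 u) (kF (0, 1) 0 u) (kF (0, 0) 1 u)
      else 0) else 0)

lemma msm_fF (j : Cn) (e : Tor l × Fin 2) : MSm (fun u : II l → SU N => 𝔇.fF j u e) :=
  (MSm.coord _).mul (MSm.const _)

lemma msm_kF (j : Cn) (k : Fin 2) (y : Tor l) : MSm (fun u : II l → SU N => kF j k u y) :=
  MSm.coord _

/-- near form of a block -/
lemma nearF_bnear {δ : ℝ} (hδ : 0 < δ) (hδ₀ : δ ≤ 𝔇.δ₀) (fl : Finset Cn) :
    NearF 𝔇.B (𝔇.bnear δ fl) := by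
  unfold bnear
  refine ((((NearF.add ?_ ?_).add ?_).add ?_).add ?_).add ?_
  · refine (NearF.sum _ fun j _ => NearF.ite _ ?_ NearF.zero).const_mul _
    refine (nearF_VV 𝔇.hG 𝔇.z fun e => 𝔇.msm_fF j e).add ?_
    have h := (nearF_gd 𝔇.D hδ hδ₀).comp (I := II l)
      (fun e : Tor l × Fin 2 => ((j, (e.1, Fin.natAdd 2 e.2)) : II l))
    exact h.const_mul _
  · refine (NearF.sum _ fun b _ => NearF.ite _ ?_ NearF.zero).const_mul _
    exact nearF_hop 𝔇.hG (fun e => 𝔇.msm_fF _ e) (fun e => 𝔇.msm_fF _ e) (fun y => msm_kF _ _ y)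
  · refine (NearF.sum _ fun b _ => NearF.ite _ ?_ NearF.zero).const_mul _
    exact nearF_hop 𝔇.hG (fun e => 𝔇.msm_fF _ e) (fun e => 𝔇.msm_fF _ e) (fun y => msm_kF _ _ y)
  · exact NearF.ite _ (nearF_nr 𝔇.hG fun y => msm_kF _ _ y) NearF.zero
  · exact NearF.ite _ (nearF_nr 𝔇.hG fun y => msm_kF _ _ y) NearF.zero
  · exact NearF.ite _ (NearF.ite _ (nearF_SP 𝔇.hG (fun y => msm_kF _ _ y) (fun y => msm_kF _ _ y)
      (fun y => msm_kF _ _ y) (fun y => msm_kF _ _ y)) NearF.zero) NearF.zero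

lemma bnear_nonneg (δ : ℝ) (fl : Finset Cn) (u : II l → SU N) : 0 ≤ 𝔇.bnear δ fl u := by
  unfold bnear
  have h1 : 0 ≤ ∑ j : Cn, if j ∈ fl then
      (VV 𝔇.z (𝔇.fF j u) + 𝔇.κ * gd 𝔇.B 𝔇.hG sE tE 𝔇.φ₀ 𝔇.P δ (𝔇.fF j u)) else 0 := by
    refine Finset.sum_nonneg fun j _ => ?_
    split_ifs
    · exact add_nonneg (𝔇.V0 _) (mul_nonneg 𝔇.hκ.le (gd_nonneg _ _ _ _ _ _ _ _))
    · exact le_rfl
  have h2 : 0 ≤ ∑ b : Fin 2, if (0, b) ∈ fl ∧ (1, b) ∈ fl then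
      hop (𝔇.fF (0, b) u) (kF (0, b) 0 u) (𝔇.fF (1, b) u) else 0 := by
    refine Finset.sum_nonneg fun j _ => ?_
    split_ifs
    · exact hop_nonneg _ _ _
    · exact le_rfl
  have h3 : 0 ≤ ∑ a : Fin 2, if (a, 0) ∈ fl ∧ (a, 1) ∈ fl then
      hop (𝔇.fF (a, 0) u) (kF (a, 0) 1 u) (𝔇.fF (a, 1) u) else 0 := by
    refine Finset.sum_nonneg fun j _ => ?_
    split_ifs
    · exact hop_nonneg _ _ _
    · exact le_rfl
  have h4 : 0 ≤ (if (0, 0) ∈ fl ∧ (1, 0) ∉ fl then nr (kF (0, 0) 0 u) else 0) := by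
    split_ifs
    · exact nr_nonneg _
    · exact le_rfl
  have h5 : 0 ≤ (if (0, 0) ∈ fl ∧ (0, 1) ∉ fl then nr (kF (0, 0) 1 u) else 0) := by
    split_ifs
    · exact nr_nonneg _
    · exact le_rfl
  have h6 : 0 ≤ (if (0, 0) ∈ fl then
    (if (1, 0) ∈ fl ∧ (0, 1) ∈ fl ∧ (1, 1) ∈ fl then
      SP (kF (0, 0) 0 u) (kF (1, 0) 1 u) (kF (0, 1) 0 u) (kF (0, 0) 1 u)
      else 0) else 0) := by
    split_ifs
    · exact SP_nonneg _ _ _ _
    · exact le_rfl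
    · exact le_rfl
  linarith

/-- the family of links of a family of spins -/
def lks (g : Cn → 𝔇.KK) : II l → SU N := fun p => (g p.1).1 p.2

lemma phi_ph (g : 𝔇.KK) (e : Tor l × Fin 2) :
    phi (𝔇.ph g) e = g.1 (e.1, Fin.natAdd 2 e.2) * 𝔇.φ₀ e := by
  unfold ph
  rw [phi_mul_u0]
  rfl

lemma fF_lks (g : Cn → 𝔇.KK) (j : Cn) : 𝔇.fF j (𝔇.lks g) = phi (𝔇.ph (g j)) := by
  funext e
  rw [phi_ph]
  rfl

lemma kF_lks (g : Cn → 𝔇.KK) (j : Cn) (k : Fin 2) : kF j k (𝔇.lks g) = psi (𝔇.ph (g j)) k := by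
  unfold ph
  rw [psi_mul_u0]
  rfl

lemma nM_le_nsq (g : 𝔇.KK) : nM 𝔇.φ₀ (phi (𝔇.ph g)) ≤ nsq g := by
  refine le_trans ?_ (le_add_of_nonneg_right (dz_nonneg g.2))
  unfold nM nr
  have h1 : ∀ e : Tor l × Fin 2, phi (𝔇.ph g) e * (𝔇.φ₀ e)⁻¹ = g.1 (e.1, Fin.natAdd 2 e.2) := by
    intro e
    rw [phi_ph]
    group
  simp only [h1]
  let f : (Tor l × Fin 2) ↪ (Tor l × Fin 4) :=
    ⟨fun e => (e.1, Fin.natAdd 2 e.2), fun e e' h => by
      have h2 := congrArg Prod.fst h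
      have h3 := congrArg Prod.snd h
      simp only at h2 h3
      exact Prod.ext h2 (by ext; have := congrArg Fin.val h3; simpa using this)⟩
  calc ∑ e : Tor l × Fin 2, ‖mt (g.1 (e.1, Fin.natAdd 2 e.2)) - 1‖ ^ 2
      = ∑ p ∈ Finset.univ.map f, ‖mt (g.1 p) - 1‖ ^ 2 := by rw [Finset.sum_map]; rfl
    _ ≤ ∑ p, ‖mt (g.1 p) - 1‖ ^ 2 :=
        Finset.sum_le_sum_of_subset_of_nonneg (Finset.subset_univ _) fun _ _ _ => sq_nonneg _

lemma nr_psi_le_nsq (g : 𝔇.KK) (k : Fin 2) : nr (psi (𝔇.ph g) k) ≤ nsq g := by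
  refine le_trans ?_ (le_add_of_nonneg_right (dz_nonneg g.2))
  unfold ph
  rw [psi_mul_u0]
  unfold nr
  let f : (Tor l) ↪ (Tor l × Fin 4) :=
    ⟨fun y => (y, Fin.castAdd 2 k), fun e e' h => (Prod.mk.inj h).1⟩
  calc ∑ y : Tor l, ‖mt (psi g.1 k y) - 1‖ ^ 2
      = ∑ p ∈ Finset.univ.map f, ‖mt (g.1 p) - 1‖ ^ 2 := by rw [Finset.sum_map]; rfl
    _ ≤ ∑ p, ‖mt (g.1 p) - 1‖ ^ 2 :=
        Finset.sum_le_sum_of_subset_of_nonneg (Finset.subset_univ _) fun _ _ _ => sq_nonneg _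

variable [MeasurableSpace (SU N)] (μ : Measure (SU N))

/-- **The energy of a block near the vacuum.** -/
lemma blk_near {δ r : ℝ} (hδ : 0 < δ) (hδ₀ : δ ≤ 𝔇.δ₀) (hr : 0 < r) :
    ∃ ρ : ℝ, 0 < ρ ∧ ρ < 1 ∧ ∀ (β : ℝ) (fl : Finset Cn) (g : Cn → 𝔇.KK), (∀ j, nrm (g j) ≤ ρ) →
      𝔇.blk μ δ r β fl g = 𝔇.bnear δ fl (𝔇.lks g) := by
  obtain ⟨ε, hε, hnear⟩ := nM_nhds (hG := 𝔇.hG) (tube_nhds 𝔇.D hδ hδ₀)
  obtain ⟨ρ, hρ⟩ : ∃ ρ : ℝ, ρ = min (1 / 2) (min (ε / 2) r) := ⟨_, rfl⟩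
  have hρ0 : 0 < ρ := by rw [hρ]; positivity
  have hρ1 : ρ ≤ 1 / 2 := hρ ▸ min_le_left _ _
  have hρ2 : ρ ≤ ε / 2 := hρ ▸ (min_le_right _ _).trans (min_le_left _ _)
  have hρ3 : ρ ≤ r := hρ ▸ (min_le_right _ _).trans (min_le_right _ _)
  refine ⟨ρ, hρ0, by linarith, fun β fl g hg => ?_⟩
  have hsq : ∀ j, nsq (g j) ≤ ρ := by
    intro j
    rw [← nrm_sq]
    have h1 := hg j
    have h2 := nrm_nonneg (g j)
    nlinarith
  have hc : ∀ j, (g j).2 = 1 := fun j => nrm_lt_one (lt_of_le_of_lt (hg j) (by linarith))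
  have hfib : ∀ j, 𝔇.fib μ δ β (phi (𝔇.ph (g j))) = VV 𝔇.z (phi (𝔇.ph (g j))) +
      𝔇.κ * gd 𝔇.B 𝔇.hG sE tE 𝔇.φ₀ 𝔇.P δ (phi (𝔇.ph (g j))) := by
    intro j
    unfold fib ge
    rw [if_pos (hnear _ (lt_of_le_of_lt ((𝔇.nM_le_nsq _).trans (hsq j)) (by linarith)))]
  have he2 : ∀ j k, 𝔇.e2 r β (psi (𝔇.ph (g j)) k) = 0 := by
    intro j k
    unfold e2
    rw [if_pos ((𝔇.nr_psi_le_nsq _ _).trans ((hsq j).trans hρ3))]
  unfold blk bnear lnk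
  simp only [fF_lks, kF_lks, hfib, he2, add_zero, hc, dz_one, Subgroup.coe_one, one_mul]

end Dat

end

end Pool.Agent.N984.TW
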