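import Mathlib
import Pool.Agent.N984.TW.BlkNear
import Pool.Agent.N984.TW.BlkB
import Pool.Agent.N991.MK.Vol

/-!
# The Hessian of the block energy, volumes
-/

open MeasureTheory Matrix Filter
open scoped Matrix.Norms.Frobenius ContDiff Topology ENNReal
open Pool.Agent.H906R3.YM Pool.Agent.W793.YM Pool.Agent.TH618.YM

namespace Pool.Agent.N984.TW

set_option linter.unusedSectionVars false
set_option linter.unusedVariables false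

noncomputable section

variable {N l n : ℕ} [NeZero N] [NeZero l]

/-- the space of the linearised spins -/
abbrev EV (l n : ℕ) := EuclideanSpace ℝ ((Tor l × Fin 4) × Fin n)

namespace Dat

variable (𝔇 : Dat N l n)

section hess

variable {δ : ℝ} (hδ : 0 < δ) (hδ₀ : δ ≤ 𝔇.δ₀)

/-- the energy of a block as a function of the coordinates -/
def HH (fl : Finset Cn) : (II l → Fin n → ℝ) → ℝ := (𝔇.nearF_bnear hδ hδ₀ fl).choose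

lemma HH_cd (fl : Finset Cn) : ContDiffAt ℝ ∞ (𝔇.HH hδ hδ₀ fl) 0 :=
  (𝔇.nearF_bnear hδ hδ₀ fl).choose_spec.1

lemma HH_eq (fl : Finset Cn) :
    ∀ᶠ u in 𝓝 (1 : II l → SU N), 𝔇.bnear δ fl u = 𝔇.HH hδ hδ₀ fl (xc 𝔇.B u) :=
  (𝔇.nearF_bnear hδ hδ₀ fl).choose_spec.2

end hess

/-- the spins of a block from the spins at the corners -/
def unb {α : Type*} (g : Cn → α) : Pl → α := fun Y =>
  g (if Y.1 = 0 then 0 else 1, if Y.2 = 0 then 0 else 1)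

lemma unb_off {α : Type*} (g : Cn → α) (j : Cn) : unb g (off j) = g j := by
  obtain ⟨a, b⟩ := j
  fin_cases a <;> fin_cases b <;> simp [unb, off]

lemma flg_image (fl : Finset Cn) : flg (fl.image off) 0 = fl := by
  ext j
  unfold flg
  rw [Finset.mem_filter, zero_add, Finset.mem_image]
  constructor
  · rintro ⟨-, k, hk, h⟩
    rwa [← off_inj h]
  · intro h
    exact ⟨Finset.mem_univ _, j, h, rfl⟩

/-- the energy of a block depends on the corners in the region -/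
lemma blk_loc [MeasurableSpace (SU N)] (μ : Measure (SU N)) (δ r β : ℝ) (fl : Finset Cn)
    (g g' : Cn → 𝔇.KK) (h : ∀ j ∈ fl, g j = g' j) :
    𝔇.blk μ δ r β fl g = 𝔇.blk μ δ r β fl g' := by
  have e1 : ∀ j : Cn, (if j ∈ fl then 𝔇.fib μ δ β (phi (𝔇.ph (g j))) else 0) =
      (if j ∈ fl then 𝔇.fib μ δ β (phi (𝔇.ph (g' j))) else 0) := by
    intro j
    by_cases hj : j ∈ fl
    · rw [if_pos hj, if_pos hj, h j hj]
    · rw [if_neg hj, if_neg hj]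
  have e2 : ∀ (i j : Cn) (k : Fin 2), (if i ∈ fl ∧ j ∈ fl then
      𝔇.lnk r β (phi (𝔇.ph (g i))) (psi (𝔇.ph (g i)) k) (phi (𝔇.ph (g j))) else 0) =
      (if i ∈ fl ∧ j ∈ fl then
      𝔇.lnk r β (phi (𝔇.ph (g' i))) (psi (𝔇.ph (g' i)) k) (phi (𝔇.ph (g' j))) else 0) := by
    intro i j k
    by_cases hj : i ∈ fl ∧ j ∈ fl
    · rw [if_pos hj, if_pos hj, h i hj.1, h j hj.2]
    · rw [if_neg hj, if_neg hj]
  have e3 : ∀ (j : Cn) (k : Fin 2), (if (0, 0) ∈ fl ∧ j ∉ fl then nr (psi (𝔇.ph (g (0, 0))) k)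
      else 0) = (if (0, 0) ∈ fl ∧ j ∉ fl then nr (psi (𝔇.ph (g' (0, 0))) k) else 0) := by
    intro j k
    by_cases hj : (0, 0) ∈ fl ∧ j ∉ fl
    · rw [if_pos hj, if_pos hj, h _ hj.1]
    · rw [if_neg hj, if_neg hj]
  have e4 : (if (0, 0) ∈ fl then
    (if (1, 0) ∈ fl ∧ (0, 1) ∈ fl ∧ (1, 1) ∈ fl then
      SP (((g (0, 0)).2 : Tor l → SU N) * psi (𝔇.ph (g (0, 0))) 0) (psi (𝔇.ph (g (1, 0))) 1)
        (psi (𝔇.ph (g (0, 1))) 0) (psi (𝔇.ph (g (0, 0))) 1)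
      else dz (g (0, 0)).2) else 0) = (if (0, 0) ∈ fl then
    (if (1, 0) ∈ fl ∧ (0, 1) ∈ fl ∧ (1, 1) ∈ fl then
      SP (((g' (0, 0)).2 : Tor l → SU N) * psi (𝔇.ph (g' (0, 0))) 0) (psi (𝔇.ph (g' (1, 0))) 1)
        (psi (𝔇.ph (g' (0, 1))) 0) (psi (𝔇.ph (g' (0, 0))) 1)
      else dz (g' (0, 0)).2) else 0) := by
    by_cases h0 : (0, 0) ∈ fl
    · rw [if_pos h0, if_pos h0, h _ h0]
      by_cases hj : (1, 0) ∈ fl ∧ (0, 1) ∈ fl ∧ (1, 1) ∈ fl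
      · rw [if_pos hj, if_pos hj, h _ hj.1, h _ hj.2.1]
      · rw [if_neg hj, if_neg hj]
    · rw [if_neg h0, if_neg h0]
  unfold blk
  rw [Finset.sum_congr rfl fun j _ => e1 j, Finset.sum_congr rfl fun b _ => e2 (0, b) (1, b) 0,
    Finset.sum_congr rfl fun b _ => e2 (b, 0) (b, 1) 1, e3 (1, 0) 0, e3 (0, 1) 1, e4]

section lower

variable [MeasurableSpace (SU N)] [BorelSpace (SU N)] (μ : Measure (SU N))
  [IsProbabilityMeasure μ] [μ.IsMulLeftInvariant] [μ.IsMulRightInvariant]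

lemma blk_lower {δ r : ℝ} (hδ : 0 < δ) (hδ₀ : δ ≤ 𝔇.δ₀) (hr : 0 < r) (hr₀ : 16 * r ≤ 𝔇.c₀) :
    ∃ C : ℝ, 0 < C ∧ ∀ β : ℝ, 1 ≤ β → ∀ (fl : Finset Cn) (g : Cn → 𝔇.KK), (0, 0) ∈ fl →
      nsq (g (0, 0)) ≤ C * 𝔇.blk μ δ r β fl g := by
  obtain ⟨C, hC, h⟩ := 𝔇.hT_lower μ hδ hδ₀ hr hr₀
  refine ⟨C, hC, fun β hβ fl g h0 => ?_⟩
  have h1 := h β hβ (fl.image off) 0 (unb g) (by
    rw [Finset.mem_image]
    exact ⟨(0, 0), h0, rfl⟩)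
  have h2 : unb g 0 = g (0, 0) := unb_off g (0, 0)
  have h3 : 𝔇.hT μ δ r β (fl.image off) 0 (unb g) = 𝔇.blk μ δ r β fl g := by
    unfold hT
    rw [flg_image]
    congr 1
    funext j
    rw [zero_add, unb_off]
  rw [h2, h3] at h1
  exact h1

end lower

/-- the vanishing at the vacuum -/
lemma bnear_one {δ : ℝ} (hδ : 0 < δ) (hδ₀ : δ ≤ 𝔇.δ₀) (fl : Finset Cn) :
    𝔇.bnear δ fl 1 = 0 := by
  have hf : ∀ j, 𝔇.fF j (1 : II l → SU N) = 𝔇.φ₀ := by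
    intro j
    funext e
    show (1 : SU N) * _ = _
    rw [one_mul]
  have hk : ∀ j k, kF j k (1 : II l → SU N) = 1 := fun j k => rfl
  have hV : VV 𝔇.z 𝔇.φ₀ = 0 := by
    obtain ⟨C, hC⟩ := 𝔇.Vu
    have h1 := hC 𝔇.φ₀
    have h2 : nM 𝔇.φ₀ 𝔇.φ₀ = 0 := by
      rw [nM_eq]
      exact Finset.sum_eq_zero fun e _ => by rw [sub_self, norm_zero]; norm_num
    rw [h2, mul_zero] at h1
    exact le_antisymm h1 (𝔇.V0 _)
  have hact : act sE tE (1 : Tor l → SU N) 𝔇.φ₀ = 𝔇.φ₀ := act_one _ _ _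
  have hhop : hop 𝔇.φ₀ 1 𝔇.φ₀ = 0 := by
    rw [hop_eq, hact, nM_eq, Finset.sum_eq_zero, mul_zero]
    exact fun e _ => by rw [sub_self, norm_zero]; norm_num
  have hSP : SP (1 : Tor l → SU N) 1 1 1 = 0 := by
    have h1 := SP_le (1 : Tor l → SU N) 1 1 1
    have h2 := SP_nonneg (1 : Tor l → SU N) 1 1 1
    rw [nr_one] at h1
    linarith
  have hgd : gd 𝔇.B 𝔇.hG sE tE 𝔇.φ₀ 𝔇.P δ 𝔇.φ₀ = 0 := by
    obtain ⟨C, hC, h⟩ := gd_upper 𝔇.D hδ hδ₀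
    have h1 := h 𝔇.φ₀ (mem_of_mem_nhds (tube_nhds 𝔇.D hδ hδ₀))
    have h2 : nM 𝔇.φ₀ 𝔇.φ₀ = 0 := by
      rw [nM_eq]
      exact Finset.sum_eq_zero fun e _ => by rw [sub_self, norm_zero]; norm_num
    rw [h2, mul_zero] at h1
    exact le_antisymm h1 (gd_nonneg _ _ _ _ _ _ _ _)
  unfold bnear
  simp only [hf, hk, hV, hgd, hhop, hSP, nr_one, add_zero, ite_self, Finset.sum_const_zero,
    mul_zero]

lemma HH_zero {δ : ℝ} (hδ : 0 < δ) (hδ₀ : δ ≤ 𝔇.δ₀) (fl : Finset Cn) :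
    𝔇.HH hδ hδ₀ fl 0 = 0 ∧ fderiv ℝ (𝔇.HH hδ hδ₀ fl) 0 = 0 ∧
      ∀ᶠ ξ in 𝓝 (0 : II l → Fin n → ℝ),
        𝔇.HH hδ hδ₀ fl ξ = 𝔇.bnear δ fl (fun j => Ek 𝔇.B 𝔇.hG (ξ j)) ∧
          xc 𝔇.B (fun j => Ek 𝔇.B 𝔇.hG (ξ j)) = ξ :=
  near_zero 𝔇.hG (𝔇.HH_cd hδ hδ₀ fl) (𝔇.HH_eq hδ hδ₀ fl) (𝔇.bnear_nonneg δ fl)
    (𝔇.bnear_one hδ hδ₀ fl)

lemma HH_cd3 {δ : ℝ} (hδ : 0 < δ) (hδ₀ : δ ≤ 𝔇.δ₀) (fl : Finset Cn) :
    ContDiffAt ℝ 3 (𝔇.HH hδ hδ₀ fl) 0 :=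
  (𝔇.HH_cd hδ hδ₀ fl).of_le (WithTop.coe_le_coe.2 (le_top : (3 : ℕ∞) ≤ ⊤))

/-- the Hessian of the block is nonnegative -/
lemma hess_nonneg {δ : ℝ} (hδ : 0 < δ) (hδ₀ : δ ≤ 𝔇.δ₀) (fl : Finset Cn)
    (ξ : II l → Fin n → ℝ) : 0 ≤ hess (𝔇.HH hδ hδ₀ fl) ξ ξ := by
  obtain ⟨h0, h1, h2⟩ := 𝔇.HH_zero hδ hδ₀ fl
  have h3 := hess_lower (𝔇.HH_cd3 hδ hδ₀ fl) h1 h0 (q := fun _ => 0) (fun a x => by simp)
    (by filter_upwards [h2] with x hx; rw [hx.1]; exact 𝔇.bnear_nonneg _ _ _) ξ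
  simpa using h3

variable [MeasurableSpace (SU N)] [BorelSpace (SU N)] (μ : Measure (SU N))
  [IsProbabilityMeasure μ] [μ.IsMulLeftInvariant] [μ.IsMulRightInvariant]

include μ in
/-- the Hessian of the block controls the spin at its base point -/
lemma hess_coer {δ r : ℝ} (hδ : 0 < δ) (hδ₀ : δ ≤ 𝔇.δ₀) (hr : 0 < r) (hr₀ : 16 * r ≤ 𝔇.c₀) :
    ∃ c : ℝ, 0 < c ∧ ∀ (fl : Finset Cn), (0, 0) ∈ fl → ∀ ξ : II l → Fin n → ℝ,
      c * (∑ i, ∑ a, ξ ((0, 0), i) a ^ 2) ≤ hess (𝔇.HH hδ hδ₀ fl) ξ ξ := by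
  obtain ⟨C, hC, hl⟩ := 𝔇.blk_lower μ hδ hδ₀ hr hr₀
  obtain ⟨ρ, hρ, hρ1, hbn⟩ := 𝔇.blk_near μ hδ hδ₀ hr
  refine ⟨2 * (1 / C), by positivity, fun fl h0 ξ => ?_⟩
  obtain ⟨h1, h2, h3⟩ := 𝔇.HH_zero hδ hδ₀ fl
  have hcont : Tendsto (fun (ξ : II l → Fin n → ℝ) => nr fun p => Ek 𝔇.B 𝔇.hG (ξ p)) (𝓝 0)
      (𝓝 0) := by
    have hE : Tendsto (fun (ξ : II l → Fin n → ℝ) (j : II l) => Ek 𝔇.B 𝔇.hG (ξ j)) (𝓝 0)
        (𝓝 1) := by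
      rw [tendsto_pi_nhds]
      intro j
      have e2 : Tendsto (fun ξ : II l → Fin n → ℝ => ξ j) (𝓝 0) (𝓝 0) :=
        (continuous_apply j).tendsto (0 : II l → Fin n → ℝ)
      have e3 : Tendsto (Ek 𝔇.B 𝔇.hG) (𝓝 0) (𝓝 1) := by
        have e4 : Tendsto (kap 𝔇.B) (𝓝 0) (𝓝 0) := by
          have := (kap_contDiffAt 𝔇.B).continuousAt.tendsto
          rwa [kap_zero] at this
        have e5 := ((Eg_cont 𝔇.B 𝔇.hG).tendsto 0).comp e4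
        rwa [Eg_zero] at e5
      exact e3.comp e2
    have e6 := ((nr_cont (G := SU N) (I := II l)).tendsto 1).comp hE
    rwa [nr_one] at e6
  have hsm : ∀ᶠ ξ in 𝓝 (0 : II l → Fin n → ℝ), nr (fun p => Ek 𝔇.B 𝔇.hG (ξ p)) < ρ ^ 2 :=
    hcont.eventually (gt_mem_nhds (by positivity))
  have key := hess_lower (𝔇.HH_cd3 hδ hδ₀ fl) h2 h1
    (q := fun ξ => 1 / C * ∑ i, ∑ a, ξ ((0, 0), i) a ^ 2) (fun a x => by
      simp only [Pi.smul_apply, smul_eq_mul, mul_pow, ← Finset.mul_sum]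
      ring) (by
      filter_upwards [h3, hsm] with ξ h4 h5
      rw [h4.1]
      obtain ⟨g, hg⟩ : ∃ g : Cn → 𝔇.KK, g = fun j =>
        ((fun i => Ek 𝔇.B 𝔇.hG (ξ (j, i))), 1) := ⟨_, rfl⟩
      have h6 : 𝔇.lks g = fun p => Ek 𝔇.B 𝔇.hG (ξ p) := by
        rw [hg]; rfl
      have h7 : ∀ j, nrm (g j) ≤ ρ := by
        intro j
        have h8 : nsq (g j) ≤ ρ ^ 2 := by
          refine le_trans ?_ h5.le
          have h9 : nsq (g j) = ∑ i, ‖mt (Ek 𝔇.B 𝔇.hG (ξ (j, i))) - 1‖ ^ 2 := by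
            rw [hg]
            unfold nsq nr
            rw [dz_one, add_zero]
          rw [h9]
          refine le_trans (Finset.single_le_sum
            (f := fun j : Cn => ∑ i, ‖mt (Ek 𝔇.B 𝔇.hG (ξ (j, i))) - 1‖ ^ 2)
            (fun _ _ => Finset.sum_nonneg fun _ _ => sq_nonneg _) (Finset.mem_univ j)) ?_
          exact (Fintype.sum_prod_type fun p : II l => ‖mt (Ek 𝔇.B 𝔇.hG (ξ p)) - 1‖ ^ 2).symm.le
        unfold nrm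
        rw [← Real.sqrt_sq hρ.le]
        exact Real.sqrt_le_sqrt h8
      have h10 := hbn 1 fl g h7
      rw [h6] at h10
      rw [← h10]
      have h11 := hl 1 le_rfl fl g h0
      have h12 : ∑ i, ∑ a, ξ ((0, 0), i) a ^ 2 ≤ nsq (g (0, 0)) := by
        have h9 : nsq (g (0, 0)) = ∑ i, ‖mt (Ek 𝔇.B 𝔇.hG (ξ ((0, 0), i))) - 1‖ ^ 2 := by
          rw [hg]
          unfold nsq nr
          rw [dz_one, add_zero]
        rw [h9]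
        refine Finset.sum_le_sum fun i _ => ?_
        have h13 := congrFun h4.2 ((0, 0), i)
        have h14 := pc_sq_le 𝔇.B (mt (Ek 𝔇.B 𝔇.hG (ξ ((0, 0), i))) - 1)
        have h15 : pc 𝔇.B (mt (Ek 𝔇.B 𝔇.hG (ξ ((0, 0), i))) - 1) = ξ ((0, 0), i) := h13
        rwa [h15] at h14
      rw [one_div, ← div_eq_inv_mul, div_le_iff₀ hC]
      linarith) ξ
  linarith

end Dat

end

end Pool.Agent.N984.TW
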