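import Mathlib
import Pool.Agent.N984.TW.SysA
import Pool.Agent.N109.Slab.Soft

/-!
# The quadratic forms of the blocks
-/

open MeasureTheory Matrix Filter
open scoped Matrix.Norms.Frobenius ContDiff Topology ENNReal
open Pool.Agent.H906R3.YM Pool.Agent.W793.YM Pool.Agent.TH618.YM
open Pool.Agent.N990.Mach (tch cl)

namespace Pool.Agent.N984.TW

set_option linter.unusedSectionVars false
set_option linter.unusedVariables false

noncomputable section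

variable {N l n : ℕ} [NeZero N] [NeZero l]

namespace Dat

/-- the coordinates of a block -/
def xw (fl : Finset Cn) (t : Pl) : (Pl → EV l n) →ₗ[ℝ] (II l → Fin n → ℝ) where
  toFun φ p a := if p.1 ∈ fl then φ (t + off p.1) (p.2, a) else 0
  map_add' φ φ' := by
    funext p a
    simp only [Pi.add_apply]
    split_ifs
    · rfl
    · rw [add_zero]
  map_smul' c φ := by
    funext p a
    simp only [Pi.smul_apply, RingHom.id_apply, smul_eq_mul]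
    split_ifs
    · rfl
    · rw [mul_zero]

lemma xw_apply (fl : Finset Cn) (t : Pl) (φ : Pl → EV l n) (p : II l) (a : Fin n) :
    xw fl t φ p a = if p.1 ∈ fl then φ (t + off p.1) (p.2, a) else 0 := rfl

lemma xw_norm {fl : Finset Cn} {t : Pl} {φ : Pl → EV l n} {x : ℝ} (hx : 0 ≤ x)
    (h : ∀ j ∈ fl, ‖φ (t + off j)‖ ≤ x) : ‖xw fl t φ‖ ≤ x := by
  rw [pi_norm_le_iff_of_nonneg hx]
  intro p
  rw [pi_norm_le_iff_of_nonneg hx]
  intro a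
  rw [xw_apply]
  split_ifs with hp
  · refine le_trans ?_ (h p.1 hp)
    exact PiLp.norm_apply_le (φ (t + off p.1)) (p.2, a)
  · rw [norm_zero]; exact hx

variable (𝔇 : Dat N l n)

section

variable {δ : ℝ} (hδ : 0 < δ) (hδ₀ : δ ≤ 𝔇.δ₀)

/-- the Hessian -/
def hs (fl : Finset Cn) : (II l → Fin n → ℝ) →L[ℝ] (II l → Fin n → ℝ) →L[ℝ] ℝ :=
  hess (𝔇.HH hδ hδ₀ fl)

/-- the quadratic form of a block -/
def bS (Λ : Finset Pl) (t : Pl) (φ w : Pl → EV l n) : ℝ :=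
  𝔇.hs hδ hδ₀ (flg Λ t) (xw (flg Λ t) t φ) (xw (flg Λ t) t w)

/-- the constant term -/
def ccS (Λ : Finset Pl) (t : Pl) (w : Pl → EV l n) : ℝ := 1 / 2 * 𝔇.bS hδ hδ₀ Λ t w w

lemma bS_add_left (Λ : Finset Pl) (t : Pl) (φ φ' w : Pl → EV l n) :
    𝔇.bS hδ hδ₀ Λ t (φ + φ') w = 𝔇.bS hδ hδ₀ Λ t φ w + 𝔇.bS hδ hδ₀ Λ t φ' w := by
  unfold bS
  rw [map_add, map_add, _root_.add_apply]

lemma bS_smul_left (Λ : Finset Pl) (t : Pl) (c : ℝ) (φ w : Pl → EV l n) :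
    𝔇.bS hδ hδ₀ Λ t (c • φ) w = c * 𝔇.bS hδ hδ₀ Λ t φ w := by
  unfold bS
  rw [map_smul, map_smul, _root_.smul_apply, smul_eq_mul]

lemma bS_add_right (Λ : Finset Pl) (t : Pl) (φ w w' : Pl → EV l n) :
    𝔇.bS hδ hδ₀ Λ t φ (w + w') = 𝔇.bS hδ hδ₀ Λ t φ w + 𝔇.bS hδ hδ₀ Λ t φ w' := by
  unfold bS
  rw [map_add, map_add]

lemma bS_smul_right (Λ : Finset Pl) (t : Pl) (c : ℝ) (φ w : Pl → EV l n) :
    𝔇.bS hδ hδ₀ Λ t φ (c • w) = c * 𝔇.bS hδ hδ₀ Λ t φ w := by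
  unfold bS
  rw [map_smul, map_smul, smul_eq_mul]

/-- the bound of the quadratic forms -/
def CbS : ℝ := ∑ fl : Finset Cn, ‖𝔇.hs hδ hδ₀ fl‖

lemma CbS_nonneg : 0 ≤ 𝔇.CbS hδ hδ₀ := Finset.sum_nonneg fun fl _ => norm_nonneg (𝔇.hs hδ hδ₀ fl)

lemma hs_le (fl : Finset Cn) : ‖𝔇.hs hδ hδ₀ fl‖ ≤ 𝔇.CbS hδ hδ₀ :=
  Finset.single_le_sum (f := fun fl => ‖𝔇.hs hδ hδ₀ fl‖) (fun fl _ => norm_nonneg (𝔇.hs hδ hδ₀ fl))
    (Finset.mem_univ fl)

lemma flg_ne {a b t : Pl} (hab : a ≤ b) (ht : t ∈ TT a b) : (flg (Finset.Icc a b) t).Nonempty := by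
  unfold TT at ht
  rw [Finset.mem_Icc] at ht
  obtain ⟨⟨h1, h2⟩, ⟨h3, h4⟩⟩ := ht
  obtain ⟨h5, h6⟩ := hab
  simp only [Prod.fst_sub, Prod.snd_sub] at h1 h2
  refine ⟨(if a.1 ≤ t.1 then 0 else 1, if a.2 ≤ t.2 then 0 else 1), ?_⟩
  unfold flg
  rw [Finset.mem_filter]
  refine ⟨Finset.mem_univ _, ?_⟩
  rw [Finset.mem_Icc]
  constructor
  · constructor
    · simp only [off, Prod.fst_add]
      split_ifs with h
      · simpa using h
      · simp; omega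
    · simp only [off, Prod.snd_add]
      split_ifs with h
      · simpa using h
      · simp; omega
  · constructor
    · simp only [off, Prod.fst_add]
      split_ifs with h
      · simpa using h3
      · simp; omega
    · simp only [off, Prod.snd_add]
      split_ifs with h
      · simpa using h4
      · simp; omega

lemma bS_bd {Λ : Finset Pl} {t : Pl} (hne : (flg Λ t).Nonempty) (φ w : Pl → EV l n) (x y : ℝ)
    (hx : ∀ i ∈ spt Λ t, ‖φ i‖ ≤ x) (hy : ∀ i ∈ spt Λ t, ‖w i‖ ≤ y) :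
    |𝔇.bS hδ hδ₀ Λ t φ w| ≤ 𝔇.CbS hδ hδ₀ * x * y := by
  obtain ⟨j, hj⟩ := hne
  have hx0 : 0 ≤ x := (norm_nonneg _).trans (hx _ (mem_spt_of hj))
  have hy0 : 0 ≤ y := (norm_nonneg _).trans (hy _ (mem_spt_of hj))
  have h1 := xw_norm (fl := flg Λ t) (t := t) (φ := φ) hx0 fun j hj => hx _ (mem_spt_of hj)
  have h2 := xw_norm (fl := flg Λ t) (t := t) (φ := w) hy0 fun j hj => hy _ (mem_spt_of hj)
  have h3 := (𝔇.hs hδ hδ₀ (flg Λ t)).le_opNorm₂ (xw (flg Λ t) t φ) (xw (flg Λ t) t w)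
  have h4 := 𝔇.hs_le hδ hδ₀ (flg Λ t)
  have h5 := 𝔇.CbS_nonneg hδ hδ₀
  have h6 : 0 ≤ ‖xw (flg Λ t) t w‖ := norm_nonneg (xw (flg Λ t) t w)
  have h7 : 0 ≤ ‖xw (flg Λ t) t φ‖ := norm_nonneg (xw (flg Λ t) t φ)
  rw [Real.norm_eq_abs] at h3
  unfold bS
  refine h3.trans ?_
  exact mul_le_mul (mul_le_mul h4 h1 h7 h5) h2 h6 (mul_nonneg h5 hx0)

lemma bS_nonneg (Λ : Finset Pl) (t : Pl) (φ : Pl → EV l n) : 0 ≤ 𝔇.bS hδ hδ₀ Λ t φ φ :=
  𝔇.hess_nonneg hδ hδ₀ _ _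

end

variable [MeasurableSpace (SU N)] [BorelSpace (SU N)] (μ : Measure (SU N))
  [IsProbabilityMeasure μ] [μ.IsMulLeftInvariant] [μ.IsMulRightInvariant]

include μ in
/-- coercivity of the quadratic forms -/
lemma bS_coer {δ r : ℝ} (hδ : 0 < δ) (hδ₀ : δ ≤ 𝔇.δ₀) (hr : 0 < r) (hr₀ : 16 * r ≤ 𝔇.c₀) :
    ∃ c : ℝ, 0 < c ∧ ∀ (a b : Pl) (A : Finset Pl), A ⊆ Finset.Icc a b → ∀ φ : Pl → EV l n,
      c * ∑ x ∈ A, ‖φ x‖ ^ 2 ≤ ∑ t ∈ tch (TT a b) (spt (Finset.Icc a b)) A,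
        𝔇.bS hδ hδ₀ (Finset.Icc a b) t φ φ := by
  obtain ⟨c, hc, h⟩ := 𝔇.hess_coer μ hδ hδ₀ hr hr₀
  refine ⟨c, hc, fun a b A hA φ => ?_⟩
  rw [Finset.mul_sum]
  refine le_trans ?_ (Finset.sum_le_sum_of_subset_of_nonneg
    (s := A) (fun X hX => mem_tch (hA hX) hX) fun t _ _ => 𝔇.bS_nonneg hδ hδ₀ _ _ _)
  refine Finset.sum_le_sum fun X hX => ?_
  have h1 := h (flg (Finset.Icc a b) X) (self_flg (hA hX)) (xw (flg (Finset.Icc a b) X) X φ)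
  have h2 : ∑ i, ∑ a', xw (flg (Finset.Icc a b) X) X φ ((0, 0), i) a' ^ 2 = ‖φ X‖ ^ 2 := by
    rw [norm_sq_E]
    refine Finset.sum_congr rfl fun i _ => Finset.sum_congr rfl fun a' _ => ?_
    rw [xw_apply, if_pos (self_flg (hA hX))]
    have : X + off (0, 0) = X := by
      unfold off; ext <;> simp
    rw [this]
  rw [h2] at h1
  exact h1

end Dat

end

end Pool.Agent.N984.TW
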