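import Mathlib
import Pool.Agent.N984.TW.SysQ

/-!
# Taylor expansion of the block energies; the system
-/

open MeasureTheory Matrix Filter
open scoped Matrix.Norms.Frobenius ContDiff Topology ENNReal
open Pool.Agent.H906R3.YM Pool.Agent.W793.YM Pool.Agent.TH618.YM
open Pool.Agent.N990.Mach (tch cl Sys Cst)

namespace Pool.Agent.N984.TW

set_option linter.unusedSectionVars false
set_option linter.unusedVariables false

noncomputable section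

variable {N l n : ℕ} [NeZero N] [NeZero l]

namespace Dat

variable (𝔇 : Dat N l n)

/-- closeness to the exponential -/
def RelT (om : ℝ) (v : 𝔇.KK) (w : EV l n) : Prop := pp 𝔇.B v = w ∧ nrm v ≤ 2 * om

/-- the spins at the corners in the region -/
def cut (fl : Finset Cn) (t : Pl) (g : Pl → 𝔇.KK) : Cn → 𝔇.KK := fun j =>
  if j ∈ fl then g (t + off j) else 1

lemma cut_mul (fl : Finset Cn) (t : Pl) (g g' : Pl → 𝔇.KK) :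
    𝔇.cut fl t (g * g') = 𝔇.cut fl t g * 𝔇.cut fl t g' := by
  funext j
  unfold cut
  simp only [Pi.mul_apply]
  split_ifs
  · rfl
  · rw [mul_one]

lemma lks_mul (g g' : Cn → 𝔇.KK) : 𝔇.lks (g * g') = 𝔇.lks g * 𝔇.lks g' := rfl

lemma nrm_cut {fl : Finset Cn} {t : Pl} {g : Pl → 𝔇.KK} {x : ℝ} (hx : 0 ≤ x)
    (h : ∀ j ∈ fl, nrm (g (t + off j)) ≤ x) (j : Cn) : nrm (𝔇.cut fl t g j) ≤ x := by
  unfold cut
  split_ifs with hj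
  · exact h j hj
  · have : nrm (1 : 𝔇.KK) = 0 := nrm_one
    rw [this]; exact hx

lemma xc_cut (fl : Finset Cn) (t : Pl) (g : Pl → 𝔇.KK) :
    xc 𝔇.B (𝔇.lks (𝔇.cut fl t g)) = xw fl t (fun X => pp 𝔇.B (g X)) := by
  funext p a
  rw [xw_apply]
  unfold xc lks cut
  split_ifs with hp
  · rfl
  · show pc 𝔇.B (mt (1 : SU N) - 1) a = 0
    rw [mt_one, sub_self]
    have := pc_sub 𝔇.B (0 : Mat N) 0
    rw [sub_self, sub_self] at this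
    rw [this]; rfl

lemma norm_lks_le (g : Cn → 𝔇.KK) (p : II l) : ‖mt (𝔇.lks g p) - 1‖ ≤ nrm (g p.1) :=
  norm_j_le (g p.1) p.2

section

variable [MeasurableSpace (SU N)] (μ : Measure (SU N))

/-- the energy of a block in terms of the cut spins -/
lemma hT_cut (δ r β : ℝ) (Λ : Finset Pl) (t : Pl) (g : Pl → 𝔇.KK) :
    𝔇.hT μ δ r β Λ t g = 𝔇.blk μ δ r β (flg Λ t) (𝔇.cut (flg Λ t) t g) := by
  unfold hT
  refine 𝔇.blk_loc μ δ r β _ _ _ fun j hj => ?_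
  unfold cut
  rw [if_pos hj]

/-- **Taylor expansion** -/
lemma taylor {δ r : ℝ} (hδ : 0 < δ) (hδ₀ : δ ≤ 𝔇.δ₀) (hr : 0 < r) :
    ∃ C ρ : ℝ, 0 ≤ C ∧ 0 < ρ ∧ ∀ (β : ℝ) (Λ : Finset Pl) (t : Pl) (φ v : Pl → 𝔇.KK)
      (w : Pl → EV l n) (d om : ℝ), 0 ≤ om → om ≤ d → d ≤ ρ →
      (∀ y ∈ spt Λ t, nrm (φ y) ≤ d) → (∀ y ∈ spt Λ t, 𝔇.RelT om (v y) (w y)) →
      |𝔇.hT μ δ r β Λ t (v * φ) - 𝔇.hT μ δ r β Λ t φ -
        (𝔇.bS hδ hδ₀ Λ t (fun y => pp 𝔇.B (φ y)) w + 𝔇.ccS hδ hδ₀ Λ t w)| ≤ C * (om * d ^ 2) := by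
  obtain ⟨ρ₀, hρ₀, hρ1, hbn⟩ := 𝔇.blk_near μ hδ hδ₀ hr
  choose C ρ hC hρ hT using fun fl : Finset Cn =>
    near_taylor 𝔇.hG (𝔇.HH_cd hδ hδ₀ fl) (𝔇.HH_eq hδ hδ₀ fl) (𝔇.HH_zero hδ hδ₀ fl).2.1
  obtain ⟨ρm, hρm, hρmle⟩ : ∃ x : ℝ, 0 < x ∧ ∀ fl, x ≤ ρ fl := by
    obtain ⟨fl, -, hfl⟩ := Finset.exists_min_image (Finset.univ : Finset (Finset Cn)) ρ
      ⟨∅, Finset.mem_univ _⟩
    exact ⟨ρ fl, hρ fl, fun fl' => hfl fl' (Finset.mem_univ _)⟩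
  refine ⟨∑ fl, C fl, min ρm (ρ₀ / 3), Finset.sum_nonneg fun fl _ => hC fl, by positivity,
    fun β Λ t φ v w d om h1 h2 h3 h4 h5 => ?_⟩
  have hd0 : 0 ≤ d := h1.trans h2
  have h3a : d ≤ ρm := h3.trans (min_le_left _ _)
  have h3b : d ≤ ρ₀ / 3 := h3.trans (min_le_right _ _)
  obtain ⟨fl, hfl⟩ : ∃ fl, fl = flg Λ t := ⟨_, rfl⟩
  have h4' : ∀ j ∈ fl, nrm (φ (t + off j)) ≤ d := fun j hj => h4 _ (mem_spt_of (hfl ▸ hj))
  have h5' : ∀ j ∈ fl, 𝔇.RelT om (v (t + off j)) (w (t + off j)) :=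
    fun j hj => h5 _ (mem_spt_of (hfl ▸ hj))
  have n1 : ∀ j, nrm (𝔇.cut fl t φ j) ≤ d := 𝔇.nrm_cut hd0 h4'
  have n2 : ∀ j, nrm (𝔇.cut fl t v j) ≤ 2 * om :=
    𝔇.nrm_cut (by positivity) fun j hj => (h5' j hj).2
  have n3 : ∀ j, nrm (𝔇.cut fl t (v * φ) j) ≤ ρ₀ := by
    intro j
    rw [cut_mul]
    refine (nrm_mul _ _).trans ?_
    have := n1 j
    have := n2 j
    linarith
  rw [𝔇.hT_cut μ, 𝔇.hT_cut μ, ← hfl, hbn β fl _ n3, hbn β fl _ (fun j => (n1 j).trans (by linarith)),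
    cut_mul, lks_mul]
  have key := hT fl (𝔇.lks (𝔇.cut fl t φ)) (𝔇.lks (𝔇.cut fl t v)) d om h1 h2
    (h3a.trans (hρmle fl)) (fun p => (𝔇.norm_lks_le _ p).trans (n1 _))
    (fun p => (𝔇.norm_lks_le _ p).trans (n2 _))
  have e2 : xc 𝔇.B (𝔇.lks (𝔇.cut fl t v)) = xw fl t w := by
    rw [xc_cut]
    funext p a
    rw [xw_apply, xw_apply]
    split_ifs with hp
    · rw [(h5' _ hp).1]
    · rfl
  rw [xc_cut, e2] at key
  have e3 : 𝔇.bS hδ hδ₀ Λ t (fun y => pp 𝔇.B (φ y)) w + 𝔇.ccS hδ hδ₀ Λ t w =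
      hess (𝔇.HH hδ hδ₀ fl) (xw fl t fun X => pp 𝔇.B (φ X)) (xw fl t w) +
        1 / 2 * hess (𝔇.HH hδ hδ₀ fl) (xw fl t w) (xw fl t w) := by
    rw [hfl]
    rfl
  rw [e3]
  refine key.trans (mul_le_mul_of_nonneg_right ?_ (by positivity))
  exact Finset.single_le_sum (f := C) (fun fl _ => hC fl) (Finset.mem_univ fl)

end

end Dat

end

end Pool.Agent.N984.TW
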