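import Mathlib
import Pool.Agent.N984.TW.SysI

/-!
# The system
-/

open MeasureTheory Matrix Filter
open scoped Matrix.Norms.Frobenius ContDiff Topology ENNReal
open Pool.Agent.H906R3.YM Pool.Agent.W793.YM Pool.Agent.TH618.YM
open Pool.Agent.N990.Mach (tch cl Sys Cst)

namespace Pool.Agent.N984.TW

set_option linter.unusedSectionVars false
set_option linter.unusedVariables false

noncomputable section

open scoped Classical in
/-- the harmonic extension with rate `al` and constant `Ch` -/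
def HarmG {ι τ V : Type*} [NormedAddCommGroup V] [NormedSpace ℝ V] (d : ι → ι → ℕ)
    (Lam : Finset ι) (T : Finset τ) (sp : τ → Finset ι) (b : τ → (ι → V) → (ι → V) → ℝ)
    (Ch al : ℝ) : Prop :=
  ∀ A ⊆ Lam, ∀ z : ι → V, ∃ w : ι → V, (∀ y, y ∉ A → w y = z y) ∧
    (∀ φ : ι → V, (∀ y, y ∉ A → φ y = 0) → ∑ t ∈ tch T sp A, b t φ w = 0) ∧
    ∀ y ∈ A, ‖w y‖ ≤ Ch * ∑ x ∈ cl T sp A \ A, Real.exp (-(al * d y x)) * ‖z x‖

variable {N l n : ℕ} [NeZero N] [NeZero l]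

namespace Dat

variable (𝔇 : Dat N l n) [MeasurableSpace (SU N)] [BorelSpace (SU N)] (μ : Measure (SU N))
  [IsProbabilityMeasure μ] [μ.IsMulLeftInvariant] [μ.IsMulRightInvariant]

/-- the harmonic extension with rate `al` and constant `Ch`, uniformly in the rectangle -/
def Harm {δ : ℝ} (hδ : 0 < δ) (hδ₀ : δ ≤ 𝔇.δ₀) (Ch al : ℝ) : Prop :=
  ∀ a b : Pl, a ≤ b → HarmG dP (Finset.Icc a b) (TT a b) (spt (Finset.Icc a b))
    (𝔇.bS hδ hδ₀ (Finset.Icc a b)) Ch al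

/-- **The gauge fixed ensemble is a system of the machine.** The constants do not depend on the
coupling `β ≥ 1` and on the rectangle. The rate of the harmonic extension is given. -/
theorem exists_sys_gen {δ r : ℝ} (hδ : 0 < δ) (hδ₀ : δ ≤ 𝔇.δ₀) (hr : 0 < r) (hr₀ : 16 * r ≤ 𝔇.c₀)
    (hnm : Measurable (nrm : 𝔇.KK → ℝ))
    (hvol : ∃ c : ℝ, 0 < c ∧ ∃ d : ℝ, 0 ≤ d ∧ ∀ s : ℝ, 0 < s → s ≤ 1 →
      ENNReal.ofReal (c * s ^ d) ≤ 𝔇.nu μ {g | nrm g ≤ s}) {Ch al : ℝ} (hCh : 1 ≤ Ch)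
    (hal : 0 < al) (hH : 𝔇.Harm hδ hδ₀ Ch al) :
    ∃ c : Cst, c.al = al ∧ ∀ β : ℝ, 1 ≤ β → ∀ a b : Pl, a ≤ b →
      ∃ S : Sys Pl Pl 𝔇.KK (EV l n) (EV l n) (𝔇.nu μ) c, S.Lam = Finset.Icc a b ∧ S.d = dP ∧
        S.T = TT a b ∧ S.sp = spt (Finset.Icc a b) ∧
        (∀ t g, S.h t g = 𝔇.hT μ δ r β (Finset.Icc a b) t g) ∧ S.nrm = nrm ∧ S.yy = pp 𝔇.B ∧
        S.ex = exx 𝔇.B 𝔇.hG ∧ S.b = 𝔇.bS hδ hδ₀ (Finset.Icc a b) := by
  obtain ⟨C0, hC0, hup⟩ := 𝔇.hT_sys_upper μ hδ hδ₀ hr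
  obtain ⟨c0, hc0, hco⟩ := 𝔇.hT_sys_coer μ hδ hδ₀ hr hr₀
  obtain ⟨CT, ρT, hCT, hρT, hTy⟩ := 𝔇.taylor μ hδ hδ₀ hr
  obtain ⟨cv, hcv, nv, hnv, hvol⟩ := hvol
  obtain ⟨ρE, hρE, hE⟩ := exx_spec 𝔇.B 𝔇.hG (J := Tor l × Fin 4) 𝔇.Zc
  obtain ⟨nm, hnm1, hnmle⟩ := nrm_le_const (N := N) (G := SU N) (J := Tor l × Fin 4) (Z := 𝔇.Zc)
  obtain ⟨r0, hr0⟩ : ∃ r0 : ℝ, r0 = min 1 (min ρT ρE) := ⟨_, rfl⟩
  have hr00 : 0 < r0 := by rw [hr0]; positivity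
  have hr01 : r0 ≤ 1 := hr0 ▸ min_le_left _ _
  have hr0T : r0 ≤ ρT := hr0 ▸ (min_le_right _ _).trans (min_le_left _ _)
  have hr0E : r0 ≤ ρE := hr0 ▸ (min_le_right _ _).trans (min_le_right _ _)
  have hCb := 𝔇.CbS_nonneg hδ hδ₀
  let c : Cst :=
    { Cg := 4, Dg := 2, C0 := C0, c0 := c0, Cn := 4, CT := CT, Cb := 𝔇.CbS hδ hδ₀
      Ch := Ch
      al := al
      cv := cv, nv := nv, r0 := r0, nm := nm
      hCg := by norm_num, hC0 := hC0, hc0 := hc0, hCn := by norm_num, hCT := hCT, hCb := hCb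
      hCh := hCh
      hal := hal
      hcv := hcv, hnv := hnv, hr0 := hr00, hr1 := hr01, hnm := hnm1 }
  refine ⟨c, rfl, fun β hβ a b hab => ?_⟩
  have hccle : ∀ (t : Pl) (w : Pl → EV l n), 𝔇.ccS hδ hδ₀ (Finset.Icc a b) t w =
      1 / 2 * 𝔇.bS hδ hδ₀ (Finset.Icc a b) t w w := fun _ _ => rfl
  refine ⟨{ d := dP, dself := dP_self, dsymm := dP_symm, dtri := fun x y z => dP_tri x y z
            growth := dP_growth
            Lam := Finset.Icc a b, T := TT a b, sp := spt (Finset.Icc a b)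
            diam := fun t _ => spt_diam _ t
            tcard := TT_card a b
            h := 𝔇.hT μ δ r β (Finset.Icc a b)
            hloc := fun t _ φ φ' h => 𝔇.hT_loc μ δ r β _ t φ φ' h
            hmeas := fun t _ => 𝔇.hT_meas μ hδ hδ₀ r β _ t
            hbd := fun t _ => 𝔇.hT_bd μ hδ hδ₀ hr _ t hβ
            nrm := nrm, nrm_meas := hnm, nrm_nonneg := nrm_nonneg, nrm_one := nrm_one
            nrm_mul := nrm_mul, nrm_inv := nrm_inv, nrm_le := hnmle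
            vol := hvol
            upper := fun A _ φ => by
              refine (hup β hβ a b A φ).trans (le_of_eq ?_)
              refine congrArg (C0 * ·) (Finset.sum_congr ?_ fun _ _ => rfl)
              ext x
              simp only [Finset.mem_union]
            coer := fun A hA φ => hco β hβ a b A hA φ
            yy := pp 𝔇.B
            yy_le := fun g _ => (pp_le 𝔇.B g).trans (by linarith [nrm_nonneg g])
            p := pp 𝔇.B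
            ex := exx 𝔇.B 𝔇.hG
            Rel := fun _ om v w => 𝔇.RelT om v w
            rel_p := fun d om g h1 h2 h3 => ⟨rfl, by linarith [nrm_nonneg g]⟩
            p_le := fun om g h1 _ => (pp_le 𝔇.B g).trans h1
            rel_ex := fun d om w h1 h2 h3 => ?_
            ex_nrm := fun om w h1 h2 => ?_
            rel_one := fun d om h1 h2 => ⟨pp_one 𝔇.B, ?_⟩
            b := 𝔇.bS hδ hδ₀ (Finset.Icc a b)
            cc := 𝔇.ccS hδ hδ₀ (Finset.Icc a b)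
            b_add := fun t φ φ' w => 𝔇.bS_add_left hδ hδ₀ _ t φ φ' w
            b_bd := fun t ht φ w x y hx hy => 𝔇.bS_bd hδ hδ₀ (flg_ne hab ht) φ w x y hx hy
            cc_bd := fun t ht w y hy => ?_
            taylor := fun t _ φ v w d om h1 h2 h3 h4 h5 => ?_
            harm := fun A hA z => ?_ }, rfl, rfl, rfl, rfl, fun t g => rfl, rfl, rfl, rfl, rfl⟩
  · have h4 := hE w ((h1.trans (h2.trans h3)).trans hr0E)
    exact ⟨h4.1, h4.2.trans (by linarith)⟩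
  · have h4 := hE w ((h1.trans h2).trans hr0E)
    exact h4.2.trans (by linarith)
  · have h4 : nrm (1 : 𝔇.KK) = 0 := nrm_one
    rw [h4]; positivity
  · have h1 := 𝔇.bS_bd hδ hδ₀ (flg_ne hab ht) w w y y hy hy
    rw [hccle, abs_mul, abs_of_pos (by norm_num : (0 : ℝ) < 1 / 2)]
    have h2 : 0 ≤ |𝔇.bS hδ hδ₀ (Finset.Icc a b) t w w| := abs_nonneg _
    calc 1 / 2 * |𝔇.bS hδ hδ₀ (Finset.Icc a b) t w w| ≤ |𝔇.bS hδ hδ₀ (Finset.Icc a b) t w w| := by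
          linarith
      _ ≤ 𝔇.CbS hδ hδ₀ * y * y := h1
      _ = 𝔇.CbS hδ hδ₀ * y ^ 2 := by ring
  · exact hTy β _ t φ v w d om h1 h2 (h3.trans hr0T) h4 h5
  · exact hH a b hab A hA z

include μ in
/-- the soft harmonic extension -/
lemma harm_ex {δ r : ℝ} (hδ : 0 < δ) (hδ₀ : δ ≤ 𝔇.δ₀) (hr : 0 < r) (hr₀ : 16 * r ≤ 𝔇.c₀) :
    ∃ Ch al : ℝ, 1 ≤ Ch ∧ 0 < al ∧ 𝔇.Harm hδ hδ₀ Ch al := by
  obtain ⟨cb, hcb, hbc⟩ := 𝔇.bS_coer μ hδ hδ₀ hr hr₀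
  have hCb := 𝔇.CbS_nonneg hδ hδ₀
  refine ⟨Pool.Agent.N109.Soft.Ch cb (𝔇.CbS hδ hδ₀) 4,
    Pool.Agent.N109.Soft.al cb (𝔇.CbS hδ hδ₀) 4,
    Pool.Agent.N109.Soft.Ch_ge hcb hCb (by norm_num),
    Pool.Agent.N109.Soft.al_pos hcb hCb (by norm_num), fun a b hab => ?_⟩
  exact Pool.Agent.N109.Soft.harm_soft hcb hCb (by norm_num) dP dP_self dP_symm
      (fun x y z => dP_tri x y z) (Finset.Icc a b) (TT a b) (spt (Finset.Icc a b))
      (fun t _ => spt_diam _ t) (TT_card a b) (𝔇.bS hδ hδ₀ (Finset.Icc a b))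
      (𝔇.bS_add_left hδ hδ₀ _) (𝔇.bS_smul_left hδ hδ₀ _) (𝔇.bS_add_right hδ hδ₀ _)
      (𝔇.bS_smul_right hδ hδ₀ _)
      (fun t ht φ w x y hx hy => 𝔇.bS_bd hδ hδ₀ (flg_ne hab ht) φ w x y hx hy)
      (fun A hA φ _ => hbc a b A hA φ)

/-- **The gauge fixed ensemble is a system of the machine.** The constants do not depend on the
coupling `β ≥ 1` and on the rectangle. -/
theorem exists_sys {δ r : ℝ} (hδ : 0 < δ) (hδ₀ : δ ≤ 𝔇.δ₀) (hr : 0 < r) (hr₀ : 16 * r ≤ 𝔇.c₀)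
    (hnm : Measurable (nrm : 𝔇.KK → ℝ))
    (hvol : ∃ c : ℝ, 0 < c ∧ ∃ d : ℝ, 0 ≤ d ∧ ∀ s : ℝ, 0 < s → s ≤ 1 →
      ENNReal.ofReal (c * s ^ d) ≤ 𝔇.nu μ {g | nrm g ≤ s}) :
    ∃ c : Cst, ∀ β : ℝ, 1 ≤ β → ∀ a b : Pl, a ≤ b →
      ∃ S : Sys Pl Pl 𝔇.KK (EV l n) (EV l n) (𝔇.nu μ) c, S.Lam = Finset.Icc a b ∧ S.d = dP ∧
        S.T = TT a b ∧ S.sp = spt (Finset.Icc a b) ∧
        ∀ t g, S.h t g = 𝔇.hT μ δ r β (Finset.Icc a b) t g := by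
  obtain ⟨Ch, al, h1, h2, h3⟩ := 𝔇.harm_ex μ hδ hδ₀ hr hr₀
  obtain ⟨c, -, h⟩ := 𝔇.exists_sys_gen μ hδ hδ₀ hr hr₀ hnm hvol h1 h2 h3
  refine ⟨c, fun β hβ a b hab => ?_⟩
  obtain ⟨S, e1, e2, e3, e4, e5, -⟩ := h β hβ a b hab
  exact ⟨S, e1, e2, e3, e4, e5⟩

end Dat

end

end Pool.Agent.N984.TW
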