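import Mathlib
import Pool.Agent.N984.TW.Defs

/-!
# Lattice Yang–Mills theory on `ℤ² × (ℤ/l)²` with a twist: complex observables, reconstruction
-/

open MeasureTheory Matrix Complex
open scoped ComplexConjugate

namespace Pool.Agent.N984.TW

noncomputable section

variable {N l : ℕ} [NeZero l] [MeasurableSpace (SU N)]

/-- A complex valued bounded measurable gauge invariant observable of the links over the
rectangle `[a,b]`. -/
structure CObs (F : (Pl → Fib N l) → ℂ) (a b : Pl) : Prop where
  meas : Measurable F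
  bdd : ∃ M : ℝ, ∀ U, ‖F U‖ ≤ M
  inv : GaugeInv F
  dep : DepOn F (Finset.Icc a b)

/-- The expectation of `F` in the region over `Λ`, with free boundary conditions, for complex
valued `F`. -/
def expectC (μ : Measure (SU N)) (z : ℂ) (β : ℝ) (Λ : Finset Pl) (F : (Pl → Fib N l) → ℂ) : ℂ :=
  (∫ u, F (ext Λ u) * (Real.exp (-(β * action z Λ (ext Λ u))) : ℝ) ∂(muL μ Λ)) /
    ((∫ u : Λ → Fib N l, Real.exp (-(β * action z Λ (ext Λ u))) ∂(muL μ Λ) : ℝ) : ℂ)

/-- The observables of the half space `x₀ ≥ 0`. -/
def Half (F : (Pl → Fib N l) → ℂ) : Prop := ∃ a b : Pl, 0 ≤ a.1 ∧ CObs F a b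

/-- The Osterwalder–Schrader reconstruction of the state `W`: `J F` is the vector of the observable
`F` of the half space `x₀ ≥ 0`; these vectors are dense in `H`, their inner product is
`⟨J F, J F'⟩ = W (conj (F ∘ refl) * F')`, and `T` is the transfer operator, which acts on them as
the translation by one lattice unit in the time direction `0`. -/
structure Rec (W : ((Pl → Fib N l) → ℂ) → ℂ) {H : Type}
    [NormedAddCommGroup H] [InnerProductSpace ℂ H] (T : H →L[ℂ] H)
    (J : ((Pl → Fib N l) → ℂ) → H) : Prop where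
  ip : ∀ F F' : (Pl → Fib N l) → ℂ, Half F → Half F' →
    inner ℂ (J F) (J F') = W fun U => conj (F (refl U)) * F' U
  dense : Dense (J '' {F | Half F})
  step : ∀ F : (Pl → Fib N l) → ℂ, Half F → T (J F) = J fun U => F (shift (1, 0) U)

/-- The mass gap of the theory with the transfer operator `T`: minus the logarithm of the supremum
of `|w|` over the points `w ≠ 1` of the spectrum of `T`. -/
def massGap {H : Type} [NormedAddCommGroup H] [InnerProductSpace ℂ H] (T : H →L[ℂ] H) : ℝ :=
  -Real.log (sSup {t : ℝ | ∃ w ∈ spectrum ℂ T, w ≠ 1 ∧ ‖w‖ = t})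

end

end Pool.Agent.N984.TW
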