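import Mathlib
import Pool.Agent.N453.TW.OSInst
import Pool.Agent.N453.OS2
import Pool.Agent.N984.TW.DefsC

/-!
# Complex observables and the reconstruction
-/

open MeasureTheory Matrix Filter Complex
open scoped Topology ENNReal ComplexConjugate

namespace Pool.Agent.N984.TW

set_option linter.unusedSectionVars false
set_option linter.unusedVariables false

noncomputable section

variable {N l : ℕ} [NeZero N] [NeZero l]

open RP OSI Pool.Agent.N986.SL

variable [MeasurableSpace (SU N)] [BorelSpace (SU N)]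

namespace CX

lemma CObs.re {F : (Pl → Fib N l) → ℂ} {a b : Pl} (h : CObs F a b) :
    Loc (fun U => (F U).re) a b := by
  obtain ⟨M, hM⟩ := h.bdd
  refine ⟨Complex.measurable_re.comp h.meas, ⟨M, fun U => (abs_re_le_norm _).trans (hM U)⟩,
    fun g U => ?_, fun U U' hU => ?_⟩
  · show (F _).re = _
    rw [h.inv g U]
  · show (F U).re = (F U').re
    rw [h.dep U U' hU]

lemma CObs.im {F : (Pl → Fib N l) → ℂ} {a b : Pl} (h : CObs F a b) :
    Loc (fun U => (F U).im) a b := by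
  obtain ⟨M, hM⟩ := h.bdd
  refine ⟨Complex.measurable_im.comp h.meas, ⟨M, fun U => (abs_im_le_norm _).trans (hM U)⟩,
    fun g U => ?_, fun U U' hU => ?_⟩
  · show (F _).im = _
    rw [h.inv g U]
  · show (F U).im = (F U').im
    rw [h.dep U U' hU]

lemma Loc.cx {F : (Pl → Fib N l) → ℝ} {a b : Pl} (h : Loc F a b) :
    CObs (fun U => (F U : ℂ)) a b := by
  obtain ⟨M, hM⟩ := h.bdd
  refine ⟨Complex.measurable_ofReal.comp h.meas, ⟨M, fun U => ?_⟩, fun g U => ?_,
    fun U U' hU => ?_⟩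
  · rw [Complex.norm_real]
    exact hM U
  · show ((F _ : ℝ) : ℂ) = _
    rw [h.inv g U]
  · show ((F U : ℝ) : ℂ) = (F U' : ℝ)
    rw [h.dep U U' hU]

lemma CObs.mono {F : (Pl → Fib N l) → ℂ} {a b a' b' : Pl} (h : CObs F a b)
    (hs : Finset.Icc a b ⊆ Finset.Icc a' b') : CObs F a' b' :=
  ⟨h.meas, h.bdd, h.inv, dep_mono h.dep hs⟩

lemma CObs.sh {F : (Pl → Fib N l) → ℂ} {a b : Pl} (h : CObs F a b) (v : Pl) :
    CObs (fun U => F (shift v U)) (a + v) (b + v) := by
  obtain ⟨M, hM⟩ := h.bdd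
  exact ⟨h.meas.comp (shift_meas v), ⟨M, fun U => hM _⟩, gauge_shift h.inv v, dep_shift v h.dep⟩

lemma CObs.rf {F : (Pl → Fib N l) → ℂ} {a b : Pl} (h : CObs F a b) :
    CObs (fun U => F (refl U)) (-b.1, a.2) (-a.1, b.2) := by
  obtain ⟨M, hM⟩ := h.bdd
  refine ⟨h.meas.comp refl_meas, ⟨M, fun U => hM _⟩, gauge_refl h.inv, ?_⟩
  refine dep_refl (a := (-b.1, a.2)) (b := (-a.1, b.2)) ?_
  simp only [neg_neg]
  exact h.dep

lemma CObs.cj {F : (Pl → Fib N l) → ℂ} {a b : Pl} (h : CObs F a b) :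
    CObs (fun U => conj (F U)) a b := by
  obtain ⟨M, hM⟩ := h.bdd
  refine ⟨(continuous_conj.measurable).comp h.meas, ⟨M, fun U => ?_⟩, fun g U => ?_,
    fun U U' hU => ?_⟩
  · rw [Complex.norm_conj]
    exact hM U
  · show conj (F _) = _
    rw [h.inv g U]
  · show conj (F U) = conj (F U')
    rw [h.dep U U' hU]

lemma CObs.mul {F G : (Pl → Fib N l) → ℂ} {a b a' b' : Pl} (hF : CObs F a b) (hG : CObs G a' b') :
    CObs (fun U => F U * G U) (a ⊓ a') (b ⊔ b') := by
  obtain ⟨M, hM⟩ := hF.bdd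
  obtain ⟨M', hM'⟩ := hG.bdd
  have hF' := CObs.mono hF (Finset.Icc_subset_Icc (inf_le_left (b := a')) (le_sup_left (b := b')))
  have hG' := CObs.mono hG (Finset.Icc_subset_Icc (inf_le_right (a := a)) (le_sup_right (a := b)))
  refine ⟨hF.meas.mul hG.meas, ⟨M * M', fun U => ?_⟩, fun h U => ?_, fun U U' h => ?_⟩
  · rw [norm_mul]
    exact mul_le_mul (hM U) (hM' U) (norm_nonneg _) ((norm_nonneg _).trans (hM U))
  · show F (gt h U) * G (gt h U) = F U * G U
    rw [hF.inv h U, hG.inv h U]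
  · show F U * G U = F U' * G U'
    rw [hF'.dep U U' h, hG'.dep U U' h]

lemma CObs.add {F G : (Pl → Fib N l) → ℂ} {a b a' b' : Pl} (hF : CObs F a b) (hG : CObs G a' b') :
    CObs (fun U => F U + G U) (a ⊓ a') (b ⊔ b') := by
  obtain ⟨M, hM⟩ := hF.bdd
  obtain ⟨M', hM'⟩ := hG.bdd
  have hF' := CObs.mono hF (Finset.Icc_subset_Icc (inf_le_left (b := a')) (le_sup_left (b := b')))
  have hG' := CObs.mono hG (Finset.Icc_subset_Icc (inf_le_right (a := a)) (le_sup_right (a := b)))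
  refine ⟨hF.meas.add hG.meas, ⟨M + M', fun U => ?_⟩, fun h U => ?_, fun U U' h => ?_⟩
  · exact (norm_add_le _ _).trans (add_le_add (hM U) (hM' U))
  · show F (gt h U) + G (gt h U) = F U + G U
    rw [hF.inv h U, hG.inv h U]
  · show F U + G U = F U' + G U'
    rw [hF'.dep U U' h, hG'.dep U U' h]

lemma CObs.const (c : ℂ) (a b : Pl) : CObs (fun _ : Pl → Fib N l => c) a b :=
  ⟨measurable_const, ⟨‖c‖, fun _ => le_rfl⟩, fun _ _ => rfl, fun _ _ _ => rfl⟩

lemma CObs.smul {F : (Pl → Fib N l) → ℂ} {a b : Pl} (hF : CObs F a b) (r : ℂ) :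
    CObs (fun U => r * F U) a b := by
  obtain ⟨M, hM⟩ := hF.bdd
  refine ⟨hF.meas.const_mul r, ⟨‖r‖ * M, fun U => ?_⟩, fun h U => ?_, fun U U' h => ?_⟩
  · rw [norm_mul]
    exact mul_le_mul_of_nonneg_left (hM U) (norm_nonneg _)
  · show r * F (gt h U) = r * F U
    rw [hF.inv h U]
  · show r * F U = r * F U'
    rw [hF.dep U U' h]

/-- the state on complex observables -/
def stC (μ : Measure (SU N)) (z : ℂ) (β : ℝ) (F : (Pl → Fib N l) → ℂ) : ℂ :=
  (st μ z β fun U => (F U).re : ℂ) + (st μ z β fun U => (F U).im : ℂ) * I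

lemma stC_re (μ : Measure (SU N)) (z : ℂ) (β : ℝ) (F : (Pl → Fib N l) → ℂ) :
    (stC μ z β F).re = st μ z β fun U => (F U).re := by
  unfold stC; simp

lemma stC_im (μ : Measure (SU N)) (z : ℂ) (β : ℝ) (F : (Pl → Fib N l) → ℂ) :
    (stC μ z β F).im = st μ z β fun U => (F U).im := by
  unfold stC; simp

variable (μ : Measure (SU N))
  [IsProbabilityMeasure μ] [μ.IsMulLeftInvariant] [μ.IsMulRightInvariant]

lemma expectC_eq (z : ℂ) (β : ℝ) (Λ : Finset Pl) {F : (Pl → Fib N l) → ℂ} {a b : Pl}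
    (hF : CObs F a b) : expectC μ z β Λ F =
      (expect μ z β Λ fun U => (F U).re : ℂ) + (expect μ z β Λ fun U => (F U).im : ℂ) * I := by
  have i1 := weight_int μ z β Λ (CObs.re hF).meas (CObs.re hF).bdd
  have i2 := weight_int μ z β Λ (CObs.im hF).meas (CObs.im hF).bdd
  have e : ∫ u, F (ext Λ u) * (Real.exp (-(β * action z Λ (ext Λ u))) : ℝ) ∂(muL μ Λ) =
      ((∫ u, (F (ext Λ u)).re * Real.exp (-(β * action z Λ (ext Λ u))) ∂(muL μ Λ) : ℝ) : ℂ) +
      ((∫ u, (F (ext Λ u)).im * Real.exp (-(β * action z Λ (ext Λ u))) ∂(muL μ Λ) : ℝ) : ℂ) * I := by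
    have i1' : Integrable (fun u => (((F (ext Λ u)).re * Real.exp (-(β * action z Λ (ext Λ u))) :
        ℝ) : ℂ)) (muL μ Λ) := i1.ofReal
    have i2' : Integrable (fun u => (((F (ext Λ u)).im * Real.exp (-(β * action z Λ (ext Λ u))) :
        ℝ) : ℂ) * I) (muL μ Λ) := i2.ofReal.mul_const I
    rw [← integral_complex_ofReal, ← integral_complex_ofReal, ← integral_mul_const,
      ← integral_add i1' i2']
    refine integral_congr_ae (Filter.Eventually.of_forall fun u => ?_)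
    show F (ext Λ u) * (Real.exp (-(β * action z Λ (ext Λ u))) : ℝ) =
      (((F (ext Λ u)).re * Real.exp (-(β * action z Λ (ext Λ u))) : ℝ) : ℂ) +
      (((F (ext Λ u)).im * Real.exp (-(β * action z Λ (ext Λ u))) : ℝ) : ℂ) * I
    conv_lhs => rw [← re_add_im (F (ext Λ u))]
    push_cast
    ring
  unfold expectC expect
  rw [e, add_div, ofReal_div, ofReal_div, mul_div_right_comm]

variable {z : ℂ} {β m C : ℝ} {ω : ((Pl → Fib N l) → ℝ) → ℝ}

section

variable (hm : 0 < m) (hC : 0 ≤ C)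
  (h1 : ∀ (a b a₁ b₁ : Pl) (F : (Pl → Fib N l) → ℝ) (R : ℕ), Obs F a₁ b₁ →
        Finset.Icc a₁ b₁ ⊆ Finset.Icc a b →
        (∀ X ∈ Finset.Icc a₁ b₁, ∀ Y ∉ Finset.Icc a b, R < dP X Y) →
        |expect μ z β (Finset.Icc a b) F - ω F| ≤
          C * (Finset.Icc a₁ b₁).card * Real.exp (-(m * R)))

include hm hC h1

lemma stC_add {F G : (Pl → Fib N l) → ℂ} {a b a' b' : Pl} (hF : CObs F a b)
    (hG : CObs G a' b') : stC μ z β (fun U => F U + G U) = stC μ z β F + stC μ z β G := by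
  apply Complex.ext
  · rw [add_re, stC_re, stC_re, stC_re]
    exact st_add μ hm hC h1 (CObs.re hF) (CObs.re hG)
  · rw [add_im, stC_im, stC_im, stC_im]
    exact st_add μ hm hC h1 (CObs.im hF) (CObs.im hG)

lemma stC_smul {F : (Pl → Fib N l) → ℂ} {a b : Pl} (hF : CObs F a b) (r : ℂ) :
    stC μ z β (fun U => r * F U) = r * stC μ z β F := by
  apply Complex.ext
  · rw [mul_re, stC_re, stC_re, stC_im]
    have e : (fun U => (r * F U).re) = fun U => r.re * (F U).re + (-r.im) * (F U).im := by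
      funext U
      rw [mul_re]; ring
    rw [e, st_add μ hm hC h1 (Loc.smul (CObs.re hF) _) (Loc.smul (CObs.im hF) _),
      st_smul μ hm hC h1 (CObs.re hF), st_smul μ hm hC h1 (CObs.im hF)]
    ring
  · rw [mul_im, stC_im, stC_re, stC_im]
    have e : (fun U => (r * F U).im) = fun U => r.re * (F U).im + r.im * (F U).re := by
      funext U
      rw [mul_im]
    rw [e, st_add μ hm hC h1 (Loc.smul (CObs.im hF) _) (Loc.smul (CObs.re hF) _),
      st_smul μ hm hC h1 (CObs.re hF), st_smul μ hm hC h1 (CObs.im hF)]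

lemma stC_conj {F : (Pl → Fib N l) → ℂ} {a b : Pl} (hF : CObs F a b) :
    stC μ z β (fun U => conj (F U)) = conj (stC μ z β F) := by
  apply Complex.ext
  · rw [conj_re, stC_re, stC_re]
    rfl
  · rw [conj_im, stC_im, stC_im]
    have e : (fun U => (conj (F U)).im) = fun U => (-1) * (F U).im := by
      funext U
      rw [conj_im]; ring
    rw [e, st_smul μ hm hC h1 (CObs.im hF)]
    ring

lemma stC_shift {F : (Pl → Fib N l) → ℂ} {a b : Pl} (hF : CObs F a b) (v : Pl) :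
    stC μ z β (fun U => F (shift v U)) = stC μ z β F := by
  unfold stC
  rw [← st_shift μ hm hC h1 (CObs.re hF) v, ← st_shift μ hm hC h1 (CObs.im hF) v]

lemma stC_refl {F : (Pl → Fib N l) → ℂ} {a b : Pl} (hF : CObs F a b) :
    stC μ z β (fun U => F (refl U)) = stC μ z β F := by
  unfold stC
  rw [← st_refl μ hm hC h1 (CObs.re hF), ← st_refl μ hm hC h1 (CObs.im hF)]

lemma stC_ofReal {F : (Pl → Fib N l) → ℝ} :
    stC μ z β (fun U => (F U : ℂ)) = (st μ z β F : ℂ) := by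
  apply Complex.ext
  · rw [stC_re, ofReal_re]
    rfl
  · rw [stC_im, ofReal_im]
    show st μ z β (fun _ => (0 : ℝ)) = 0
    have h2 := st_smul μ hm hC h1 (Loc.ofObs (Obs_one (N := N) (l := l) 0 0)) 0
    rw [zero_mul] at h2
    simp only [zero_mul] at h2
    exact h2

lemma stC_rate {F : (Pl → Fib N l) → ℂ} {a₁ b₁ : Pl} (hF : CObs F a₁ b₁)
    (hb : ∀ U, ‖F U‖ ≤ 1) (a b : Pl) (R : ℕ) (hs : Finset.Icc a₁ b₁ ⊆ Finset.Icc a b)
    (hR : ∀ X ∈ Finset.Icc a₁ b₁, ∀ Y ∉ Finset.Icc a b, R < dP X Y) :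
    ‖expectC μ z β (Finset.Icc a b) F - stC μ z β F‖ ≤
      2 * C * (Finset.Icc a₁ b₁).card * Real.exp (-(m * R)) := by
  rw [expectC_eq μ z β _ hF]
  have r1 := st_rate μ hm hC h1 (CObs.re hF) one_pos
    (fun U => (abs_re_le_norm _).trans (hb U)) a b R hs hR
  have r2 := st_rate μ hm hC h1 (CObs.im hF) one_pos
    (fun U => (abs_im_le_norm _).trans (hb U)) a b R hs hR
  unfold stC
  have e : ((expect μ z β (Finset.Icc a b) fun U => (F U).re : ℂ) +
      (expect μ z β (Finset.Icc a b) fun U => (F U).im : ℂ) * I) -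
      ((st μ z β fun U => (F U).re : ℂ) + (st μ z β fun U => (F U).im : ℂ) * I) =
      ((expect μ z β (Finset.Icc a b) (fun U => (F U).re) - st μ z β fun U => (F U).re : ℝ) : ℂ) +
      ((expect μ z β (Finset.Icc a b) (fun U => (F U).im) - st μ z β fun U => (F U).im : ℝ) : ℂ) *
        I := by
    push_cast
    ring
  rw [e]
  refine (norm_add_le _ _).trans ?_
  rw [norm_mul, norm_I, mul_one, Complex.norm_real, Complex.norm_real, Real.norm_eq_abs,
    Real.norm_eq_abs]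
  linarith

lemma tendsto_stC {F : (Pl → Fib N l) → ℂ} {a b : Pl} (hF : CObs F a b) :
    Tendsto (fun n : ℕ => expectC μ z β (sqr n) F) atTop (𝓝 (stC μ z β F)) := by
  have t1 := (tendsto_st μ hm hC h1 (CObs.re hF)).ofReal
  have t2 := ((tendsto_st μ hm hC h1 (CObs.im hF)).ofReal).mul_const I
  refine (t1.add t2).congr fun n => ?_
  exact (expectC_eq μ z β _ hF).symm

end

lemma norm_expectC_le (z : ℂ) (β : ℝ) (Λ : Finset Pl) {F : (Pl → Fib N l) → ℂ} {M : ℝ}
    (hM : ∀ U, ‖F U‖ ≤ M) : ‖expectC μ z β Λ F‖ ≤ M := by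
  have hZ := Z_pos (N := N) (l := l) μ z β Λ
  have h1 : Integrable (fun u : Λ → Fib N l => M * Real.exp (-(β * action z Λ (ext Λ u))))
      (muL μ Λ) :=
    weight_int (N := N) (l := l) μ z β Λ (F := fun _ => M) measurable_const ⟨|M|, fun _ => le_rfl⟩
  unfold expectC
  rw [norm_div, Complex.norm_real, Real.norm_eq_abs, abs_of_pos hZ, div_le_iff₀ hZ,
    ← integral_const_mul]
  refine norm_integral_le_of_norm_le h1 (Filter.Eventually.of_forall fun u => ?_)
  rw [norm_mul, Complex.norm_real, Real.norm_eq_abs, Real.abs_exp]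
  exact mul_le_mul_of_nonneg_right (hM _) (Real.exp_pos _).le

end CX

end

end Pool.Agent.N984.TW
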