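import Mathlib
import Pool.Agent.N984.TW.Cx

/-!
# The form and the reconstruction
-/

open MeasureTheory Matrix Filter Complex
open scoped Topology ENNReal ComplexConjugate

namespace Pool.Agent.N984.TW

set_option linter.unusedSectionVars false
set_option linter.unusedVariables false

noncomputable section

variable {N l : ℕ} [NeZero N] [NeZero l]

open RP OSI Pool.Agent.N986.SL

variable [MeasurableSpace (SU N)] [BorelSpace (SU N)]

namespace CX

/-- the space of the observables of the half space -/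
def HAlg (N l : ℕ) [NeZero N] [NeZero l] [MeasurableSpace (SU N)] [BorelSpace (SU N)] :
    Submodule ℂ ((Pl → Fib N l) → ℂ) where
  carrier := {F | Half F}
  zero_mem' := ⟨0, 0, le_rfl, CObs.const 0 0 0⟩
  add_mem' := by
    rintro F G ⟨a, b, ha, hF⟩ ⟨a', b', ha', hG⟩
    exact ⟨a ⊓ a', b ⊔ b', le_inf ha ha', CObs.add hF hG⟩
  smul_mem' := by
    rintro r F ⟨a, b, ha, hF⟩
    exact ⟨a, b, ha, CObs.smul hF r⟩

/-- the shift -/
def tauC (N l : ℕ) [NeZero N] [NeZero l] [MeasurableSpace (SU N)] [BorelSpace (SU N)] :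
    HAlg N l →ₗ[ℂ] HAlg N l where
  toFun F := ⟨fun U => F.1 (shift (1, 0) U), by
    obtain ⟨a, b, ha, hF⟩ := F.2
    exact ⟨a + (1, 0), b + (1, 0), by show 0 ≤ a.1 + 1; linarith, CObs.sh hF _⟩⟩
  map_add' F G := rfl
  map_smul' r F := rfl

/-- the unit -/
def oneC (N l : ℕ) [NeZero N] [NeZero l] [MeasurableSpace (SU N)] [BorelSpace (SU N)] :
    HAlg N l := ⟨fun _ => 1, 0, 0, le_rfl, CObs.const 1 0 0⟩

/-- the form -/
def formC (μ : Measure (SU N)) (z : ℂ) (β : ℝ) (F G : HAlg N l) : ℂ :=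
  stC μ z β fun U => conj (F.1 (refl U)) * G.1 U

lemma tauC_iter (F : HAlg N l) (n : ℕ) :
    ((tauC N l)^[n] F).1 = fun U => F.1 (shift ((n : ℤ), 0) U) := by
  induction n with
  | zero =>
    funext U
    have e : shift (((0 : ℕ) : ℤ), 0) U = U := by
      funext X
      show U (X + (((0 : ℕ) : ℤ), 0)) = U X
      rw [Nat.cast_zero]
      show U (X + 0) = U X
      rw [add_zero]
    show F.1 U = F.1 (shift (((0 : ℕ) : ℤ), 0) U)
    rw [e]
  | succ n ih =>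
    funext U
    rw [Function.iterate_succ_apply']
    show ((tauC N l)^[n] F).1 (shift (1, 0) U) = _
    rw [ih]
    show F.1 (shift ((n : ℤ), 0) (shift (1, 0) U)) = _
    rw [shift_shift]
    have e : (((n : ℤ), 0) : Pl) + (1, 0) = (((n + 1 : ℕ) : ℤ), 0) := by
      ext
      · show (n : ℤ) + 1 = ((n + 1 : ℕ) : ℤ)
        push_cast; ring
      · rfl
    rw [e]

variable (μ : Measure (SU N))
  [IsProbabilityMeasure μ] [μ.IsMulLeftInvariant] [μ.IsMulRightInvariant]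

variable {z : ℂ} {β m C : ℝ} {ω : ((Pl → Fib N l) → ℝ) → ℝ}

variable (hm : 0 < m) (hC : 0 ≤ C)
  (h1 : ∀ (a b a₁ b₁ : Pl) (F : (Pl → Fib N l) → ℝ) (R : ℕ), Obs F a₁ b₁ →
        Finset.Icc a₁ b₁ ⊆ Finset.Icc a b →
        (∀ X ∈ Finset.Icc a₁ b₁, ∀ Y ∉ Finset.Icc a b, R < dP X Y) →
        |expect μ z β (Finset.Icc a b) F - ω F| ≤
          C * (Finset.Icc a₁ b₁).card * Real.exp (-(m * R)))
  (h2 : ∀ (a₁ b₁ a₂ b₂ : Pl) (F₁ F₂ : (Pl → Fib N l) → ℝ) (R : ℕ), Obs F₁ a₁ b₁ →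
        Obs F₂ a₂ b₂ → (∀ X ∈ Finset.Icc a₁ b₁, ∀ Y ∈ Finset.Icc a₂ b₂, R < dP X Y) →
        |ω (fun U => F₁ U * F₂ U) - ω F₁ * ω F₂| ≤
          C * (Finset.Icc a₁ b₁).card * Real.exp (-(m * R)))

omit [BorelSpace (SU N)] in
lemma Loc.obs1 {F : (Pl → Fib N l) → ℝ} {a b : Pl} (h : Loc F a b) (hb : ∀ U, |F U| ≤ 1) :
    Obs F a b := ⟨h.meas, hb, h.inv, h.dep⟩

include hm hC h1 h2

lemma st_cluster {F G : (Pl → Fib N l) → ℝ} {a₁ b₁ a₂ b₂ : Pl} (hF : Loc F a₁ b₁)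
    (hG : Loc G a₂ b₂) (bF : ∀ U, |F U| ≤ 1) (bG : ∀ U, |G U| ≤ 1) (R : ℕ)
    (hR : ∀ X ∈ Finset.Icc a₁ b₁, ∀ Y ∈ Finset.Icc a₂ b₂, R < dP X Y) :
    |st μ z β (fun U => F U * G U) - st μ z β F * st μ z β G| ≤
      C * (Finset.Icc a₁ b₁).card * Real.exp (-(m * R)) := by
  have b : ∀ U, |F U * G U| ≤ 1 := fun U => by
    rw [abs_mul]
    exact mul_le_one₀ (bF U) (abs_nonneg _) (bG U)
  rw [st_obs μ hm hC h1 (Loc.obs1 hF bF), st_obs μ hm hC h1 (Loc.obs1 hG bG),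
    st_obs μ hm hC h1 (Loc.obs1 (Loc.mul hF hG) b)]
  exact h2 _ _ _ _ _ _ R (Loc.obs1 hF bF) (Loc.obs1 hG bG) hR

/-- clustering of complex observables -/
lemma stC_cluster {F G : (Pl → Fib N l) → ℂ} {a₁ b₁ a₂ b₂ : Pl} (hF : CObs F a₁ b₁)
    (hG : CObs G a₂ b₂) (bF : ∀ U, ‖F U‖ ≤ 1) (bG : ∀ U, ‖G U‖ ≤ 1) (R : ℕ)
    (hR : ∀ X ∈ Finset.Icc a₁ b₁, ∀ Y ∈ Finset.Icc a₂ b₂, R < dP X Y) :
    ‖stC μ z β (fun U => F U * G U) - stC μ z β F * stC μ z β G‖ ≤
      4 * C * (Finset.Icc a₁ b₁).card * Real.exp (-(m * R)) := by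
  have f1 : ∀ U, |(F U).re| ≤ 1 := fun U => (abs_re_le_norm _).trans (bF U)
  have f2 : ∀ U, |(F U).im| ≤ 1 := fun U => (abs_im_le_norm _).trans (bF U)
  have g1 : ∀ U, |(G U).re| ≤ 1 := fun U => (abs_re_le_norm _).trans (bG U)
  have g2 : ∀ U, |(G U).im| ≤ 1 := fun U => (abs_im_le_norm _).trans (bG U)
  have c1 := st_cluster μ hm hC h1 h2 (CObs.re hF) (CObs.re hG) f1 g1 R hR
  have c2 := st_cluster μ hm hC h1 h2 (CObs.im hF) (CObs.im hG) f2 g2 R hR
  have c3 := st_cluster μ hm hC h1 h2 (CObs.re hF) (CObs.im hG) f1 g2 R hR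
  have c4 := st_cluster μ hm hC h1 h2 (CObs.im hF) (CObs.re hG) f2 g1 R hR
  have e1 : st μ z β (fun U => (F U * G U).re) = st μ z β (fun U => (F U).re * (G U).re) -
      st μ z β (fun U => (F U).im * (G U).im) := by
    have e : (fun U => (F U * G U).re) = fun U => (F U).re * (G U).re +
        (-1) * ((F U).im * (G U).im) := by
      funext U
      rw [mul_re]; ring
    rw [e, st_add μ hm hC h1 (Loc.mul (CObs.re hF) (CObs.re hG))
      (Loc.smul (Loc.mul (CObs.im hF) (CObs.im hG)) _),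
      st_smul μ hm hC h1 (Loc.mul (CObs.im hF) (CObs.im hG))]
    ring
  have e2 : st μ z β (fun U => (F U * G U).im) = st μ z β (fun U => (F U).re * (G U).im) +
      st μ z β (fun U => (F U).im * (G U).re) := by
    have e : (fun U => (F U * G U).im) = fun U => (F U).re * (G U).im + (F U).im * (G U).re := by
      funext U
      rw [mul_im]
    rw [e, st_add μ hm hC h1 (Loc.mul (CObs.re hF) (CObs.im hG))
      (Loc.mul (CObs.im hF) (CObs.re hG))]
  obtain ⟨x, hx⟩ : ∃ x, x = stC μ z β (fun U => F U * G U) - stC μ z β F * stC μ z β G := ⟨_, rfl⟩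
  rw [← hx]
  have r1 : |x.re| ≤ 2 * (C * (Finset.Icc a₁ b₁).card * Real.exp (-(m * R))) := by
    rw [hx, sub_re, mul_re, stC_re, stC_re, stC_im, stC_re, stC_im, e1]
    rw [abs_le] at c1 c2 ⊢
    constructor <;> linarith [c1.1, c1.2, c2.1, c2.2]
  have r2 : |x.im| ≤ 2 * (C * (Finset.Icc a₁ b₁).card * Real.exp (-(m * R))) := by
    rw [hx, sub_im, mul_im, stC_im, stC_re, stC_im, stC_im, stC_re, e2]
    rw [abs_le] at c3 c4 ⊢
    constructor <;> linarith [c3.1, c3.2, c4.1, c4.2]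
  have := Complex.norm_le_abs_re_add_abs_im x
  linarith

omit h2 in
lemma stC_const (c : ℂ) : stC μ z β (fun _ : Pl → Fib N l => c) = c := by
  have e : (fun _ : Pl → Fib N l => c) = fun _ => c * ((1 : ℝ) : ℂ) := by
    funext U
    rw [ofReal_one, mul_one]
  rw [e, stC_smul μ hm hC h1 (Loc.cx (Loc.ofObs (Obs_one 0 0))) c, stC_ofReal μ hm hC h1,
    st_one μ hm hC h1, ofReal_one, mul_one]

/-- clustering in the half space -/
lemma pair_cluster {F G : (Pl → Fib N l) → ℂ} {a b a' b' : Pl} (hF : CObs F a b) (ha : 0 ≤ a.1)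
    (hG : CObs G a' b') (ha' : 0 ≤ a'.1) : ∃ K : ℝ, ∀ n : ℕ,
      ‖stC μ z β (fun U => conj (F (refl U)) * G (shift ((n : ℤ), 0) U)) -
        conj (stC μ z β F) * stC μ z β G‖ ≤ K * Real.exp (-(m * n)) := by
  obtain ⟨M₀, hM₀⟩ := hF.bdd
  obtain ⟨M₁, hM₁⟩ := hG.bdd
  obtain ⟨M, hM, hMb⟩ : ∃ M : ℝ, 0 < M ∧ ∀ U, ‖F U‖ ≤ M :=
    ⟨|M₀| + 1, by positivity, fun U => (hM₀ U).trans ((le_abs_self _).trans (by linarith))⟩
  obtain ⟨M', hM', hMb'⟩ : ∃ M : ℝ, 0 < M ∧ ∀ U, ‖G U‖ ≤ M :=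
    ⟨|M₁| + 1, by positivity, fun U => (hM₁ U).trans ((le_abs_self _).trans (by linarith))⟩
  obtain ⟨K₀, hK₀⟩ : ∃ K₀, K₀ = ‖stC μ z β (fun U => conj (F (refl U)) *
      G (shift (((0 : ℕ) : ℤ), 0) U)) - conj (stC μ z β F) * stC μ z β G‖ := ⟨_, rfl⟩
  obtain ⟨K₁, hK₁⟩ : ∃ K₁, K₁ = M * M' * (4 * C *
      (Finset.Icc ((-b.1, a.2) : Pl) (-a.1, b.2)).card * Real.exp m) := ⟨_, rfl⟩
  have hK₀' : 0 ≤ K₀ := by rw [hK₀]; exact norm_nonneg _
  have hK₁' : 0 ≤ K₁ := by rw [hK₁]; positivity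
  refine ⟨K₀ + K₁, fun n => ?_⟩
  rcases Nat.eq_zero_or_pos n with rfl | hn
  · rw [← hK₀]
    simp only [Nat.cast_zero, mul_zero, neg_zero, Real.exp_zero, mul_one]
    linarith
  · have q1 : CObs (fun U => ((M⁻¹ : ℝ) : ℂ) * conj (F (refl U))) (-b.1, a.2) (-a.1, b.2) :=
      CObs.smul (CObs.cj (CObs.rf hF)) _
    have q2 : CObs (fun U => ((M'⁻¹ : ℝ) : ℂ) * G (shift ((n : ℤ), 0) U)) (a' + ((n : ℤ), 0))
      (b' + ((n : ℤ), 0)) := CObs.smul (CObs.sh hG _) _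
    have c := stC_cluster μ hm hC h1 h2 q1 q2 (fun U => by
      rw [norm_mul, Complex.norm_real, Real.norm_eq_abs, abs_of_pos (inv_pos.2 hM),
        Complex.norm_conj, inv_mul_le_iff₀ hM, mul_one]
      exact hMb _) (fun U => by
      rw [norm_mul, Complex.norm_real, Real.norm_eq_abs, abs_of_pos (inv_pos.2 hM'),
        inv_mul_le_iff₀ hM', mul_one]
      exact hMb' _) (n - 1) (fun X hX Y hY => by
        have h3 := (Finset.mem_Icc.1 hX).2.1
        have h4 := (Finset.mem_Icc.1 hY).1.1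
        have h3' : X.1 ≤ -a.1 := h3
        have h4' : a'.1 + n ≤ Y.1 := h4
        unfold dP
        rw [lt_max_iff]
        left
        omega)
    have e1 : stC μ z β (fun U => ((M⁻¹ : ℝ) : ℂ) * conj (F (refl U)) *
        (((M'⁻¹ : ℝ) : ℂ) * G (shift ((n : ℤ), 0) U))) =
        (((M * M')⁻¹ : ℝ) : ℂ) * stC μ z β (fun U => conj (F (refl U)) *
          G (shift ((n : ℤ), 0) U)) := by
      rw [← stC_smul μ hm hC h1 (CObs.mul (CObs.cj (CObs.rf hF)) (CObs.sh hG ((n : ℤ), 0)))]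
      congr 1
      funext U
      push_cast
      rw [mul_inv]
      ring
    rw [e1, stC_smul μ hm hC h1 (CObs.cj (CObs.rf hF)), stC_smul μ hm hC h1 (CObs.sh hG _),
      stC_conj μ hm hC h1 (CObs.rf hF), stC_refl μ hm hC h1 hF, stC_shift μ hm hC h1 hG] at c
    have e2 : (((M * M')⁻¹ : ℝ) : ℂ) * stC μ z β (fun U => conj (F (refl U)) *
          G (shift ((n : ℤ), 0) U)) - ((M⁻¹ : ℝ) : ℂ) * conj (stC μ z β F) *
          (((M'⁻¹ : ℝ) : ℂ) * stC μ z β G) =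
        (((M * M')⁻¹ : ℝ) : ℂ) * (stC μ z β (fun U => conj (F (refl U)) *
          G (shift ((n : ℤ), 0) U)) - conj (stC μ z β F) * stC μ z β G) := by
      push_cast
      rw [mul_inv]
      ring
    rw [e2, norm_mul, Complex.norm_real, Real.norm_eq_abs, abs_of_pos (by positivity),
      inv_mul_le_iff₀ (by positivity)] at c
    refine c.trans ?_
    have e3 : Real.exp (-(m * ((n - 1 : ℕ) : ℝ))) = Real.exp m * Real.exp (-(m * n)) := by
      rw [← Real.exp_add]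
      congr 1
      rw [Nat.cast_sub hn, Nat.cast_one]
      ring
    rw [e3]
    have e4 : M * M' * (4 * C * (Finset.Icc ((-b.1, a.2) : Pl) (-a.1, b.2)).card *
        (Real.exp m * Real.exp (-(m * n)))) = K₁ * Real.exp (-(m * n)) := by
      rw [hK₁]; ring
    refine (le_of_eq e4).trans ?_
    exact mul_le_mul_of_nonneg_right (by linarith) (Real.exp_pos _).le

lemma osForm : OSForm (formC (N := N) (l := l) μ z β) (tauC N l) where
  add := fun F F' F'' => by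
    obtain ⟨a, b, ha, hF⟩ := F.2
    obtain ⟨a', b', ha', hF'⟩ := F'.2
    obtain ⟨a'', b'', ha'', hF''⟩ := F''.2
    unfold formC
    have e : (fun U => conj (F.1 (refl U)) * (F' + F'').1 U) = fun U =>
        conj (F.1 (refl U)) * F'.1 U + conj (F.1 (refl U)) * F''.1 U := by
      funext U
      exact mul_add _ _ _
    rw [e]
    exact stC_add μ hm hC h1 (CObs.mul (CObs.cj (CObs.rf hF)) hF')
      (CObs.mul (CObs.cj (CObs.rf hF)) hF'')
  smul := fun r F F' => by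
    obtain ⟨a, b, ha, hF⟩ := F.2
    obtain ⟨a', b', ha', hF'⟩ := F'.2
    unfold formC
    have e : (fun U => conj (F.1 (refl U)) * (r • F').1 U) = fun U =>
        r * (conj (F.1 (refl U)) * F'.1 U) := by
      funext U
      show conj (F.1 (refl U)) * (r * F'.1 U) = _
      ring
    rw [e]
    exact stC_smul μ hm hC h1 (CObs.mul (CObs.cj (CObs.rf hF)) hF') r
  symm := fun F F' => by
    obtain ⟨a, b, ha, hF⟩ := F.2
    obtain ⟨a', b', ha', hF'⟩ := F'.2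
    unfold formC
    have q := CObs.mul (CObs.cj (CObs.rf hF')) hF
    rw [← stC_conj μ hm hC h1 q, ← stC_refl μ hm hC h1 (CObs.cj q)]
    congr 1
    funext U
    show conj (F.1 (refl U)) * F'.1 U = conj (conj (F'.1 (refl (refl U))) * F.1 (refl U))
    rw [refl_refl, map_mul, conj_conj, mul_comm]
  pos := fun F => by
    obtain ⟨a, b, ha, hF⟩ := F.2
    unfold formC
    rw [stC_re]
    have e : (fun U => (conj (F.1 (refl U)) * F.1 U).re) = fun U =>
        (F.1 (refl U)).re * (F.1 U).re + (F.1 (refl U)).im * (F.1 U).im := by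
      funext U
      rw [mul_re, conj_re, conj_im]
      ring
    rw [e, st_add μ hm hC h1 (Loc.mul (Loc.rf (CObs.re hF)) (CObs.re hF))
      (Loc.mul (Loc.rf (CObs.im hF)) (CObs.im hF))]
    obtain ⟨D, hB, -, -, -⟩ := os_form μ hm hC h1 h2
    have p1 := D.nonneg ⟨_, a, b, ha, CObs.re hF⟩
    have p2 := D.nonneg ⟨_, a, b, ha, CObs.im hF⟩
    rw [hB] at p1 p2
    exact add_nonneg p1 p2
  tau := fun F F' => by
    obtain ⟨a, b, ha, hF⟩ := F.2
    obtain ⟨a', b', ha', hF'⟩ := F'.2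
    unfold formC
    show stC μ z β (fun U => conj (F.1 (shift (1, 0) (refl U))) * F'.1 U) =
      stC μ z β (fun U => conj (F.1 (refl U)) * F'.1 (shift (1, 0) U))
    simp only [shift_refl]
    have h3 : CObs (fun U => conj (F.1 (refl (shift (-1, 0) U))) * F'.1 U) _ _ :=
      CObs.mul (CObs.sh (CObs.cj (CObs.rf hF)) (-1, 0)) hF'
    rw [← stC_shift μ hm hC h1 h3 (1, 0)]
    congr 1
    funext U
    have e : shift (-1, 0) (shift (1, 0) U) = U := by
      rw [shift_shift]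
      funext X
      show U (X + ((-1, 0) + (1, 0))) = U X
      have e2 : (((-1, 0) : Pl) + (1, 0)) = 0 := rfl
      rw [e2, add_zero]
    rw [e]

omit hm hC h1 h2 in
lemma form_one (F : HAlg N l) : formC μ z β (oneC N l) F = stC μ z β F.1 := by
  unfold formC oneC
  congr 1
  funext U
  show conj (1 : ℂ) * F.1 U = F.1 U
  rw [map_one, one_mul]

lemma form_cluster (F : HAlg N l) : ∃ K : ℝ, ∀ n : ℕ,
    ‖formC μ z β F ((tauC N l)^[n] F) - (‖formC μ z β (oneC N l) F‖ ^ 2 : ℝ)‖ ≤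
      K * Real.exp (-(m * n)) := by
  obtain ⟨a, b, ha, hF⟩ := F.2
  obtain ⟨K, hK⟩ := pair_cluster μ hm hC h1 h2 hF ha hF ha
  refine ⟨K, fun n => ?_⟩
  have h3 := hK n
  rw [form_one]
  unfold formC
  rw [tauC_iter]
  have e : conj (stC μ z β F.1) * stC μ z β F.1 = ((‖stC μ z β F.1‖ ^ 2 : ℝ) : ℂ) := by
    rw [mul_comm, Complex.mul_conj, Complex.normSq_eq_norm_sq]
  rw [e] at h3
  exact h3

lemma form_bdd (F : HAlg N l) : ∃ K : ℝ, ∀ n : ℕ,
    ‖formC μ z β F ((tauC N l)^[n] F)‖ ≤ K := by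
  obtain ⟨K, hK⟩ := form_cluster μ hm hC h1 h2 F
  refine ⟨|K| + ‖formC μ z β (oneC N l) F‖ ^ 2, fun n => ?_⟩
  have h3 := hK n
  have h4 := norm_add_le (formC μ z β F ((tauC N l)^[n] F) -
    (‖formC μ z β (oneC N l) F‖ ^ 2 : ℝ)) ((‖formC μ z β (oneC N l) F‖ ^ 2 : ℝ) : ℂ)
  rw [sub_add_cancel, Complex.norm_real, Real.norm_of_nonneg (by positivity)] at h4
  have h5 : K * Real.exp (-(m * n)) ≤ |K| := by
    have h6 : Real.exp (-(m * n)) ≤ 1 := Real.exp_le_one_iff.2 (by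
      have : 0 ≤ m * n := by positivity
      linarith)
    calc K * Real.exp (-(m * n)) ≤ |K| * Real.exp (-(m * n)) :=
          mul_le_mul_of_nonneg_right (le_abs_self K) (Real.exp_pos _).le
      _ ≤ |K| * 1 := mul_le_mul_of_nonneg_left h6 (abs_nonneg K)
      _ = |K| := mul_one _
  linarith

lemma form_one_one : formC μ z β (oneC N l) (oneC N l) = 1 := by
  rw [form_one]
  exact stC_const μ hm hC h1 1

/-- a reconstruction is linear -/
lemma rec_lin {W : ((Pl → Fib N l) → ℂ) → ℂ}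
    (hW : ∀ (F : (Pl → Fib N l) → ℂ) (a b : Pl), CObs F a b → W F = stC μ z β F) {H : Type}
    [NormedAddCommGroup H] [InnerProductSpace ℂ H]
    {T : H →L[ℂ] H} {J : ((Pl → Fib N l) → ℂ) → H} (h : Rec W T J) :
    ∃ J' : HAlg N l →ₗ[ℂ] H, ∀ F, J' F = J F.1 := by
  have hf := osForm μ hm hC h1 h2
  have hB : ∀ F F' : HAlg N l, inner ℂ (J F.1) (J F'.1) = formC μ z β F F' := by
    intro F F'
    obtain ⟨a, b, ha, hF⟩ := F.2
    obtain ⟨a', b', ha', hF'⟩ := F'.2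
    rw [h.ip F.1 F'.1 F.2 F'.2]
    exact hW _ _ _ (CObs.mul (CObs.cj (CObs.rf hF)) hF')
  have hadd : ∀ F F' : HAlg N l, J (F + F').1 = J F.1 + J F'.1 := by
    intro F F'
    have key : ∀ F'' : HAlg N l, inner ℂ (J F''.1) (J (F + F').1 - (J F.1 + J F'.1)) = 0 := by
      intro F''
      rw [inner_sub_right, inner_add_right, hB, hB, hB, hf.add]
      ring
    rw [← sub_eq_zero, ← inner_self_eq_zero (𝕜 := ℂ)]
    rw [inner_sub_left, inner_add_left, key, key, key]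
    ring
  have hsmul : ∀ (a : ℂ) (F : HAlg N l), J (a • F).1 = a • J F.1 := by
    intro a F
    have key : ∀ F'' : HAlg N l, inner ℂ (J F''.1) (J (a • F).1 - a • J F.1) = 0 := by
      intro F''
      rw [inner_sub_right, inner_smul_right, hB, hB, hf.smul]
      ring
    rw [← sub_eq_zero, ← inner_self_eq_zero (𝕜 := ℂ)]
    rw [inner_sub_left, inner_smul_left, key, key]
    ring
  exact ⟨{ toFun := fun F => J F.1, map_add' := hadd, map_smul' := hsmul }, fun F => rfl⟩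

/-- Existence of the reconstruction. -/
theorem exists_rec {W : ((Pl → Fib N l) → ℂ) → ℂ}
    (hW : ∀ (F : (Pl → Fib N l) → ℂ) (a b : Pl), CObs F a b → W F = stC μ z β F) :
    ∃ (H : Type) (_ : NormedAddCommGroup H) (_ : InnerProductSpace ℂ H) (_ : CompleteSpace H)
      (T : H →L[ℂ] H) (J : ((Pl → Fib N l) → ℂ) → H), Rec W T J := by
  classical
  obtain ⟨H, i1, i2, i3, J, T, hJ, hin, hT⟩ := exists_os (osForm μ hm hC h1 h2)
    (form_bdd μ hm hC h1 h2)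
  obtain ⟨J', hJ'⟩ : ∃ J' : ((Pl → Fib N l) → ℂ) → H, ∀ F : HAlg N l, J' F.1 = J F :=
    ⟨fun F => if h : F ∈ HAlg N l then J ⟨F, h⟩ else 0, fun F => dif_pos F.2⟩
  refine ⟨H, i1, i2, i3, T, J', fun F F' hF hF' => ?_, ?_, fun F hF => ?_⟩
  · have h3 := hin ⟨F, hF⟩ ⟨F', hF'⟩
    rw [← hJ', ← hJ'] at h3
    rw [h3]
    obtain ⟨a, b, ha, hF⟩ := hF
    obtain ⟨a', b', ha', hF'⟩ := hF'
    exact (hW _ _ _ (CObs.mul (CObs.cj (CObs.rf hF)) hF')).symm
  · refine hJ.mono ?_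
    rintro x ⟨F, rfl⟩
    exact ⟨F.1, F.2, hJ' F⟩
  · have h3 := hT ⟨F, hF⟩
    rw [← hJ', ← hJ'] at h3
    exact h3

/-- Properties of the reconstruction. -/
theorem rec_gap {W : ((Pl → Fib N l) → ℂ) → ℂ}
    (hW : ∀ (F : (Pl → Fib N l) → ℂ) (a b : Pl), CObs F a b → W F = stC μ z β F) {H : Type}
    [NormedAddCommGroup H] [InnerProductSpace ℂ H] [CompleteSpace H]
    {T : H →L[ℂ] H} {J : ((Pl → Fib N l) → ℂ) → H} (h : Rec W T J) :
    IsSelfAdjoint T ∧ ‖T‖ ≤ 1 ∧ T (J fun _ => 1) = J (fun _ => 1) ∧ ‖J fun _ => 1‖ = 1 ∧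
    (∀ x, inner ℂ (J fun _ => 1) x = 0 → ‖T x‖ ≤ Real.exp (-m) * ‖x‖) ∧
    (∀ z ∈ spectrum ℂ T, z = 1 ∨ ‖z‖ ≤ Real.exp (-m)) ∧
    (∀ x, T x = x → ∃ c : ℂ, x = c • J fun _ => 1) := by
  obtain ⟨J', hJ'⟩ := rec_lin μ hm hC h1 h2 hW h
  have h3 := os_gap (osForm μ hm hC h1 h2) J' T
    (h.dense.mono (by rintro x ⟨F, hF, rfl⟩; exact ⟨⟨F, hF⟩, hJ' _⟩))
    (fun F F' => by
      rw [hJ', hJ', h.ip _ _ F.2 F'.2]
      obtain ⟨a, b, ha, hF⟩ := F.2
      obtain ⟨a', b', ha', hF'⟩ := F'.2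
      exact hW _ _ _ (CObs.mul (CObs.cj (CObs.rf hF)) hF'))
    (fun F => by rw [hJ', hJ']; exact h.step _ F.2) (one := oneC N l) rfl
    (form_one_one μ hm hC h1 h2) hm (form_cluster μ hm hC h1 h2)
  rw [hJ'] at h3
  exact h3

/-- Upper bound of the mass gap. -/
theorem rec_upper {W : ((Pl → Fib N l) → ℂ) → ℂ}
    (hW : ∀ (F : (Pl → Fib N l) → ℂ) (a b : Pl), CObs F a b → W F = stC μ z β F) {H : Type}
    [NormedAddCommGroup H] [InnerProductSpace ℂ H] [CompleteSpace H]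
    {T : H →L[ℂ] H} {J : ((Pl → Fib N l) → ℂ) → H} (h : Rec W T J)
    {f : (Pl → Fib N l) → ℝ} {a b : Pl} (hf : Loc f a b) (ha : 0 ≤ a.1)
    (hr : ∀ U, f (refl U) = f U)
    (h0 : 0 < st μ z β (fun U => f U * f U) - st μ z β f ^ 2) {M : ℝ}
    (h3 : Real.exp (-(2 * M)) * (st μ z β (fun U => f U * f U) - st μ z β f ^ 2) ≤
      st μ z β (fun U => f U * f (shift (2, 0) U)) - st μ z β f ^ 2) :
    ∃ z ∈ spectrum ℂ T, z ≠ 1 ∧ Real.exp (-M) ≤ ‖z‖ := by
  obtain ⟨J', hJ'⟩ := rec_lin μ hm hC h1 h2 hW h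
  obtain ⟨c, hc⟩ : ∃ c, c = st μ z β f := ⟨_, rfl⟩
  have hfm : Loc (fun U => f U + -c) a b := by
    have h4 := Loc.add hf (Loc.smul (Loc.ofObs (Obs_one (N := N) (l := l) a b)) (-c))
    rw [inf_idem, sup_idem] at h4
    simp only [mul_one] at h4
    exact h4
  obtain ⟨F, hF⟩ : ∃ F : HAlg N l, F.1 = fun U => ((f U + -c : ℝ) : ℂ) :=
    ⟨⟨_, a, b, ha, Loc.cx hfm⟩, rfl⟩
  have hcorr : ∀ n : ℕ, formC μ z β F ((tauC N l)^[n] F) =
      ((st μ z β (fun U => f U * f (shift ((n : ℤ), 0) U)) - c ^ 2 : ℝ) : ℂ) := by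
    intro n
    unfold formC
    rw [tauC_iter, hF]
    have e1 : (fun U => conj (((f (refl U) + -c : ℝ) : ℂ)) *
        ((f (shift ((n : ℤ), 0) U) + -c : ℝ) : ℂ)) = fun U =>
        (((f U * f (shift ((n : ℤ), 0) U) + (-c) * f U) + ((-c) * f (shift ((n : ℤ), 0) U) +
          c ^ 2 * 1) : ℝ) : ℂ) := by
      funext U
      rw [conj_ofReal, hr]
      push_cast
      ring
    have q1 := Loc.mul hf (Loc.sh hf ((n : ℤ), 0))
    have q2 := Loc.smul hf (-c)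
    have q3 := Loc.smul (Loc.sh hf ((n : ℤ), 0)) (-c)
    have q4 := Loc.smul (Loc.ofObs (Obs_one (N := N) (l := l) 0 0)) (c ^ 2)
    have e2 : stC μ z β (fun U => conj ((((fun U => ((f U + -c : ℝ) : ℂ)) :
        (Pl → Fib N l) → ℂ) (refl U))) * (fun U => ((f U + -c : ℝ) : ℂ)) (shift ((n : ℤ), 0) U)) =
        stC μ z β (fun U => (((f U * f (shift ((n : ℤ), 0) U) + (-c) * f U) +
          ((-c) * f (shift ((n : ℤ), 0) U) + c ^ 2 * 1) : ℝ) : ℂ)) := by
      rw [← e1]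
    rw [e2, stC_ofReal μ hm hC h1, st_add μ hm hC h1 (Loc.add q1 q2) (Loc.add q3 q4),
      st_add μ hm hC h1 q1 q2, st_add μ hm hC h1 q3 q4, st_smul μ hm hC h1 hf,
      st_smul μ hm hC h1 (Loc.sh hf ((n : ℤ), 0)), st_shift μ hm hC h1 hf,
      st_smul μ hm hC h1 (Loc.ofObs (Obs_one (N := N) (l := l) 0 0)), st_one μ hm hC h1, ← hc]
    congr 1
    ring
  have hone : formC μ z β (oneC N l) F = 0 := by
    rw [form_one, hF, stC_ofReal μ hm hC h1]
    have e : (fun U => f U + -c) = fun U => f U + (-c) * 1 := by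
      funext U; rw [mul_one]
    rw [e, st_add μ hm hC h1 hf (Loc.smul (Loc.ofObs (Obs_one (N := N) (l := l) 0 0)) (-c)),
      st_smul μ hm hC h1 (Loc.ofObs (Obs_one (N := N) (l := l) 0 0)), st_one μ hm hC h1, ← hc]
    push_cast
    ring
  have e0 : formC μ z β F F = ((st μ z β (fun U => f U * f U) - c ^ 2 : ℝ) : ℂ) := by
    have h4 := hcorr 0
    have e : ∀ U : Pl → Fib N l, shift (((0 : ℕ) : ℤ), 0) U = U := fun U => by
      funext X
      show U (X + (((0 : ℕ) : ℤ), 0)) = U X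
      rw [Nat.cast_zero]
      show U (X + 0) = U X
      rw [add_zero]
    simp only [e] at h4
    exact h4
  have e2 : formC μ z β (tauC N l F) (tauC N l F) =
      ((st μ z β (fun U => f U * f (shift (2, 0) U)) - c ^ 2 : ℝ) : ℂ) := by
    rw [(osForm μ hm hC h1 h2).tau]
    exact hcorr 2
  refine os_upper (osForm μ hm hC h1 h2) J' T
    (h.dense.mono (by rintro x ⟨F, hF, rfl⟩; exact ⟨⟨F, hF⟩, hJ' _⟩))
    (fun F F' => by
      rw [hJ', hJ', h.ip _ _ F.2 F'.2]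
      obtain ⟨a, b, ha, hF⟩ := F.2
      obtain ⟨a', b', ha', hF'⟩ := F'.2
      exact hW _ _ _ (CObs.mul (CObs.cj (CObs.rf hF)) hF'))
    (fun F => by rw [hJ', hJ']; exact h.step _ F.2) (one := oneC N l) rfl
    (form_one_one μ hm hC h1 h2) hm (form_cluster μ hm hC h1 h2) hone ?_ (Real.exp_pos _).le ?_
  · rw [e0, ofReal_re, hc]
    exact h0
  · rw [e0, e2, ofReal_re, ofReal_re, ← Real.exp_nat_mul, hc]
    refine le_trans (le_of_eq ?_) h3
    congr 2
    push_cast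
    ring

end CX

end

end Pool.Agent.N984.TW
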