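import Mathlib
import Pool.Agent.N984.TW.Cx2
import Pool.Agent.N453.TW.OSInst2

/-!
# The state on complex observables and its reconstruction
-/

open MeasureTheory Matrix Filter Complex
open scoped Topology ENNReal ComplexConjugate

namespace Pool.Agent.N984.TW

set_option linter.unusedSectionVars false
set_option linter.unusedVariables false

noncomputable section

variable {N l : ℕ} [NeZero N] [NeZero l]

open RP OSI Pool.Agent.N986.SL

variable [MeasurableSpace (SU N)] [BorelSpace (SU N)]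

namespace CX

variable (μ : Measure (SU N))
  [IsProbabilityMeasure μ] [μ.IsMulLeftInvariant] [μ.IsMulRightInvariant]

variable {z : ℂ} {β m C : ℝ} {ω : ((Pl → Fib N l) → ℝ) → ℝ}

variable (hm : 0 < m) (hC : 0 ≤ C)
  (h1 : ∀ (a b a₁ b₁ : Pl) (F : (Pl → Fib N l) → ℝ) (R : ℕ), Obs F a₁ b₁ →
        Finset.Icc a₁ b₁ ⊆ Finset.Icc a b →
        (∀ X ∈ Finset.Icc a₁ b₁, ∀ Y ∉ Finset.Icc a b, R < dP X Y) →
        |expect μ z β (Finset.Icc a b) F - ω F| ≤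
          C * (Finset.Icc a₁ b₁).card * Real.exp (-(m * R)))

include hm hC h1

lemma st_link (hβ : 0 ≤ β) {f : (Pl → Fib N l) → ℝ} {a b : Pl} (hf : Loc f a b) (ha : 0 ≤ a.1) :
    0 ≤ st μ z β (fun U => f (refl U) * f (shift (1, 0) U)) := by
  obtain ⟨M, hM, hb⟩ := Loc.bound hf
  have hob := Loc.scale hf hM hb
  have h3 := omega_link (l := l) μ hm hC h1 hβ hob ha
  have h4 : Loc (fun U => f (refl U) * f (shift (1, 0) U)) _ _ :=
    Loc.mul (Loc.rf hf) (Loc.sh hf (1, 0))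
  rw [st_scale μ hm hC h1 h4 (M := M * M) (by positivity) (fun U => by
    rw [abs_mul]
    exact mul_le_mul (hb _) (hb _) (abs_nonneg _) hM.le)]
  refine mul_nonneg (by positivity) (h3.trans (le_of_eq ?_))
  congr 1
  funext U
  field_simp

variable (h2 : ∀ (a₁ b₁ a₂ b₂ : Pl) (F₁ F₂ : (Pl → Fib N l) → ℝ) (R : ℕ), Obs F₁ a₁ b₁ →
        Obs F₂ a₂ b₂ → (∀ X ∈ Finset.Icc a₁ b₁, ∀ Y ∈ Finset.Icc a₂ b₂, R < dP X Y) →
        |ω (fun U => F₁ U * F₂ U) - ω F₁ * ω F₂| ≤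
          C * (Finset.Icc a₁ b₁).card * Real.exp (-(m * R)))

include h2

/-- The transfer operator is positive. -/
theorem rec_pos (hβ : 0 ≤ β) {W : ((Pl → Fib N l) → ℂ) → ℂ}
    (hW : ∀ (F : (Pl → Fib N l) → ℂ) (a b : Pl), CObs F a b → W F = stC μ z β F) {H : Type}
    [NormedAddCommGroup H] [InnerProductSpace ℂ H] [CompleteSpace H]
    {T : H →L[ℂ] H} {J : ((Pl → Fib N l) → ℂ) → H} (h : Rec W T J) : T.IsPositive := by
  rw [ContinuousLinearMap.isPositive_def']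
  refine ⟨(rec_gap μ hm hC h1 h2 hW h).1, fun x => ?_⟩
  have hcl : IsClosed {x : H | 0 ≤ T.reApplyInnerSelf x} := by
    refine isClosed_le continuous_const ?_
    unfold ContinuousLinearMap.reApplyInnerSelf
    fun_prop
  have hsub : J '' {F | Half F} ⊆ {x : H | 0 ≤ T.reApplyInnerSelf x} := by
    rintro _ ⟨F, hF, rfl⟩
    obtain ⟨a, b, ha, hF'⟩ := hF
    have hF2 : Half (fun U => F (shift (1, 0) U)) :=
      ⟨a + (1, 0), b + (1, 0), by show 0 ≤ a.1 + 1; linarith, CObs.sh hF' _⟩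
    show 0 ≤ T.reApplyInnerSelf (J F)
    rw [ContinuousLinearMap.reApplyInnerSelf_apply, inner_re_symm, h.step F ⟨a, b, ha, hF'⟩,
      h.ip _ _ ⟨a, b, ha, hF'⟩ hF2, hW _ _ _ (CObs.mul (CObs.cj (CObs.rf hF'))
        (CObs.sh hF' (1, 0)))]
    show 0 ≤ (stC μ z β _).re
    rw [stC_re]
    have e : (fun U => (conj (F (refl U)) * F (shift (1, 0) U)).re) = fun U =>
        (F (refl U)).re * (F (shift (1, 0) U)).re + (F (refl U)).im * (F (shift (1, 0) U)).im := by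
      funext U
      rw [mul_re, conj_re, conj_im]
      ring
    rw [e, st_add μ hm hC h1 (Loc.mul (Loc.rf (CObs.re hF')) (Loc.sh (CObs.re hF') (1, 0)))
      (Loc.mul (Loc.rf (CObs.im hF')) (Loc.sh (CObs.im hF') (1, 0)))]
    have p1 := st_link μ hm hC h1 hβ (CObs.re hF') ha
    have p2 := st_link μ hm hC h1 hβ (CObs.im hF') ha
    exact add_nonneg p1 p2
  have h3 := closure_minimal hsub hcl (h.dense x)
  exact h3

end CX

open CX

variable (μ : Measure (SU N))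
  [IsProbabilityMeasure μ] [μ.IsMulLeftInvariant] [μ.IsMulRightInvariant]

/-- The complex form of the properties of the state. -/
theorem cx_state {z : ℂ} {β m C : ℝ} {ω : ((Pl → Fib N l) → ℝ) → ℝ} (hβ : 0 ≤ β) (hm : 0 < m)
    (hC : 0 ≤ C)
    (h1 : ∀ (a b a₁ b₁ : Pl) (F : (Pl → Fib N l) → ℝ) (R : ℕ), Obs F a₁ b₁ →
        Finset.Icc a₁ b₁ ⊆ Finset.Icc a b →
        (∀ X ∈ Finset.Icc a₁ b₁, ∀ Y ∉ Finset.Icc a b, R < dP X Y) →
        |expect μ z β (Finset.Icc a b) F - ω F| ≤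
          C * (Finset.Icc a₁ b₁).card * Real.exp (-(m * R)))
    (h2 : ∀ (a₁ b₁ a₂ b₂ : Pl) (F₁ F₂ : (Pl → Fib N l) → ℝ) (R : ℕ), Obs F₁ a₁ b₁ →
        Obs F₂ a₂ b₂ → (∀ X ∈ Finset.Icc a₁ b₁, ∀ Y ∈ Finset.Icc a₂ b₂, R < dP X Y) →
        |ω (fun U => F₁ U * F₂ U) - ω F₁ * ω F₂| ≤
          C * (Finset.Icc a₁ b₁).card * Real.exp (-(m * R))) :
    ∃ W : ((Pl → Fib N l) → ℂ) → ℂ, ∃ K ≥ (0 : ℝ),
      (∀ (F : (Pl → Fib N l) → ℂ) (a b : Pl), CObs F a b → (∀ U, ‖F U‖ ≤ 1) →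
        ∀ (c d : Pl) (R : ℕ), Finset.Icc a b ⊆ Finset.Icc c d →
        (∀ X ∈ Finset.Icc a b, ∀ Y ∉ Finset.Icc c d, R < dP X Y) →
        ‖expectC μ z β (Finset.Icc c d) F - W F‖ ≤
          K * (Finset.Icc a b).card * Real.exp (-(m * R))) ∧
      (∀ (F F' : (Pl → Fib N l) → ℂ) (a b a' b' : Pl), CObs F a b → CObs F' a' b' →
        (∀ U, ‖F U‖ ≤ 1) → (∀ U, ‖F' U‖ ≤ 1) → ∀ R : ℕ,
        (∀ X ∈ Finset.Icc a b, ∀ Y ∈ Finset.Icc a' b', R < dP X Y) →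
        ‖W (fun U => F U * F' U) - W F * W F'‖ ≤
          K * (Finset.Icc a b).card * Real.exp (-(m * R))) ∧
      (∀ (F : (Pl → Fib N l) → ℂ) (a b : Pl), CObs F a b →
        W (fun U => F (refl U)) = W F ∧ ∀ v : Pl, W (fun U => F (shift v U)) = W F) ∧
      (∃ (H : Type) (_ : NormedAddCommGroup H) (_ : InnerProductSpace ℂ H) (_ : CompleteSpace H)
        (T : H →L[ℂ] H) (J : ((Pl → Fib N l) → ℂ) → H), Rec W T J) ∧
      ∀ (H : Type) [NormedAddCommGroup H] [InnerProductSpace ℂ H] [CompleteSpace H]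
        (T : H →L[ℂ] H) (J : ((Pl → Fib N l) → ℂ) → H), Rec W T J →
        T.IsPositive ∧ ‖T‖ ≤ 1 ∧ ‖J fun _ => 1‖ = 1 ∧
        (∀ x, T x = x ↔ ∃ c : ℂ, x = c • J fun _ => 1) ∧
        (∀ w ∈ spectrum ℂ T, w = 1 ∨ ‖w‖ ≤ Real.exp (-m)) ∧
        ∀ (f : (Pl → Fib N l) → ℝ) (a b : Pl) (M : ℝ), Obs f a b → 0 ≤ a.1 →
          (∀ U, f (refl U) = f U) → 0 < ω (fun U => f U * f U) - ω f ^ 2 →
          Real.exp (-(2 * M)) * (ω (fun U => f U * f U) - ω f ^ 2) ≤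
            ω (fun U => f U * f (shift (2, 0) U)) - ω f ^ 2 →
          ∃ w ∈ spectrum ℂ T, w ≠ 1 ∧ Real.exp (-M) ≤ ‖w‖ := by
  have hW : ∀ (F : (Pl → Fib N l) → ℂ) (a b : Pl), CObs F a b → stC μ z β F = stC μ z β F :=
    fun _ _ _ _ => rfl
  refine ⟨stC μ z β, 4 * C, by positivity, ?_, ?_, ?_, exists_rec μ hm hC h1 h2 hW, ?_⟩
  · intro F a b hF hb c d R hs hR
    refine (stC_rate μ hm hC h1 hF hb c d R hs hR).trans ?_
    have : 0 ≤ C * (Finset.Icc a b).card * Real.exp (-(m * R)) := by positivity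
    linarith
  · intro F F' a b a' b' hF hF' hb hb' R hR
    exact stC_cluster μ hm hC h1 h2 hF hF' hb hb' R hR
  · intro F a b hF
    exact ⟨stC_refl μ hm hC h1 hF, fun v => stC_shift μ hm hC h1 hF v⟩
  · intro H _ _ _ T J h
    obtain ⟨p1, p2, p3, p4, p5, p6, p7⟩ := rec_gap μ hm hC h1 h2 hW h
    refine ⟨rec_pos μ hm hC h1 h2 hβ hW h, p2, p4, fun x => ⟨p7 x, ?_⟩, p6, ?_⟩
    · rintro ⟨c, rfl⟩
      rw [map_smul, p3]
    · intro f a b M hf ha hr h3 h4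
      have hff : Obs (fun U => f U * f U) a b := Obs_mul hf hf
      have hfs : Obs (fun U => f U * f (shift (2, 0) U)) (a ⊓ (a + (2, 0))) (b ⊔ (b + (2, 0))) := by
        refine Obs_mul (Obs_mono hf (Finset.Icc_subset_Icc inf_le_left le_sup_left))
          (Obs_mono (Obs_shift hf _) (Finset.Icc_subset_Icc inf_le_right le_sup_right))
      refine rec_upper μ hm hC h1 h2 hW h (Loc.ofObs hf) ha hr ?_ ?_
      · rw [st_obs μ hm hC h1 hff, st_obs μ hm hC h1 hf]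
        exact h3
      · rw [st_obs μ hm hC h1 hff, st_obs μ hm hC h1 hf, st_obs μ hm hC h1 hfs]
        exact h4

end

end Pool.Agent.N984.TW
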