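import Mathlib
import Pool.Agent.N726.TW.Inf
import Pool.Agent.N726.TW.Meas
import Pool.Agent.N984.TW.SysF
import Pool.Agent.N990.Mach.Ratio

/-!
# From the harmonic extension to the infinite volume state
-/

open MeasureTheory Matrix Filter
open scoped Matrix.Norms.Frobenius Topology ENNReal

namespace Pool.Agent.N984.TW

set_option linter.unusedSectionVars false
set_option linter.unusedVariables false

noncomputable section

variable {N l n : ℕ} [NeZero N] [NeZero l]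

/-- The infinite volume state exists and is clustering, with every rate below the rate of the
harmonic extension. -/
theorem Dat.state_of_harm (𝔇 : Dat N l n) [MeasurableSpace (SU N)] [BorelSpace (SU N)]
    (μ : Measure (SU N)) [IsProbabilityMeasure μ] [μ.IsMulLeftInvariant] [μ.IsMulRightInvariant]
    {Ch al : ℝ} (hCh : 1 ≤ Ch) (hal : 0 < al) (hH : 𝔇.Harm 𝔇.D.pos le_rfl Ch al) {m : ℝ}
    (hm : 0 < m) (hmal : m < al) :
    ∃ β₀ ≥ (1 : ℝ), ∀ β ≥ β₀, ∃ C ≥ (0 : ℝ), ∃ ω : ((Pl → Fib N l) → ℝ) → ℝ,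
      (∀ (a b a₁ b₁ : Pl) (F : (Pl → Fib N l) → ℝ) (R : ℕ), Obs F a₁ b₁ →
        Finset.Icc a₁ b₁ ⊆ Finset.Icc a b →
        (∀ X ∈ Finset.Icc a₁ b₁, ∀ Y ∉ Finset.Icc a b, R < dP X Y) →
        |expect μ 𝔇.z β (Finset.Icc a b) F - ω F| ≤
          C * (Finset.Icc a₁ b₁).card * Real.exp (-(m * R))) ∧
      (∀ (a₁ b₁ a₂ b₂ : Pl) (F₁ F₂ : (Pl → Fib N l) → ℝ) (R : ℕ), Obs F₁ a₁ b₁ →
        Obs F₂ a₂ b₂ → (∀ X ∈ Finset.Icc a₁ b₁, ∀ Y ∈ Finset.Icc a₂ b₂, R < dP X Y) →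
        |ω (fun U => F₁ U * F₂ U) - ω F₁ * ω F₂| ≤
          C * (Finset.Icc a₁ b₁).card * Real.exp (-(m * R))) := by
  have hc₀ := 𝔇.D.cpos
  have hr : 0 < 𝔇.c₀ / 16 := by positivity
  have hr₀ : 16 * (𝔇.c₀ / 16) ≤ 𝔇.c₀ := le_of_eq (by ring)
  have hnu := nu_probability 𝔇 μ
  obtain ⟨c, hcal, hc⟩ := 𝔇.exists_sys_gen μ 𝔇.D.pos le_rfl hr hr₀ (nrm_meas 𝔇) (vol_nu 𝔇 μ)
    hCh hal hH
  obtain ⟨β₀, hβ₀, hI⟩ := Pool.Agent.N990.Mach.sharp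
    (Pool.Agent.N990.Mach.ratioAll (Y := EV l n) (V := EV l n) (ν := 𝔇.nu μ) (c := c))
    (m := m) hm.le (by rw [hcal]; exact hmal)
  refine ⟨β₀, hβ₀, fun β hβ => ?_⟩
  have hβ1 : 1 ≤ β := hβ₀.trans hβ
  obtain ⟨C, hC, hInf⟩ := hI β hβ
  obtain ⟨f1, f2⟩ := finite_volume 𝔇 μ 𝔇.D.pos le_rfl hr hr₀ hβ1 hm.le hC.le
    (fun a b hab => by
      obtain ⟨S, e1, e2, e3, e4, e5, -⟩ := hc β hβ1 a b hab
      exact ⟨S, e1, e2, e3, e4, e5⟩) hInf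
  obtain ⟨C', hC'⟩ : ∃ C', C' = 8 * (C + 1) * Real.exp (m * 2) := ⟨_, rfl⟩
  have hC'0 : 0 ≤ C' := by
    rw [hC']
    exact mul_nonneg (mul_nonneg (by norm_num) (by linarith [hC.le])) (Real.exp_pos _).le
  have hCC' : 8 * (C + 1) ≤ C' := by
    rw [hC']
    exact le_mul_of_one_le_right (by linarith [hC.le]) (Real.one_le_exp (by linarith))
  obtain ⟨ω, w1, w2⟩ := infinite_volume (μ := μ) (z := 𝔇.z) (β := β) (m := m) (C := C') hm hC'0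
    (fun a b a₁ b₁ a₂ b₂ F₁ F₂ R h1 h2 h3 h4 h5 =>
      (f1 a b a₁ b₁ a₂ b₂ F₁ F₂ R h1 h2 h3 h4 h5).trans (by gcongr))
    (fun a b a' b' a₁ b₁ F R h1 h2 h3 h4 =>
      (f2 a b a' b' a₁ b₁ F R h1 h2 h3 h4).trans (le_of_eq (by
        have e : -(m * ((R : ℝ) - 2)) = m * 2 + -(m * R) := by ring
        rw [hC', e, Real.exp_add]
        ring)))
  exact ⟨C', hC'0, ω, w1, w2⟩

end

end Pool.Agent.N984.TW
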