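import Mathlib
import Pool.Agent.N984.TW.Core
import Pool.Agent.N726.TW.DatEx
import Pool.Agent.N987.TW.HessE
import Pool.Agent.N990.TW.SpecB

/-!
# The lower bound of the mass with the sharp rate
-/

open MeasureTheory Matrix Filter
open scoped Matrix.Norms.Frobenius Topology ENNReal

namespace Pool.Agent.N984.TW

set_option linter.unusedSectionVars false
set_option linter.unusedVariables false

noncomputable section

variable {N l n : ℕ} [NeZero N] [NeZero l]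

/-- there is a rate between -/
lemma exists_rate {m K : ℝ} (hm : 0 < m) (h : 2 * Real.cosh m - 2 < K) :
    ∃ α : ℝ, m < α ∧ 2 * Real.cosh α - 2 < K := by
  have hc : Continuous fun α : ℝ => 2 * Real.cosh α - 2 :=
    (continuous_const.mul Real.continuous_cosh).sub continuous_const
  have h1 : ∀ᶠ α in 𝓝 m, 2 * Real.cosh α - 2 < K := hc.continuousAt.eventually (gt_mem_nhds h)
  have h2 : ∀ᶠ α in 𝓝[>] m, 2 * Real.cosh α - 2 < K := h1.filter_mono nhdsWithin_le_nhds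
  obtain ⟨α, h3, h4⟩ := (h2.and self_mem_nhdsWithin).exists
  exact ⟨α, h4, h3⟩

/-- **The infinite volume state at weak coupling exists and is clustering, with every rate `m` such
that `2 cosh m - 2 < 4 sin² (π / (N l))`.** -/
theorem sharp_state (hN : 2 ≤ N) {z : ℂ} (hz : IsPrimitiveRoot z N) [MeasurableSpace (SU N)]
    [BorelSpace (SU N)] (μ : Measure (SU N)) [IsProbabilityMeasure μ] [μ.IsMulLeftInvariant]
    [μ.IsMulRightInvariant] {m : ℝ} (hm : 0 < m) (h : 2 * Real.cosh m - 2 < M2 N l) :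
    ∃ β₀ ≥ (1 : ℝ), ∀ β ≥ β₀, ∃ C ≥ (0 : ℝ), ∃ ω : ((Pl → Fib N l) → ℝ) → ℝ,
      (∀ (a b a₁ b₁ : Pl) (F : (Pl → Fib N l) → ℝ) (R : ℕ), Obs F a₁ b₁ →
        Finset.Icc a₁ b₁ ⊆ Finset.Icc a b →
        (∀ X ∈ Finset.Icc a₁ b₁, ∀ Y ∉ Finset.Icc a b, R < dP X Y) →
        |expect μ z β (Finset.Icc a b) F - ω F| ≤
          C * (Finset.Icc a₁ b₁).card * Real.exp (-(m * R))) ∧
      (∀ (a₁ b₁ a₂ b₂ : Pl) (F₁ F₂ : (Pl → Fib N l) → ℝ) (R : ℕ), Obs F₁ a₁ b₁ →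
        Obs F₂ a₂ b₂ → (∀ X ∈ Finset.Icc a₁ b₁, ∀ Y ∈ Finset.Icc a₂ b₂, R < dP X Y) →
        |ω (fun U => F₁ U * F₂ U) - ω F₁ * ω F₂| ≤
          C * (Finset.Icc a₁ b₁).card * Real.exp (-(m * R))) := by
  obtain ⟨α, hmα, hα⟩ := exists_rate hm h
  obtain ⟨n, W, 𝔇, e1, e2, e3, q1, q2, q3, q4, q5, q6, q7⟩ :=
    exists_dat_orth (l := l) hz (Pool.Agent.N990.TW.kap0_pos hα)
  have S : Pool.Agent.N990.TW.Spec 𝔇 (M2 N l) :=
    ⟨Pool.Agent.N990.TW.M2_pos hN, q1, q5, fun om al h => q4 al h om, q2, q3⟩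
  have hz' : IsPrimitiveRoot 𝔇.z N := by rw [e1]; exact hz
  obtain ⟨Ch, hCh, hH⟩ := Pool.Agent.N990.TW.harm_sharp S (hm.trans hmα) hα (le_of_eq e2.symm)
    𝔇.D.pos le_rfl fun fl ξ => 𝔇.hess_QB hz' 𝔇.D.pos le_rfl fl ξ
  have := 𝔇.state_of_harm μ hCh (hm.trans hmα) hH hm hmα
  rw [e1] at this
  exact this

end

end Pool.Agent.N984.TW
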