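import Mathlib
import Pool.Agent.N984.TW.Cx3
import Pool.Agent.N984.TW.SharpLow
import Pool.Agent.N986.SL.Haar

/-!
# The mass gap: assembly
-/

open MeasureTheory Matrix Filter Complex
open scoped Topology ENNReal ComplexConjugate

namespace Pool.Agent.N984.TW

set_option linter.unusedSectionVars false
set_option linter.unusedVariables false

noncomputable section

variable {N l : ℕ} [NeZero N] [NeZero l]

open RP OSI CX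

/-- the relation between the mass and the lowest eigenvalue -/
lemma M2_of_cosh {m₀ : ℝ} (h : Real.cosh m₀ = 1 + 2 * Real.sin (Real.pi / (N * l)) ^ 2) :
    2 * Real.cosh m₀ - 2 = M2 N l := by
  rw [h]
  unfold M2
  push_cast
  ring

lemma massGap_bd {H : Type} [NormedAddCommGroup H] [InnerProductSpace ℂ H] {T : H →L[ℂ] H}
    {m M : ℝ} (h1 : ∀ z ∈ spectrum ℂ T, z = 1 ∨ ‖z‖ ≤ Real.exp (-m))
    (h2 : ∃ z ∈ spectrum ℂ T, z ≠ 1 ∧ Real.exp (-M) ≤ ‖z‖) :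
    m ≤ massGap T ∧ massGap T ≤ M := by
  obtain ⟨z, hz, hz1, hz2⟩ := h2
  have hb : ∀ t ∈ {t : ℝ | ∃ z ∈ spectrum ℂ T, z ≠ 1 ∧ ‖z‖ = t}, t ≤ Real.exp (-m) := by
    rintro t ⟨w, hw, hw1, rfl⟩
    exact (h1 w hw).resolve_left hw1
  have hne : {t : ℝ | ∃ z ∈ spectrum ℂ T, z ≠ 1 ∧ ‖z‖ = t}.Nonempty := ⟨‖z‖, z, hz, hz1, rfl⟩
  have h3 := csSup_le hne hb
  have h4 : Real.exp (-M) ≤ sSup {t : ℝ | ∃ z ∈ spectrum ℂ T, z ≠ 1 ∧ ‖z‖ = t} :=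
    hz2.trans (le_csSup ⟨_, hb⟩ ⟨z, hz, hz1, rfl⟩)
  have h5 : 0 < sSup {t : ℝ | ∃ z ∈ spectrum ℂ T, z ≠ 1 ∧ ‖z‖ = t} := (Real.exp_pos _).trans_le h4
  unfold massGap
  constructor
  · rw [le_neg, Real.log_le_iff_le_exp h5]
    exact h3
  · rw [neg_le, Real.le_log_iff_exp_le h5]
    exact h4

variable [MeasurableSpace (SU N)] [BorelSpace (SU N)]

/-- **The mass gap of `SU(N)` lattice Yang–Mills theory on `ℤ² × (ℤ/l)²` with 't Hooft flux.** -/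
theorem twisted (hN : 2 ≤ N) {z : ℂ} (hz : IsPrimitiveRoot z N) (μ : Measure (SU N))
    [IsProbabilityMeasure μ] [μ.IsMulLeftInvariant] [μ.IsMulRightInvariant] {m₀ : ℝ} (hm₀ : 0 < m₀)
    (h : Real.cosh m₀ = 1 + 2 * Real.sin (Real.pi / (N * l)) ^ 2) {ε : ℝ} (hε : 0 < ε)
    (hε' : ε < m₀)
    (hup : ∃ (R : ℤ) (F : (Pl → Fib N l) → ℝ), Obs F (0, -R) (0, R) ∧ (∀ U, F (refl U) = F U) ∧
      ∃ κ > (0 : ℝ), ∃ β₀ ≥ (1 : ℝ), ∀ β ≥ β₀, ∀ (C : ℝ) (ω : ((Pl → Fib N l) → ℝ) → ℝ),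
      0 ≤ C → (∀ (a b a₁ b₁ : Pl) (F : (Pl → Fib N l) → ℝ) (R : ℕ), Obs F a₁ b₁ →
        Finset.Icc a₁ b₁ ⊆ Finset.Icc a b →
        (∀ X ∈ Finset.Icc a₁ b₁, ∀ Y ∉ Finset.Icc a b, R < dP X Y) →
        |expect μ z β (Finset.Icc a b) F - ω F| ≤
          C * (Finset.Icc a₁ b₁).card * Real.exp (-((m₀ - ε) * R))) →
      κ / β ≤ ω (fun U => F U * F U) - ω F ^ 2 ∧
      Real.exp (-(2 * (m₀ + ε))) * (ω (fun U => F U * F U) - ω F ^ 2) ≤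
        ω (fun U => F U * F (shift (2, 0) U)) - ω F * ω (fun U => F (shift (2, 0) U))) :
    ∃ β₀ : ℝ, ∀ β ≥ β₀, ∃ (ω : ((Pl → Fib N l) → ℂ) → ℂ) (C : ℝ), 0 ≤ C ∧
      (∀ (F : (Pl → Fib N l) → ℂ) (a b : Pl), CObs F a b → (∀ U, ‖F U‖ ≤ 1) →
        ∀ (c d : Pl) (R : ℕ), Finset.Icc a b ⊆ Finset.Icc c d →
        (∀ X ∈ Finset.Icc a b, ∀ Y ∉ Finset.Icc c d, R < dP X Y) →
        ‖expectC μ z β (Finset.Icc c d) F - ω F‖ ≤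
          C * (Finset.Icc a b).card * Real.exp (-((m₀ - ε) * R))) ∧
      (∀ (F F' : (Pl → Fib N l) → ℂ) (a b a' b' : Pl), CObs F a b → CObs F' a' b' →
        (∀ U, ‖F U‖ ≤ 1) → (∀ U, ‖F' U‖ ≤ 1) → ∀ R : ℕ,
        (∀ X ∈ Finset.Icc a b, ∀ Y ∈ Finset.Icc a' b', R < dP X Y) →
        ‖ω (fun U => F U * F' U) - ω F * ω F'‖ ≤
          C * (Finset.Icc a b).card * Real.exp (-((m₀ - ε) * R))) ∧
      (∀ (F : (Pl → Fib N l) → ℂ) (a b : Pl), CObs F a b →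
        ω (fun U => F (refl U)) = ω F ∧ ∀ v : Pl, ω (fun U => F (shift v U)) = ω F) ∧
      (∃ (H : Type) (_ : NormedAddCommGroup H) (_ : InnerProductSpace ℂ H) (_ : CompleteSpace H)
        (T : H →L[ℂ] H) (J : ((Pl → Fib N l) → ℂ) → H), Rec ω T J) ∧
      ∀ (H : Type) [NormedAddCommGroup H] [InnerProductSpace ℂ H] [CompleteSpace H]
        (T : H →L[ℂ] H) (J : ((Pl → Fib N l) → ℂ) → H), Rec ω T J →
        T.IsPositive ∧ ‖T‖ ≤ 1 ∧ ‖J fun _ => 1‖ = 1 ∧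
        (∀ x, T x = x ↔ ∃ c : ℂ, x = c • J fun _ => 1) ∧ |massGap T - m₀| ≤ ε := by
  have hm : 0 < m₀ - ε := by linarith
  have hlt : 2 * Real.cosh (m₀ - ε) - 2 < M2 N l := by
    rw [← M2_of_cosh h]
    have : Real.cosh (m₀ - ε) < Real.cosh m₀ := by
      rw [Real.cosh_lt_cosh, abs_of_pos hm, abs_of_pos hm₀]
      linarith
    linarith
  obtain ⟨b1, hb1, h1⟩ := sharp_state (l := l) hN hz μ hm hlt
  obtain ⟨R, F, hF, hFr, κ, hκ, b2, hb2, h2⟩ := hup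
  refine ⟨max b1 b2, fun β hβ => ?_⟩
  have hβ1 : b1 ≤ β := (le_max_left _ _).trans hβ
  have hβ2 : b2 ≤ β := (le_max_right _ _).trans hβ
  have hβ0 : 0 < β := lt_of_lt_of_le (by linarith) hβ1
  obtain ⟨C, hC, ω, w1, w2⟩ := h1 β hβ1
  obtain ⟨W, K, hK, c1, c2, c3, c4, c5⟩ := cx_state μ hβ0.le hm hC w1 w2
  refine ⟨W, K, hK, c1, c2, c3, c4, fun H _ _ _ T J hR => ?_⟩
  obtain ⟨p1, p2, p3, p4, p5, p6⟩ := c5 H T J hR
  refine ⟨p1, p2, p3, p4, ?_⟩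
  obtain ⟨u1, u2⟩ := h2 β hβ2 C ω hC w1
  have hs : ω (fun U => F (shift (2, 0) U)) = ω F := omega_shift μ hm hC w1 (2, 0) hF
  rw [hs, ← pow_two] at u2
  have h6 := massGap_bd p5 (p6 F _ _ (m₀ + ε) hF le_rfl hFr
    ((div_pos hκ hβ0).trans_le u1) u2)
  rw [abs_le]
  constructor <;> linarith [h6.1, h6.2]

end

end Pool.Agent.N984.TW
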